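import Pool.Agent.Lib.MP_b7d179_gt.T.Defs

/-! Balls, towers of basic balls, gluing trees and cuts. -/

namespace Pool.Agent.Lib.MP_b7d179_gt

open Set Metric

variable {Z : Type*} [MetricSpace Z]

/-- `B` is a 3-ball with rim `S` (the model is the cylinder). -/
def Ball (B S : Set Z) : Prop :=
  ∃ f : ℂ × ℝ → Z, Emb f (closedBall 0 1) ∧ f '' closedBall 0 1 = B ∧ f '' sphere 0 1 = S

/-- A move of `B` that fixes a neighbourhood of `K`. -/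
def Mv (K : Set Z) (h : Z → Z) (B : Set Z) : Prop :=
  Emb h B ∧ (∃ U, IsOpen U ∧ K ∩ B ⊆ U ∧ ∀ x ∈ U ∩ B, h x = x) ∧ ∀ x ∈ B, h x ∈ K → x ∈ K

/-- `B` with rim `S` is the union of `B1`, `B2` with rims `S1`, `S2` along the disc `D`. -/
structure Gl (B S B1 S1 B2 S2 D C : Set Z) : Prop where
  d : Disc D C
  i : B1 ∩ B2 = D
  s1 : D ⊆ S1
  s2 : D ⊆ S2
  u : B = B1 ∪ B2
  r : S = (S1 ∪ S2) \ (D \ C)

/-- A disc with `K`-free rim that meets `K`. -/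
structure KD (K W C : Set Z) : Prop where
  d : Disc W C
  c : Disjoint C K
  k : (K ∩ W).Nonempty

/-- Data of a tower: feet and basic balls, indexed. -/
structure Tw (Z : Type*) [MetricSpace Z] where
  K : Set Z
  φ : Type
  β : Type
  lf : φ → ℕ
  A : φ → Set Z
  C : φ → Set Z
  J : φ → Set Z
  sub : φ → Set φ
  lv : β → ℕ
  B : β → Set Z
  S : β → Set Z
  F : β → Set φ
  ch : β → Set β

variable (σ : Tw Z)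

/-- Balls built from basic balls, with boundary feet `F` and leaves `V`; moves are allowed when the
flag is true. -/
inductive Tree (mv : Bool) : Set Z → Set Z → Set σ.φ → Set σ.β → Prop
  | leaf (v : σ.β) : Tree mv (σ.B v) (σ.S v) (σ.F v) {v}
  | move {B S F V} {h : Z → Z} : mv = true → Tree mv B S F V → Mv σ.K h B →
      (∀ f ∈ F, ∀ x ∈ σ.A f, h x = x) → Tree mv (h '' B) (h '' S) F V
  | glue0 {B S B1 S1 W SW D C F V} : Tree mv B1 S1 F V → Ball W SW → Disjoint W σ.K →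
      Gl B S B1 S1 W SW D C → (∀ f ∈ F, Disjoint (σ.A f) D) → Tree mv B S F V
  | glue1 {B S B1 S1 B2 S2 D C F F1 V1 F2 V2} : Tree mv B1 S1 F1 V1 → Tree mv B2 S2 F2 V2 →
      Gl B S B1 S1 B2 S2 D C → (∀ f ∈ F1 ∪ F2, σ.A f ⊆ D \ C ∨ Disjoint (σ.A f) D) →
      (∀ f, σ.A f ⊆ D → (f ∈ F1 ↔ f ∈ F2)) → (∃ f ∈ F1, σ.A f ⊆ D) → Disjoint V1 V2 →
      (∀ f, f ∈ F ↔ f ∈ F1 ∪ F2 ∧ Disjoint (σ.A f) D) → Tree mv B S F (V1 ∪ V2)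

/-- The class of good balls. -/
inductive G : Set Z → Set Z → Prop
  | leaf (v : σ.β) : G (σ.B v) (σ.S v)
  | move {B S} {h : Z → Z} : G B S → Mv σ.K h B → G (h '' B) (h '' S)
  | glue0 {B S B1 S1 W SW D C} : G B1 S1 → Ball W SW → Disjoint W σ.K →
      Gl B S B1 S1 W SW D C → G B S
  | glue1 {B S B1 S1 B2 S2 D C} : G B1 S1 → G B2 S2 → Gl B S B1 S1 B2 S2 D C →
      KD σ.K D C → G B S

/-- The discs `t.1` with rims `t.2` are cut off by good balls `L t`, with good rest `R`. -/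
structure SolD (B S : Set Z) (T : Set (Set Z × Set Z)) (R SR : Set Z)
    (L D : Set Z × Set Z → Set Z) : Prop where
  fin : T.Finite
  g : G σ R SR
  gl : ∀ t ∈ T, G σ (L t) (t.1 ∪ D t)
  dt : ∀ t ∈ T, Disc t.1 t.2
  dd : ∀ t ∈ T, KD σ.K (D t) t.2
  ls : ∀ t ∈ T, L t ∩ S = t.1
  lr : ∀ t ∈ T, L t ∩ R = D t
  ds : ∀ t ∈ T, D t ∩ S = t.2
  dj : T.PairwiseDisjoint L
  u : B = R ∪ ⋃ t ∈ T, L t
  r : SR = (S \ ⋃ t ∈ T, t.1) ∪ ⋃ t ∈ T, D t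

def Sol (B S : Set Z) (T : Set (Set Z × Set Z)) : Prop := ∃ R SR L D, SolD σ B S T R SR L D

/-- The discs of `T` are neighbourhoods in `S` of the components of `X` with no other point of
`K`. -/
structure Fit (K S X : Set Z) (T : Set (Set Z × Set Z)) : Prop where
  fin : T.Finite
  d : ∀ t ∈ T, Disc t.1 t.2
  s : ∀ t ∈ T, t.1 ⊆ S
  c : ∀ t ∈ T, IsConnected (X ∩ t.1)
  kc : ∀ t ∈ T, Disjoint t.2 K
  k : ∀ t ∈ T, K ∩ t.1 ⊆ X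
  dj : T.PairwiseDisjoint Prod.fst
  x : X ⊆ ⋃ t ∈ T, t.1 \ t.2

def SolU (B S X : Set Z) : Prop := ∃ T, Fit σ.K S X T ∧ Sol σ B S T

/-- A continuum in `S` with arbitrarily thin disc neighbourhoods. -/
def NS (S Y : Set Z) : Prop :=
  IsCompact Y ∧ IsConnected Y ∧ Y ⊆ S ∧
    ∀ U, IsOpen U → Y ⊆ U → ∃ T C, Disc T C ∧ T ⊆ S ∩ U ∧ Y ⊆ T \ C

/-- A finite disjoint union of such continua. -/
def NSU (S X : Set Z) : Prop :=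
  ∃ 𝒴 : Set (Set Z), 𝒴.Finite ∧ 𝒴.PairwiseDisjoint id ∧ (∀ Y ∈ 𝒴, NS S Y) ∧ X = ⋃₀ 𝒴

/-- One dumbbell. -/
structure Bell (K W C W' C' a : Set Z) (p q : Z) : Prop where
  w : KD K W C
  w' : KD K W' C'
  dj : Disjoint W W'
  arc : Arc a p q
  k : Disjoint a K
  i : a ∩ W = {p}
  i' : a ∩ W' = {q}
  m : p ∈ C
  m' : q ∈ C'

/-- `X` is a finite disjoint union of dumbbells in `S` whose discs lie in `M`. -/
def Dumb (K S M X : Set Z) : Prop :=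
  ∃ (ι : Type) (_ : Finite ι) (W C W' C' a : ι → Set Z) (p q : ι → Z),
    (∀ i, Bell K (W i) (C i) (W' i) (C' i) (a i) (p i) (q i) ∧ W i ∪ a i ∪ W' i ⊆ S ∧
      W i ∪ W' i ⊆ M) ∧
    Pairwise (Function.onFun Disjoint fun i => W i ∪ a i ∪ W' i) ∧ X = ⋃ i, W i ∪ a i ∪ W' i

/-- `Λ` is a disjoint union of lollipops in the disc `D` with rim `C`, one at each point of `E`,
with discs in `M`, leaving a point of `K` in `D`. -/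
def Lols (K D C M E Λ : Set Z) : Prop :=
  E.Finite ∧ E ⊆ C ∧ ∃ (W w η : Z → Set Z) (x : Z → Z),
    (∀ e ∈ E, Lol (η e) (W e) (w e) e (x e) ∧ KD K (W e) (w e) ∧ W e ⊆ M ∩ (D \ C) ∧
      Disjoint (η e) K ∧ η e ⊆ D ∧ η e ∩ C = {e}) ∧
    (E.PairwiseDisjoint fun e => W e ∪ η e) ∧ Λ = (⋃ e ∈ E, W e ∪ η e) ∧ ((K ∩ D) \ Λ).Nonempty

/-- `X` meets the common rim `C` in finitely many points and crosses it there. -/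
def Crs (S1 S2 D C X : Set Z) : Prop :=
  (X ∩ C).Finite ∧ ∀ e ∈ X ∩ C, e ∈ closure ((X ∩ S1) \ D) ∧ e ∈ closure ((X ∩ S2) \ D)

/-- `X` is a finite disjoint union of essential arcs in `S` that meet the feet of `F` exactly in
their ends, the ends on the foot `k` being the points of `E k`. -/
def Ess (S : Set Z) (F : Set σ.φ) (E : σ.φ → Set Z) (X : Set Z) : Prop :=
  ∃ (ι : Type) (_ : Finite ι) (a : ι → Set Z) (p q : ι → Z) (f g : ι → σ.φ),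
    (∀ i, Arc (a i) (p i) (q i) ∧ a i ⊆ S ∧ f i ∈ F ∧ g i ∈ F ∧ p i ∈ σ.J (f i) ∧ q i ∈ σ.J (g i) ∧
      (a i ∩ ⋃ k ∈ F, σ.A k) = {p i, q i} ∧
      (f i = g i → ∃ k ∈ F, ∃ l ∈ F, k ≠ f i ∧ l ≠ f i ∧ ∀ Y, IsPreconnected Y →
        Y ⊆ S \ (σ.A (f i) ∪ a i) → Disjoint Y (σ.A k) ∨ Disjoint Y (σ.A l))) ∧
    Pairwise (Function.onFun Disjoint a) ∧ X = (⋃ i, a i) ∧ ∀ k ∈ F, E k = X ∩ σ.A k

/-- The two axioms that the lemmas on cuts need. -/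
structure Tw.Ok0 : Prop where
  kcl : IsClosed σ.K
  ball : ∀ v, Ball (σ.B v) (σ.S v)

/-- The axioms of a tower. -/
structure Tw.Ok : Prop extends σ.Ok0 where
  foot : ∀ f, KD σ.K (σ.A f) (σ.C f)
  land : ∀ f, ∃ a p q, Arc a p q ∧ a ⊆ σ.C f ∧ σ.J f = a \ {p, q}
  fdj : ∀ f g, σ.lf f = σ.lf g → f ≠ g → Disjoint (σ.A f) (σ.A g)
  sfin : ∀ f, (σ.sub f).Finite
  stwo : ∀ f, (σ.sub f).Nontrivial
  sin : ∀ f, ∀ g ∈ σ.sub f, σ.lf g = σ.lf f + 1 ∧ σ.A g ⊆ σ.A f \ σ.C f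
  scov : ∀ f, σ.K ∩ σ.A f ⊆ ⋃ g ∈ σ.sub f, σ.A g
  ffin : ∀ v, (σ.F v).Finite
  fin : ∀ v, ∀ f ∈ σ.F v, σ.lf f = σ.lv v ∧ σ.A f ⊆ σ.S v
  fcov : ∀ v, σ.K ∩ σ.S v ⊆ ⋃ f ∈ σ.F v, σ.A f
  core : ∀ v, ∃ x ∈ σ.K ∩ σ.B v, ∀ f, σ.lf f = σ.lv v → x ∉ σ.A f
  chl : ∀ v, ∀ w ∈ σ.ch v, σ.lv w = σ.lv v + 1
  chd : ∀ v w, σ.lv v = σ.lv w → v ≠ w → Disjoint (σ.ch v) (σ.ch w)
  mesh : ∀ ε > 0, ∃ m, (∀ v, m ≤ σ.lv v → ∀ x ∈ σ.B v, ∀ y ∈ σ.B v, dist x y < ε) ∧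
    ∀ f, m ≤ σ.lf f → ∀ x ∈ σ.A f, ∀ y ∈ σ.A f, dist x y < ε
  s2 : ∀ v, Tree σ false (σ.B v) (σ.S v) (⋃ f ∈ σ.F v, σ.sub f) (σ.ch v)
  one : ∀ v, ∀ w ∈ σ.ch v, (σ.F w ∩ ⋃ f ∈ σ.F v, σ.sub f).Subsingleton
  cap : ∀ v, ∀ w ∈ σ.ch v, ∀ g ∈ σ.F w ∩ ⋃ f ∈ σ.F v, σ.sub f, SolU σ (σ.B w) (σ.S w) (σ.A g)
  bud : ∀ v, ∃ w ∈ σ.ch v, ∃ E C, Disjoint E σ.K ∧ Sol σ (σ.B w) (σ.S w) {(E, C)}
  s5 : ∀ (m : ℕ) (V : Set σ.β) (E : σ.φ → Set Z) (X : σ.β → Set Z), V.Finite →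
    (∀ v ∈ V, σ.lv v = m ∧ Ess σ (σ.S v) (σ.F v) E (X v)) →
    ∃ Λ : σ.φ → Set Z, (∀ v ∈ V, ∀ f ∈ σ.F v, Lols σ.K (σ.A f) (σ.C f) univ (E f) (Λ f)) ∧
      ∀ v ∈ V, SolU σ (σ.B v) (σ.S v) (X v ∪ ⋃ f ∈ σ.F v, Λ f)

/-- Good balls cut into good balls of diameter less than `ε`. -/
inductive Part (ε : ℝ) : Set Z → Set Z → Prop
  | small {B S} : G σ B S → (∀ x ∈ B, ∀ y ∈ B, dist x y < ε) → Part ε B S
  | glue0 {B S B1 S1 W SW D C} : Part ε B1 S1 → Ball W SW → Disjoint W σ.K →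
      Gl B S B1 S1 W SW D C → Part ε B S
  | glue1 {B S B1 S1 B2 S2 D C} : Part ε B1 S1 → Part ε B2 S2 → Gl B S B1 S1 B2 S2 D C →
      KD σ.K D C → Part ε B S

/-- A disc that meets `K` in a Cantor set covered by small discs. -/
structure Can (K D C : Set Z) : Prop where
  kd : KD K D C
  perf : ∀ x ∈ K ∩ D, ∀ ε > 0, ∃ y ∈ K ∩ D, y ≠ x ∧ dist y x < ε
  cov : ∀ ε > 0, ∃ t : Set (Set Z × Set Z), Holes (D \ C) t Prod.fst Prod.snd ∧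
    (∀ j ∈ t, KD K j.1 j.2 ∧ ∀ x ∈ j.1, ∀ y ∈ j.1, dist x y < ε) ∧ K ∩ D ⊆ ⋃ j ∈ t, j.1

/-- A chain of discs on alternating sides, each glued to the earlier ones along one bite; `M` is
the union without the open bites. -/
inductive Chn (K : Set Z) : Set (Bool × Set Z × Set Z) → Set Z → Prop
  | one (x : Bool × Set Z × Set Z) : Chn K {x} x.2.1
  | add {A M β c} (x : Bool × Set Z × Set Z) : Chn K A M → x ∉ A → KD K β c →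
      β = (x.2.1 ∩ ⋃ y ∈ A, ⋃ _ : y.1 ≠ x.1, y.2.1) → β ⊆ M →
      Disjoint (β \ c) (x.2.2 ∪ ⋃ y ∈ A, y.2.2) → Chn K (insert x A) ((M ∪ x.2.1) \ (β \ c))

/-- The discs `T false`, `T true` on the two sides of `D` fit together to the discs `T'` in `S`. -/
structure Splice (K D C S : Set Z) (T : Bool → Set (Set Z × Set Z)) (T' : Set (Set Z × Set Z))
    (A : Set Z × Set Z → Set (Bool × Set Z × Set Z)) : Prop where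
  e1 : (D ∩ ⋃ t ∈ T false, t.1) = D ∩ ⋃ t ∈ T true, t.1
  e2 : (D ∩ ⋃ t ∈ T false, t.2) = D ∩ ⋃ t ∈ T true, t.2
  d0 : KD K ((D \ ⋃ t ∈ T false, t.1) ∪ (D ∩ ⋃ t ∈ T false, t.2))
    ((C \ ⋃ t ∈ T false, t.1) ∪ (D ∩ ⋃ t ∈ T false, t.2))
  mem : ∀ t ∈ T', ∀ y ∈ A t, y.2 ∈ T y.1
  cov : ∀ b, ∀ u ∈ T b, ∃ t ∈ T', (b, u) ∈ A t
  dj : ∀ t ∈ T', ∀ t' ∈ T', t ≠ t' → ∀ y ∈ A t, ∀ y' ∈ A t', Disjoint y.2.1 y'.2.1
  ch : ∀ t ∈ T', ∃ M, Chn K (A t) M ∧ t.1 ⊆ M ∧ M ⊆ t.1 ∪ ⋃ y ∈ A t, y.2.2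
  t1 : ∀ t ∈ T', t.1 = S ∩ ⋃ y ∈ A t, y.2.1
  t2 : ∀ t ∈ T', t.2 = S ∩ ⋃ y ∈ A t, y.2.2

end Pool.Agent.Lib.MP_b7d179_gt
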