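import Pool.Agent.Lib.MP_b7d179_gt.U.JSp2

/-! A chain of cells is a disc and a chain of bites. -/

namespace Pool.Agent.Lib.MP_b7d179_gt

open Set Metric

variable {Z Z' : Type*} [MetricSpace Z] [MetricSpace Z']

variable {K D C X Λ : Set Z} {O : Bool → Set Z} {l I I' g β R : Z → Set Z} {p q : Z → Z}
  {κ : Type*} {J : Set κ} {s : κ → Bool} {Q N ν : κ → Set Z} {n : ℕ} {c : ℕ → κ} {e : ℕ → Z}

/-- the union of the first sets `A j` without the first sets `b j` -/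
def jsp3U (A b : ℕ → Set Z) (m : ℕ) : Set Z := (⋃ j ≤ m, A j) \ ⋃ j < m, b j

omit [MetricSpace Z] in
theorem jsp3_mem {A b : ℕ → Set Z} {m : ℕ} {z : Z} :
    z ∈ jsp3U A b m ↔ (∃ j ≤ m, z ∈ A j) ∧ ∀ j < m, z ∉ b j := by
  simp [jsp3U]

omit [MetricSpace Z] in
theorem jsp3_zero (A b : ℕ → Set Z) : jsp3U A b 0 = A 0 := by
  simp [jsp3U]

omit [MetricSpace Z] in
theorem jsp3_succ {A b : ℕ → Set Z} {m : ℕ} (h : ∀ j < m, Disjoint (b j) (A (m + 1))) :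
    jsp3U A b (m + 1) = (jsp3U A b m ∪ A (m + 1)) \ b m := by
  ext z
  simp only [mem_sdiff, mem_union, jsp3_mem]
  refine ⟨fun ⟨⟨j, hj, k⟩, a⟩ => ⟨?_, a m m.lt_succ_self⟩, fun ⟨k, a⟩ => ⟨?_, fun j hj => ?_⟩⟩
  · rcases Nat.le_succ_iff.1 hj with hj | rfl
    · exact .inl ⟨⟨j, hj, k⟩, fun i hi => a i (Nat.lt_succ_of_lt hi)⟩
    · exact .inr k
  · exact k.elim (fun k => k.1.imp fun j o => ⟨Nat.le_succ_of_le o.1, o.2⟩) fun k => ⟨_, le_rfl, k⟩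
  · rcases Nat.lt_succ_iff_lt_or_eq.1 hj with hj | rfl
    · exact k.elim (fun k => k.2 j hj) fun k o => disjoint_left.1 (h j hj) o k
    · exact a

omit [MetricSpace Z] in
theorem Run.jsp3_e (h : Run C J s Q n c e) {j : ℕ} (hj : j < n) :
    e (j + 1) ∈ Q (c j) ∩ C ∧ e (j + 1) ∈ Q (c (j + 1)) ∩ C :=
  have k := (h.alt j hj).2.1.ge rfl
  ⟨⟨k.1, (h.alt j hj).2.2⟩, k.2, (h.alt j hj).2.2⟩

omit [MetricSpace Z] in
theorem Run.jsp3_end (h : Run C J s Q n c e) {j : ℕ} (hj : j ≤ n) {x : Z} (hx : x ∈ Q (c j) ∩ C) :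
    ∃ k < n, x = e (k + 1) := by
  rcases h.ends j hj x hx with ⟨a, b⟩ | ⟨a, b⟩
  · obtain ⟨k, rfl⟩ := Nat.exists_eq_succ_of_ne_zero a.ne'
    exact ⟨k, hj, b⟩
  · exact ⟨j, a, b⟩

theorem Bt.jsp3 {E : Set Z} (bt : Bt K D C E Λ l I I' g β R p q) {x : Z} (hx : x ∈ E) :
    I x ⊆ β x ∧ g x ⊆ β x ∧ β x ⊆ D ∧ β x ∩ C = I x ∧ Arc (I x) (p x) (q x) :=
  have k := bt.cut x hx
  ⟨subset_union_left.trans k.d1.rim_sub, subset_union_right.trans k.d1.rim_sub, k.sub1,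
    k.inter_rim, k.two.a1⟩

theorem Th.jsp3 (th : Th (O false) (O true) D C) (i : Bool) :
    O i ∩ O (!i) = C ∧ O i ∩ D = C := by
  cases i
  · exact ⟨th.i12, th.i1⟩
  · exact ⟨th.symm.i12, th.i2⟩

theorem Cells.jsp3 (ce : Cells K O C X I J s Q N ν) {a : κ} (ha : a ∈ J) :
    Q a ∩ C ⊆ X ∩ C ∧ ∀ x ∈ Q a ∩ C, I x ⊆ N a ∧ I x ⊆ ν a :=
  ⟨fun _ hz => ⟨ce.x.ge (mem_biUnion ha hz.1), hz.2⟩, fun _ hx =>
    ⟨fun _ hz => ((ce.nc a ha).ge (mem_biUnion hx hz)).1,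
      fun _ hz => ce.rim a ha ((ce.nc a ha).ge (mem_biUnion hx hz))⟩⟩

theorem Run.jsp3_far (th : Th (O false) (O true) D C) (bt : Bt K D C (X ∩ C) Λ l I I' g β R p q)
    (ce : Cells K O C X I J s Q N ν) (h : Run C J s Q n c e) {j k : ℕ} (hj : j + 1 < k)
    (hk : k ≤ n) : Disjoint (cellT C g β (Q (c j)) (N (c j)) (ν (c j))).1
      (cellT C g β (Q (c k)) (N (c k)) (ν (c k))).1 :=
  cell_dj th bt ce (h.mem j (by omega)) (h.mem k hk) (h.far j k hj hk)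

/-- two neighbours of the chain meet in one bite -/
theorem Run.jsp3_next (th : Th (O false) (O true) D C) (bt : Bt K D C (X ∩ C) Λ l I I' g β R p q)
    (ce : Cells K O C X I J s Q N ν) (h : Run C J s Q n c e) {j : ℕ} (hj : j < n) :
    (cellT C g β (Q (c j)) (N (c j)) (ν (c j))).1 ∩
      (cellT C g β (Q (c (j + 1))) (N (c (j + 1))) (ν (c (j + 1)))).1 = β (e (j + 1)) := by
  have m := h.mem j hj.le
  have m' := h.mem (j + 1) hj
  obtain ⟨a1, -, -, -, a2, -⟩ := cell_traces th bt ce m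
  obtain ⟨b1, -, -, -, b2, -⟩ := cell_traces th bt ce m'
  refine subset_antisymm (fun z hz => ?_) fun z hz =>
    ⟨.inr (mem_biUnion (h.jsp3_e hj).1 hz), .inr (mem_biUnion (h.jsp3_e hj).2 hz)⟩
  have d : z ∈ D := (a2 hz.1).elim (fun u => (b2 hz.2).elim (fun v => th.d.rim_sub
    ((th.jsp3 _).1.le ⟨u, (h.alt j hj).1 ▸ v⟩)) id) id
  obtain ⟨x, hx, u⟩ := mem_iUnion₂.1 (a1.le ⟨hz.1, d⟩)
  obtain ⟨y, hy, v⟩ := mem_iUnion₂.1 (b1.le ⟨hz.2, d⟩)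
  obtain rfl : x = y := bt.dj.elim_set ((ce.jsp3 m).1 hx) ((ce.jsp3 m').1 hy) z u v
  exact ((h.alt j hj).2.1.le ⟨hx.1, hy.1⟩ : x = e (j + 1)) ▸ u

theorem Run.disc (th : Th (O false) (O true) D C) (bt : Bt K D C (X ∩ C) Λ l I I' g β R p q)
    (ce : Cells K O C X I J s Q N ν) (h : Run C J s Q n c e) :
    Disc (⋃ j ≤ n, N (c j)) (⋃ j ≤ n, (ν (c j) \ C) ∪ ⋃ x ∈ Q (c j) ∩ C, {p x, q x}) := by
  have eX : ∀ j < n, e (j + 1) ∈ X ∩ C := fun j hj => (ce.jsp3 (h.mem j hj.le)).1 (h.jsp3_e hj).1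
  have i1 := fun j (hj : j < n) => (ce.jsp3 (h.mem j hj.le)).2 _ (h.jsp3_e hj).1
  have i2 := fun j (hj : j < n) => (ce.jsp3 (h.mem (j + 1) hj)).2 _ (h.jsp3_e hj).2
  have far : ∀ j k, j < k → k < n → Disjoint (N (c j)) (N (c (k + 1))) := fun j k a b =>
    (h.jsp3_far th bt ce (Nat.succ_lt_succ a) b).mono subset_union_left subset_union_left
  have key : ∀ m ≤ n, Disc (⋃ j ≤ m, N (c j)) (jsp3U (fun j => ν (c j))
      (fun j => I (e (j + 1)) \ {p (e (j + 1)), q (e (j + 1))}) m) := fun m hm => by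
    induction m with
    | zero => simpa [jsp3_zero] using ce.disc _ (h.mem 0 hm)
    | succ m ih =>
      have d := ce.disc _ (h.mem (m + 1) hm)
      rw [biUnion_le_succ, jsp3_succ fun j hj => (far j m hj hm).mono
        (sdiff_subset.trans (i1 j (hj.trans hm)).1) d.rim_sub]
      refine (ih (Nat.le_of_succ_le hm)).glue' d (bt.jsp3 (eX m hm)).2.2.2.2
        (subset_antisymm ?_ fun z hz => ⟨mem_biUnion (le_refl m) ((i1 m hm).1 hz), (i2 m hm).1 hz⟩)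
        (fun z hz => jsp3_mem.2 ⟨⟨m, le_rfl, (i1 m hm).2 hz⟩, fun j hj o => disjoint_left.1
          (far j m hj hm) ((i1 j (hj.trans hm)).1 o.1) ((i2 m hm).1 hz)⟩) (i2 m hm).2
      rintro z ⟨h0, hz'⟩
      obtain ⟨j, hj, hz⟩ := mem_iUnion₂.1 h0
      obtain rfl : j = m := by_contra fun o =>
        disjoint_left.1 (far j m (lt_of_le_of_ne hj o) hm) hz hz'
      exact (bt.jsp3 (eX j hm)).2.2.2.1.le ⟨(h.jsp3_next th bt ce hm).le ⟨.inl hz, .inl hz'⟩,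
        (th.jsp3 _).1.le ⟨ce.sub _ (h.mem j (Nat.le_of_succ_le hm)) hz,
          (h.alt j hm).1 ▸ ce.sub _ (h.mem (j + 1) hm) hz'⟩⟩
  convert key n le_rfl using 1
  refine subset_antisymm (iUnion₂_subset fun j hj z hz => jsp3_mem.2 ?_) fun z hz => ?_
  · rcases hz with hz | hz
    · exact ⟨⟨j, hj, hz.1⟩, fun k hk o => hz.2 ((bt.jsp3 (eX k hk)).2.2.2.1.ge o.1).2⟩
    · obtain ⟨x, hx, hz⟩ := mem_iUnion₂.1 hz
      have xX := (ce.jsp3 (h.mem j hj)).1 hx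
      have zI := (bt.jsp3 xX).2.2.2.2.ends hz
      exact ⟨⟨j, hj, ((ce.jsp3 (h.mem j hj)).2 x hx).2 zI⟩, fun k hk o => o.2
        (bt.dj.elim_set xX (eX k hk) z ((bt.jsp3 xX).1 zI) ((bt.jsp3 (eX k hk)).1 o.1) ▸ hz)⟩
  · obtain ⟨⟨j, hj, a⟩, b⟩ := jsp3_mem.1 hz
    refine mem_biUnion hj ((em (z ∈ C)).symm.imp (fun o => ⟨a, o⟩) fun o => ?_)
    obtain ⟨x, hx, u⟩ := mem_iUnion₂.1
      ((ce.nc _ (h.mem j hj)).le ⟨(ce.disc _ (h.mem j hj)).rim_sub a, o⟩)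
    obtain ⟨k, hk, rfl⟩ := h.jsp3_end hj hx
    exact mem_biUnion hx (by_contra fun v => b k hk ⟨u, v⟩)

theorem Run.chn (th : Th (O false) (O true) D C) (bt : Bt K D C (X ∩ C) Λ l I I' g β R p q)
    (ce : Cells K O C X I J s Q N ν) (h : Run C J s Q n c e) :
    ∃ M, Chn K ((fun j => (s (c j), cellT C g β (Q (c j)) (N (c j)) (ν (c j)))) '' {j | j ≤ n}) M ∧
      (⋃ j ≤ n, N (c j)) ⊆ M ∧
      M ⊆ (⋃ j ≤ n, N (c j)) ∪ ⋃ j ≤ n, (cellT C g β (Q (c j)) (N (c j)) (ν (c j))).2 := by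
  obtain ⟨T, hT⟩ : ∃ T : ℕ → Set Z × Set Z,
    T = fun j => cellT C g β (Q (c j)) (N (c j)) (ν (c j)) := ⟨_, rfl⟩
  have eX : ∀ j < n, e (j + 1) ∈ X ∩ C := fun j hj => (ce.jsp3 (h.mem j hj.le)).1 (h.jsp3_e hj).1
  have far : ∀ j k, j < k → k < n → Disjoint (T j).1 (T (k + 1)).1 := fun j k a b =>
    hT ▸ h.jsp3_far th bt ce (Nat.succ_lt_succ a) b
  have nx : ∀ j < n, (T j).1 ∩ (T (j + 1)).1 = β (e (j + 1)) := fun j hj =>
    hT ▸ h.jsp3_next th bt ce hj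
  have tr : ∀ j ≤ n, (T j).2 ∩ D = ⋃ x ∈ Q (c j) ∩ C, g x := fun j hj =>
    hT ▸ (cell_traces th bt ce (h.mem j hj)).2.1
  have key : ∀ m ≤ n, Chn K ((fun j => (s (c j), T j)) '' {j | j ≤ m}) (jsp3U (fun j => (T j).1)
      (fun j => β (e (j + 1)) \ (I (e (j + 1)) ∪ g (e (j + 1)))) m) := fun m hm => by
    induction m with
    | zero => simpa [jsp3_zero] using Chn.one (K := K) (s (c 0), T 0)
    | succ m ih =>
      have u : {j | j ≤ m + 1} = insert (m + 1) {j | j ≤ m} := by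
        ext j
        simp only [mem_ofPred_eq, mem_insert_iff]
        omega
      have ne : s (c m) ≠ s (c (m + 1)) := by
        rw [(h.alt m hm).1]
        exact Bool.self_ne_not _
      have kd := (bt.lb _ (eX m hm)).2.2
      rw [u, image_insert_eq, jsp3_succ fun j hj => (far j m hj hm).mono_left
        fun z hz => ((nx j (hj.trans hm)).ge hz.1).1]
      refine (ih (Nat.le_of_succ_le hm)).add (s (c (m + 1)), T (m + 1)) ?_ kd
        (subset_antisymm (fun z hz => ⟨((nx m hm).ge hz).2, mem_biUnion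
          (mem_image_of_mem _ (le_refl m)) (mem_iUnion.2 ⟨ne, ((nx m hm).ge hz).1⟩)⟩) ?_)
        (fun z hz => jsp3_mem.2 ⟨⟨m, le_rfl, ((nx m hm).ge hz).1⟩, fun j hj o => disjoint_left.1
          (far j m hj hm) ((nx j (hj.trans hm)).ge o.1).1 ((nx m hm).ge hz).2⟩)
        (disjoint_left.2 fun z hz hz' => ?_)
      · rintro ⟨j, hj, o⟩
        obtain ⟨z, -, hz⟩ := kd.k
        have a := ((nx m hm).ge hz).2
        obtain rfl : j = m := by_contra fun v => disjoint_left.1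
          (far j m (lt_of_le_of_ne hj v) hm)
          ((show T j = T (m + 1) from congrArg Prod.snd o).symm ▸ a) a
        exact ne (congrArg Prod.fst o)
      · rintro z ⟨hz, h0⟩
        obtain ⟨_, ⟨j, hj, rfl⟩, h1⟩ := mem_iUnion₂.1 h0
        obtain ⟨-, hz'⟩ := mem_iUnion.1 h1
        obtain rfl : j = m := by_contra fun v =>
          disjoint_left.1 (far j m (lt_of_le_of_ne hj v) hm) hz' hz
        exact (nx j hm).le ⟨hz', hz⟩
      · obtain ⟨k, hk, a⟩ : ∃ k ≤ n, z ∈ (T k).2 := by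
          rcases hz' with a | a
          · exact ⟨m + 1, hm, a⟩
          · obtain ⟨_, ⟨j, hj, rfl⟩, a⟩ := mem_iUnion₂.1 a
            exact ⟨j, le_trans hj (Nat.le_of_succ_le hm), a⟩
        obtain ⟨x, hx, v⟩ := mem_iUnion₂.1 ((tr k hk).le ⟨a, (bt.jsp3 (eX m hm)).2.2.1 hz.1⟩)
        have xX := (ce.jsp3 (h.mem k hk)).1 hx
        exact hz.2 (.inr (bt.dj.elim_set xX (eX m hm) z ((bt.jsp3 xX).2.1 v) hz.1 ▸ v))
  subst hT
  refine ⟨_, key n le_rfl, iUnion₂_subset fun j hj z hz => jsp3_mem.2 ⟨⟨j, hj, .inl hz⟩,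
    fun k hk o => o.2 (.inl ((bt.jsp3 (eX k hk)).2.2.2.1.le ⟨o.1, (th.jsp3 _).2.le
      ⟨ce.sub _ (h.mem j hj) hz, (bt.jsp3 (eX k hk)).2.2.1 o.1⟩⟩))⟩, fun z hz => ?_⟩
  obtain ⟨⟨j, hj, a | a⟩, b⟩ := jsp3_mem.1 hz
  · exact .inl (mem_biUnion hj a)
  · obtain ⟨x, hx, u⟩ := mem_iUnion₂.1 a
    obtain ⟨k, hk, rfl⟩ := h.jsp3_end hj hx
    rcases (by_contra fun v => b k hk ⟨u, v⟩ : z ∈ I (e (k + 1)) ∪ g (e (k + 1))) with v | v
    · exact .inl (mem_biUnion hj (((ce.jsp3 (h.mem j hj)).2 _ hx).1 v))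
    · exact .inr (mem_biUnion hj (.inr (mem_biUnion hx v)))

theorem Run.conn (ce : Cells K O C X I J s Q N ν) (h : Run C J s Q n c e) :
    IsConnected (⋃ j ≤ n, Q (c j)) := by
  have key : ∀ m ≤ n, IsConnected (⋃ j ≤ m, Q (c j)) := fun m hm => by
    induction m with
    | zero => simpa using (ce.q _ (h.mem 0 hm)).2.2.1
    | succ m ih =>
      rw [biUnion_le_succ]
      exact (ih (Nat.le_of_succ_le hm)).union ⟨e (m + 1), mem_biUnion (le_refl m)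
        (h.jsp3_e hm).1.1, (h.jsp3_e hm).2.1⟩ (ce.q _ (h.mem (m + 1) hm)).2.2.1
  exact key n le_rfl

end Pool.Agent.Lib.MP_b7d179_gt
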