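import Pool.Agent.Lib.MP_b7d179_gt.U.JSp1
import Pool.Agent.Lib.MP_b7d179_gt.U.JSp3

/-! Strips and bites that fit together across a wall. -/

namespace Pool.Agent.Lib.MP_b7d179_gt

open Set Metric

variable {Z Z' : Type*} [MetricSpace Z] [MetricSpace Z']

variable {K D C M M' X Λ : Set Z} {O : Bool → Set Z}

theorem splice (th : Th (O false) (O true) D C) (hK : IsClosed K) (hC : Disjoint C K)
    (h : Pcs K O C M X) (hL : Lols K D C M' (X ∩ C) Λ) :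
    ∃ (T : Bool → Set (Set Z × Set Z)) (T' : Set (Set Z × Set Z))
      (A : Set Z × Set Z → Set (Bool × Set Z × Set Z)),
      (∀ i, Fit K (O i ∪ D) (X ∩ O i ∪ Λ) (T i)) ∧ Fit K (O false ∪ O true) X T' ∧
      Splice K D C (O false ∪ O true) T T' A := by
  obtain ⟨l, I, I', g, β, R, p, q, bt⟩ := hL.bt th.d hK hC
  obtain ⟨ι, fι, n, e, s, Q, N, ν, ce, run, far⟩ := h.cells th hK hC bt
  let cT : ι × ℕ → Set Z × Set Z := fun c => cellT C g β (Q c) (N c) (ν c)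
  let tt : ι → Set Z × Set Z := fun i => (⋃ j ≤ n i, N (i, j),
    ⋃ j ≤ n i, (ν (i, j) \ C) ∪ ⋃ x ∈ Q (i, j) ∩ C, {p x, q x})
  let AA : ι → Set (Bool × Set Z × Set Z) := fun i =>
    (fun j => (s (i, j), cT (i, j))) '' {j | j ≤ n i}
  have tr := fun (i : ι) (j : ℕ) (hj : j ≤ n i) => cell_traces (c := (i, j)) th bt ce hj
  have dT : ∀ i i', i ≠ i' → ∀ j ≤ n i, ∀ j' ≤ n i', Disjoint (cT (i, j)).1 (cT (i', j')).1 :=
    fun i i' h j hj j' hj' => cell_dj (c := (i, j)) (c' := (i', j')) th bt ce hj hj'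
      (far i i' h j hj j' hj')
  have dN : ∀ i i', i ≠ i' → Disjoint (tt i).1 (tt i').1 := fun i i' h => by
    refine disjoint_left.2 fun x hx hx' => ?_
    obtain ⟨j, hj, hx⟩ := mem_iUnion₂.1 hx
    obtain ⟨j', hj', hx'⟩ := mem_iUnion₂.1 hx'
    exact disjoint_left.1 (dT i i' h j hj j' hj') (Or.inl hx) (Or.inl hx')
  have xt : ∀ i, X ∩ (tt i).1 = ⋃ j ≤ n i, Q (i, j) := fun i => by
    simp only [tt, inter_iUnion]
    exact iUnion₂_congr fun j hj => (tr i j hj).2.2.2.2.2.1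
  have cn : ∀ i, IsConnected (X ∩ (tt i).1) := fun i => xt i ▸ (run i).conn ce
  have inj : Function.Injective tt := fun i i' h => by
    by_contra hne
    obtain ⟨x, -, hx⟩ := (cn i).nonempty
    exact disjoint_left.1 (dN i i' hne) hx (h ▸ hx)
  have hA : ∀ i, (⋃ i', ⋃ _ : tt i' = tt i, AA i') = AA i := fun i => by
    ext y
    simp only [mem_iUnion, inj.eq_iff]
    exact ⟨fun ⟨i', h, hy⟩ => h ▸ hy, fun hy => ⟨i, rfl, hy⟩⟩
  have uA : ∀ i (f : Bool × Set Z × Set Z → Set Z),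
      ⋃ y ∈ AA i, f y = ⋃ j ≤ n i, f (s (i, j), cT (i, j)) := fun i f => biUnion_image
  have pq : ∀ x ∈ X ∩ C, ∀ y ∈ ({p x, q x} : Set Z), y ∈ C ∧ y ∉ X := fun x hx y hy => by
    have t2 := (bt.cut x hx).two
    have h1 : y ∈ I x ∩ I' x := t2.inter.ge hy
    refine ⟨t2.sub1 h1.1, fun hX => (bt.ie x hx).2 ?_⟩
    have : y ∈ ({x} : Set Z) := (bt.ie x hx).1 ▸ ⟨h1.1, hX, t2.sub1 h1.1⟩
    exact mem_singleton_iff.1 this ▸ h1.2
  have rimX : ∀ i, ∀ y ∈ (tt i).2, y ∉ X ∧ y ∉ K := fun i y hy => by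
    obtain ⟨j, hj, hy⟩ := mem_iUnion₂.1 hy
    have cq := ce.q (i, j) hj
    rcases hy with hy | hy
    · have hN := (ce.disc (i, j) hj).rim_sub hy.1
      exact ⟨fun hX => hy.2 (cq.2.1 ⟨(tr i j hj).2.2.2.2.2.1.le ⟨hX, hN⟩, hy.1⟩),
        fun hk => hy.2 (cq.2.1 ⟨cq.2.2.2 ⟨hk, hN⟩, hy.1⟩)⟩
    · obtain ⟨x, hx, hy⟩ := mem_iUnion₂.1 hy
      have := pq x ((tr i j hj).2.2.2.2.2.2 hx) y hy
      exact ⟨this.2, disjoint_left.1 hC this.1⟩
  refine ⟨fun b => cT '' {c ∈ {c : ι × ℕ | c.2 ≤ n c.1} | s c = b}, range tt,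
    fun t => ⋃ i, ⋃ _ : tt i = t, AA i, cell_fit th hC bt ce, ?_, ?_⟩
  · refine ⟨finite_range _, ?_, ?_, ?_, ?_, ?_, ?_, ?_⟩
    · rintro _ ⟨i, rfl⟩; exact (run i).disc th bt ce
    · rintro _ ⟨i, rfl⟩
      refine iUnion₂_subset fun j hj => (ce.sub (i, j) hj).trans ?_
      cases s (i, j)
      exacts [subset_union_left, subset_union_right]
    · rintro _ ⟨i, rfl⟩; exact cn i
    · rintro _ ⟨i, rfl⟩; exact disjoint_left.2 fun y hy => (rimX i y hy).2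
    · rintro _ ⟨i, rfl⟩ x ⟨hk, hx⟩
      obtain ⟨j, hj, hx⟩ := mem_iUnion₂.1 hx
      exact ((tr i j hj).2.2.2.2.2.1.ge ((ce.q (i, j) hj).2.2.2 ⟨hk, hx⟩)).1
    · rintro _ ⟨i, rfl⟩ _ ⟨i', rfl⟩ hne
      exact dN i i' fun h => hne (h ▸ rfl)
    · intro x hx
      obtain ⟨⟨i, j⟩, hj, hq⟩ := mem_iUnion₂.1 (ce.x.le hx)
      exact mem_iUnion₂.2 ⟨tt i, ⟨i, rfl⟩, mem_iUnion₂.2 ⟨j, hj, (ce.q (i, j) hj).1 hq⟩,
        fun hy => (rimX i x hy).1 hx⟩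
  · refine ⟨(cell_wall th bt ce false).1.trans (cell_wall th bt ce true).1.symm,
      (cell_wall th bt ce false).2.trans (cell_wall th bt ce true).2.symm,
      bt.rest th.d hC (cell_wall th bt ce false).1 (cell_wall th bt ce false).2,
      ?_, ?_, ?_, ?_, ?_, ?_⟩
    · rintro _ ⟨i, rfl⟩ y hy
      rw [hA] at hy
      obtain ⟨j, hj, rfl⟩ := hy
      exact ⟨(i, j), ⟨hj, rfl⟩, rfl⟩
    · rintro b _ ⟨⟨i, j⟩, ⟨hj, rfl⟩, rfl⟩
      exact ⟨tt i, ⟨i, rfl⟩, (hA i).ge ⟨j, hj, rfl⟩⟩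
    · rintro _ ⟨i, rfl⟩ _ ⟨i', rfl⟩ hne y hy y' hy'
      rw [hA] at hy hy'
      obtain ⟨j, hj, rfl⟩ := hy
      obtain ⟨j', hj', rfl⟩ := hy'
      exact dT i i' (fun h => hne (h ▸ rfl)) j hj j' hj'
    · rintro _ ⟨i, rfl⟩
      rw [hA, uA]
      exact (run i).chn th bt ce
    · rintro _ ⟨i, rfl⟩
      rw [hA, uA]
      simp only [tt, inter_iUnion]
      exact iUnion₂_congr fun j hj => (tr i j hj).2.2.1.symm
    · rintro _ ⟨i, rfl⟩
      rw [hA, uA]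
      simp only [tt, inter_iUnion]
      exact iUnion₂_congr fun j hj => (tr i j hj).2.2.2.1.symm

end Pool.Agent.Lib.MP_b7d179_gt
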