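import Pool.Agent.Lib.MP_b7d179_gt.U.SolA

/-! Lanes joined along bites: the star. -/

namespace Pool.Agent.Lib.MP_b7d179_gt

open Set Metric

variable {Z Z' : Type*} [MetricSpace Z] [MetricSpace Z']

variable {σ : Tw Z} {B S B1 S1 B2 S2 D C : Set Z} {𝒯 𝒰 : Set (Set Z × Set Z)}

lemma sole_side (g : Gl B S B1 S1 B2 S2 D C) (s2 : S2 ⊆ B2) {z : Z} (hS : z ∈ S) (hB : z ∈ B1) :
    z ∈ S1 := by
  rw [g.r] at hS
  exact hS.1.elim id fun h => g.s1 (g.i ▸ ⟨hB, s2 h⟩)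

lemma sole_off (g : Gl B S B1 S1 B2 S2 D C) {z : Z} (hS : z ∈ S1 ∪ S2) (hD : z ∈ D → z ∈ C) :
    z ∈ S := g.r ▸ ⟨hS, fun h => h.2 (hD h.1)⟩

lemma sole_rim (g : Gl B S B1 S1 B2 S2 D C) {z : Z} (hS : z ∈ S) (hD : z ∈ D) : z ∈ C := by
  rw [g.r] at hS
  by_contra h
  exact hS.2 ⟨hD, h⟩

lemma sole_far (ok : σ.Ok0) {L T E c : Set Z} (h : G σ L (T ∪ E)) (hT : Disc T c)
    (h1 : E ∩ T ⊆ c) (h2 : c ⊆ E) : Disc E c := by
  have := (rq_compl (h.ball ok).sph hT subset_union_left).d2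
  convert this using 1
  ext z
  constructor
  · intro hz
    by_cases t : z ∈ T
    · exact Or.inr (h1 ⟨hz, t⟩)
    · exact Or.inl ⟨Or.inr hz, t⟩
  · rintro (⟨a | a, b⟩ | a)
    · exact absurd a b
    · exact a
    · exact h2 a

lemma sole_same {R SR : Set Z} {Lf Df : Set Z × Set Z → Set Z} (h : SolD σ B S 𝒯 R SR Lf Df)
    {t u : Set Z × Set Z} (ht : t ∈ 𝒯) (hu : u ∈ 𝒯) {z : Z} (a : z ∈ Lf t) (b : z ∈ Lf u) :
    t = u := by
  by_contra ne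
  exact disjoint_left.1 (h.dj ht hu ne) a b

/-- the neighbour with some of the lanes -/
lemma sole_star {R SR : Set Z} {Lf Df : Set Z × Set Z → Set Z} (g : Gl B S B1 S1 B2 S2 D C)
    (h2 : G σ B2 S2) (s2 : S2 ⊆ B2) (h : SolD σ B1 S1 𝒯 R SR Lf Df) {b : Set Z × Set Z → Set Z}
    (hf : 𝒰.Finite) (hs : 𝒰 ⊆ 𝒯) (hb : ∀ u ∈ 𝒰, KD σ.K (u.1 ∩ D) (b u)) :
    G σ (B2 ∪ ⋃ u ∈ 𝒰, Lf u) ((S2 ∪ ⋃ u ∈ 𝒰, (u.1 ∪ Df u)) \ ⋃ u ∈ 𝒰, ((u.1 ∩ D) \ b u)) := by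
  induction 𝒰, hf using Finite.induction_on with
  | empty => simpa using h2
  | @insert u 𝒰 nu _ ih =>
    have hu := hs (mem_insert _ _)
    have hs' : 𝒰 ⊆ 𝒯 := (subset_insert _ _).trans hs
    have k := hb u (mem_insert _ _)
    have fu := h.sub hu
    have ne : ∀ v ∈ 𝒰, ∀ z ∈ Lf u, z ∉ Lf v := fun v hv z a c =>
      nu (sole_same h hu (hs' hv) a c ▸ hv)
    refine G.glue1 (ih hs' fun v hv => hb v (mem_insert_of_mem _ hv)) (h.gl u hu)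
      ⟨k.d, ?_, ?_, fun z hz => Or.inl hz.1, ?_, ?_⟩ k
    · ext z
      constructor
      · rintro ⟨a | a, c⟩
        · have zD : z ∈ D := g.i ▸ ⟨fu.2.2.2.2.2.2.2.1 c, a⟩
          exact ⟨h.ls u hu ▸ ⟨c, g.s1 zD⟩, zD⟩
        · obtain ⟨v, hv, a⟩ := mem_iUnion₂.1 a
          exact absurd a (ne v hv z c)
      · exact fun hz => ⟨Or.inl (s2 (g.s2 hz.2)), fu.2.1 hz.1⟩
    · intro z hz
      refine ⟨Or.inl (g.s2 hz.2), fun a => ?_⟩
      obtain ⟨v, hv, a⟩ := mem_iUnion₂.1 a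
      exact ne v hv z (fu.2.1 hz.1) ((h.sub (hs' hv)).2.1 a.1.1)
    · rw [biUnion_insert, union_comm (Lf u), union_assoc]
    · rw [biUnion_insert, biUnion_insert]
      ext z
      constructor
      · rintro ⟨a | a | a, c⟩
        · exact ⟨Or.inl ⟨Or.inl a, fun e => c (Or.inr e)⟩, fun e => c (Or.inl e)⟩
        · exact ⟨Or.inr a, fun e => c (Or.inl e)⟩
        · exact ⟨Or.inl ⟨Or.inr a, fun e => c (Or.inr e)⟩, fun e => c (Or.inl e)⟩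
      · rintro ⟨⟨a | a, c⟩ | a, d⟩
        · exact ⟨Or.inl a, fun e => e.elim d c⟩
        · exact ⟨Or.inr (Or.inr a), fun e => e.elim d c⟩
        · refine ⟨Or.inr (Or.inl a), fun e => e.elim d fun e => ?_⟩
          obtain ⟨v, hv, e⟩ := mem_iUnion₂.1 e
          exact ne v hv z (a.elim (fun t => fu.2.1 t) fun t => fu.2.2.2.2.1 t)
            ((h.sub (hs' hv)).2.1 e.1.1)

/-- the neighbour is joined to all lanes that bite into the wall -/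
theorem Sol.star (ok : σ.Ok0) (g : Gl B S B1 S1 B2 S2 D C) (h2 : G σ B2 S2)
    (h : Sol σ B1 S1 (𝒰 ∪ 𝒯)) (hn : 𝒰.Nonempty) (hd : ∀ t ∈ 𝒯, Disjoint t.1 D)
    (hC : Disjoint C σ.K) {b : Set Z × Set Z → Set Z}
    (hb : ∀ u ∈ 𝒰, KD σ.K (u.1 ∩ D) (b u) ∧ b u ⊆ u.2 ∪ C ∧ Disjoint ((u.1 ∩ D) \ b u) (u.2 ∪ C))
    (hT : Disc (S ∩ (B2 ∪ ⋃ u ∈ 𝒰, u.1)) ((S ∩ ⋃ u ∈ 𝒰, u.2) ∪ (C \ ⋃ u ∈ 𝒰, u.1))) :
    Sol σ B S (insert (S ∩ (B2 ∪ ⋃ u ∈ 𝒰, u.1), (S ∩ ⋃ u ∈ 𝒰, u.2) ∪ (C \ ⋃ u ∈ 𝒰, u.1)) 𝒯) := by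
  classical
  obtain ⟨R, SR, Lf, Df, h⟩ := h
  have s2 : S2 ⊆ B2 := (h2.ball ok).rim_sub
  obtain ⟨-, RB, s1, RS, RSR⟩ := h.rs ok
  have hU : ∀ u ∈ 𝒰, u ∈ 𝒰 ∪ 𝒯 := fun _ a => Or.inl a
  have hV : ∀ u ∈ 𝒯, u ∈ 𝒰 ∪ 𝒯 := fun _ a => Or.inr a
  have CD := g.d.rim_sub
  have CS : C ⊆ S := fun z hz => sole_off g (Or.inl (g.s1 (CD hz))) fun _ => hz
  have DB : D ⊆ B2 := g.s2.trans s2
  have inD : ∀ z, z ∈ B1 → z ∈ B2 → z ∈ D := fun z a c => g.i ▸ ⟨a, c⟩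
  have side : ∀ z, z ∈ S → z ∈ B1 → z ∈ S1 := fun z => sole_side g s2
  -- a point of the wall off the discs of `𝒰` lies in the rest
  have DR : ∀ z ∈ D, (∀ u ∈ 𝒰, z ∉ u.1) → z ∈ R := fun z hz hu => by
    refine (RS.ge (Or.inl ⟨g.s1 hz, fun a => ?_⟩)).1
    obtain ⟨t, ht | ht, a⟩ := mem_iUnion₂.1 a
    · exact hu t ht a
    · exact disjoint_left.1 (hd t ht) a hz
  have UV : ∀ u ∈ 𝒰, ∀ t ∈ 𝒯, u ≠ t := fun u hu t ht e => by
    obtain ⟨z, -, a, c⟩ := (hb u hu).1.k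
    exact disjoint_left.1 (hd t ht) (e ▸ a) c
  set T0 := S ∩ (B2 ∪ ⋃ u ∈ 𝒰, u.1) with eT
  set C0 := (S ∩ ⋃ u ∈ 𝒰, u.2) ∪ (C \ ⋃ u ∈ 𝒰, u.1) with eC
  set L0 := B2 ∪ ⋃ u ∈ 𝒰, Lf u with eL
  set D0 := (⋃ u ∈ 𝒰, Df u) ∪ (D ∩ R) with eD
  have n0 : ∀ t ∈ 𝒯, t ≠ (T0, C0) := fun t ht e => by
    obtain ⟨φ, -, -, c⟩ := g.d
    have z : φ 1 ∈ C := c ▸ ⟨1, by simp, rfl⟩
    exact disjoint_left.1 (hd t ht) (e ▸ (⟨CS z, Or.inl (DB (CD z))⟩ : φ 1 ∈ T0)) (CD z)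
  have gl0 : G σ L0 (T0 ∪ D0) := by
    convert sole_star g h2 s2 h (h.fin.subset hU) hU (fun u hu => (hb u hu).1) using 1
    ext z
    constructor
    · intro hz
      refine ⟨?_, fun a => ?_⟩
      · rcases hz with ⟨a, c | c⟩ | a | a
        · exact Or.inl (sole_side g.symm s1 a c)
        · obtain ⟨u, hu, c⟩ := mem_iUnion₂.1 c
          exact Or.inr (mem_iUnion₂.2 ⟨u, hu, Or.inl c⟩)
        · obtain ⟨u, hu, c⟩ := mem_iUnion₂.1 a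
          exact Or.inr (mem_iUnion₂.2 ⟨u, hu, Or.inr c⟩)
        · exact Or.inl (g.s2 a.1)
      · obtain ⟨u, hu, a⟩ := mem_iUnion₂.1 a
        refine disjoint_left.1 (hb u hu).2.2 a ?_
        have fu := h.sub (hU u hu)
        rcases hz with c | c | c
        · exact Or.inr (sole_rim g c.1 a.1.2)
        · obtain ⟨v, hv, c⟩ := mem_iUnion₂.1 c
          obtain rfl := sole_same h (hU u hu) (hU v hv) (fu.2.1 a.1.1) ((h.sub (hU v hv)).2.2.2.2.1 c)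
          exact Or.inl (fu.2.2.2.2.2.2.2.2.2.1 ▸ ⟨c, a.1.1⟩)
        · exact Or.inl (fu.2.2.2.2.2.2.2.2.1 ▸ ⟨c.2, a.1.1⟩)
    · rintro ⟨a, c⟩
      by_cases zD : z ∈ D
      · by_cases zU : ∃ u ∈ 𝒰, z ∈ u.1
        · obtain ⟨u, hu, e⟩ := zU
          have zb : z ∈ b u := by
            by_contra n
            exact c (mem_iUnion₂.2 ⟨u, hu, ⟨e, zD⟩, n⟩)
          rcases (hb u hu).2.1 zb with t | t
          · exact Or.inr (Or.inl (mem_iUnion₂.2 ⟨u, hu, (h.sub (hU u hu)).2.2.2.1 t⟩))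
          · exact Or.inl ⟨CS t, Or.inl (DB zD)⟩
        · exact Or.inr (Or.inr ⟨zD, DR z zD fun u hu e => zU ⟨u, hu, e⟩⟩)
      · rcases a with a | a
        · exact Or.inl ⟨sole_off g (Or.inr a) fun e => absurd e zD, Or.inl (s2 a)⟩
        · obtain ⟨u, hu, a | a⟩ := mem_iUnion₂.1 a
          · exact Or.inl ⟨sole_off g (Or.inl ((h.sub (hU u hu)).1 a)) fun e => absurd e zD,
              Or.inr (mem_iUnion₂.2 ⟨u, hu, a⟩)⟩
          · exact Or.inr (Or.inl (mem_iUnion₂.2 ⟨u, hu, a⟩))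
  have ds0 : D0 ∩ S = C0 := by
    ext z
    constructor
    · rintro ⟨a | a, c⟩
      · obtain ⟨u, hu, a⟩ := mem_iUnion₂.1 a
        have fu := h.sub (hU u hu)
        exact Or.inl ⟨c, mem_iUnion₂.2 ⟨u, hu,
          h.ds u (hU u hu) ▸ ⟨a, side z c (RB (fu.2.2.2.2.2.1 a))⟩⟩⟩
      · by_cases zU : z ∈ ⋃ u ∈ 𝒰, u.1
        · obtain ⟨u, hu, e⟩ := mem_iUnion₂.1 zU
          exact Or.inl ⟨c, mem_iUnion₂.2 ⟨u, hu, (h.sub (hU u hu)).2.2.2.2.2.2.2.2.1 ▸ ⟨a.2, e⟩⟩⟩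
        · exact Or.inr ⟨sole_rim g c a.1, zU⟩
    · rintro (⟨a, c⟩ | ⟨a, c⟩)
      · obtain ⟨u, hu, c⟩ := mem_iUnion₂.1 c
        exact ⟨Or.inl (mem_iUnion₂.2 ⟨u, hu, (h.sub (hU u hu)).2.2.2.1 c⟩), a⟩
      · exact ⟨Or.inr ⟨CD a, DR z (CD a) fun u hu e => c (mem_iUnion₂.2 ⟨u, hu, e⟩)⟩, CS a⟩
  have dd0 : KD σ.K D0 C0 := by
    refine ⟨sole_far ok gl0 hT (fun z hz => ds0 ▸ ⟨hz.1, hz.2.1⟩) fun z hz => (ds0.ge hz).1,
      disjoint_left.2 ?_, ?_⟩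
    · rintro z (⟨-, a⟩ | a) k
      · obtain ⟨u, hu, a⟩ := mem_iUnion₂.1 a
        exact disjoint_left.1 (h.dd u (hU u hu)).c a k
      · exact disjoint_left.1 hC a.1 k
    · obtain ⟨u, hu⟩ := hn
      obtain ⟨z, k, a⟩ := (h.dd u (hU u hu)).k
      exact ⟨z, k, Or.inl (mem_iUnion₂.2 ⟨u, hu, a⟩)⟩
  have ls0 : L0 ∩ S = T0 := by
    ext z
    constructor
    · rintro ⟨a | a, c⟩
      · exact ⟨c, Or.inl a⟩
      · obtain ⟨u, hu, a⟩ := mem_iUnion₂.1 a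
        exact ⟨c, Or.inr (mem_iUnion₂.2 ⟨u, hu, h.ls u (hU u hu) ▸
          ⟨a, side z c ((h.sub (hU u hu)).2.2.2.2.2.2.2.1 a)⟩⟩)⟩
    · rintro ⟨c, a | a⟩
      · exact ⟨Or.inl a, c⟩
      · obtain ⟨u, hu, a⟩ := mem_iUnion₂.1 a
        exact ⟨Or.inr (mem_iUnion₂.2 ⟨u, hu, (h.sub (hU u hu)).2.1 a⟩), c⟩
  have lr0 : L0 ∩ R = D0 := by
    ext z
    constructor
    · rintro ⟨a | a, c⟩
      · exact Or.inr ⟨inD z (RB c) a, c⟩
      · obtain ⟨u, hu, a⟩ := mem_iUnion₂.1 a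
        exact Or.inl (mem_iUnion₂.2 ⟨u, hu, h.lr u (hU u hu) ▸ ⟨a, c⟩⟩)
    · rintro (a | a)
      · obtain ⟨u, hu, a⟩ := mem_iUnion₂.1 a
        have fu := h.sub (hU u hu)
        exact ⟨Or.inr (mem_iUnion₂.2 ⟨u, hu, fu.2.2.2.2.1 a⟩), fu.2.2.2.2.2.1 a⟩
      · exact ⟨Or.inl (DB a.1), a.2⟩
  have dj0 : ∀ t ∈ 𝒯, Disjoint L0 (Lf t) := fun t ht => disjoint_left.2 <| by
    rintro z (a | a) c
    · have zD := inD z ((h.sub (hV t ht)).2.2.2.2.2.2.2.1 c) a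
      exact disjoint_left.1 (hd t ht) (h.ls t (hV t ht) ▸ ⟨c, g.s1 zD⟩) zD
    · obtain ⟨u, hu, a⟩ := mem_iUnion₂.1 a
      exact UV u hu t ht (sole_same h (hU u hu) (hV t ht) a c)
  have tS : ∀ t ∈ 𝒯, t.1 ⊆ S := fun t ht z hz =>
    sole_off g (Or.inl ((h.sub (hV t ht)).1 hz)) fun e => absurd e (disjoint_left.1 (hd t ht) hz)
  have eLs : ∀ F : Set Z × Set Z → Set Z, ∀ Y, ⋃ t ∈ insert (T0, C0) 𝒯,
      Function.update F (T0, C0) Y t = Y ∪ ⋃ t ∈ 𝒯, F t := fun F Y => by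
    rw [biUnion_insert, Function.update_self]
    congr 1
    exact iUnion₂_congr fun t ht => Function.update_of_ne (n0 t ht) _ _
  refine ⟨R, SR, Function.update Lf (T0, C0) L0, Function.update Df (T0, C0) D0,
    (h.fin.subset hV).insert _, h.g, ?_, ?_, ?_, ?_, ?_, ?_, ?_, ?_, ?_⟩
  · rintro t (rfl | ht)
    · simpa only [Function.update_self] using gl0
    · simpa only [Function.update_of_ne (n0 t ht)] using h.gl t (hV t ht)
  · rintro t (rfl | ht)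
    · exact hT
    · exact h.dt t (hV t ht)
  · rintro t (rfl | ht)
    · simpa only [Function.update_self] using dd0
    · simpa only [Function.update_of_ne (n0 t ht)] using h.dd t (hV t ht)
  · rintro t (rfl | ht)
    · simpa only [Function.update_self] using ls0
    · rw [Function.update_of_ne (n0 t ht)]
      have ft := h.sub (hV t ht)
      exact Subset.antisymm (fun z hz => h.ls t (hV t ht) ▸
        ⟨hz.1, side z hz.2 (ft.2.2.2.2.2.2.2.1 hz.1)⟩) fun z hz => ⟨ft.2.1 hz, tS t ht hz⟩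
  · rintro t (rfl | ht)
    · simpa only [Function.update_self] using lr0
    · simpa only [Function.update_of_ne (n0 t ht)] using h.lr t (hV t ht)
  · rintro t (rfl | ht)
    · simpa only [Function.update_self] using ds0
    · rw [Function.update_of_ne (n0 t ht)]
      have ft := h.sub (hV t ht)
      exact Subset.antisymm (fun z hz => h.ds t (hV t ht) ▸
        ⟨hz.1, side z hz.2 (RB (ft.2.2.2.2.2.1 hz.1))⟩)
        fun z hz => ⟨ft.2.2.2.1 hz, tS t ht (ft.2.2.1 hz)⟩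
  · rintro t (rfl | ht) u (rfl | hu) ne
    · exact absurd rfl ne
    · simpa only [Function.onFun, Function.update_self, Function.update_of_ne (n0 u hu)]
        using dj0 u hu
    · simpa only [Function.onFun, Function.update_self, Function.update_of_ne (n0 t ht)]
        using (dj0 t ht).symm
    · simpa only [Function.onFun, Function.update_of_ne (n0 u hu), Function.update_of_ne (n0 t ht)]
        using h.dj (hV t ht) (hV u hu) ne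
  · rw [eLs, g.u, h.u, biUnion_union, eL]
    ac_rfl
  · rw [eLs, biUnion_insert]
    ext z
    constructor
    · intro hz
      rw [h.r, biUnion_union, biUnion_union] at hz
      rcases hz with ⟨a, c⟩ | a | a
      · by_cases zD : z ∈ D
        · exact Or.inr (Or.inl (Or.inr ⟨zD, DR z zD fun u hu e =>
            c (Or.inl (mem_iUnion₂.2 ⟨u, hu, e⟩))⟩))
        · refine Or.inl ⟨sole_off g (Or.inl a) fun e => absurd e zD, ?_⟩
          rintro (⟨-, e | e⟩ | e)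
          · exact zD (inD z (s1 a) e)
          · exact c (Or.inl e)
          · exact c (Or.inr e)
      · exact Or.inr (Or.inl (Or.inl a))
      · exact Or.inr (Or.inr a)
    · rintro (⟨a, c⟩ | (a | a) | a)
      · rw [h.r, biUnion_union]
        refine Or.inl ⟨?_, fun e => c (e.elim (fun e => Or.inl ⟨a, Or.inr e⟩) Or.inr)⟩
        exact (g.r ▸ a : z ∈ (S1 ∪ S2) \ (D \ C)).1.elim id
          fun e => absurd (Or.inl ⟨a, Or.inl (s2 e)⟩) c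
      · rw [h.r, biUnion_union, biUnion_union]
        exact Or.inr (Or.inl a)
      · exact RSR ⟨a.2, g.s1 a.1⟩
      · rw [h.r, biUnion_union, biUnion_union]
        exact Or.inr (Or.inr a)

end Pool.Agent.Lib.MP_b7d179_gt
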