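import Pool.Agent.Lib.MP_b7d179_gt.U.SolA
import Pool.Agent.Lib.MP_b7d179_gt.U.SolE1

/-! Lanes joined along bites: the star and the chain. -/

namespace Pool.Agent.Lib.MP_b7d179_gt

open Set Metric

variable {Z Z' : Type*} [MetricSpace Z] [MetricSpace Z']

variable {σ : Tw Z} {B S B1 S1 B2 S2 D C : Set Z} {𝒯 𝒰 : Set (Set Z × Set Z)}

variable {Bb Sb R SR : Bool → Set Z} {T : Bool → Set (Set Z × Set Z)}
  {Lf Df : Bool → Set Z × Set Z → Set Z}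

lemma sole_D (g : Gl B S (Bb false) (Sb false) (Bb true) (Sb true) D C) {i j : Bool} (ne : i ≠ j)
    {z : Z} (a : z ∈ Bb i) (b : z ∈ Bb j) : z ∈ D := by
  cases i <;> cases j
  · exact absurd rfl ne
  · exact g.i ▸ ⟨a, b⟩
  · exact g.i ▸ ⟨b, a⟩
  · exact absurd rfl ne

lemma sole_s (g : Gl B S (Bb false) (Sb false) (Bb true) (Sb true) D C) (i : Bool) : D ⊆ Sb i := by
  cases i
  · exact g.s1
  · exact g.s2

/-- lanes on two sides meet in the visible discs -/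
lemma sole_two (g : Gl B S (Bb false) (Sb false) (Bb true) (Sb true) D C)
    (h : ∀ i, SolD σ (Bb i) (Sb i) (T i) (R i) (SR i) (Lf i) (Df i))
    {x y : Bool × Set Z × Set Z} (hx : x.2 ∈ T x.1) (hy : y.2 ∈ T y.1) {z : Z}
    (a : z ∈ Lf x.1 x.2) (b : z ∈ Lf y.1 y.2) :
    x = y ∨ (x.1 ≠ y.1 ∧ z ∈ D ∧ z ∈ x.2.1 ∧ z ∈ y.2.1) := by
  by_cases e : x.1 = y.1
  · obtain ⟨i, t⟩ := x
    obtain ⟨j, u⟩ := y
    obtain rfl : i = j := e
    exact Or.inl (congrArg _ (sole_same (h i) hx hy a b))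
  · have zD := sole_D g e (((h _).sub hx).2.2.2.2.2.2.2.1 a) (((h _).sub hy).2.2.2.2.2.2.2.1 b)
    exact Or.inr ⟨e, zD, (h _).ls _ hx ▸ ⟨a, sole_s g _ zD⟩, (h _).ls _ hy ▸ ⟨b, sole_s g _ zD⟩⟩

/-- the union of the lanes of a chain is a good ball -/
theorem Chn.g (g : Gl B S (Bb false) (Sb false) (Bb true) (Sb true) D C)
    (h : ∀ i, SolD σ (Bb i) (Sb i) (T i) (R i) (SR i) (Lf i) (Df i))
    {A : Set (Bool × Set Z × Set Z)} {M : Set Z} (hc : Chn σ.K A M) (hA : ∀ y ∈ A, y.2 ∈ T y.1) :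
    A.Nonempty ∧ G σ (⋃ y ∈ A, Lf y.1 y.2) (M ∪ ⋃ y ∈ A, Df y.1 y.2) := by
  induction hc with
  | one x =>
    refine ⟨singleton_nonempty _, ?_⟩
    rw [biUnion_singleton, biUnion_singleton]
    exact (h _).gl _ (hA x rfl)
  | @add A M β c x _ nx k e sM d ih =>
    have hx := hA x (mem_insert _ _)
    have hA' : ∀ y ∈ A, y.2 ∈ T y.1 := fun y hy => hA y (mem_insert_of_mem _ hy)
    have fx := (h _).sub hx
    have mβ : ∀ z, z ∈ β ↔ z ∈ x.2.1 ∧ ∃ y ∈ A, y.1 ≠ x.1 ∧ z ∈ y.2.1 := fun z => by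
      rw [e]; simp only [mem_inter_iff, mem_iUnion, exists_prop]
    have βD : β ⊆ D := fun z hz => by
      obtain ⟨a, y, hy, ne, b⟩ := (mβ z).1 hz
      have fy := (h _).sub (hA' y hy)
      exact sole_D g ne (fy.2.2.2.2.2.2.2.1 (fy.2.1 b)) (fx.2.2.2.2.2.2.2.1 (fx.2.1 a))
    refine ⟨insert_nonempty _ _, G.glue1 (ih hA').2 ((h _).gl _ hx)
      ⟨k.d, ?_, fun z hz => Or.inl (sM hz), fun z hz => Or.inl ((mβ z).1 hz).1, ?_, ?_⟩ k⟩
    · ext z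
      rw [mβ]
      constructor
      · rintro ⟨a, b⟩
        obtain ⟨y, hy, a⟩ := mem_iUnion₂.1 a
        rcases sole_two g h (hA' y hy) hx a b with rfl | ⟨ne, -, p, q⟩
        · exact absurd hy nx
        · exact ⟨q, y, hy, ne, p⟩
      · rintro ⟨a, y, hy, -, b⟩
        exact ⟨mem_iUnion₂.2 ⟨y, hy, ((h _).sub (hA' y hy)).2.1 b⟩, fx.2.1 a⟩
    · rw [biUnion_insert, union_comm]
    · rw [biUnion_insert]
      ext z
      constructor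
      · rintro (⟨a | a, b⟩ | a | a)
        · exact ⟨Or.inl (Or.inl a), b⟩
        · exact ⟨Or.inr (Or.inl a), b⟩
        · exact ⟨Or.inr (Or.inr a), fun b => disjoint_left.1 d b
            (Or.inl ((h _).ds _ hx ▸ ⟨a, sole_s g _ (βD b.1)⟩))⟩
        · refine ⟨Or.inl (Or.inr a), fun b => disjoint_left.1 d b (Or.inr ?_)⟩
          obtain ⟨y, hy, a⟩ := mem_iUnion₂.1 a
          exact mem_iUnion₂.2 ⟨y, hy, (h _).ds _ (hA' y hy) ▸ ⟨a, sole_s g _ (βD b.1)⟩⟩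
      · rintro ⟨(a | a) | a | a, b⟩
        · exact Or.inl ⟨Or.inl a, b⟩
        · exact Or.inr (Or.inr a)
        · exact Or.inl ⟨Or.inr a, b⟩
        · exact Or.inr (Or.inl a)

theorem Sol.splice (ok : σ.Ok0) (g : Gl B S (Bb false) (Sb false) (Bb true) (Sb true) D C)
    (h : ∀ i, Sol σ (Bb i) (Sb i) (T i)) {A : Set Z × Set Z → Set (Bool × Set Z × Set Z)}
    (hf : 𝒯.Finite) (hT : ∀ t ∈ 𝒯, Disc t.1 t.2) (hs : Splice σ.K D C S T 𝒯 A) :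
    Sol σ B S 𝒯 := by
  choose R SR Lf Df h using h
  have rs := fun i => (h i).rs ok
  have side : ∀ i z, z ∈ S → z ∈ Bb i → z ∈ Sb i := fun i z => by
    cases i
    · exact sole_side g (rs true).2.2.1
    · exact sole_side g.symm (rs false).2.2.1
  have off : ∀ i z, z ∈ Sb i → (z ∈ D → z ∈ C) → z ∈ S := fun i z a => by
    cases i
    · exact sole_off g (Or.inl a)
    · exact sole_off g (Or.inr a)
  have e1 : ∀ i, ∀ z ∈ D, (z ∈ ⋃ t ∈ T i, t.1) ↔ z ∈ ⋃ t ∈ T false, t.1 := fun i z hz => by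
    cases i
    · rfl
    · exact ⟨fun a => (hs.e1.ge ⟨hz, a⟩).2, fun a => (hs.e1.le ⟨hz, a⟩).2⟩
  have e2 : ∀ i, ∀ z ∈ D, (z ∈ ⋃ t ∈ T i, t.2) ↔ z ∈ ⋃ t ∈ T false, t.2 := fun i z hz => by
    cases i
    · rfl
    · exact ⟨fun a => (hs.e2.ge ⟨hz, a⟩).2, fun a => (hs.e2.le ⟨hz, a⟩).2⟩
  have u21 : ∀ i, (⋃ t ∈ T i, t.2) ⊆ ⋃ t ∈ T i, t.1 := fun i =>
    iUnion₂_mono fun t ht => ((h i).sub ht).2.2.1
  set D0 := (D \ ⋃ t ∈ T false, t.1) ∪ (D ∩ ⋃ t ∈ T false, t.2) with eD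
  set C0 := (C \ ⋃ t ∈ T false, t.1) ∪ (D ∩ ⋃ t ∈ T false, t.2) with eC
  have RD : ∀ i z, z ∈ D0 ↔ z ∈ R i ∧ z ∈ D := fun i z => by
    constructor
    · rintro (a | a)
      · exact ⟨((rs i).2.2.2.1.ge (Or.inl ⟨sole_s g i a.1, fun b => a.2 ((e1 i z a.1).1 b)⟩)).1, a.1⟩
      · exact ⟨((rs i).2.2.2.1.ge (Or.inr ((e2 i z a.1).2 a.2))).1, a.1⟩
    · rintro ⟨a, b⟩
      rcases (rs i).2.2.2.1.le ⟨a, sole_s g i b⟩ with c | c
      · exact Or.inl ⟨b, fun d => c.2 ((e1 i z b).2 d)⟩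
      · exact Or.inr ⟨b, (e2 i z b).1 c⟩
  have op : ∀ z, z ∈ D0 \ C0 ↔ z ∈ D ∧ z ∉ C ∧ z ∉ ⋃ t ∈ T false, t.1 := fun z => by
    constructor
    · rintro ⟨a | a, b⟩
      · exact ⟨a.1, fun c => b (Or.inl ⟨c, a.2⟩), a.2⟩
      · exact absurd (Or.inr a) b
    · rintro ⟨a, b, c⟩
      exact ⟨Or.inl ⟨a, c⟩, fun d => d.elim (fun d => b d.1) fun d => c (u21 _ d.2)⟩
  have all : ∀ (F : Bool → Set Z × Set Z → Set Z) z, (z ∈ ⋃ t ∈ 𝒯, ⋃ y ∈ A t, F y.1 y.2) ↔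
      ∃ i, z ∈ ⋃ u ∈ T i, F i u := fun F z => by
    simp only [mem_iUnion, exists_prop]
    constructor
    · rintro ⟨t, ht, y, hy, a⟩
      exact ⟨y.1, y.2, hs.mem t ht y hy, a⟩
    · rintro ⟨i, u, hu, a⟩
      obtain ⟨t, ht, hy⟩ := hs.cov i u hu
      exact ⟨t, ht, (i, u), hy, a⟩
  have vis : ∀ z ∈ S, (z ∈ ⋃ t ∈ 𝒯, t.1) ↔ ∃ i, z ∈ ⋃ u ∈ T i, u.1 := fun z hz => by
    rw [← all (fun _ u => u.1)]
    simp only [mem_iUnion₂]
    refine exists_congr fun t => exists_congr fun ht => ?_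
    rw [hs.t1 t ht, mem_inter_iff, and_iff_right hz, mem_iUnion₂]
  have ds : ∀ t ∈ 𝒯, (⋃ y ∈ A t, Df y.1 y.2) ∩ S = t.2 := fun t ht => by
    rw [hs.t2 t ht]
    ext z
    constructor
    · rintro ⟨a, b⟩
      obtain ⟨y, hy, a⟩ := mem_iUnion₂.1 a
      have m := hs.mem t ht y hy
      have fy := (h _).sub m
      exact ⟨b, mem_iUnion₂.2 ⟨y, hy, (h _).ds _ m ▸
        ⟨a, side _ z b (fy.2.2.2.2.2.2.2.1 (fy.2.2.2.2.1 a))⟩⟩⟩
    · rintro ⟨b, a⟩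
      obtain ⟨y, hy, a⟩ := mem_iUnion₂.1 a
      exact ⟨mem_iUnion₂.2 ⟨y, hy, ((h _).sub (hs.mem t ht y hy)).2.2.2.1 a⟩, b⟩
  have gl : ∀ t ∈ 𝒯, (A t).Nonempty ∧
      G σ (⋃ y ∈ A t, Lf y.1 y.2) (t.1 ∪ ⋃ y ∈ A t, Df y.1 y.2) := fun t ht => by
    obtain ⟨M, c, m1, m2⟩ := hs.ch t ht
    obtain ⟨ne, k⟩ := c.g g h (hs.mem t ht)
    refine ⟨ne, ?_⟩
    convert k using 1
    refine Subset.antisymm (union_subset_union_left _ m1) (union_subset (m2.trans ?_)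
      subset_union_right)
    exact union_subset_union_right _
      (iUnion₂_mono fun y hy => ((h _).sub (hs.mem t ht y hy)).2.2.2.1)
  refine ⟨R false ∪ R true, _, fun t => ⋃ y ∈ A t, Lf y.1 y.2, fun t => ⋃ y ∈ A t, Df y.1 y.2,
    hf, ?_, fun t ht => (gl t ht).2, hT, fun t ht => ⟨?_, ?_, ?_⟩, fun t ht => ?_, fun t ht => ?_,
    ds, ?_, ?_, rfl⟩
  · refine G.glue1 (h false).g (h true).g ⟨hs.d0.d, ?_, fun z hz => ?_, fun z hz => ?_, rfl, ?_⟩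
      hs.d0
    · ext z
      exact ⟨fun a => (RD false z).2 ⟨a.1, g.i ▸ ⟨(rs false).2.1 a.1, (rs true).2.1 a.2⟩⟩,
        fun a => ⟨((RD false z).1 a).1, ((RD true z).1 a).1⟩⟩
    · exact (rs false).2.2.2.2 ⟨((RD false z).1 hz).1, g.s1 ((RD false z).1 hz).2⟩
    · exact (rs true).2.2.2.2 ⟨((RD true z).1 hz).1, g.s2 ((RD true z).1 hz).2⟩
    · ext z
      have bo : z ∈ SR false ∪ SR true ↔ ∃ i, z ∈ SR i := by
        rw [Bool.exists_bool]; rfl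
      rw [mem_sdiff, bo, op, mem_union, all]
      constructor
      · rintro (⟨a, b⟩ | ⟨i, a⟩)
        · rw [vis z a] at b
          refine ⟨?_, fun c => c.2.1 (sole_rim g a c.1)⟩
          rcases (g.r ▸ a : z ∈ (Sb false ∪ Sb true) \ (D \ C)).1 with c | c
          · exact ⟨false, (h false).r ▸ Or.inl ⟨c, fun d => b ⟨_, d⟩⟩⟩
          · exact ⟨true, (h true).r ▸ Or.inl ⟨c, fun d => b ⟨_, d⟩⟩⟩
        · refine ⟨⟨i, (h i).r ▸ Or.inr a⟩, fun c => c.2.2 ((e1 i z c.1).1 (u21 i ?_))⟩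
          obtain ⟨u, hu, a⟩ := mem_iUnion₂.1 a
          exact mem_iUnion₂.2 ⟨u, hu, (h i).ds u hu ▸ ⟨a, sole_s g i c.1⟩⟩
      · rintro ⟨⟨i, a⟩, b⟩
        rw [(h i).r] at a
        rcases a with a | a
        · have zS : z ∈ S := off i z a.1 fun c => by
            by_contra d
            exact b ⟨c, d, fun e => a.2 ((e1 i z c).2 e)⟩
          refine Or.inl ⟨zS, fun c => ?_⟩
          obtain ⟨j, c⟩ := (vis z zS).1 c
          by_cases e : i = j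
          · exact a.2 (e ▸ c)
          · obtain ⟨u, hu, d⟩ := mem_iUnion₂.1 c
            have zD := sole_D g e ((rs i).2.2.1 a.1) ((rs j).2.2.1 (((h j).sub hu).1 d))
            exact a.2 ((e1 i z zD).2 ((e1 j z zD).1 c))
        · exact Or.inr ⟨i, a⟩
  · have tS : t.1 ⊆ S := hs.t1 t ht ▸ inter_subset_left
    exact sole_far ok (gl t ht).2 (hT t ht) (fun z hz => ds t ht ▸ ⟨hz.1, tS hz.2⟩)
      fun z hz => ((ds t ht).ge hz).1
  · rw [hs.t2 t ht]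
    refine disjoint_left.2 fun z hz k => ?_
    obtain ⟨y, hy, a⟩ := mem_iUnion₂.1 hz.2
    exact disjoint_left.1 ((h _).dd _ (hs.mem t ht y hy)).c a k
  · obtain ⟨y, hy⟩ := (gl t ht).1
    obtain ⟨z, k, a⟩ := ((h _).dd _ (hs.mem t ht y hy)).k
    exact ⟨z, k, mem_iUnion₂.2 ⟨y, hy, a⟩⟩
  · rw [hs.t1 t ht]
    ext z
    constructor
    · rintro ⟨a, b⟩
      obtain ⟨y, hy, a⟩ := mem_iUnion₂.1 a
      have m := hs.mem t ht y hy
      exact ⟨b, mem_iUnion₂.2 ⟨y, hy, (h _).ls _ m ▸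
        ⟨a, side _ z b (((h _).sub m).2.2.2.2.2.2.2.1 a)⟩⟩⟩
    · rintro ⟨b, a⟩
      obtain ⟨y, hy, a⟩ := mem_iUnion₂.1 a
      exact ⟨mem_iUnion₂.2 ⟨y, hy, ((h _).sub (hs.mem t ht y hy)).2.1 a⟩, b⟩
  · ext z
    constructor
    · rintro ⟨a, b⟩
      obtain ⟨y, hy, a⟩ := mem_iUnion₂.1 a
      have m := hs.mem t ht y hy
      refine mem_iUnion₂.2 ⟨y, hy, (h _).lr _ m ▸ ⟨a, ?_⟩⟩
      obtain ⟨j, b⟩ : ∃ j, z ∈ R j := b.elim (fun b => ⟨_, b⟩) fun b => ⟨_, b⟩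
      by_cases e : y.1 = j
      · exact e ▸ b
      · have zD := sole_D g e (((h _).sub m).2.2.2.2.2.2.2.1 a) ((rs j).2.1 b)
        exact ((RD _ z).1 ((RD j z).2 ⟨b, zD⟩)).1
    · intro a
      obtain ⟨⟨i, u⟩, hy, a⟩ := mem_iUnion₂.1 a
      have fy := (h _).sub (hs.mem t ht _ hy)
      refine ⟨mem_iUnion₂.2 ⟨_, hy, fy.2.2.2.2.1 a⟩, ?_⟩
      cases i
      · exact Or.inl (fy.2.2.2.2.2.1 a)
      · exact Or.inr (fy.2.2.2.2.2.1 a)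
  · intro t ht t' ht' ne
    refine disjoint_left.2 fun z a b => ?_
    obtain ⟨y, hy, a⟩ := mem_iUnion₂.1 a
    obtain ⟨y', hy', b⟩ := mem_iUnion₂.1 b
    have d := disjoint_left.1 (hs.dj t ht t' ht' ne y hy y' hy')
    rcases sole_two g h (hs.mem t ht y hy) (hs.mem t' ht' y' hy') a b with rfl | ⟨-, -, p, q⟩
    · have fy := (h _).sub (hs.mem t ht y hy)
      obtain ⟨w, hw⟩ := fy.2.2.2.2.2.2.2.2.2.2
      exact d (fy.2.2.1 hw) (fy.2.2.1 hw)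
    · exact d p q
  · ext z
    rw [mem_union, all, Bool.exists_bool, g.u, (h false).u, (h true).u]
    simp only [mem_union]
    tauto

end Pool.Agent.Lib.MP_b7d179_gt
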