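import Pool.Agent.Lib.MP_b7d179_gt.U.SolC
import Pool.Agent.Lib.MP_b7d179_gt.U.SolE
import Pool.Agent.Lib.MP_b7d179_gt.U.JSplice

/-! Surgery across a wall, absorption of a lane, merging. -/

namespace Pool.Agent.Lib.MP_b7d179_gt

open Set Metric

variable {Z Z' : Type*} [MetricSpace Z] [MetricSpace Z']

variable {σ : Tw Z} {K B S B1 S1 B2 S2 R SR D C M M' X X₀ Λ E : Set Z}
  {𝒯 : Set (Set Z × Set Z)} {Lf Df : Set Z × Set Z → Set Z}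

theorem surg_sub (h : Dumb K S M X) : X ⊆ S := by
  obtain ⟨ι, -, W, C, W', C', a, p, q, h, -, rfl⟩ := h
  exact iUnion_subset fun i => (h i).2.1

/-- the part of a subset of `S` in the rim of one side -/
theorem surg_int (g : Gl B S B1 S1 B2 S2 D C) (h1 : Ball B1 S1) (h2 : Ball B2 S2) (hX : X ⊆ S) :
    X ∩ S1 = X ∩ (S ∩ B1) := by
  obtain ⟨th, -, e1, -, -, -, eD⟩ := g.th h1 h2
  refine Subset.antisymm (fun x hx => ⟨hx.1, hX hx.1, h1.rim_sub hx.2⟩) fun x hx => ⟨hx.1, ?_⟩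
  rw [e1]
  exact Or.inl hx.2

theorem surg_pcs (g : Gl B S B1 S1 B2 S2 D C) (h1 : Ball B1 S1) (h2 : Ball B2 S2)
    (hX : Dumb K S M X) (hM : Disjoint M C) (hc : Crs S1 S2 D C X) :
    Pcs K (fun i => cond i (S ∩ B2) (S ∩ B1)) C M X := by
  obtain ⟨th, eS, e1, e2, -⟩ := g.th h1 h2
  refine Dumb.pcs (O := fun i => cond i (S ∩ B2) (S ∩ B1)) th ?_ hM ?_
  · exact eS ▸ hX
  · exact e1 ▸ e2 ▸ hc

theorem surg_side (g : Gl B S B1 S1 B2 S2 D C) (h1 : Ball B1 S1) (h2 : Ball B2 S2) (hX : X ⊆ S)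
    (h : Pcs K (fun i => cond i (S ∩ B2) (S ∩ B1)) C M X) (hL : Lols K D C M (X ∩ C) Λ) :
    Dumb K S1 M (X ∩ S1 ∪ Λ) ∧ Dumb K S2 M (X ∩ S2 ∪ Λ) := by
  obtain ⟨th, -, e1, e2, -⟩ := g.th h1 h2
  have a : Dumb K (S ∩ B1 ∪ D) M (X ∩ (S ∩ B1) ∪ Λ) :=
    Pcs.side (O := fun i => cond i (S ∩ B2) (S ∩ B1)) th h hL false
  have b : Dumb K (S ∩ B2 ∪ D) M (X ∩ (S ∩ B2) ∪ Λ) :=
    Pcs.side (O := fun i => cond i (S ∩ B2) (S ∩ B1)) th h hL true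
  rw [← e1, ← surg_int g h1 h2 hX] at a
  rw [← e2, ← surg_int g.symm h2 h1 hX] at b
  exact ⟨a, b⟩

theorem surg_dumb (g : Gl B S B1 S1 B2 S2 D C) (h1 : Ball B1 S1) (h2 : Ball B2 S2)
    (hX : Dumb K S M X) (hM : Disjoint M C) (hc : Crs S1 S2 D C X) (hL : Lols K D C M (X ∩ C) Λ) :
    Dumb K S1 M (X ∩ S1 ∪ Λ) ∧ Dumb K S2 M (X ∩ S2 ∪ Λ) :=
  surg_side g h1 h2 (surg_sub hX) (surg_pcs g h1 h2 hX hM hc) hL

theorem surg (ok : σ.Ok0) (g : Gl B S B1 S1 B2 S2 D C) (hC : Disjoint C σ.K) (hX : Dumb σ.K S M X)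
    (hM : Disjoint M C) (hc : Crs S1 S2 D C X) (hL : Lols σ.K D C M' (X ∩ C) Λ)
    (s1 : SolU σ B1 S1 (X ∩ S1 ∪ Λ)) (s2 : SolU σ B2 S2 (X ∩ S2 ∪ Λ)) : SolU σ B S X := by
  have h1 := s1.good.ball ok
  have h2 := s2.good.ball ok
  have pc := surg_pcs g h1 h2 hX hM hc
  obtain ⟨d1, d2⟩ := surg_side g h1 h2 (surg_sub hX) (pc.mono (subset_univ _))
    (hL.mono (subset_univ _))
  obtain ⟨th, eS, e1, e2, -⟩ := g.th h1 h2
  obtain ⟨T, T', A, f, f', sp⟩ :=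
    splice (O := fun i => cond i (S ∩ B2) (S ∩ B1)) th ok.kcl hC pc hL
  have a : Fit σ.K (S ∩ B1 ∪ D) (X ∩ (S ∩ B1) ∪ Λ) (T false) := f false
  have b : Fit σ.K (S ∩ B2 ∪ D) (X ∩ (S ∩ B2) ∪ Λ) (T true) := f true
  rw [← e1, ← surg_int g h1 h2 (surg_sub hX)] at a
  rw [← e2, ← surg_int g.symm h2 h1 (surg_sub hX)] at b
  have f'' : Fit σ.K (S ∩ B1 ∪ S ∩ B2) X T' := f'
  have sp' : Splice σ.K D C (S ∩ B1 ∪ S ∩ B2) T T' A := sp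
  rw [← eS] at f'' sp'
  exact ⟨T', f'', Sol.splice (Bb := fun i => cond i B2 B1) (Sb := fun i => cond i S2 S1) ok g
    (fun | false => s1.indep ok (d1.nsu h1.sph) a | true => s2.indep ok (d2.nsu h2.sph) b)
    f''.fin f''.d sp'⟩

theorem surg_bell {W w W' w' a : Set Z} {p q : Z} (hS : Sph S) (h : Bell K W w W' w' a p q)
    (hs : W ∪ a ∪ W' ⊆ S) : NSU S (W ∪ a ∪ W') :=
  (rq_ns_bell hS h.w.d h.w'.d h.dj h.arc h.i h.i' hs).nsu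

theorem surg_left {l : Set Z} {e : Z} (h : Pop K D C e l) : e ∈ l :=
  (h.facts.2.1.ge rfl).1

/-- the good ball `B2` is joined to the lanes that end in the wall -/
theorem absorbU (ok : σ.Ok0) (g : Gl B S B1 S1 B2 S2 D C) (h2 : G σ B2 S2) (hC : Disjoint C σ.K)
    (hE : E.Finite) (hn : E.Nonempty) {l k : Z → Set Z}
    (hl : ∀ e ∈ E, Pop σ.K D C e (l e) ∧ Pop σ.K (S ∩ B1) C e (k e)) (dl : E.PairwiseDisjoint l)
    (dk : E.PairwiseDisjoint k) (n : NSU S1 X₀) (d : Disjoint X₀ D)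
    (dX : ∀ e ∈ E, Disjoint X₀ (k e)) (h : SolU σ B1 S1 (X₀ ∪ ⋃ e ∈ E, l e ∪ k e)) :
    SolU σ B S (X₀ ∪ (S ∩ B2 ∪ ⋃ e ∈ E, k e)) := by
  have b1 := h.good.ball ok
  have b2 := h2.ball ok
  obtain ⟨th, -, e1, -⟩ := g.th b1 b2
  obtain ⟨u, b, F1, F2, F3, F4⟩ := star_discs th ok.kcl hC hE hl dl dk n.compact.isClosed d dX
  rw [← e1] at F1
  have lk : ∀ e ∈ E, ∀ e' ∈ E, ∀ x ∈ l e, x ∈ k e' → x = e ∧ x = e' := fun e he e' he' x a c => by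
    have : x ∈ C := th.i1.le ⟨(hl e' he').2.facts.1 c, (hl e he).1.facts.1 a⟩
    exact ⟨(hl e he).1.facts.2.1.le ⟨a, this⟩, (hl e' he').2.facts.2.1.le ⟨c, this⟩⟩
  have nX : NSU S1 (X₀ ∪ ⋃ e ∈ E, l e ∪ k e) := by
    refine n.union (nsu_biUnion hE (fun e he => ?_) fun e he e' he' ne => ?_) ?_
    · obtain ⟨W, w, W', w', a, p, q, hb, -, -, eq⟩ := (hl e he).1.bell0 (hl e he).2
        (Subset.antisymm (fun x hx => (lk e he e he x hx.1 hx.2).1)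
          (singleton_subset_iff.2 ⟨surg_left (hl e he).1, surg_left (hl e he).2⟩))
      rw [← eq]
      refine surg_bell b1.sph hb ?_
      rw [eq]
      exact ((subset_biUnion_of_mem (u := fun e => l e ∪ k e) he).trans
        subset_union_right).trans h.sub
    · refine disjoint_left.2 ?_
      rintro x (a | a) (c | c)
      · exact disjoint_left.1 (dl he he' ne) a c
      · exact ne ((lk e he e' he' x a c).1.symm.trans (lk e he e' he' x a c).2)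
      · exact ne ((lk e' he' e he x c a).2.symm.trans (lk e' he' e he x c a).1)
      · exact disjoint_left.1 (dk he he' ne) a c
    · exact disjoint_iUnion₂_right.2 fun e he =>
        disjoint_union_right.2 ⟨d.mono_right (hl e he).1.facts.1, dX e he⟩
  obtain ⟨T₀, f₀, -⟩ := id h
  obtain ⟨V, hV, -, xV, kV⟩ := f₀.open b1.sph
  have cl : IsClosed (D ∪ ⋃ t ∈ u '' E, t.1) :=
    g.d.closed.union ((hE.image u).isClosed_biUnion fun t ht => (F1.d t ht).closed)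
  have dx : Disjoint X₀ (D ∪ ⋃ t ∈ u '' E, t.1) :=
    disjoint_union_right.2 ⟨d, disjoint_iUnion₂_right.2 fun t ht => (F2 t ht).1.symm⟩
  obtain ⟨T, fT, hT⟩ := n.fit (K := σ.K) (hV.sdiff cl)
    (fun x hx => ⟨xV (Or.inl hx), disjoint_left.1 dx hx⟩) fun x hx => by
      rcases kV ⟨⟨hx.1.1, hx.1.2.1⟩, hx.2⟩ with a | a
      · exact a
      · obtain ⟨t, ht, c⟩ := mem_iUnion₂.1 (F1.x a)
        exact (hx.1.2.2 (Or.inr (mem_iUnion₂.2 ⟨t, ht, c.1⟩))).elim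
  have fU := F1.union fT fun t ht v hv => disjoint_left.2 fun x a c =>
    (hT v hv c).2 (Or.inr (mem_iUnion₂.2 ⟨t, ht, a⟩))
  rw [union_comm _ X₀] at fU
  have u1 : (⋃ t ∈ u '' E, t.1) ⊆ B1 := iUnion₂_subset fun t ht => (F1.s t ht).trans b1.rim_sub
  have u2 : (⋃ t ∈ u '' E, t.2) ⊆ B1 :=
    iUnion₂_subset fun t ht => ((F1.d t ht).rim_sub.trans (F1.s t ht)).trans b1.rim_sub
  have eN : S ∩ (B2 ∪ ⋃ t ∈ u '' E, t.1) = S ∩ B2 ∪ (S ∩ B1 ∩ ⋃ t ∈ u '' E, t.1) := by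
    rw [inter_union_distrib_left, inter_assoc, inter_eq_right.2 u1]
  have eM : (S ∩ ⋃ t ∈ u '' E, t.2) = S ∩ B1 ∩ ⋃ t ∈ u '' E, t.2 := by
    rw [inter_assoc, inter_eq_right.2 u2]
  rw [← eN, ← eM] at F4
  have s := (h.indep ok nX fU).star ok g h2 (hn.image u)
    (fun t ht => disjoint_left.2 fun x a c => (hT t ht a).2 (Or.inl c)) hC
    (fun t ht => (F2 t ht).2) F4
  have kN : (⋃ e ∈ E, k e) ⊆ S ∩ B1 ∩ ⋃ t ∈ u '' E, t.1 := iUnion₂_subset fun e he x hx =>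
    ⟨(hl e he).2.facts.1 hx, mem_iUnion₂.2 ⟨u e, mem_image_of_mem u he, (F3 e he).1 hx⟩⟩
  have xB : ∀ x ∈ S1, x ∈ B2 → x ∈ D := fun x a c => g.i.le ⟨b1.rim_sub a, c⟩
  refine s.spine ok ?_ ?_
  · rw [biUnion_insert, eN]
    rintro x (a | a | a)
    · obtain ⟨t, ht, c⟩ := mem_iUnion₂.1 (fT.x a)
      exact Or.inr (mem_iUnion₂.2 ⟨t, ht, c.1⟩)
    · exact Or.inl (Or.inl a)
    · exact Or.inl (Or.inr (kN a))
  · rintro t (rfl | ht)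
    · dsimp only
      rw [eN]
      constructor
      · have e : (X₀ ∪ (S ∩ B2 ∪ ⋃ e ∈ E, k e)) ∩ (S ∩ B2 ∪ (S ∩ B1 ∩ ⋃ t ∈ u '' E, t.1)) =
            S ∩ B2 ∪ ⋃ e ∈ E, k e := by
          refine Subset.antisymm ?_ fun x hx => ⟨Or.inr hx, hx.imp_right fun a => kN a⟩
          rintro x ⟨a | a, c | c⟩
          · exact (disjoint_left.1 d a (xB x (n.sub a) c.2)).elim
          · exact (disjoint_left.1 dx a (Or.inr c.2)).elim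
          · exact a
          · exact a
        rw [e]
        obtain ⟨e₀, h₀⟩ := hn
        have m : ∀ e ∈ E, e ∈ S ∩ B2 := fun e he => th.d2.rim_sub (hl e he).1.1
        refine ⟨⟨e₀, Or.inl (m e₀ h₀)⟩, isPreconnected_of_forall e₀ ?_⟩
        rintro y (a | a)
        · exact ⟨_, subset_union_left, m e₀ h₀, a, th.d2.conn⟩
        · obtain ⟨e, he, c⟩ := mem_iUnion₂.1 a
          exact ⟨S ∩ B2 ∪ k e, union_subset_union_right _ (subset_biUnion_of_mem (u := k) he),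
            Or.inl (m e₀ h₀), Or.inr c, th.d2.conn.union e (m e he) (surg_left (hl e he).2)
              (hl e he).2.facts.2.2.2.1.isPreconnected⟩
      · rintro x ⟨a, c | c⟩
        · exact Or.inr (Or.inl c)
        · obtain ⟨_, ⟨e, he, rfl⟩, c'⟩ := mem_iUnion₂.1 c.2
          exact Or.inr (Or.inr (mem_iUnion₂.2 ⟨e, he, (F3 e he).2 ⟨⟨a, c'⟩, c.1⟩⟩))
    · refine ⟨?_, (fT.k t ht).trans subset_union_left⟩
      have e : (X₀ ∪ (S ∩ B2 ∪ ⋃ e ∈ E, k e)) ∩ t.1 = X₀ ∩ t.1 := by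
        refine Subset.antisymm ?_ (inter_subset_inter_left _ subset_union_left)
        rintro x ⟨a | a | a, c⟩
        · exact ⟨a, c⟩
        · exact ((hT t ht c).2 (Or.inl (xB x (fT.s t ht c) a.2))).elim
        · exact ((hT t ht c).2 (Or.inr (kN a).2)).elim
      rw [e]
      exact fT.c t ht

/-- the case of one lane -/
theorem surg_one (ok : σ.Ok0) (g : Gl B S B1 S1 B2 S2 D C) (h2 : G σ B2 S2) (hC : Disjoint C σ.K)
    {l k : Set Z} {e : Z} (hl : Pop σ.K D C e l) (hk : Pop σ.K (S ∩ B1) C e k) (n : NSU S1 X₀)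
    (d : Disjoint X₀ D) (dX : Disjoint X₀ k) (h : SolU σ B1 S1 (X₀ ∪ (l ∪ k))) :
    SolU σ B S (X₀ ∪ (S ∩ B2 ∪ k)) := by
  have := absorbU (E := {e}) (l := fun _ => l) (k := fun _ => k) ok g h2 hC (finite_singleton e)
    (singleton_nonempty e) (fun _ he => he ▸ ⟨hl, hk⟩) (pairwiseDisjoint_singleton _ _)
    (pairwiseDisjoint_singleton _ _) n d (fun _ _ => dX) (by rwa [biUnion_singleton])
  rwa [biUnion_singleton] at this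

theorem surg_nsu (ok : σ.Ok0) (h : Sol σ B S 𝒯) {𝒰 : Set (Set Z × Set Z)} (hs : 𝒰 ⊆ 𝒯) :
    NSU S (⋃ t ∈ 𝒰, t.1) :=
  nsu_biUnion (h.facts.1.subset hs) (fun t ht => (rq_ns (h.good.ball ok).sph
    (h.facts.2.2 t (hs ht)).1 (h.facts.2.2 t (hs ht)).2.1).nsu) (h.facts.2.1.subset hs)

/-- two lanes are merged along a lane of the rest -/
theorem merge (ok : σ.Ok0) (h : SolD σ B S 𝒯 R SR Lf Df) {t₁ t₂ : Set Z × Set Z} (h₁ : t₁ ∈ 𝒯)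
    (h₂ : t₂ ∈ 𝒯) (hne : t₁ ≠ t₂) {a Λ₁ Λ₂ : Set Z} {e₁ e₂ : Z} (ha : Arc a e₁ e₂) (hs : a ⊆ S)
    (hK : Disjoint a σ.K) (i₁ : a ∩ t₁.1 = {e₁}) (i₂ : a ∩ t₂.1 = {e₂})
    (io : ∀ t ∈ 𝒯, t ≠ t₁ → t ≠ t₂ → Disjoint a t.1) (p₁ : Pop σ.K (Df t₁) t₁.2 e₁ Λ₁)
    (p₂ : Pop σ.K (Df t₂) t₂.2 e₂ Λ₂) (k₁ : (σ.K ∩ t₁.1).Nonempty)
    (hR : SolU σ R SR (Λ₁ ∪ a ∪ Λ₂)) : SolU σ B S (a ∪ ⋃ t ∈ 𝒯, t.1) := by
  obtain ⟨h', g2⟩ := h.peel h₂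
  have m₁ : t₁ ∈ 𝒯 \ {t₂} := ⟨h₁, hne⟩
  obtain ⟨h'', g1⟩ := h'.peel m₁
  have tL : ∀ t ∈ 𝒯, t.1 ⊆ Lf t := fun t ht => (h.sub ht).2.1
  have cT : ∀ t ∈ 𝒯, t.2 ⊆ t.1 := fun t ht => (h.sub ht).2.2.1
  have cD : ∀ t ∈ 𝒯, t.2 ⊆ Df t := fun t ht => (h.sub ht).2.2.2.1
  have dL : ∀ t ∈ 𝒯, Df t ⊆ Lf t := fun t ht => (h.sub ht).2.2.2.2.1
  have dR : ∀ t ∈ 𝒯, Df t ⊆ R := fun t ht => (h.sub ht).2.2.2.2.2.1
  have dj : ∀ t ∈ 𝒯, ∀ u ∈ 𝒯, t ≠ u → Disjoint (Lf t) (Lf u) := fun t ht u hu e => h.dj ht hu e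
  have aD : ∀ t ∈ 𝒯, a ∩ Df t ⊆ a ∩ t.1 := fun t ht x hx =>
    ⟨hx.1, cT t ht ((h.ds t ht).le ⟨hx.2, hs hx.1⟩)⟩
  have aR : a ⊆ R := (subset_union_right.trans subset_union_left).trans
    (hR.sub.trans (h.rs ok).1)
  have ai : ∀ t ∈ 𝒯, ∀ e Y, a ∩ t.1 = {e} → e ∈ Y → Y ⊆ Df t → a ∩ Y = {e} :=
    fun t ht e Y i he hY => Subset.antisymm (fun x hx => i.le (aD t ht ⟨hx.1, hY hx.2⟩))
      (singleton_subset_iff.2 ⟨(i.ge rfl).1, he⟩)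
  have L₁ := p₁.facts.1.trans (dL _ h₁)
  have L₂ := p₂.facts.1.trans (dL _ h₂)
  have xL : ∀ u ∈ 𝒯, (u = t₁ ∨ u = t₂) → ∀ Y ⊆ Lf u,
      Disjoint (⋃ t ∈ (𝒯 \ {t₂}) \ {t₁}, t.1) Y := fun u hu e Y hY =>
    disjoint_iUnion₂_left.2 fun t ht => (dj t ht.1.1 u hu fun k =>
      e.elim (fun l => ht.2 (k.trans l)) fun l => ht.1.2 (k.trans l)).mono (tL t ht.1.1) hY
  have xa : Disjoint (⋃ t ∈ (𝒯 \ {t₂}) \ {t₁}, t.1) a :=
    disjoint_iUnion₂_left.2 fun t ht => (io t ht.1.1 ht.2 ht.1.2).symm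
  have nR : NSU SR (Λ₁ ∪ a ∪ Λ₂) := by
    obtain ⟨W, w, W', w', b, p, q, hb, -, -, -, -, eq⟩ := p₁.bell p₂ ha hK
      (ai _ h₁ _ _ i₁ (surg_left p₁) p₁.facts.1) (ai _ h₂ _ _ i₂ (surg_left p₂) p₂.facts.1)
      ((dj _ h₁ _ h₂ hne).mono L₁ L₂)
    rw [← eq]
    exact surg_bell (h.g.ball ok).sph hb (eq.symm ▸ hR.sub)
  have s0 := h''.transU ok hR nR fun t ht => disjoint_union_left.2 ⟨disjoint_union_left.2
    ⟨(dj _ h₁ t ht.1.1 (Ne.symm ht.2)).mono L₁ (dL t ht.1.1), disjoint_left.2 fun x c c' =>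
      disjoint_left.1 (io t ht.1.1 ht.2 ht.1.2) c (aD t ht.1.1 ⟨c, c'⟩).2⟩,
    (dj _ h₂ t ht.1.1 (Ne.symm ht.1.2)).mono L₂ (dL t ht.1.1)⟩
  rw [union_assoc Λ₁] at s0
  have s1 := surg_one ok g1 (h.gl _ h₁) (h.dd _ h₁).c p₁ (p₂.extend
    (fun x hx => ⟨⟨Or.inr hx, Or.inl (dR _ h₂ hx)⟩, fun c => disjoint_left.1 (dj _ h₁ _ h₂ hne)
      (dL _ h₁ (cD _ h₁ c)) (dL _ h₂ hx)⟩) p₁.1 ha
    (fun x hx => ⟨by
      by_cases c : x ∈ t₂.1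
      · exact Or.inr ((i₂.le ⟨hx, c⟩ : x = e₂) ▸ cD _ h₂ p₂.1)
      · exact Or.inl ⟨hs hx, c⟩, Or.inl (aR hx)⟩)
    (ai _ h₁ _ _ i₁ p₁.1 (cD _ h₁)) (ai _ h₂ _ _ i₂ (cD _ h₂ p₂.1) subset_rfl) hK)
    (surg_nsu ok ⟨_, _, _, _, h''⟩ subset_rfl) (xL _ h₁ (Or.inl rfl) _ (dL _ h₁))
    (disjoint_union_right.2 ⟨xa, xL _ h₂ (Or.inr rfl) _ L₂⟩) s0
  rw [inter_comm, h'.ls _ m₁, ← union_assoc t₁.1, union_comm _ Λ₂] at s1
  have s2 := surg_one ok g2 (h.gl _ h₂) (h.dd _ h₂).c p₂ ⟨p₂.1, a, t₁.1, t₁.2, e₁,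
    ⟨ha.symm, h.dt _ h₁, i₁, p₁.1⟩, ⟨h.dt _ h₁, (h.dd _ h₁).c, k₁⟩,
    fun x hx => ⟨⟨(h.sub h₁).1 hx, Or.inr (mem_iUnion₂.2 ⟨t₁, m₁, tL _ h₁ hx⟩)⟩, fun c =>
      disjoint_left.1 (dj _ h₁ _ h₂ hne) (tL _ h₁ hx) (dL _ h₂ (cD _ h₂ c))⟩, hK,
    fun x hx => ⟨hs hx, Or.inl (aR hx)⟩, ai _ h₂ _ _ i₂ p₂.1 (cD _ h₂), rfl⟩
    (surg_nsu ok ⟨_, _, _, _, h'⟩ sdiff_subset) (xL _ h₂ (Or.inr rfl) _ (dL _ h₂))
    (disjoint_union_right.2 ⟨xL _ h₁ (Or.inl rfl) _ (tL _ h₁), xa⟩) s1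
  rw [inter_comm, h.ls _ h₂] at s2
  have e : (⋃ t ∈ (𝒯 \ {t₂}) \ {t₁}, t.1) ∪ (t₂.1 ∪ (t₁.1 ∪ a)) = a ∪ ⋃ t ∈ 𝒯, t.1 := by
    refine Subset.antisymm ?_ ?_
    · rintro x (c | c | c | c)
      · obtain ⟨t, ht, c⟩ := mem_iUnion₂.1 c
        exact Or.inr (mem_iUnion₂.2 ⟨t, ht.1.1, c⟩)
      · exact Or.inr (mem_iUnion₂.2 ⟨_, h₂, c⟩)
      · exact Or.inr (mem_iUnion₂.2 ⟨_, h₁, c⟩)
      · exact Or.inl c
    · rintro x (c | c)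
      · exact Or.inr (Or.inr (Or.inr c))
      · obtain ⟨t, ht, c⟩ := mem_iUnion₂.1 c
        by_cases c₂ : t = t₂
        · exact Or.inr (Or.inl (c₂ ▸ c))
        by_cases c₁ : t = t₁
        · exact Or.inr (Or.inr (Or.inl (c₁ ▸ c)))
        · exact Or.inl (mem_iUnion₂.2 ⟨t, ⟨⟨ht, c₂⟩, c₁⟩, c⟩)
  rwa [e] at s2

/-- a bud under the disc `T` without points of `K` joins two lanes -/
theorem merge2 (ok : σ.Ok0) {T r l₁ l₂ k₁ k₂ : Set Z} {p q : Z}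
    (h : SolD σ B S {(T, C)} R SR Lf Df) (hT : Disjoint T σ.K) (hr : Cc T C r p q)
    (a₁ : Pop σ.K (Df (T, C)) C p l₁) (a₂ : Pop σ.K (Df (T, C)) C q l₂) (dl : Disjoint l₁ l₂)
    (b₁ : Pop σ.K ((S \ T) ∪ C) C p k₁) (b₂ : Pop σ.K ((S \ T) ∪ C) C q k₂) (dk : Disjoint k₁ k₂)
    (hR : SolU σ R SR (l₁ ∪ k₁ ∪ (l₂ ∪ k₂))) : SolU σ B S (k₁ ∪ r ∪ k₂) := by
  classical
  have m : (T, C) ∈ ({(T, C)} : Set (Set Z × Set Z)) := rfl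
  have g := (h.peel m).2
  have eR := h.r
  have eS := (h.rs ok).2.2.2.1
  rw [biUnion_singleton, biUnion_singleton] at eR eS
  rw [sdiff_self, biUnion_empty, union_empty, ← eR] at g
  have eS' : S ∩ R = (S \ T) ∪ C := (inter_comm _ _).trans eS
  rw [← eS'] at b₁ b₂
  have ne := hr.arc.ne
  have pd : ∀ {x y : Set Z}, Disjoint x y →
      ({p, q} : Set Z).PairwiseDisjoint fun e => if e = p then x else y := fun d => by
    rintro e (rfl | rfl) e' (rfl | rfl) c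
    · exact (c rfl).elim
    · simpa [Function.onFun, ne.symm] using d
    · simpa [Function.onFun, ne.symm] using d.symm
    · exact (c rfl).elim
  have s := absorbU (E := {p, q}) (l := fun e => if e = p then l₁ else l₂)
    (k := fun e => if e = p then k₁ else k₂) (X₀ := ∅) ok g (h.gl _ m) (h.dd _ m).c
    (toFinite _) (insert_nonempty _ _) (by
      rintro e (rfl | rfl)
      · simpa using ⟨a₁, b₁⟩
      · simpa [ne.symm] using ⟨a₂, b₂⟩) (pd dl) (pd dk) nsu_empty (empty_disjoint _)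
    (fun _ _ => empty_disjoint _) (by simpa [ne.symm] using hR)
  have eT : S ∩ Lf (T, C) = T := (inter_comm _ _).trans (h.ls _ m)
  rw [biUnion_pair, if_pos rfl, if_neg ne.symm, eT] at s
  have dT : Disc T C := h.dt _ m
  have c₁ := b₁.facts.2.2.2.1.isPreconnected
  have c₂ := b₂.facts.2.2.2.1.isPreconnected
  have := s.shrink1 (Y' := k₁ ∪ r ∪ k₂) isClosed_empty
    (dT.closed.union (b₁.facts.2.2.1.isClosed.union b₂.facts.2.2.1.isClosed))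
    (by
      rw [← union_assoc]
      exact (dT.conn.union p (dT.rim_sub b₁.1) (surg_left b₁) c₁).union q
        (Or.inl (dT.rim_sub b₂.1)) (surg_left b₂) c₂)
    (empty_disjoint _) (by
      rintro x ((c | c) | c)
      · exact Or.inr (Or.inl c)
      · exact Or.inl (hr.sub c)
      · exact Or.inr (Or.inr c))
    ⟨⟨p, Or.inl (Or.inl (surg_left b₁))⟩, (c₁.union p (surg_left b₁) hr.arc.left hr.arc.conn).union q
      (Or.inr hr.arc.right) (surg_left b₂) c₂⟩ (by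
      rintro x ⟨c, c' | c' | c'⟩
      · exact (disjoint_left.1 hT c' c).elim
      · exact Or.inl (Or.inl c')
      · exact Or.inr c')
  rwa [empty_union] at this

end Pool.Agent.Lib.MP_b7d179_gt
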