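import Pool.Agent.Lib.MP_b7d179_gt.U.JPieceA

/-! Dumbbells cut by a curve into pieces on alternating sides. -/

namespace Pool.Agent.Lib.MP_b7d179_gt

open Set Metric

variable {Z Z' : Type*} [MetricSpace Z] [MetricSpace Z']

variable {K D C M M' X Λ : Set Z} {O : Bool → Set Z}

/-- introduction rule with any finite index set -/
theorem dumb_intro {ι : Type*} {s : Set ι} (hs : s.Finite) {S : Set Z} {W w W' w' a : ι → Set Z}
    {p q : ι → Z} (h : ∀ i ∈ s, Bell K (W i) (w i) (W' i) (w' i) (a i) (p i) (q i) ∧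
      W i ∪ a i ∪ W' i ⊆ S ∧ W i ∪ W' i ⊆ M) (hd : s.PairwiseDisjoint fun i => W i ∪ a i ∪ W' i) :
    Dumb K S M (⋃ i ∈ s, W i ∪ a i ∪ W' i) := by
  have := hs.to_subtype
  obtain ⟨n, ⟨e⟩⟩ := Finite.exists_equiv_fin s
  refine ⟨Fin n, inferInstance, fun i => W (e.symm i), fun i => w (e.symm i),
    fun i => W' (e.symm i), fun i => w' (e.symm i), fun i => a (e.symm i), fun i => p (e.symm i),
    fun i => q (e.symm i), fun i => h _ (e.symm i).2, fun i j k => hd (e.symm i).2 (e.symm j).2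
      fun l => k (e.symm.injective (Subtype.ext l)), ?_⟩
  rw [biUnion_eq_iUnion]
  exact (e.symm.surjective.iUnion_comp fun i : s => W i ∪ a i ∪ W' i).symm

theorem jp_intro {ι : Type*} {s : Set ι} (hs : s.Finite) {S : Set Z} {P : ι → Set Z}
    (h : ∀ i ∈ s, ∃ W w W' w' a p q, Bell K W w W' w' a p q ∧ W ∪ a ∪ W' = P i ∧ W ∪ W' ⊆ M)
    (hS : ∀ i ∈ s, P i ⊆ S) (hd : s.PairwiseDisjoint P) : Dumb K S M (⋃ i ∈ s, P i) := by
  have := hs.to_subtype
  choose W w W' w' a p q h1 h2 h3 using fun i : s => h i i.2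
  have := dumb_intro (s := univ) finite_univ (fun i _ => ⟨h1 i, h2 i ▸ hS i i.2, h3 i⟩)
    fun i _ j _ k => by
      simp only [Function.onFun, h2]
      exact hd i.2 j.2 fun l => k (Subtype.ext l)
  rw [biUnion_eq_iUnion]
  simpa only [h2, mem_univ, iUnion_true] using this

/-- two lollipops joined by an arc, or meeting in their foot point, form a dumbbell -/
theorem Pop.bell {D' C' l l' a : Set Z} {e e' : Z} (h : Pop K D C e l) (h' : Pop K D' C' e' l')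
    (ha : Arc a e e') (hK : Disjoint a K) (i : a ∩ l = {e}) (i' : a ∩ l' = {e'})
    (hd : Disjoint l l') : ∃ W w W' w' b p q, Bell K W w W' w' b p q ∧ W ⊆ D \ C ∧ W' ⊆ D' \ C' ∧
      W ⊆ l ∧ W' ⊆ l' ∧ W ∪ b ∪ W' = l ∪ a ∪ l' := by
  obtain ⟨c, η, Q, q, x, c1, c2, c3, c4, -, -, rfl⟩ := h
  obtain ⟨d, η', Q', q', x', d1, d2, d3, d4, -, -, rfl⟩ := h'
  obtain ⟨b, p, r, f, g⟩ := (je_lol c1 c2 (fun m => (c3 m).2 c) c4).bell
    (je_lol d1 d2 (fun m => (d3 m).2 d) d4) ha hK i i' hd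
  exact ⟨Q, q, Q', q', b, p, r, f, c3, d3, subset_union_left, subset_union_left, g⟩

theorem Pop.bell0 {D' C' l l' : Set Z} {e : Z} (h : Pop K D C e l) (h' : Pop K D' C' e l')
    (hd : l ∩ l' = {e}) : ∃ W w W' w' b p q, Bell K W w W' w' b p q ∧ W ⊆ D \ C ∧ W' ⊆ D' \ C' ∧
      W ∪ b ∪ W' = l ∪ l' := by
  obtain ⟨c, η, Q, q, x, c1, c2, c3, c4, -, -, rfl⟩ := h
  obtain ⟨d, η', Q', q', x', d1, d2, d3, d4, -, -, rfl⟩ := h'
  obtain ⟨b, p, r, f, g⟩ := (je_lol c1 c2 (fun m => (c3 m).2 c) c4).bell (je_self d2 d1.mem) d1.arc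
    d4 (subset_antisymm (fun z m => hd.le ⟨m.2, .inr m.1⟩)
      (singleton_subset_iff.2 ⟨d1.arc.left, .inr c1.arc.left⟩)) d1.inter
    (disjoint_left.2 fun z m o => (d3 ((hd.le ⟨m, .inl o⟩ :) ▸ o)).2 d)
  exact ⟨Q, q, Q', q', b, p, r, f, c3, d3, by rw [g, union_assoc, union_comm η']⟩

/-- an arc cut at finitely many inner points, in order -/
theorem Arc.chain {a E : Set Z} {p q : Z} (h : Arc a p q) (hE : (a ∩ E).Finite) (hp : p ∉ E)
    (hq : q ∉ E) : ∃ (n : ℕ) (b : ℕ → Set Z) (e : ℕ → Z), e 0 = p ∧ e (n + 1) = q ∧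
      (∀ j ≤ n, Arc (b j) (e j) (e (j + 1)) ∧ b j ∩ E ⊆ {e j, e (j + 1)}) ∧
      (∀ j < n, e (j + 1) ∈ E ∧ b j ∩ b (j + 1) = {e (j + 1)}) ∧
      (∀ j k, j + 1 < k → k ≤ n → Disjoint (b j) (b k)) ∧ a = ⋃ j ≤ n, b j :=
  have _ := And.intro hp hq
  jp_chain _ a p h hE.sdiff (Nat.lt_succ_self _)

/-- one dumbbell with discs in `M`, cut into the arcs `b 0, ..., b n` on the sides `s j` -/
structure Pc (K : Set Z) (O : Bool → Set Z) (C M W w W' w' : Set Z) (n : ℕ) (b : ℕ → Set Z)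
    (e : ℕ → Z) (s : ℕ → Bool) : Prop where
  bell : Bell K W w W' w' (⋃ j ≤ n, b j) (e 0) (e (n + 1))
  m : W ∪ W' ⊆ M
  w0 : W ⊆ O (s 0) \ C
  w1 : W' ⊆ O (s n) \ C
  arc : ∀ j ≤ n, Arc (b j) (e j) (e (j + 1)) ∧ b j ⊆ O (s j) ∧ b j ∩ C ⊆ {e j, e (j + 1)}
  alt : ∀ j < n, s (j + 1) = !s j ∧ e (j + 1) ∈ C ∧ b j ∩ b (j + 1) = {e (j + 1)}
  far : ∀ j k, j + 1 < k → k ≤ n → Disjoint (b j) (b k)

/-- all dumbbells of `X` are cut -/
def Pcs (K : Set Z) (O : Bool → Set Z) (C M X : Set Z) : Prop :=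
  ∃ (ι : Type) (_ : Finite ι) (W w W' w' : ι → Set Z) (n : ι → ℕ) (b : ι → ℕ → Set Z)
    (e : ι → ℕ → Z) (s : ι → ℕ → Bool),
    (∀ i, Pc K O C M (W i) (w i) (W' i) (w' i) (n i) (b i) (e i) (s i)) ∧
    Pairwise (Function.onFun Disjoint fun i => W i ∪ (⋃ j ≤ n i, b i j) ∪ W' i) ∧
    X = ⋃ i, W i ∪ (⋃ j ≤ n i, b i j) ∪ W' i

theorem jp_both (th : Th (O false) (O true) D C) {s t : Bool} {z : Z} (h : z ∈ O s) (k : z ∈ O t)
    (e : s ≠ t) : z ∈ C := by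
  cases s <;> cases t
  exacts [(e rfl).elim, th.i12.le ⟨h, k⟩, th.i12.le ⟨k, h⟩, (e rfl).elim]

theorem jp_sd (th : Th (O false) (O true) D C) {P : Set Z} (hP : IsPreconnected P)
    (hs : P ⊆ O false ∪ O true) (hd : Disjoint P C) : ∃ s, P ⊆ O s :=
  (Hemi.side ⟨th.d1, th.d2, th.i12, rfl⟩ hP hs hd).elim (⟨_, ·⟩) (⟨_, ·⟩)

theorem jp_od (th : Th (O false) (O true) D C) (s : Bool) : Disc (O s) C ∧ O s ∩ D = C := by
  cases s
  exacts [⟨th.d1, th.i1⟩, ⟨th.d2, th.i2⟩]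

theorem jp_one (th : Th (O false) (O true) D C) {W w W' w' a Y : Set Z} {p q : Z}
    (h : Bell K W w W' w' a p q) (hs : W ∪ a ∪ W' ⊆ O false ∪ O true) (hm : W ∪ W' ⊆ M)
    (hM : Disjoint M C) (hf : (a ∩ C).Finite) (hY : IsClosed Y) (hd : Disjoint Y a)
    (hc : ∀ z ∈ a ∩ C, ∀ t, z ∈ closure (((W ∪ a ∪ W' ∪ Y) ∩ O t) \ C)) :
    ∃ n b e s, Pc K O C M W w W' w' n b e s ∧ (⋃ j ≤ n, b j) = a := by
  have c1 : Disjoint W C := hM.mono_left (subset_union_left.trans hm)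
  have c2 : Disjoint W' C := hM.mono_left (subset_union_right.trans hm)
  obtain ⟨n, b, e, rfl, rfl, a3, a4, a5, rfl⟩ := h.arc.chain hf
    (disjoint_left.1 c1 (h.w.d.rim_sub h.m)) (disjoint_left.1 c2 (h.w'.d.rim_sub h.m'))
  have sb (j) (o : j ≤ n) : b j ⊆ ⋃ j ≤ n, b j := fun z r => mem_iUnion₂.2 ⟨j, o, r⟩
  have (j : ℕ) : ∃ s, j ≤ n → b j ⊆ O s := by
    by_cases o : j ≤ n
    · obtain ⟨s, k⟩ := jp_sd th (a3 j o).1.conn_open
        (fun z r => hs (.inl (.inr (sb j o r.1))))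
        (disjoint_left.2 fun z r m => r.2 ((a3 j o).2 ⟨r.1, m⟩))
      exact ⟨s, fun _ => ((a3 j o).1.dense (toFinite _)).trans
        (closure_minimal k (jp_od th s).1.closed)⟩
    · exact ⟨true, fun m => (o m).elim⟩
  choose s hs' using this
  have w0 {V v : Set Z} (d : Disc V v) (c : Disjoint V C) (u : V ⊆ O false ∪ O true) {t z}
      (m : z ∈ V) (o : z ∈ O t) : V ⊆ O t \ C := by
    obtain ⟨t', k⟩ := jp_sd th d.conn u c
    obtain rfl : t' = t := by_contra fun r => disjoint_left.1 c m (jp_both th (k m) o r)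
    exact fun y r => ⟨k r, disjoint_left.1 c r⟩
  refine ⟨n, b, e, s, ⟨h, hm, w0 h.w.d c1 (fun z r => hs (.inl (.inl r))) (h.w.d.rim_sub h.m)
    (hs' 0 n.zero_le (a3 0 n.zero_le).1.left), w0 h.w'.d c2 (fun z r => hs (.inr r))
    (h.w'.d.rim_sub h.m') (hs' n le_rfl (a3 n le_rfl).1.right),
    fun j o => ⟨(a3 j o).1, hs' j o, (a3 j o).2⟩, fun j o => ⟨?_, a4 j o⟩, a5⟩, rfl⟩
  by_contra k
  have k' : s (j + 1) = s j := by simpa using k
  have m1 := (a3 j o.le).1.right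
  have m2 := (a3 (j + 1) o).1.left
  have cl : IsClosed (W ∪ W' ∪ Y ∪ ⋃ i ∈ {i | i ≤ n ∧ i ≠ j ∧ i ≠ j + 1}, b i) :=
    ((h.w.d.closed.union h.w'.d.closed).union hY).union (((finite_le_nat n).subset
      fun _ r => r.1).isClosed_biUnion fun i r => (a3 i r.1).1.closed)
  have := closure_minimal (fun z r => ?_) cl (hc _ ⟨sb j o.le m1, (a4 j o).1⟩ (!s j))
  · obtain ((r | r) | r) | r := this
    · exact disjoint_left.1 c1 r (a4 j o).1
    · exact disjoint_left.1 c2 r (a4 j o).1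
    · exact disjoint_left.1 hd r (sb j o.le m1)
    · obtain ⟨i, u, v⟩ := mem_iUnion₂.1 r
      obtain g | g : i + 1 < j + 1 ∨ j + 1 < i := by have := u.2; omega
      · exact disjoint_left.1 (a5 _ _ g o) v m2
      · exact disjoint_left.1 (a5 _ _ g u.1) m1 v
  · obtain ⟨⟨((u | u) | u) | u, v⟩, x⟩ := r
    · exact .inl (.inl (.inl u))
    · obtain ⟨i, g, y⟩ := mem_iUnion₂.1 u
      refine .inr (mem_iUnion₂.2 ⟨i, ⟨g, ?_, ?_⟩, y⟩) <;> rintro rfl
      · exact x (jp_both th (hs' _ g y) v (by simp))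
      · exact x (jp_both th (hs' _ g y) v (by simp [k']))
    · exact .inl (.inl (.inr u))
    · exact .inl (.inr u)

theorem Dumb.pcs (th : Th (O false) (O true) D C) (hX : Dumb K (O false ∪ O true) M X)
    (hM : Disjoint M C) (hc : Crs (O false ∪ D) (O true ∪ D) D C X) : Pcs K O C M X := by
  obtain ⟨ι, _, W, w, W', w', a, p, q, h, d, rfl⟩ := hX
  have sa (i) : a i ⊆ ⋃ i, W i ∪ a i ∪ W' i := fun z r => mem_iUnion.2 ⟨i, .inl (.inr r)⟩
  have (i : ι) := jp_one th (h i).1 (h i).2.1 (h i).2.2 hM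
    (hc.1.subset (inter_subset_inter_left _ (sa i))) (Y := ⋃ j ∈ {j | j ≠ i}, W j ∪ a j ∪ W' j)
    ((toFinite _).isClosed_biUnion fun j _ =>
      ((h j).1.w.d.closed.union (h j).1.arc.closed).union (h j).1.w'.d.closed)
    (disjoint_iUnion₂_left.2 fun j k => (d k).mono_right
      (subset_union_right.trans subset_union_left)) fun z r t => by
      have k : z ∈ closure (((⋃ i, W i ∪ a i ∪ W' i) ∩ (O t ∪ D)) \ D) := by
        cases t
        exacts [(hc.2 z ⟨sa i r.1, r.2⟩).1, (hc.2 z ⟨sa i r.1, r.2⟩).2]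
      refine closure_mono (fun y o => ?_) k
      refine ⟨⟨?_, o.1.2.resolve_right o.2⟩, fun m => o.2 (th.d.rim_sub m)⟩
      obtain ⟨j, m⟩ := mem_iUnion.1 o.1.1
      by_cases g : j = i
      exacts [.inl (g ▸ m), .inr (mem_iUnion₂.2 ⟨j, g, m⟩)]
  choose n b e s h1 h2 using this
  exact ⟨ι, inferInstance, W, w, W', w', n, b, e, s, h1, by simpa only [h2] using d, by
    simp only [h2]⟩

section
variable {W w W' w' : Set Z} {n : ℕ} {b : ℕ → Set Z} {e : ℕ → Z} {s : ℕ → Bool}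

/-- the trunk of a piece -/
def jpT (W W' : Set Z) (n : ℕ) (b : ℕ → Set Z) (j : ℕ) : Set Z :=
  (if j = 0 then W else ∅) ∪ b j ∪ if j = n then W' else ∅

omit [MetricSpace Z] in
theorem jp_sb {j : ℕ} (o : j ≤ n) : b j ⊆ ⋃ j ≤ n, b j := fun _ r => mem_iUnion₂.2 ⟨j, o, r⟩

omit [MetricSpace Z] in
theorem jpT_sub {j : ℕ} (o : j ≤ n) : jpT W W' n b j ⊆ W ∪ (⋃ j ≤ n, b j) ∪ W' :=
  union_subset_union (union_subset_union (by split_ifs <;> simp) (jp_sb o)) (by split_ifs <;> simp)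

theorem Pc.jpO (h : Pc K O C M W w W' w' n b e s) {j : ℕ} (o : j ≤ n) :
    jpT W W' n b j ⊆ O (s j) := by
  refine union_subset (union_subset ?_ (h.arc j o).2.1) ?_ <;> split_ifs with k
  exacts [k ▸ h.w0.trans sdiff_le, empty_subset _, k ▸ h.w1.trans sdiff_le, empty_subset _]

theorem Pc.jpdj (h : Pc K O C M W w W' w' n b e s) {j k : ℕ} (o : j + 1 < k) (r : k ≤ n) :
    Disjoint (jpT W W' n b j) (jpT W W' n b k) := by
  have a := h.far j k o r
  rw [jpT, jpT, if_neg (show j ≠ n by omega), if_neg (show k ≠ 0 by omega), union_empty,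
    empty_union]
  refine disjoint_union_left.2 ⟨disjoint_union_right.2 ⟨?_, ?_⟩, disjoint_union_right.2 ⟨a, ?_⟩⟩
  · split_ifs with c
    · subst c
      exact disjoint_left.2 fun z x y => disjoint_left.1 a
        ((h.bell.i.le ⟨jp_sb r y, x⟩ :) ▸ (h.arc 0 n.zero_le).1.left) y
    · exact empty_disjoint _
  · exact h.bell.dj.mono (by split_ifs <;> simp) (by split_ifs <;> simp)
  · split_ifs with c
    · subst c
      exact disjoint_left.2 fun z x y => disjoint_left.1 a x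
        ((h.bell.i'.le ⟨jp_sb (by omega) x, y⟩ :) ▸ (h.arc k le_rfl).1.right)
    · exact disjoint_empty _

theorem Pc.jpcov (th : Th (O false) (O true) D C) (h : Pc K O C M W w W' w' n b e s) {t : Bool}
    {z : Z} (a : z ∈ W ∪ (⋃ j ≤ n, b j) ∪ W') (c : z ∈ O t) :
    ∃ j ≤ n, s j = t ∧ z ∈ jpT W W' n b j := by
  obtain (a | a) | a := a
  · exact ⟨0, n.zero_le, by_contra fun k => (h.w0 a).2 (jp_both th (h.w0 a).1 c k),
      .inl (.inl (by rwa [if_pos rfl]))⟩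
  · obtain ⟨j, o, a⟩ := mem_iUnion₂.1 a
    by_cases k : s j = t
    · exact ⟨j, o, k, .inl (.inr a)⟩
    have d := jp_both th ((h.arc j o).2.1 a) c k
    obtain rfl | rfl := (h.arc j o).2.2 ⟨a, d⟩
    · obtain _ | j := j
      · exact ((h.w0 (h.bell.w.d.rim_sub h.bell.m)).2 d).elim
      · refine ⟨j, by omega, ?_, .inl (.inr (h.arc j (by omega)).1.right)⟩
        rw [(h.alt j o).1] at k
        simpa using k
    · obtain rfl | r := o.eq_or_lt
      · exact ((h.w1 (h.bell.w'.d.rim_sub h.bell.m')).2 d).elim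
      · refine ⟨j + 1, r, ?_, .inl (.inr (h.arc (j + 1) r).1.left)⟩
        rw [(h.alt j r).1]
        exact (Bool.eq_not_iff.2 (Ne.symm k)).symm
  · exact ⟨n, le_rfl, by_contra fun k => (h.w1 a).2 (jp_both th (h.w1 a).1 c k),
      .inr (by rwa [if_pos rfl])⟩

theorem Pc.jpl (h : Pc K O C M W w W' w' n b e s) {j : ℕ} (o : j ≤ n) :
    JT K (O (s j)) C M (b j) (if j = 0 then W else ∅) (e j) := by
  obtain _ | j := j
  · exact .inr ⟨w, h.bell.w, h.bell.m, subset_union_left.trans h.m, h.w0, subset_antisymm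
      (fun z r => h.bell.i.le ⟨jp_sb o r.1, r.2⟩)
      (singleton_subset_iff.2 ⟨(h.arc 0 o).1.left, h.bell.w.d.rim_sub h.bell.m⟩)⟩
  · exact .inl ⟨(h.alt j o).2.1, if_neg j.succ_ne_zero⟩

theorem Pc.jpr (h : Pc K O C M W w W' w' n b e s) {j : ℕ} (o : j ≤ n) :
    JT K (O (s j)) C M (b j) (if j = n then W' else ∅) (e (j + 1)) := by
  obtain rfl | r := o.eq_or_lt
  · rw [if_pos rfl]
    exact .inr ⟨w', h.bell.w', h.bell.m', subset_union_right.trans h.m, h.w1, subset_antisymm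
      (fun z r => h.bell.i'.le ⟨jp_sb o r.1, r.2⟩)
      (singleton_subset_iff.2 ⟨(h.arc j o).1.right, h.bell.w'.d.rim_sub h.bell.m'⟩)⟩
  · exact .inl ⟨(h.alt j r).2.1, if_neg r.ne⟩

end

/-- the part on one side, closed up by lollipops in the wall, is again a union of dumbbells -/
theorem Pcs.side (th : Th (O false) (O true) D C) (h : Pcs K O C M X)
    (hL : Lols K D C M (X ∩ C) Λ) (i : Bool) : Dumb K (O i ∪ D) M (X ∩ O i ∪ Λ) := by
  obtain ⟨l, hl, rfl⟩ := hL.jl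
  obtain ⟨ι, _, W, w, W', w', n, b, e, s, h, d, hX⟩ := h
  let I : Set (ι × ℕ) := {x | x.2 ≤ n x.1 ∧ s x.1 x.2 = i}
  let T (x : ι × ℕ) : Set Z := jpT (W x.1) (W' x.1) (n x.1) (b x.1) x.2
  have fin : I.Finite := (finite_iUnion fun k => (finite_le_nat (n k)).image (Prod.mk k)).subset
    fun x r => mem_iUnion.2 ⟨x.1, x.2, r.1, rfl⟩
  have t1 (x) (r : x ∈ I) : T x ⊆ X := fun z m => hX.ge (mem_iUnion.2 ⟨x.1, jpT_sub r.1 m⟩)
  have t2 (x) (r : x ∈ I) : T x ⊆ O i := r.2 ▸ (h x.1).jpO r.1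
  have t3 (z) (m : z ∈ X) (o : z ∈ O i) : ∃ x ∈ I, z ∈ T x := by
    obtain ⟨k, m⟩ := mem_iUnion.1 (hX.le m)
    obtain ⟨j, a, c, f⟩ := (h k).jpcov th m o
    exact ⟨(k, j), ⟨a, c⟩, f⟩
  have t4 : I.PairwiseDisjoint T := by
    rintro ⟨k, j⟩ a ⟨k', j'⟩ c f
    by_cases g : k = k'
    · subst g
      have u (j j') (a : (k, j) ∈ I) (c : (k, j') ∈ I) : j' ≠ j + 1 := by
        rintro rfl
        have := ((h k).alt j c.1).1
        rw [show s k j = i from a.2, show s k (j + 1) = i from c.2] at this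
        simp at this
      have := u j j' a c
      have := u j' j c a
      have : j ≠ j' := fun m => f (m ▸ rfl)
      obtain m | m : j + 1 < j' ∨ j' + 1 < j := by omega
      exacts [(h k).jpdj m c.1, ((h k).jpdj m a.1).symm]
    · exact (d g).mono (jpT_sub a.1) (jpT_sub c.1)
  have hO := (jp_od th i).2
  have := jp_intro (K := K) (M := M) (S := O i ∪ D) fin (fun x r => ?_) (fun x r => ?_)
    (jp_close hO hl (fun x r => ⟨t2 x r, inter_subset_inter_left _ (t1 x r)⟩) t4)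
  · convert this using 1
    ext z
    simp only [mem_union, mem_iUnion₂, exists_prop]
    constructor
    · rintro (m | ⟨y, m, o⟩)
      · obtain ⟨x, a, c⟩ := t3 z m.1 m.2
        exact ⟨x, a, .inl c⟩
      · obtain ⟨x, a, c⟩ := t3 y m.1 ((jp_od th i).1.rim_sub m.2)
        exact ⟨x, a, .inr ⟨y, ⟨c, m.2⟩, o⟩⟩
    · rintro ⟨x, a, m | ⟨y, m, o⟩⟩
      exacts [.inl ⟨t1 x a m, t2 x a m⟩, .inr ⟨y, ⟨t1 x a m.1, m.2⟩, o⟩]
  · have a := (h x.1).arc x.2 r.1
    exact jp_piece (r.2 ▸ hO) hl a.1 a.2.1 a.2.2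
      (inter_subset_inter_left _ ((subset_union_right.trans subset_union_left).trans (t1 x r)))
      ((h x.1).bell.k.mono_left (jp_sb r.1)) ((h x.1).jpl r.1) ((h x.1).jpr r.1)
      ((h x.1).bell.dj.mono (by split_ifs <;> simp) (by split_ifs <;> simp))
  · exact union_subset_union (t2 x r) (iUnion₂_subset fun y m => hl.d y ⟨t1 x r m.1, m.2⟩)

theorem Dumb.mono (h : Dumb K D M X) (hM : M ⊆ M') : Dumb K D M' X := by
  obtain ⟨ι, _, W, w, W', w', a, p, q, h, d⟩ := h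
  exact ⟨ι, inferInstance, W, w, W', w', a, p, q,
    fun i => ⟨(h i).1, (h i).2.1, (h i).2.2.trans hM⟩, d⟩

theorem Lols.mono {E : Set Z} (h : Lols K D C M E Λ) (hM : M ⊆ M') : Lols K D C M' E Λ := by
  obtain ⟨a, b, W, w, η, x, c, d⟩ := h
  exact ⟨a, b, W, w, η, x, fun e k => ⟨(c e k).1, (c e k).2.1,
    (c e k).2.2.1.trans (inter_subset_inter_left _ hM), (c e k).2.2.2⟩, d⟩

theorem Pcs.mono (h : Pcs K O C M X) (hM : M ⊆ M') : Pcs K O C M' X := by
  obtain ⟨ι, _, W, w, W', w', n, b, e, s, h, d⟩ := h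
  exact ⟨ι, inferInstance, W, w, W', w', n, b, e, s, fun i => ⟨(h i).bell, (h i).m.trans hM,
    (h i).w0, (h i).w1, (h i).arc, (h i).alt, (h i).far⟩, d⟩

end Pool.Agent.Lib.MP_b7d179_gt
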