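import Pool.Agent.Lib.MP_b7d179_gt.U.SolB

/-! Gluing away from the cut discs, cuts of the rest. -/

namespace Pool.Agent.Lib.MP_b7d179_gt

open Set Metric

variable {Z Z' : Type*} [MetricSpace Z] [MetricSpace Z']

variable {σ : Tw Z} {B S B1 S1 B2 S2 R SR D C X X1 X2 : Set Z}
  {𝒯 𝒯1 𝒯2 : Set (Set Z × Set Z)} {Lf Df : Set Z × Set Z → Set Z}

/-- the facts on one lane, pointwise -/
theorem SolD.solc_pt (h : SolD σ B S 𝒯 R SR Lf Df) {t : Set Z × Set Z} (ht : t ∈ 𝒯) (x : Z) :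
    (x ∈ t.1 ↔ x ∈ Lf t ∧ x ∈ S) ∧ (x ∈ Df t ↔ x ∈ Lf t ∧ x ∈ R) ∧ (x ∈ t.2 ↔ x ∈ Df t ∧ x ∈ S) ∧
      (x ∈ Lf t → x ∈ B) ∧ (x ∈ Df t → x ∈ SR) := by
  obtain ⟨-, -, -, -, -, -, a, b, -⟩ := h.sub ht
  exact ⟨(Set.ext_iff.1 (h.ls t ht) x).symm, (Set.ext_iff.1 (h.lr t ht) x).symm,
    (Set.ext_iff.1 (h.ds t ht) x).symm, @b x, @a x⟩

/-- the facts on the rest, pointwise -/
theorem SolD.solc_rs (ok : σ.Ok0) (h : SolD σ B S 𝒯 R SR Lf Df) (x : Z) :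
    (x ∈ SR → x ∈ R) ∧ (x ∈ R → x ∈ B) ∧ (x ∈ S → x ∈ B) ∧ (x ∈ R → x ∈ S → x ∈ SR) ∧
      (x ∈ SR ↔ (x ∈ S ∧ ∀ t ∈ 𝒯, x ∉ t.1) ∨ ∃ t ∈ 𝒯, x ∈ Df t) := by
  obtain ⟨a, b, c, -, d⟩ := h.rs ok
  exact ⟨@a x, @b x, @c x, fun p q => d ⟨p, q⟩, by rw [h.r]; simp⟩

theorem Gl.solc_pt (g : Gl B S B1 S1 B2 S2 D C) (x : Z) : (x ∈ D ↔ x ∈ B1 ∧ x ∈ B2) ∧
    (x ∈ D → x ∈ S1) ∧ (x ∈ D → x ∈ S2) ∧ (x ∈ S ↔ (x ∈ S1 ∨ x ∈ S2) ∧ ¬ (x ∈ D ∧ x ∉ C)) :=
  ⟨(Set.ext_iff.1 g.i x).symm, @g.s1 x, @g.s2 x, Set.ext_iff.1 g.r x⟩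

/-- a good neighbour away from the cut discs goes to the rest -/
theorem SolD.solc_side (ok : σ.Ok0) (h : SolD σ B1 S1 𝒯 R SR Lf Df) (g : Gl B S B1 S1 B2 S2 D C)
    (hD : KD σ.K D C) (h2 : G σ B2 S2) (d : ∀ t ∈ 𝒯, Disjoint t.1 D) :
    Gl (R ∪ B2) ((SR ∪ S2) \ (D \ C)) R SR B2 S2 D C ∧
      SolD σ B S 𝒯 (R ∪ B2) ((SR ∪ S2) \ (D \ C)) Lf Df := by
  have a := h.solc_rs ok
  have b := g.solc_pt
  have c : ∀ x, x ∈ S2 → x ∈ B2 := (h2.ball ok).rim_sub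
  have d' : ∀ t ∈ 𝒯, ∀ x, x ∈ t.1 → x ∉ D := fun t k => disjoint_left.1 (d t k)
  have e : ∀ x, x ∈ D → x ∈ SR := fun x k => (a x).2.2.2.2.2 (.inl ⟨g.s1 k, fun t q p => d' t q x p k⟩)
  have g' : Gl (R ∪ B2) ((SR ∪ S2) \ (D \ C)) R SR B2 S2 D C :=
    ⟨g.d, Set.ext fun x => by have := a x; have := b x; have := e x; grind, e, g.s2, rfl, rfl⟩
  refine ⟨g', h.fin, .glue1 h.g h2 g' hD, h.gl, h.dt, h.dd, fun t k => Set.ext fun x => ?_,
    fun t k => Set.ext fun x => ?_, fun t k => Set.ext fun x => ?_, h.dj, ?_, Set.ext fun x => ?_⟩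
  iterate 3
    have := h.solc_pt k x; have := b x; have := c x; have := d' t k x; grind
  · rw [g.u, union_right_comm, ← h.u]
  · have := (a x).2.2.2.2
    have := b x
    have := c x
    have f : ∀ t ∈ 𝒯, (x ∈ Df t → x ∉ D) ∧ (x ∈ t.1 → x ∉ D ∧ x ∉ S2) := fun t k => by
      have := h.solc_pt k x; have := d' t k x; grind
    simp only [mem_sdiff, mem_union, mem_iUnion, exists_prop]
    grind

theorem SolD.trans (ok : σ.Ok0) (h : SolD σ B S 𝒯 R SR Lf Df) (h2 : Sol σ R SR 𝒯2)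
    (hd : ∀ u ∈ 𝒯2, ∀ t ∈ 𝒯, Disjoint u.1 (Df t)) : Sol σ B S (𝒯 ∪ 𝒯2) := by
  classical
  obtain ⟨R2, SR2, L2, D2, h2⟩ := h2
  have a := h.solc_rs ok
  have b := h2.solc_rs ok
  have d : ∀ u ∈ 𝒯2, ∀ t ∈ 𝒯, ∀ x, x ∈ u.1 → x ∉ Df t := fun u k t q =>
    disjoint_left.1 (hd u k t q)
  have n : ∀ u ∈ 𝒯2, u ∉ 𝒯 := fun u k q => by
    obtain ⟨-, -, p, r, -, -, -, -, -, -, x, hx⟩ := h.sub q
    exact d u k u q x (p hx) (r hx)
  have key : ∀ {P : Set Z × Set Z → Set Z → Set Z → Prop}, (∀ t ∈ 𝒯, P t (Lf t) (Df t)) →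
      (∀ t ∈ 𝒯2, P t (L2 t) (D2 t)) → ∀ t ∈ 𝒯 ∪ 𝒯2,
        P t (𝒯.piecewise Lf L2 t) (𝒯.piecewise Df D2 t) := by
    rintro P p q t (k | k)
    · simpa [k] using p t k
    · simpa [n t k] using q t k
  have un : ∀ f g : Set Z × Set Z → Set Z,
      ⋃ t ∈ 𝒯 ∪ 𝒯2, 𝒯.piecewise f g t = (⋃ t ∈ 𝒯2, g t) ∪ ⋃ t ∈ 𝒯, f t := fun f g => by
    rw [biUnion_union, union_comm]
    congr 1
    · exact iUnion₂_congr fun t k => by simp [n t k]
    · exact iUnion₂_congr fun t k => by simp [k]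
  have dj : ∀ u ∈ 𝒯2, ∀ t ∈ 𝒯, Disjoint (L2 u) (Lf t) := fun u k t q => disjoint_left.2 fun x => by
    have := h.solc_pt q x; have := h2.solc_pt k x; have := d u k t q x; grind
  have e : ∀ u ∈ 𝒯2, ∀ x, x ∈ u.1 → x ∈ S := fun u k x p => by
    obtain r | ⟨t, q, r⟩ := (a x).2.2.2.2.1 ((h2.sub k).1 p)
    exacts [r.1, (d u k t q x p r).elim]
  refine ⟨R2, SR2, 𝒯.piecewise Lf L2, 𝒯.piecewise Df D2, h.fin.union h2.fin, h2.g,
    key (P := fun t L D => G σ L (t.1 ∪ D)) h.gl h2.gl, key (P := fun t _ _ => Disc t.1 t.2) h.dt h2.dt,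
    key (P := fun t _ D => KD σ.K D t.2) h.dd h2.dd,
    key (P := fun t L _ => L ∩ S = t.1) h.ls fun u k => Set.ext fun x => ?_,
    key (P := fun _ L D => L ∩ R2 = D) (fun t k => Set.ext fun x => ?_) h2.lr,
    key (P := fun t _ D => D ∩ S = t.2) h.ds fun u k => Set.ext fun x => ?_, ?_, ?_,
    Set.ext fun x => ?_⟩
  · have := h2.solc_pt k x; have := (a x).2.2.2.1; have := e u k x; grind
  · have := h.solc_pt k x
    have : x ∈ Df t → x ∈ R2 := fun p =>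
      (b x).1 ((b x).2.2.2.2.2 (.inl ⟨this.2.2.2.2 p, fun u q r => d u q t k x r p⟩))
    have := (b x).2.1
    grind
  · have := h2.solc_pt k x; have := (a x).2.2.2.1; have := e u k x; grind
  · rintro t (k | k) u (q | q) r
    · simpa [Function.onFun, k, q] using h.dj k q r
    · simpa [Function.onFun, k, n u q] using (dj u q t k).symm
    · simpa [Function.onFun, q, n t k] using dj t k u q
    · simpa [Function.onFun, n t k, n u q] using h2.dj k q r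
  · rw [un, ← union_assoc, ← h2.u, ← h.u]
  · have := (a x).2.2.2.2
    have := (b x).2.2.2.2
    have := fun u k t q => d u k t q x
    rw [un, biUnion_union]
    simp only [mem_sdiff, mem_union, mem_iUnion, exists_prop]
    grind

theorem Sol.both (ok : σ.Ok0) (g : Gl B S B1 S1 B2 S2 D C) (hD : KD σ.K D C) (h1 : Sol σ B1 S1 𝒯1)
    (h2 : Sol σ B2 S2 𝒯2) (d1 : ∀ t ∈ 𝒯1, Disjoint t.1 D) (d2 : ∀ t ∈ 𝒯2, Disjoint t.1 D) :
    Sol σ B S (𝒯1 ∪ 𝒯2) := by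
  obtain ⟨R, SR, L, Df, h⟩ := h1
  obtain ⟨g', h'⟩ := h.solc_side ok g hD h2.good d1
  obtain ⟨R2, SR2, L2, D2, k⟩ := h2
  refine h'.trans ok ⟨_, _, _, _, (k.solc_side ok g'.symm hD h.g d2).2⟩ fun u p t q =>
    disjoint_left.2 fun x => ?_
  have := h.solc_pt q x
  have := k.solc_pt p x
  have := g.solc_pt x
  have : x ∈ u.1 → x ∉ D := fun k => disjoint_left.1 (d2 u p) k
  grind

theorem Gl.solc_off (g : Gl B S B1 S1 B2 S2 D C) : S1 ∩ Dᶜ ⊆ S := fun x h => by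
  have := g.solc_pt x
  grind

theorem SolU.both (ok : σ.Ok0) (g : Gl B S B1 S1 B2 S2 D C) (hD : KD σ.K D C)
    (h1 : SolU σ B1 S1 X1) (h2 : SolU σ B2 S2 X2) (n1 : NSU S1 X1) (n2 : NSU S2 X2)
    (d1 : Disjoint X1 D) (d2 : Disjoint X2 D) : SolU σ B S (X1 ∪ X2) := by
  obtain ⟨𝒯1, a1, b1, c1⟩ := h1.thin ok n1 g.d.closed.isOpen_compl d1.subset_compl_right
  obtain ⟨𝒯2, a2, b2, c2⟩ := h2.thin ok n2 g.d.closed.isOpen_compl d2.subset_compl_right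
  refine ⟨_, (a1.transfer fun t k x p => g.solc_off ⟨a1.s t k p, c1 t k p⟩).union
    (a2.transfer fun t k x p => g.symm.solc_off ⟨a2.s t k p, c2 t k p⟩) fun t k u q =>
      disjoint_left.2 fun x p r => c1 t k p ?_, Sol.both ok g hD b1 b2
    (fun t k => subset_compl_iff_disjoint_right.1 (c1 t k))
    fun t k => subset_compl_iff_disjoint_right.1 (c2 t k)⟩
  exact g.i ▸ ⟨(h1.good.ball ok).rim_sub (a1.s t k p), (h2.good.ball ok).rim_sub (a2.s u q r)⟩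

theorem SolU.side (ok : σ.Ok0) (g : Gl B S B1 S1 B2 S2 D C) (hD : KD σ.K D C)
    (h1 : SolU σ B1 S1 X) (h2 : G σ B2 S2) (n : NSU S1 X) (d : Disjoint X D) : SolU σ B S X := by
  simpa using SolU.both ok g hD h1 (solU_empty.2 h2) n nsu_empty d (empty_disjoint _)

theorem SolD.transU (ok : σ.Ok0) (h : SolD σ B S 𝒯 R SR Lf Df) (h2 : SolU σ R SR X) (n : NSU SR X)
    (hd : ∀ t ∈ 𝒯, Disjoint X (Df t)) : SolU σ B S ((⋃ t ∈ 𝒯, t.1) ∪ X) := by
  obtain ⟨𝒯2, a, b, c⟩ := h2.thin ok n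
    (h.fin.isClosed_biUnion fun t k => (h.dd t k).d.closed).isOpen_compl
    (disjoint_iUnion₂_right.2 hd).subset_compl_right
  refine (h.trans ok b fun u k t q => disjoint_left.2 fun x p r => c u k p (mem_biUnion q r)).spine
    ok ?_ ?_
  · rw [biUnion_union]
    exact union_subset_union_right _ (a.x.trans (iUnion₂_mono fun _ _ => sdiff_subset))
  · rintro t (k | k)
    · have : t.1 ⊆ (⋃ t ∈ 𝒯, t.1) ∪ X := (subset_biUnion_of_mem k).trans subset_union_left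
      rw [inter_eq_right.2 this]
      exact ⟨rq_conn (h.dt t k), inter_subset_right.trans this⟩
    · refine ⟨?_, (a.k t k).trans subset_union_right⟩
      rw [union_inter_distrib_right, eq_empty_of_forall_notMem (s := _ ∩ _) ?_, empty_union]
      · exact a.c t k
      · rintro x ⟨p, q⟩
        obtain ⟨u, r, p⟩ := mem_iUnion₂.1 p
        obtain s | ⟨v, s, y⟩ := (h.solc_rs ok x).2.2.2.2.1 (a.s t k q)
        exacts [s.2 u r p, c t k q (mem_biUnion s y)]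

/-- a spine off the wall has thin neighbourhoods in the new rim -/
theorem Gl.nsu (g : Gl B S B1 S1 B2 S2 D C) (h1 : Ball B1 S1) (h2 : Ball B2 S2) (n : NSU S1 X)
    (d : Disjoint X D) : NSU S X := by
  have _ := h1
  have _ := h2
  exact n.transfer g.d.closed.isOpen_compl d.subset_compl_right g.solc_off

/-- a one sided bite: the neighbour goes to the rest -/
theorem Sol.bite (ok : σ.Ok0) (g : Gl B S B1 S1 B2 S2 D C) (h2 : G σ B2 S2)
    {T c u v I β N : Set Z} {p q : Z} (h : Sol σ B1 S1 (insert (T, c) 𝒯)) (hn : (T, c) ∉ 𝒯)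
    (hd : ∀ t ∈ 𝒯, Disjoint t.1 D) (hc : Cut T c u v I β N p q) (hβ : β = T ∩ D) (hN : N = T ∩ S)
    (hI : Disjoint I σ.K) (h0 : KD σ.K ((D \ β) ∪ u) ((C \ I) ∪ u)) :
    Sol σ B S (insert (N, v ∪ I) 𝒯) := by
  classical
  obtain ⟨R, SR, L, Df, h⟩ := h
  have m0 : (T, c) ∈ insert (T, c) 𝒯 := mem_insert _ _
  have m1 : ∀ t ∈ 𝒯, t ∈ insert (T, c) 𝒯 := fun t => mem_insert_of_mem _
  have a := h.solc_rs ok
  have b := g.solc_pt
  have e : ∀ x, x ∈ S2 → x ∈ B2 := (h2.ball ok).rim_sub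
  have f := h.solc_pt m0
  have d : ∀ t ∈ 𝒯, ∀ x, x ∈ t.1 → x ∉ D := fun t k => disjoint_left.1 (hd t k)
  have w : ∀ x, (x ∈ β ↔ x ∈ T ∧ x ∈ D) ∧ (x ∈ N ↔ x ∈ T ∧ x ∈ S) ∧ (x ∈ u ↔ x ∈ β ∧ x ∈ c) ∧
      (x ∈ v ↔ x ∈ N ∧ x ∈ c) ∧ (x ∈ I ↔ x ∈ β ∧ x ∈ N) ∧ (x ∈ T ↔ x ∈ β ∨ x ∈ N) := fun x =>
    ⟨Set.ext_iff.1 hβ x, Set.ext_iff.1 hN x, (Set.ext_iff.1 hc.inter_rim x).symm,
      (Set.ext_iff.1 hc.symm.inter_rim x).symm, (Set.ext_iff.1 hc.inter x).symm,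
      (Set.ext_iff.1 hc.union x).symm⟩
  simp only [forall_mem_insert, exists_mem_insert] at a
  dsimp only at a f
  have n : ∀ t ∈ 𝒯, t ≠ (N, v ∪ I) := by
    rintro _ k rfl
    have := hc.cc.arc.left
    have := w p
    have := d _ k p
    grind
  have g' : Gl (R ∪ B2) ((SR ∪ S2) \ (((D \ β) ∪ u) \ ((C \ I) ∪ u))) R SR B2 S2 ((D \ β) ∪ u)
      ((C \ I) ∪ u) := by
    have s : ∀ x, x ∈ (D \ β) ∪ u → x ∈ SR ∧ x ∈ D := fun x => by
      have := (a x).2.2.2.2; have := b x; have := f x; have := w x; have := fun t k => d t k x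
      grind
    refine ⟨h0.d, Set.ext fun x => ?_, fun x k => (s x k).1, fun x k => g.s2 (s x k).2, rfl, rfl⟩
    have := (a x).1; have := (a x).2.1; have := b x; have := f x; have := w x; have := s x
    grind
  have key : ∀ {P : Set Z × Set Z → Set Z → Set Z → Prop},
      P (N, v ∪ I) (L (T, c)) (Df (T, c) ∪ β) → (∀ t ∈ 𝒯, P t (L t) (Df t)) →
      ∀ t ∈ insert (N, v ∪ I) 𝒯, P t (Function.update L (N, v ∪ I) (L (T, c)) t)
        (Function.update Df (N, v ∪ I) (Df (T, c) ∪ β) t) := by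
    rintro P p q t (rfl | k)
    · simpa using p
    · simpa [n t k] using q t k
  have un : ∀ (f : Set Z × Set Z → Set Z) y, ⋃ t ∈ insert (N, v ∪ I) 𝒯,
      Function.update f (N, v ∪ I) y t = y ∪ ⋃ t ∈ 𝒯, f t := fun f y => by
    rw [biUnion_insert, Function.update_self]
    exact congrArg _ (iUnion₂_congr fun t k => Function.update_of_ne (n t k) _ _)
  have kd := h.dd _ m0
  refine ⟨R ∪ B2, _, Function.update L (N, v ∪ I) (L (T, c)),
    Function.update Df (N, v ∪ I) (Df (T, c) ∪ β), (h.fin.subset m1).insert _,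
    .glue1 h.g h2 g' h0, key (P := fun t L D => G σ L (t.1 ∪ D)) ?_ fun t k => h.gl t (m1 t k),
    key (P := fun t _ _ => Disc t.1 t.2) hc.d2 fun t k => h.dt t (m1 t k),
    key (P := fun t _ D => KD σ.K D t.2) ⟨(kd.d.glue hc.d1 hc.two.symm hc.two1.symm
      (Set.ext fun x => ?_)).disc, disjoint_union_left.2
        ⟨kd.c.mono_left (hc.two.union ▸ subset_union_right), hI⟩,
        kd.k.mono (inter_subset_inter_right _ subset_union_left)⟩ fun t k => h.dd t (m1 t k),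
    key (P := fun t L _ => L ∩ S = t.1) (Set.ext fun x => ?_) fun t k => Set.ext fun x => ?_,
    key (P := fun _ L D => L ∩ (R ∪ B2) = D) (Set.ext fun x => ?_) fun t k => Set.ext fun x => ?_,
    key (P := fun t _ D => D ∩ S = t.2) (Set.ext fun x => ?_) fun t k => Set.ext fun x => ?_,
    ?_, ?_, Set.ext fun x => ?_⟩
  · convert h.gl _ m0 using 1
    rw [← hc.union]
    ext x
    grind
  · have := f x; have := w x; grind
  iterate 3
    · have := f x; have := w x; have := b x; have := e x; grind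
    · have := h.solc_pt (m1 t k) x; have := b x; have := e x; have := d t k x; grind
  · rintro t (rfl | k) s (rfl | r) y
    · exact (y rfl).elim
    · simpa [Function.onFun, n s r] using h.dj m0 (m1 s r) fun z => hn (z ▸ r)
    · simpa [Function.onFun, n t k] using h.dj (m1 t k) m0 fun z => hn (z ▸ k)
    · simpa [Function.onFun, n t k, n s r] using h.dj (m1 t k) (m1 s r) y
  · rw [un, g.u, union_right_comm, h.u, biUnion_insert]
  · have := (a x).2.2.2.2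
    have := b x
    have := e x
    have := f x
    have := w x
    have : ∀ t ∈ 𝒯, (x ∈ Df t → x ∉ D) ∧ (x ∈ t.1 → x ∉ D ∧ x ∉ S2) := fun t k => by
      have := h.solc_pt (m1 t k) x; have := d t k x; grind
    rw [un, biUnion_insert]
    simp only [mem_sdiff, mem_union, mem_iUnion, exists_prop]
    grind

end Pool.Agent.Lib.MP_b7d179_gt
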