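import Pool.Agent.Lib.MP_b7d179_gt.U.Ball2

/-! Moves: composition, inverse, push, extension of homeomorphisms of the rim. -/

namespace Pool.Agent.Lib.MP_b7d179_gt

open Set Metric

variable {Z Z' : Type*} [MetricSpace Z] [MetricSpace Z']

variable {K B S B1 S1 W SW D C A O c : Set Z} {h k : Z → Z}

theorem mv_id (K B : Set Z) : Mv K id B := 
  ⟨emb_id _, ⟨univ, isOpen_univ, subset_univ _, fun _ _ => rfl⟩, fun _ _ a => a⟩

theorem Mv.mono (hh : Mv K h B) (hs : A ⊆ B) : Mv K h A := by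
  obtain ⟨e, ⟨U, o, a, b⟩, d⟩ := hh
  exact ⟨e.mono hs, ⟨U, o, fun x m => a ⟨m.1, hs m.2⟩, fun x m => b x ⟨m.1, hs m.2⟩⟩,
    fun x m => d x (hs m)⟩

theorem Mv.fix (hh : Mv K h B) {x : Z} (hx : x ∈ K ∩ B) : h x = x := by
  obtain ⟨-, ⟨U, -, a, b⟩, -⟩ := hh
  exact b x ⟨a hx, hx.2⟩

theorem Mv.inter (hh : Mv K h B) (hs : A ⊆ B) : K ∩ h '' A = K ∩ A := by
  refine Subset.antisymm ?_ fun x m => ⟨m.1, x, m.2, hh.fix ⟨m.1, hs m.2⟩⟩
  rintro _ ⟨a, x, m, rfl⟩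
  exact ⟨a, by rwa [hh.fix ⟨hh.2.2 x (hs m) a, hs m⟩]⟩

theorem Mv.disj (hh : Mv K h B) (hs : A ⊆ B) : Disjoint (h '' A) K ↔ Disjoint A K := by
  rw [disjoint_iff_inter_eq_empty, disjoint_iff_inter_eq_empty, inter_comm, hh.inter hs, inter_comm]

theorem Mv.kd (hh : Mv K h B) (hd : KD K D C) (hs : D ⊆ B) : KD K (h '' D) (h '' C) := 
  ⟨hd.d.image hh.1 hs, (hh.disj (hd.d.rim_sub.trans hs)).2 hd.c, (hh.inter hs).symm ▸ hd.k⟩

theorem Mv.comp (hh : Mv K h B) (hk : Mv K k (h '' B)) : Mv K (k ∘ h) B := by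
  have i := hh.inter subset_rfl
  obtain ⟨e, ⟨U, o, a, b⟩, d⟩ := hh
  obtain ⟨e', ⟨U', o', a', b'⟩, d'⟩ := hk
  refine ⟨e'.comp e subset_rfl, ⟨U ∩ U', o.inter o', fun x m => ⟨a m, a' (i.ge m)⟩, fun x m => ?_⟩,
    fun x m n => d x m (d' _ ⟨x, m, rfl⟩ n)⟩
  have := b x ⟨m.1.1, m.2⟩
  rw [Function.comp_apply, this, b' x ⟨m.1.2, x, m.2, this⟩]

theorem Mv.inv (hh : Mv K h B) (hB : IsCompact B) :
    ∃ g, Mv K g (h '' B) ∧ (∀ x ∈ B, g (h x) = x) ∧ (∀ y ∈ h '' B, h (g y) = y) ∧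
      ∀ A ⊆ B, g '' (h '' A) = A := by
  rcases isEmpty_or_nonempty Z with z | z
  · exact ⟨id, mv_id _ _, fun x => z.elim x, fun x => z.elim x, fun A _ =>
      (eq_empty_of_isEmpty _).trans (eq_empty_of_isEmpty _).symm⟩
  obtain ⟨g, e', l, r, i⟩ := hh.1.inv hB
  obtain ⟨U, o, a, b⟩ := hh.2.1
  refine ⟨g, ⟨e', ⟨U \ h '' (B \ U), o.sdiff (hh.1.compact sdiff_subset (hB.diff o)).isClosed,
    fun y m => ⟨a ((hh.inter subset_rfl).le m), ?_⟩, ?_⟩, ?_⟩, l, r, i⟩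
  · rintro ⟨x, n, rfl⟩
    exact n.2 (a ⟨hh.2.2 x n.1 m.1, n.1⟩)
  · rintro _ ⟨m, x, n, rfl⟩
    rw [l x n, b x ⟨by_contra fun k => m.2 ⟨x, ⟨n, k⟩, rfl⟩, n⟩]
  · rintro _ ⟨x, n, rfl⟩ m
    rw [l x n] at m
    rwa [hh.fix ⟨m, n⟩]

theorem ball3_core {R V V' : Set Z} {H : Z → Z} (cR : IsClosed R) (cV : IsClosed V)
    (e : Emb H V) (i : H '' V = V') (f : EqOn H id (R ∩ V)) (s : R ∩ V' ⊆ V) (d : Disjoint V K)
    (d' : Disjoint V' K) :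
    ∃ F, Mv K F (R ∪ V) ∧ F '' (R ∪ V) = R ∪ V' ∧ EqOn F id R ∧ EqOn F H V := by
  obtain ⟨F, a, b, c⟩ := (emb_id R).paste e cR cV f.symm (by
    rw [i, image_id, image_id]; exact fun x m => ⟨m.1, s m⟩)
  refine ⟨F, ⟨a, ⟨Vᶜ, cV.isOpen_compl, fun x m n => disjoint_left.1 d n m.1,
    fun x m => b (m.2.resolve_right m.1)⟩, fun x m n => m.elim (fun m => by rwa [b m] at n)
      fun m => (disjoint_left.1 d' (i.le ⟨x, m, (c m).symm⟩) n).elim⟩, ?_, b, c⟩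
  rw [image_union, b.image_eq, c.image_eq, i, image_id]

theorem ball3_rim {D0 : Set Z} {φ : Z → Z} (cO : IsClosed O) (h0 : Disc D0 C) (hφ : Emb φ O)
    (hi : φ '' O = D) (hr : EqOn φ id C) (s : C ⊆ O) (i1 : O ∩ D0 ⊆ C) (i2 : D ∩ D0 ⊆ C) :
    ∃ ψ, Emb ψ (O ∪ D0) ∧ ψ '' (O ∪ D0) = D ∪ D0 ∧ EqOn ψ φ O ∧ EqOn ψ id D0 := by
  obtain ⟨ψ, a, b, c⟩ := hφ.paste (emb_id D0) cO h0.closed (hr.mono i1) (by
    rw [hi, image_id]
    exact fun x m => ⟨x, ⟨s (i2 m), m.2⟩, hr (i2 m)⟩)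
  exact ⟨ψ, a, by rw [image_union, b.image_eq, c.image_eq, hi, image_id], b, c⟩

/-- an empty ball is pushed into its neighbour, with a given map of the visible disc -/
theorem push' (g : Gl B S B1 S1 W SW D C) (h1 : Ball B1 S1) (hW : Ball W SW) (hK : IsClosed K)
    (hd : Disjoint W K) {φ : Z → Z} (hφ : Emb φ (S ∩ W)) (hi : φ '' (S ∩ W) = D)
    (hr : EqOn φ id C) :
    ∃ h, Mv K h B ∧ h '' B = B1 ∧ h '' S = S1 ∧ EqOn h id (S ∩ B1) ∧ EqOn h φ (S ∩ W) := by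
  obtain ⟨t, t1, t2, t3, t4, -, -⟩ := g.th h1 hW
  have DW : D ⊆ W := fun x m => (g.i.ge m).2
  obtain ⟨R, W0, D0, c1, c2, c3, c4, c5, c6, c7, c8, c9⟩ :=
    h1.collar hK g.d g.s1 (hd.mono_left DW)
  have WB : W0 ⊆ B1 := c6 ▸ subset_union_right
  have RB : R ⊆ B1 := c6 ▸ subset_union_left
  have i2 : D ∩ D0 ⊆ C := fun x m => c2.le ⟨m.2, g.s1 m.1⟩
  have i1 : S ∩ W ∩ D0 ⊆ C := fun x m => i2 ⟨g.i.le ⟨WB (c7.ge m.2).1, m.1.2⟩, m.2⟩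
  have b : Ball (W0 ∪ W) (S ∩ W ∪ D0) := Gl.ball ⟨g.d, Subset.antisymm
    (fun x m => g.i.le ⟨WB m.1, m.2⟩) fun x m => ⟨(c8.ge m).1, DW m⟩, subset_union_left, g.s2, rfl,
    by
      rw [t3]
      refine Subset.antisymm (fun x m => ⟨m.elim (fun a => .inr (.inl a)) fun a => .inl (.inr a),
        fun n => n.2 (m.elim (fun a => t.i2.le ⟨a, n.1⟩) fun a => i2 ⟨n.1, a⟩)⟩) fun x m => ?_
      have k (a : x ∈ D) : x ∈ S ∩ W ∪ D0 := .inr (c1.rim_sub (by_contra fun n => m.2 ⟨a, n⟩))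
      exact m.1.elim (fun a => a.elim k .inr) fun a => a.elim .inl k⟩ c3 hW
  obtain ⟨ψ, p1, p2, p3, p4⟩ := ball3_rim t.d2.closed c1 hφ hi hr t.d2.rim_sub i1 i2
  obtain ⟨H, q1, q2, q3⟩ := b.ext c3 p1 p2
  have i3 : R ∩ (W0 ∪ W) ⊆ D0 := fun x m => m.2.elim (fun a => c7.le ⟨a, m.1⟩) fun a => by
    have k := g.i.le ⟨RB m.1, a⟩
    exact c1.rim_sub ((c9.le ⟨m.1, g.s1 k⟩).resolve_left fun n => n.2 k)
  obtain ⟨F, f1, f2, f3, f4⟩ := ball3_core (K := K) c4.compact.isClosed b.compact.isClosed q1 q2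
    (((q3.mono subset_union_right).trans p4).mono i3) (fun x m => .inl m.2)
    (disjoint_union_left.2 ⟨c5, hd⟩) c5
  rw [← union_assoc, ← c6, ← g.u] at f1 f2
  have e1 : EqOn F id (S ∩ B1) := f3.mono fun x m => (c9.ge (t4.le m)).1
  have e2 : EqOn F φ (S ∩ W) := (f4.mono fun x m => .inr m.2).trans
    ((q3.mono subset_union_left).trans p3)
  refine ⟨F, f1, f2, ?_, e1, e2⟩
  rw [t2, ← hi, ← e2.image_eq]
  conv_lhs => rw [t1, image_union, e1.image_eq, image_id]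

theorem push (g : Gl B S B1 S1 W SW D C) (h1 : Ball B1 S1) (hW : Ball W SW) (hK : IsClosed K)
    (hd : Disjoint W K) :
    ∃ h, Mv K h B ∧ h '' B = B1 ∧ h '' S = S1 ∧ EqOn h id (S ∩ B1) ∧ h '' (S ∩ W) = D := by
  obtain ⟨φ, a, b, c⟩ := (g.th h1 hW).1.d2.cone g.d (emb_id C) (image_id C)
  obtain ⟨F, f1, f2, f3, f4, f5⟩ := push' g h1 hW hK hd a b c
  exact ⟨F, f1, f2, f3, f4, f5.image_eq.trans b⟩

theorem Sup.ext {F : Z → Z} (hF : Sup F O c) (hB : Ball B S) (hK : IsClosed K) (hO : Disc O c)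
    (hs : O ⊆ S) (hd : Disjoint O K) : ∃ h, Mv K h B ∧ h '' B = B ∧ h '' S = S ∧ EqOn h F S := by
  obtain ⟨R, W, D, c1, c2, c3, c4, c5, c6, c7, c8, c9⟩ := hB.collar hK hO hs hd
  have i1 : O ∩ D ⊆ c := fun x m => c2.le ⟨m.2, hs m.1⟩
  obtain ⟨ψ, p1, p2, p3, p4⟩ := ball3_rim hO.closed c1 hF.emb hF.img
    (fun x m => hF.fix x fun n => n.2 m) hO.rim_sub i1 i1
  obtain ⟨H, q1, q2, q3⟩ := c3.ext c3 p1 p2
  obtain ⟨G, f1, f2, f3, f4⟩ := ball3_core (K := K) c4.compact.isClosed c3.compact.isClosed q1 q2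
    (((q3.mono subset_union_right).trans p4).mono fun x m => c7.le ⟨m.2, m.1⟩)
    inter_subset_right c5 c5
  rw [← c6] at f1 f2
  have e : EqOn G F S := fun x m => by
    by_cases k : x ∈ O
    · rw [f4 (c8.ge k).1, q3 (.inl k), p3 k]
    · rw [f3 (c9.ge (.inl ⟨m, k⟩)).1, hF.fix x fun n => k n.1, id]
  exact ⟨G, f1, f2, e.image_eq.trans (hF.sph hB.sph hO hs).2, e⟩

theorem Iso.ext {F : Z → Z} (hF : Iso S A F) (hB : Ball B S) (hK : IsClosed K)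
    (hd : Disjoint (closure (S \ A)) K) :
    ∃ h, Mv K h B ∧ h '' B = B ∧ h '' S = S ∧ EqOn h F S := by
  induction hF with
  | refl => exact ⟨id, mv_id _ _, image_id _, image_id _, fun _ _ => rfl⟩
  | step _ h1 h2 h3 h4 ih =>
    obtain ⟨f, a1, a2, a3, a4⟩ := ih
    obtain ⟨g, b1, b2, b3, b4⟩ := h4.ext hB hK h1 h2 (hd.mono_left (h1.dense.trans
      (closure_mono (subset_sdiff.2 ⟨sdiff_subset.trans h2, h3⟩))))
    refine ⟨g ∘ f, a1.comp (a2.symm ▸ b1), by rw [image_comp, a2, b2], by rw [image_comp, a3, b3],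
      fun x m => ?_⟩
    rw [Function.comp_apply, b4 (a3.le ⟨x, m, rfl⟩), a4 m, Function.comp_apply]

/-- a closed set that contains `X` and a neighbourhood of `K` and misses `Y` -/
theorem clear_nbhd {X Y : Set Z} (hK : IsClosed K) (hY : IsCompact Y) (hd : Disjoint Y K)
    (hX : IsClosed X) (hd' : Disjoint Y X) :
    ∃ A, IsClosed A ∧ X ⊆ A ∧ Disjoint A Y ∧ ∀ S, Disjoint (closure (S \ A)) K := by
  obtain ⟨U, o, a, b⟩ := normal_exists_closure_subset hY.isClosed hK.isOpen_compl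
    hd.subset_compl_right
  refine ⟨X ∪ Uᶜ, hX.union o.isClosed_compl, subset_union_left, disjoint_union_left.2
    ⟨hd'.symm, disjoint_left.2 fun x m n => m (a n)⟩, fun S => disjoint_left.2 fun x m =>
      b (closure_mono (fun y n => by_contra fun k => n.2 (.inr k)) m)⟩

/-- the hypothesis of `Iso.ext` when `A` is a union of discs that carry `K` inside -/
theorem clear_of_discs (hS : Sph S) {ι : Type*} {t : Set ι} {V v : ι → Set Z}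
    (hV : ∀ j ∈ t, Disc (V j) (v j) ∧ V j ⊆ S ∧ Disjoint (v j) K) (hc : K ∩ S ⊆ ⋃ j ∈ t, V j) :
    Disjoint (closure (S \ ⋃ j ∈ t, V j)) K := by
  refine disjoint_left.2 fun x m n => ?_
  have xS : x ∈ S := closure_minimal sdiff_subset hS.compact.isClosed m
  obtain ⟨j, hj, k⟩ := mem_iUnion₂.1 (hc ⟨n, xS⟩)
  obtain ⟨d, s, c⟩ := hV j hj
  obtain ⟨U, o, e⟩ := hS.open d s
  obtain ⟨y, y1, y2⟩ := mem_closure_iff.1 m U o (e.ge ⟨k, fun a => disjoint_left.1 c a n⟩).1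
  exact y2.2 (mem_iUnion₂.2 ⟨j, hj, (e.le ⟨y1, y2.1⟩).1⟩)

end Pool.Agent.Lib.MP_b7d179_gt
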