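import Pool.Agent.Lib.MP_b7d179_gt.U.Defs
import Pool.Agent.Lib.MP_b7d179_gt.T.NF2
import Pool.Agent.Lib.MP_b7d179_gt.T.Fan
import Pool.Agent.Lib.MP_b7d179_gt.T.Hole

/-! Plane facts in the form used by the cut lemmas, thin neighbourhoods of spines. -/

namespace Pool.Agent.Lib.MP_b7d179_gt

open Set Metric

variable {Z Z' : Type*} [MetricSpace Z] [MetricSpace Z']

variable {K S S' T C D c P U V X Y M : Set Z} {ι : Type*} {t : Set ι} {W w : ι → Set Z}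
  {𝒯 𝒯' : Set (Set Z × Set Z)}

theorem rq_conn (h : Disc D c) : IsConnected D :=
  ⟨(h.exists_int finite_empty).imp fun _ k => k.1.1, h.conn⟩

theorem rq_compl (h : Sph S) (hT : Disc T C) (hs : T ⊆ S) : Hemi S T ((S \ T) ∪ C) C := by
  obtain ⟨E, k⟩ := h.compl hT hs
  have e : E = (S \ T) ∪ C := by
    refine subset_antisymm (fun x hx => ?_) (union_subset (fun x hx => ?_) k.d2.rim_sub)
    · by_cases hx' : x ∈ T
      · exact .inr (k.inter.le ⟨hx', hx⟩)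
      · exact .inl ⟨k.sub2 hx, hx'⟩
    · exact (k.union.ge hx.1).resolve_left hx.2
  exact e ▸ k

theorem rq_side (h : Sph S) (hT : Disc T C) (hs : T ⊆ S) (hP : IsPreconnected P) (hPS : P ⊆ S)
    (hd : Disjoint P C) : P ⊆ T \ C ∨ Disjoint P T := by
  rcases (P ∩ T).eq_empty_or_nonempty with e | e
  · exact .inr (disjoint_iff_inter_eq_empty.2 e)
  · exact .inl (h.conn_in hT hs hP hPS hd e)

/-- a preconnected set inside a finite disjoint union of closed sets lies in one of them -/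
theorem rq_one (ht : t.Finite) (hW : ∀ j ∈ t, IsClosed (W j)) (hd : t.PairwiseDisjoint W)
    (hP : IsConnected P) (hs : P ⊆ ⋃ j ∈ t, W j) : ∃ j ∈ t, P ⊆ W j := by
  obtain ⟨x, hx⟩ := hP.nonempty
  obtain ⟨j, hj, hxj⟩ := mem_iUnion₂.1 (hs hx)
  have d : Disjoint (W j) (⋃ i ∈ t \ {j}, W i) :=
    disjoint_iUnion₂_right.2 fun i hi => hd hj hi.1 (Ne.symm hi.2)
  refine ⟨j, hj, (side_of hP.isPreconnected (hW j hj)
    ((ht.subset sdiff_subset).isClosed_biUnion fun i hi => hW i hi.1) (fun y hy => ?_)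
    (d.inter_eq ▸ disjoint_empty _)).resolve_right fun k => disjoint_left.1 d hxj (k hx)⟩
  obtain ⟨i, hi, hy⟩ := mem_iUnion₂.1 (hs hy)
  by_cases e : i = j
  · exact .inl (e ▸ hy)
  · exact .inr (mem_biUnion (show i ∈ t \ {j} from ⟨hi, e⟩) hy)

/-- disjoint closed sets, none of which contains the inside of a disc, do not cover it -/
theorem rq_free (h : Disc D c) (ht : t.Finite) (hW : ∀ j ∈ t, IsClosed (W j))
    (hd : t.PairwiseDisjoint W) (hn : ∀ j ∈ t, ¬ D \ c ⊆ W j) :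
    ((D \ c) \ ⋃ j ∈ t, W j).Nonempty := by
  by_contra k
  obtain ⟨x, hx, -⟩ := h.exists_int finite_empty
  obtain ⟨j, hj, e⟩ := rq_one ht hW hd ⟨⟨x, hx⟩, h.conn_diff subset_rfl⟩
    (sdiff_eq_empty.1 (not_nonempty_iff_eq_empty.1 k))
  exact hn j hj e

/-- disjoint open neighbourhoods of finitely many disjoint compact sets -/
theorem rq_sep (ht : t.Finite) (hW : ∀ j ∈ t, IsCompact (W j)) (hd : t.PairwiseDisjoint W) :
    ∃ O : ι → Set Z, (∀ j ∈ t, IsOpen (O j) ∧ W j ⊆ O j) ∧ t.PairwiseDisjoint O := by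
  have k : t.PairwiseDisjoint fun j => nhdsSet (W j) := fun i hi j hj e =>
    separatedNhds_iff_disjoint.1 (.of_isCompact_isCompact (hW i hi) (hW j hj) (hd hi hj e))
  obtain ⟨s, h1, h2⟩ := k.exists_mem_filter ht
  exact ⟨fun j => interior (s j), fun j _ => ⟨isOpen_interior, subset_interior_iff_mem_nhdsSet.2
    (h1 j)⟩, h2.mono fun _ => interior_subset⟩

/-- small arcs of a rim round finitely many points -/
theorem rq_arcs (h : Disc D c) {E : Set Z} (hE : E.Finite) (hs : E ⊆ c) :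
    ∃ (I I' : Z → Set Z) (p q : Z → Z), (∀ e ∈ E, Two c (I e) (I' e) (p e) (q e) ∧
      I e ∩ E = {e} ∧ e ∉ I' e) ∧ E.PairwiseDisjoint I := by
  obtain ⟨O, h1, h2⟩ := rq_sep (W := fun e : Z => {e}) hE (fun _ _ => isCompact_singleton)
    fun _ _ _ _ e => disjoint_singleton.2 e
  have m : ∀ e ∈ E, e ∈ O e := fun e he => (h1 e he).2 rfl
  have k : ∀ e ∈ E, ∃ I I' p q, (Two c I I' p q ∧ I ∩ E = {e} ∧ e ∉ I') ∧ I ⊆ O e := fun e he => by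
    obtain ⟨I, x, y, a, b, d⟩ := h.rim_small (hs he) ((h1 e he).1.mem_nhds (m e he))
    obtain ⟨I', k⟩ := h.two_of_arc a fun z hz => (b hz).1
    refine ⟨I, I', x, y, ⟨k, eq_singleton_iff_unique_mem.2 ⟨⟨d.1, he⟩, fun z hz => ?_⟩,
      fun n => d.2 (k.inter.le ⟨d.1, n⟩)⟩, fun z hz => (b hz).2⟩
    by_contra n
    exact disjoint_left.1 (h2 hz.2 he n) (m z hz.2) (b hz.1).2
  rcases E.eq_empty_or_nonempty with rfl | ⟨z, -⟩
  · exact ⟨fun _ => ∅, fun _ => ∅, id, id, fun _ n => n.elim, pairwiseDisjoint_empty⟩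
  have : Nonempty Z := ⟨z⟩
  choose! I I' p q k k' using k
  exact ⟨I, I', p, q, k, h2.mono_on k'⟩

theorem rq_ns (h : Sph S) (hT : Disc T C) (hs : T ⊆ S) : NS S T :=
  ⟨hT.compact, rq_conn hT, hs, fun U hU k => by
    obtain ⟨T', t, a, b, d, e⟩ := h.disc_nbhd hT hs hU.isClosed_compl
      (disjoint_compl_left_iff_subset.2 k)
    exact ⟨T', t, a, subset_inter d (disjoint_compl_right_iff_subset.1 e), b⟩⟩

theorem rq_ns_bell (h : Sph S) {Q q Q' q' a : Set Z} {x y : Z} (hQ : Disc Q q) (hQ' : Disc Q' q')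
    (hd : Disjoint Q Q') (ha : Arc a x y) (hi : a ∩ Q = {x}) (hi' : a ∩ Q' = {y})
    (hs : Q ∪ a ∪ Q' ⊆ S) : NS S (Q ∪ a ∪ Q') := by
  refine ⟨(hQ.compact.union ha.compact).union hQ'.compact,
    ((rq_conn hQ).union ⟨x, (hi.ge rfl).symm⟩ ⟨⟨x, ha.left⟩, ha.conn⟩).union
      ⟨y, .inr ha.right, (hi'.ge rfl).2⟩ (rq_conn hQ'), hs, fun U hU k => ?_⟩
  obtain ⟨T', t, a, b, d, e⟩ := h.dumb_nbhd hQ hQ' ha hs hd hi hi' hU.isClosed_compl
    (disjoint_compl_left_iff_subset.2 k)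
  exact ⟨T', t, a, subset_inter d (disjoint_compl_right_iff_subset.1 e), b⟩

theorem nsu_empty : NSU S ∅ :=
  ⟨∅, finite_empty, pairwiseDisjoint_empty, fun _ n => n.elim, sUnion_empty.symm⟩

theorem NS.nsu (h : NS S Y) : NSU S Y :=
  ⟨{Y}, finite_singleton _, pairwiseDisjoint_singleton _ _, fun _ e => e ▸ h,
    (sUnion_singleton _).symm⟩

theorem NSU.sub (h : NSU S X) : X ⊆ S := by
  obtain ⟨𝒴, -, -, k, rfl⟩ := h
  exact sUnion_subset fun Y a => (k Y a).2.2.1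

theorem NSU.compact (h : NSU S X) : IsCompact X := by
  obtain ⟨𝒴, f, -, k, rfl⟩ := h
  exact f.isCompact_sUnion fun Y a => (k Y a).1

theorem NSU.union (h : NSU S X) (h' : NSU S Y) (hd : Disjoint X Y) : NSU S (X ∪ Y) := by
  obtain ⟨𝒴, f, d, k, rfl⟩ := h
  obtain ⟨𝒴', f', d', k', rfl⟩ := h'
  exact ⟨𝒴 ∪ 𝒴', f.union f', d.union d' fun _ a _ b _ =>
    hd.mono (subset_sUnion_of_mem a) (subset_sUnion_of_mem b),
    fun Y a => a.elim (k Y) (k' Y), (sUnion_union _ _).symm⟩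

theorem nsu_biUnion (ht : t.Finite) (hW : ∀ j ∈ t, NSU S (W j)) (hd : t.PairwiseDisjoint W) :
    NSU S (⋃ j ∈ t, W j) := by
  induction t, ht using Set.Finite.induction_on with
  | empty => simpa using nsu_empty
  | @insert a s ha _ ih =>
    rw [biUnion_insert]
    exact (hW a (mem_insert _ _)).union (ih (fun j hj => hW j (mem_insert_of_mem _ hj))
      (hd.subset (subset_insert _ _))) (disjoint_iUnion₂_right.2 fun j hj =>
        hd (mem_insert _ _) (mem_insert_of_mem _ hj) fun e => ha (e ▸ hj))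

theorem Dumb.nsu (h : Dumb K S M X) (hS : Sph S) : NSU S X := by
  obtain ⟨ι, _, W, C, W', C', a, p, q, k, d, rfl⟩ := h
  rw [← biUnion_univ]
  exact nsu_biUnion finite_univ (fun i _ => (rq_ns_bell hS (k i).1.w.d (k i).1.w'.d (k i).1.dj
    (k i).1.arc (k i).1.i (k i).1.i' (k i).2.1).nsu) fun _ _ _ _ e => d e

/-- change of the sphere away from the spine -/
theorem NSU.transfer (h : NSU S X) (hV : IsOpen V) (hX : X ⊆ V) (he : S ∩ V ⊆ S') : NSU S' X := by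
  obtain ⟨𝒴, f, d, k, rfl⟩ := h
  refine ⟨𝒴, f, d, fun Y a => ?_, rfl⟩
  have b : Y ⊆ V := (subset_sUnion_of_mem a).trans hX
  obtain ⟨h1, h2, h3, h4⟩ := k Y a
  refine ⟨h1, h2, (subset_inter h3 b).trans he, fun U hU e => ?_⟩
  obtain ⟨T, C, g1, g2, g3⟩ := h4 (U ∩ V) (hU.inter hV) (subset_inter e b)
  exact ⟨T, C, g1, fun z hz => ⟨he ⟨(g2 hz).1, (g2 hz).2.2⟩, (g2 hz).2.1⟩, g3⟩

theorem NSU.fit (h : NSU S X) (hU : IsOpen U) (hX : X ⊆ U) (hK : K ∩ U ∩ S ⊆ X) :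
    ∃ 𝒯, Fit K S X 𝒯 ∧ ∀ u ∈ 𝒯, u.1 ⊆ U := by
  obtain ⟨𝒴, f, d, k, rfl⟩ := h
  obtain ⟨O, h1, h2⟩ := rq_sep (W := id) f (fun Y a => (k Y a).1) d
  have e : ∀ Y ∈ 𝒴, ∃ T C, Disc T C ∧ T ⊆ S ∩ (U ∩ O Y) ∧ Y ⊆ T \ C := fun Y a =>
    (k Y a).2.2.2 _ (hU.inter (h1 Y a).1)
      (subset_inter ((subset_sUnion_of_mem a).trans hX) (h1 Y a).2)
  choose! T C g1 g2 g3 using e
  have i : ∀ Y ∈ 𝒴, ⋃₀ 𝒴 ∩ T Y = Y := fun Y a => by
    refine subset_antisymm ?_ fun z hz => ⟨⟨Y, a, hz⟩, (g3 Y a hz).1⟩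
    rintro z ⟨⟨Y', a', hz⟩, hz'⟩
    by_cases e : Y' = Y
    · exact e ▸ hz
    · exact (disjoint_left.1 (h2 a' a e) ((h1 Y' a').2 hz) (g2 Y a hz').2.2).elim
  have j : ∀ Y ∈ 𝒴, K ∩ T Y ⊆ ⋃₀ 𝒴 := fun Y a z hz =>
    hK ⟨⟨hz.1, (g2 Y a hz.2).2.1⟩, (g2 Y a hz.2).1⟩
  refine ⟨(fun Y => (T Y, C Y)) '' 𝒴, ⟨f.image _, forall_mem_image.2 g1,
    forall_mem_image.2 fun Y a z hz => (g2 Y a hz).1,
    forall_mem_image.2 fun Y a => (i Y a).symm ▸ (k Y a).2.1,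
    forall_mem_image.2 fun Y a => disjoint_left.2 fun z hz hz' => ?_, forall_mem_image.2 j, ?_, ?_⟩,
    forall_mem_image.2 fun Y a z hz => (g2 Y a hz).2.1⟩
  · have m := (g1 Y a).rim_sub hz
    exact (g3 Y a ((i Y a).le ⟨j Y a ⟨hz', m⟩, m⟩)).2 hz
  · rintro _ ⟨Y, a, rfl⟩ _ ⟨Y', a', rfl⟩ n
    exact (h2 a a' fun e => n (e ▸ rfl)).mono (fun z hz => (g2 Y a hz).2.2)
      fun z hz => (g2 Y' a' hz).2.2
  · rintro z ⟨Y, a, hz⟩
    exact mem_biUnion (mem_image_of_mem _ a) (g3 Y a hz)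

theorem Fit.open (h : Fit K S X 𝒯) (hS : Sph S) :
    ∃ V, IsOpen V ∧ V ∩ S = (⋃ u ∈ 𝒯, u.1 \ u.2) ∧ X ⊆ V ∧ K ∩ V ∩ S ⊆ X := by
  choose! O h1 h2 using fun u a => hS.open (h.d u a) (h.s u a)
  have e : (⋃ u ∈ 𝒯, O u) ∩ S = ⋃ u ∈ 𝒯, u.1 \ u.2 := by
    rw [iUnion₂_inter]
    exact iUnion₂_congr h2
  refine ⟨_, isOpen_biUnion h1, e, fun z hz => (e.ge (h.x hz)).1, fun z hz => ?_⟩
  obtain ⟨u, a, b⟩ := mem_iUnion₂.1 (e.le ⟨hz.1.2, hz.2⟩)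
  exact h.k u a ⟨hz.1.1, b.1⟩

theorem Fit.match (h : Fit K S X 𝒯) (h' : Fit K S X 𝒯') (hs : ∀ u ∈ 𝒯', u.1 ⊆ ⋃ v ∈ 𝒯, v.1 \ v.2) :
    ∃ π : Set Z × Set Z → Set Z × Set Z, BijOn π 𝒯' 𝒯 ∧
      ∀ u ∈ 𝒯', u.1 ⊆ (π u).1 \ (π u).2 ∧ K ∩ (π u).1 ⊆ u.1 \ u.2 := by
  have m : ∀ {𝒯 : Set (Set Z × Set Z)} {A : Set Z}, A ⊆ ⋃ v ∈ 𝒯, v.1 \ v.2 → A ⊆ ⋃ v ∈ 𝒯, v.1 :=
    fun k => k.trans (iUnion₂_mono fun _ _ => sdiff_subset)
  choose! π h1 h2 using fun u a => rq_one h.fin (fun v b => (h.d v b).closed) h.dj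
    (rq_conn (h'.d u a)) (m (hs u a))
  choose! ρ g1 g2 using fun v a => rq_one h'.fin (fun u b => (h'.d u b).closed) h'.dj (h.c v a)
    (inter_subset_left.trans (m h'.x))
  have l : ∀ u ∈ 𝒯', ρ (π u) = u := fun u a => by
    obtain ⟨z, b, e⟩ := (h'.c u a).nonempty
    exact h'.dj.elim_set (g1 _ (h1 u a)) a z (g2 _ (h1 u a) ⟨b, h2 u a e⟩) e
  have r : ∀ v ∈ 𝒯, π (ρ v) = v := fun v a => by
    obtain ⟨z, b⟩ := (h.c v a).nonempty
    exact h.dj.elim_set (h1 _ (g1 v a)) a z (h2 _ (g1 v a) (g2 v a b)) b.2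
  refine ⟨π, InvOn.bijOn ⟨l, r⟩ h1 g1, fun u a => ⟨fun z hz => ?_, fun z hz => ⟨?_, fun n =>
    disjoint_left.1 (h'.kc u a) n hz.1⟩⟩⟩
  · obtain ⟨v, b, e⟩ := mem_iUnion₂.1 (hs u a hz)
    exact h.dj.elim_set b (h1 u a) z e.1 (h2 u a hz) ▸ e
  · exact l u a ▸ g2 _ (h1 u a) ⟨h.k _ (h1 u a) hz, hz.2⟩

theorem Fit.transfer (h : Fit K S X 𝒯) (hs : ∀ u ∈ 𝒯, u.1 ⊆ S') : Fit K S' X 𝒯 :=
  ⟨h.fin, h.d, hs, h.c, h.kc, h.k, h.dj, h.x⟩

theorem Fit.union (h : Fit K S X 𝒯) (h' : Fit K S Y 𝒯')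
    (hd : ∀ u ∈ 𝒯, ∀ v ∈ 𝒯', Disjoint u.1 v.1) : Fit K S (X ∪ Y) (𝒯 ∪ 𝒯') := by
  have e : ∀ {X Y : Set Z} {𝒯' : Set (Set Z × Set Z)} {A : Set Z}, Fit K S Y 𝒯' →
      (∀ v ∈ 𝒯', Disjoint A v.1) → (X ∪ Y) ∩ A = X ∩ A := fun k d => by
    refine subset_antisymm (fun z hz => ⟨hz.1.resolve_right fun n => ?_, hz.2⟩)
      (inter_subset_inter_left _ subset_union_left)
    obtain ⟨v, a, b⟩ := mem_iUnion₂.1 (k.x n)
    exact disjoint_left.1 (d v a) hz.2 b.1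
  refine ⟨h.fin.union h'.fin, fun u a => a.elim (h.d u) (h'.d u), fun u a => a.elim (h.s u) (h'.s u),
    fun u a => a.elim (fun a => ?_) fun a => ?_, fun u a => a.elim (h.kc u) (h'.kc u),
    fun u a => a.elim (fun a => (h.k u a).trans subset_union_left)
      fun a => (h'.k u a).trans subset_union_right, h.dj.union h'.dj fun u a v b _ => hd u a v b, ?_⟩
  · rw [e h' (hd u a)]
    exact h.c u a
  · rw [union_comm, e h fun v b => (hd v b u a).symm]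
    exact h'.c u a
  · rw [biUnion_union]
    exact union_subset_union h.x h'.x

/-- one lollipop in the disc `D` with foot point `e` -/
def Pop (K D C : Set Z) (e : Z) (Λ : Set Z) : Prop :=
  e ∈ C ∧ ∃ η Q q x, Lol η Q q e x ∧ KD K Q q ∧ Q ⊆ D \ C ∧ Disjoint η K ∧ η ⊆ D ∧ η ∩ C = {e} ∧
    Λ = Q ∪ η

theorem Lols.empty {Λ : Set Z} (h : Lols K D C M ∅ Λ) : Λ = ∅ := by
  obtain ⟨-, -, W, w, η, x, -, -, e, -⟩ := h
  simpa using e

theorem Pop.facts {Λ : Set Z} {e : Z} (h : Pop K D C e Λ) :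
    Λ ⊆ D ∧ Λ ∩ C = {e} ∧ IsCompact Λ ∧ IsConnected Λ ∧ (K ∩ Λ).Nonempty := by
  obtain ⟨-, η, Q, q, x, l, k, s, -, s', i, rfl⟩ := h
  refine ⟨union_subset (s.trans sdiff_subset) s', ?_, l.disc.compact.union l.arc.compact,
    (rq_conn l.disc).union ⟨x, (l.inter.ge rfl).symm⟩ ⟨⟨x, l.arc.right⟩, l.arc.conn⟩,
    k.k.mono (inter_subset_inter_right _ subset_union_left)⟩
  rw [union_inter_distrib_right, i, (disjoint_sdiff_left.mono_left s).inter_eq, empty_union]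

theorem Lols.pops {E Λ : Set Z} (h : Lols K D C M E Λ) : ∃ l : Z → Set Z,
    (∀ e ∈ E, Pop K D C e (l e)) ∧ E.PairwiseDisjoint l ∧ Λ = ⋃ e ∈ E, l e := by
  obtain ⟨-, s, W, w, η, x, k, d, e, -⟩ := h
  refine ⟨fun e => W e ∪ η e, fun e a => ?_, d, e⟩
  obtain ⟨k1, k2, k3, k4, k5, k6⟩ := k e a
  exact ⟨s a, η e, W e, w e, x e, k1, k2, fun z hz => (k3 hz).2, k4, k5, k6, rfl⟩

theorem Lols.sub {E Λ : Set Z} (h : Lols K D C M E Λ) : Λ ⊆ D ∧ Λ ∩ C = E ∧ IsCompact Λ := by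
  obtain ⟨l, k, -, e⟩ := h.pops
  rw [e]
  refine ⟨iUnion₂_subset fun x a => (k x a).facts.1, ?_,
    h.1.isCompact_biUnion fun x a => (k x a).facts.2.2.1⟩
  rw [iUnion₂_inter, iUnion₂_congr fun x a => (k x a).facts.2.1, biUnion_of_singleton]

theorem Lols.pop {Λ : Set Z} {e : Z} (h : Lols K D C M {e} Λ) : Pop K D C e Λ := by
  obtain ⟨l, k, -, e⟩ := h.pops
  rw [e, biUnion_singleton]
  exact k _ rfl

/-- a lollipop in an inner disc prolonged by an arc to the rim of an outer disc -/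
theorem Pop.extend {Λ a : Set Z} {e x : Z} (h : Pop K T c x Λ) (hs : T ⊆ D \ C) (he : e ∈ C)
    (ha : Arc a e x) (haD : a ⊆ D) (hC : a ∩ C = {e}) (hT : a ∩ T = {x}) (hK : Disjoint a K) :
    Pop K D C e (a ∪ Λ) := by
  obtain ⟨m, η, Q, q, y, l, k, s, d, s', -, rfl⟩ := h
  have i : a ∩ η = {x} := subset_antisymm ((inter_subset_inter_right _ s').trans hT.le)
    (singleton_subset_iff.2 ⟨ha.right, l.arc.left⟩)
  have j : a ∩ Q = ∅ := eq_empty_of_forall_notMem fun z hz =>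
    (s hz.2).2 ((hT.le ⟨hz.1, (s hz.2).1⟩ : z = x) ▸ m)
  refine ⟨he, a ∪ η, Q, q, y, ⟨ha.cat l.arc i, l.disc, ?_, l.mem⟩, k, fun z hz => hs (s hz).1,
    disjoint_union_left.2 ⟨hK, d⟩, union_subset haD fun z hz => (hs (s' hz)).1, ?_,
    union_left_comm _ _ _⟩
  · rw [union_inter_distrib_right, j, l.inter, empty_union]
  · rw [union_inter_distrib_right, hC, (disjoint_sdiff_left.mono_left (s'.trans hs)).inter_eq,
      union_empty]

end Pool.Agent.Lib.MP_b7d179_gt
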