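import Pool.Agent.Lib.MP_b7d179_gt.U.Tree

/-! Cuts: first facts and transport along moves. -/

namespace Pool.Agent.Lib.MP_b7d179_gt

open Set Metric

variable {Z Z' : Type*} [MetricSpace Z] [MetricSpace Z']

variable {σ : Tw Z} {B S B1 S1 B2 S2 R SR L T D C X O c A : Set Z} {𝒯 : Set (Set Z × Set Z)}
  {Lf Df : Set Z × Set Z → Set Z} {k F : Z → Z}

/-- image of a disc with its rim -/
def im (k : Z → Z') (t : Set Z × Set Z) : Set Z' × Set Z' := (k '' t.1, k '' t.2)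

theorem sol_empty : Sol σ B S ∅ ↔ G σ B S := by
  constructor
  · rintro ⟨R, SR, L, D, h⟩
    have u := h.u
    have r := h.r
    simp only [mem_empty_iff_false, iUnion_of_empty, iUnion_empty, union_empty, sdiff_empty] at u r
    exact u ▸ r ▸ h.g
  · exact fun h => ⟨B, S, fun _ => ∅, fun _ => ∅, finite_empty, h, by simp, by simp, by simp,
      by simp, by simp, by simp, by simp, by simp, by simp⟩

theorem solU_empty : SolU σ B S ∅ ↔ G σ B S := by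
  constructor
  · rintro ⟨T, f, h⟩
    obtain rfl : T = ∅ := eq_empty_of_forall_notMem fun t ht => by simpa using (f.c t ht).nonempty
    exact sol_empty.1 h
  · exact fun h => ⟨∅, ⟨finite_empty, by simp, by simp, by simp, by simp, by simp, by simp,
      empty_subset _⟩, sol_empty.2 h⟩

theorem sol_one (hL : G σ L (T ∪ D)) (hR : G σ R ((S \ T) ∪ D)) (hT : Disc T C) (hD : KD σ.K D C)
    (ls : L ∩ S = T) (lr : L ∩ R = D) (ds : D ∩ S = C) (u : B = R ∪ L) : Sol σ B S {(T, C)} :=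
  ⟨R, (S \ T) ∪ D, fun _ => L, fun _ => D, finite_singleton _, hR, by rintro _ rfl; exact hL,
    by rintro _ rfl; exact hT, by rintro _ rfl; exact hD, by rintro _ rfl; exact ls,
    by rintro _ rfl; exact lr, by rintro _ rfl; exact ds, pairwiseDisjoint_singleton _ _,
    by rw [biUnion_singleton]; exact u, by rw [biUnion_singleton, biUnion_singleton]⟩

theorem sol_of_gl (ok : σ.Ok0) (g : Gl B S B1 S1 B2 S2 D C) (h1 : G σ B1 S1) (h2 : G σ B2 S2)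
    (hD : KD σ.K D C) : Sol σ B S {(S ∩ B2, C)} := by
  obtain ⟨th, e, e1, e2, -, -, e3⟩ := g.th (h1.ball ok) (h2.ball ok)
  have e4 : (S \ (S ∩ B2)) ∪ D = S1 := by
    rw [e1]
    refine Subset.antisymm (union_subset_union_left _ fun x hx => (e.le hx.1).resolve_right hx.2)
      (union_subset (fun x hx => ?_) subset_union_right)
    by_cases h : x ∈ B2
    · exact Or.inr (g.i.le ⟨hx.2, h⟩)
    · exact Or.inl ⟨hx.1, fun h' => h h'.2⟩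
  exact sol_one (e2 ▸ h2) (e4 ▸ h1) th.d2 hD (inter_comm _ _) ((inter_comm _ _).trans g.i)
    ((inter_comm _ _).trans e3) g.u

theorem SolD.sub (h : SolD σ B S 𝒯 R SR Lf Df) {t : Set Z × Set Z} (ht : t ∈ 𝒯) :
    t.1 ⊆ S ∧ t.1 ⊆ Lf t ∧ t.2 ⊆ t.1 ∧ t.2 ⊆ Df t ∧ Df t ⊆ Lf t ∧ Df t ⊆ R ∧ Df t ⊆ SR ∧
      Lf t ⊆ B ∧ R ∩ t.1 = t.2 ∧ Df t ∩ t.1 = t.2 ∧ t.2.Nonempty := by
  have a1 : t.1 ⊆ S := fun x hx => ((h.ls t ht).ge hx).2
  have a2 : t.1 ⊆ Lf t := fun x hx => ((h.ls t ht).ge hx).1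
  have a3 := (h.dt t ht).rim_sub
  have a4 : t.2 ⊆ Df t := fun x hx => ((h.ds t ht).ge hx).1
  have a6 : Df t ⊆ R := fun x hx => ((h.lr t ht).ge hx).2
  refine ⟨a1, a2, a3, a4, fun x hx => ((h.lr t ht).ge hx).1, a6,
    fun x hx => h.r.ge (Or.inr (mem_biUnion ht hx)), fun x hx => h.u.ge (Or.inr (mem_biUnion ht hx)),
    Subset.antisymm (fun x hx => (h.ds t ht).le ⟨(h.lr t ht).le ⟨a2 hx.2, hx.1⟩, a1 hx.2⟩)
      (subset_inter (a4.trans a6) a3),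
    Subset.antisymm (fun x hx => (h.ds t ht).le ⟨hx.1, a1 hx.2⟩) (subset_inter a4 a3), ?_⟩
  obtain ⟨φ, -, -, e⟩ := h.dt t ht
  exact e ▸ (NormedSpace.sphere_nonempty.2 zero_le_one).image φ

theorem SolD.rs (ok : σ.Ok0) (h : SolD σ B S 𝒯 R SR Lf Df) :
    SR ⊆ R ∧ R ⊆ B ∧ S ⊆ B ∧ R ∩ S = (S \ ⋃ t ∈ 𝒯, t.1) ∪ ⋃ t ∈ 𝒯, t.2 ∧ R ∩ S ⊆ SR := by
  have a1 := (h.g.ball ok).rim_sub
  have a2 : R ⊆ B := fun x hx => h.u.ge (Or.inl hx)
  have a4 : R ∩ S ⊆ (S \ ⋃ t ∈ 𝒯, t.1) ∪ ⋃ t ∈ 𝒯, t.2 := fun x hx => by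
    by_cases hx' : x ∈ ⋃ t ∈ 𝒯, t.1
    · obtain ⟨t, ht, m⟩ := mem_iUnion₂.1 hx'
      exact Or.inr (mem_biUnion ht ((h.sub ht).2.2.2.2.2.2.2.2.1.le ⟨hx.1, m⟩))
    · exact Or.inl ⟨hx.2, hx'⟩
  refine ⟨a1, a2, fun x hx => ?_, Subset.antisymm a4 (union_subset (fun x hx =>
    ⟨a1 (h.r.ge (Or.inl hx)), hx.1⟩) (iUnion₂_subset fun t ht x hx => ?_)),
    a4.trans (h.r.ge.trans' (union_subset_union_right _ (iUnion₂_mono fun t ht =>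
      (h.sub ht).2.2.2.1)))⟩
  · by_cases hx' : x ∈ ⋃ t ∈ 𝒯, t.1
    · obtain ⟨t, ht, m⟩ := mem_iUnion₂.1 hx'
      exact (h.sub ht).2.2.2.2.2.2.2.1 ((h.sub ht).2.1 m)
    · exact a2 (a1 (h.r.ge (Or.inl ⟨hx, hx'⟩)))
  · obtain ⟨b1, -, b3, b4, -, b6, -⟩ := h.sub ht
    exact ⟨b6 (b4 hx), b1 (b3 hx)⟩

theorem Sol.facts (h : Sol σ B S 𝒯) : 𝒯.Finite ∧ 𝒯.PairwiseDisjoint Prod.fst ∧
    ∀ t ∈ 𝒯, Disc t.1 t.2 ∧ t.1 ⊆ S ∧ Disjoint t.2 σ.K := by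
  obtain ⟨R, SR, L, D, h⟩ := h
  exact ⟨h.fin, h.dj.mono_on fun t ht => (h.sub ht).2.1,
    fun t ht => ⟨h.dt t ht, (h.sub ht).1, (h.dd t ht).c⟩⟩

/-- one lane is taken off -/
theorem SolD.peel (h : SolD σ B S 𝒯 R SR Lf Df) {t : Set Z × Set Z} (ht : t ∈ 𝒯) :
    SolD σ (R ∪ ⋃ u ∈ 𝒯 \ {t}, Lf u) ((S \ t.1) ∪ Df t) (𝒯 \ {t}) R SR Lf Df ∧
      Gl B S (R ∪ ⋃ u ∈ 𝒯 \ {t}, Lf u) ((S \ t.1) ∪ Df t) (Lf t) (t.1 ∪ Df t) (Df t) t.2 := by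
  obtain ⟨a1, a2, a3, a4, a5, a6, a7, a8, -⟩ := h.sub ht
  have d : ∀ u ∈ 𝒯 \ {t}, ∀ x ∈ Lf u, x ∉ Lf t := fun u hu x hx =>
    disjoint_left.1 (h.dj hu.1 ht hu.2) hx
  have e : ∀ u ∈ 𝒯 \ {t}, ∀ Y ⊆ Lf u, Y ∩ ((S \ t.1) ∪ Df t) = Y ∩ S := fun u hu Y hY =>
    Set.ext fun x => ⟨fun hx => ⟨hx.1, hx.2.elim (fun h => h.1) fun h =>
      (d u hu x (hY hx.1) (a5 h)).elim⟩,
      fun hx => ⟨hx.1, Or.inl ⟨hx.2, fun h => d u hu x (hY hx.1) (a2 h)⟩⟩⟩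
  refine ⟨⟨h.fin.sdiff, h.g, fun u hu => h.gl u hu.1, fun u hu => h.dt u hu.1,
    fun u hu => h.dd u hu.1, fun u hu => (e u hu _ subset_rfl).trans (h.ls u hu.1),
    fun u hu => h.lr u hu.1, fun u hu => (e u hu _ (h.sub hu.1).2.2.2.2.1).trans (h.ds u hu.1),
    h.dj.subset sdiff_subset, rfl, Subset.antisymm (fun x hx => ?_) fun x hx => ?_⟩,
    gl_of_cut (h.dd t ht).d a1 a3 (Subset.antisymm (fun x hx => ?_)
      (subset_inter a5 (a6.trans subset_union_left))) (h.ds t ht)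
      (Subset.antisymm (fun x hx => ?_) (union_subset (union_subset (fun x hx => h.u.ge (Or.inl hx))
        (iUnion₂_subset fun u hu => (h.sub hu.1).2.2.2.2.2.2.2.1)) a8))⟩
  · rcases h.r.le hx with hx | hx
    · exact Or.inl ⟨Or.inl ⟨hx.1, fun m => hx.2 (mem_biUnion ht m)⟩,
        fun m => hx.2 (biUnion_subset_biUnion_left sdiff_subset m)⟩
    · obtain ⟨u, hu, m⟩ := mem_iUnion₂.1 hx
      by_cases e : u = t
      · subst e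
        refine Or.inl ⟨Or.inr m, fun m' => ?_⟩
        obtain ⟨v, hv, m'⟩ := mem_iUnion₂.1 m'
        exact d v hv x ((h.sub hv.1).2.1 m') (a5 m)
      · exact Or.inr (mem_biUnion (show u ∈ 𝒯 \ {t} from ⟨hu, e⟩) m)
  · rcases hx with ⟨hx | hx, hn⟩ | hx
    · refine h.r.ge (Or.inl ⟨hx.1, fun m => ?_⟩)
      obtain ⟨u, hu, m⟩ := mem_iUnion₂.1 m
      by_cases e : u = t
      · exact hx.2 (e ▸ m)
      · exact hn (mem_biUnion (show u ∈ 𝒯 \ {t} from ⟨hu, e⟩) m)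
    · exact a7 hx
    · exact h.r.ge (Or.inr (biUnion_subset_biUnion_left sdiff_subset hx))
  · rcases hx.2 with m | m
    · exact (h.lr t ht).le ⟨hx.1, m⟩
    · obtain ⟨u, hu, m⟩ := mem_iUnion₂.1 m
      exact (d u hu x m hx.1).elim
  · rcases h.u.le hx with hx | hx
    · exact Or.inl (Or.inl hx)
    · obtain ⟨u, hu, m⟩ := mem_iUnion₂.1 hx
      by_cases e : u = t
      · exact Or.inr (e ▸ m)
      · exact Or.inl (Or.inr (mem_biUnion (show u ∈ 𝒯 \ {t} from ⟨hu, e⟩) m))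

theorem Sol.good (h : Sol σ B S 𝒯) : G σ B S := by
  obtain ⟨R, SR, L, D, h⟩ := h
  have f := h.fin
  induction 𝒯, f using Set.Finite.induction_on generalizing B S with
  | empty => exact sol_empty.1 ⟨_, _, _, _, h⟩
  | @insert a s ha _ ih =>
    obtain ⟨h1, g⟩ := h.peel (mem_insert a s)
    rw [insert_sdiff_self_of_notMem ha] at h1 g
    exact (ih h1).glue1 (h.gl a (mem_insert a s)) g (h.dd a (mem_insert a s))

theorem SolU.good (h : SolU σ B S X) : G σ B S := by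
  obtain ⟨T, -, h⟩ := h; exact h.good

theorem SolU.sub (h : SolU σ B S X) : X ⊆ S := by
  obtain ⟨T, f, -⟩ := h
  exact f.x.trans (iUnion₂_subset fun t ht => sdiff_subset.trans (f.s t ht))

omit [MetricSpace Z] [MetricSpace Z'] in
lemma solA_inj {k : Z → Z'} (hk : InjOn k B) (h : ∀ t ∈ 𝒯, t.1 ⊆ B ∧ t.2 ⊆ B) :
    InjOn (im k) 𝒯 := fun t ht u hu e =>
  Prod.ext ((hk.image_eq_image_iff (h t ht).1 (h u hu).1).1 (congrArg Prod.fst e))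
    ((hk.image_eq_image_iff (h t ht).2 (h u hu).2).1 (congrArg Prod.snd e))

omit [MetricSpace Z] in
lemma solA_congr (e : EqOn k F S) (h : ∀ t ∈ 𝒯, t.1 ⊆ S ∧ t.2 ⊆ S) : im k '' 𝒯 = im F '' 𝒯 :=
  image_congr fun t ht => Prod.ext ((e.mono (h t ht).1).image_eq) ((e.mono (h t ht).2).image_eq)

theorem Sol.mv (ok : σ.Ok0) (h : Sol σ B S 𝒯) (hk : Mv σ.K k B) :
    Sol σ (k '' B) (k '' S) (im k '' 𝒯) := by
  obtain ⟨R, SR, L, D, h⟩ := h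
  obtain ⟨r1, r2, r3, -⟩ := h.rs ok
  have b1 : ∀ t ∈ 𝒯, t.1 ⊆ B := fun t ht => (h.sub ht).1.trans r3
  have bL : ∀ t ∈ 𝒯, L t ⊆ B := fun t ht => (h.sub ht).2.2.2.2.2.2.2.1
  have bD : ∀ t ∈ 𝒯, D t ⊆ B := fun t ht => (h.sub ht).2.2.2.2.1.trans (bL t ht)
  obtain ⟨π, p⟩ : ∃ π : Set Z × Set Z → Set Z × Set Z, ∀ t ∈ 𝒯, π (im k t) = t :=
    ⟨_, fun t ht => (solA_inj hk.1.2 fun t ht =>
      ⟨b1 t ht, (h.dt t ht).rim_sub.trans (b1 t ht)⟩).leftInvOn_invFunOn ht⟩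
  refine ⟨k '' R, k '' SR, fun u => k '' L (π u), fun u => k '' D (π u), h.fin.image _,
    h.g.move (hk.mono r2), ?_, ?_, ?_, ?_, ?_, ?_, ?_, ?_, ?_⟩
  · rintro _ ⟨t, ht, rfl⟩
    rw [p t ht]
    exact image_union k t.1 (D t) ▸ (h.gl t ht).move (hk.mono (bL t ht))
  · rintro _ ⟨t, ht, rfl⟩
    exact (h.dt t ht).image hk.1 (b1 t ht)
  · rintro _ ⟨t, ht, rfl⟩
    rw [p t ht]
    exact hk.kd (h.dd t ht) (bD t ht)
  · rintro _ ⟨t, ht, rfl⟩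
    rw [p t ht, ← hk.1.inter (bL t ht) r3, h.ls t ht]
    rfl
  · rintro _ ⟨t, ht, rfl⟩
    rw [p t ht, ← hk.1.inter (bL t ht) r2, h.lr t ht]
  · rintro _ ⟨t, ht, rfl⟩
    rw [p t ht, ← hk.1.inter (bD t ht) r3, h.ds t ht]
    rfl
  · rintro _ ⟨t, ht, rfl⟩ _ ⟨u, hu, rfl⟩ ne
    simp only [Function.onFun]
    rw [p t ht, p u hu]
    exact hk.1.disjoint (bL t ht) (bL u hu) (h.dj ht hu fun e => ne (congrArg _ e))
  · rw [biUnion_image, iUnion₂_congr fun t ht => by rw [p t ht], ← image_iUnion₂, ← image_union,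
      ← h.u]
  · rw [biUnion_image, biUnion_image, h.r, image_union, hk.1.diff r3 (iUnion₂_subset b1),
      image_iUnion₂, image_iUnion₂]
    exact congrArg _ (iUnion₂_congr fun t ht => by rw [p t ht])

theorem Fit.mv {K : Set Z} (h : Fit K S X 𝒯) (hk : Mv K k B) (hs : S ⊆ B) :
    Fit K (k '' S) (k '' X) (im k '' 𝒯) := by
  have b1 : ∀ t ∈ 𝒯, t.1 ⊆ B := fun t ht => (h.s t ht).trans hs
  have b2 : ∀ t ∈ 𝒯, t.2 ⊆ B := fun t ht => (h.d t ht).rim_sub.trans (b1 t ht)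
  have bX : X ⊆ B := h.x.trans (iUnion₂_subset fun t ht => sdiff_subset.trans (b1 t ht))
  refine ⟨h.fin.image _, ?_, ?_, ?_, ?_, ?_, ?_, ?_⟩
  · rintro _ ⟨t, ht, rfl⟩
    exact (h.d t ht).image hk.1 (b1 t ht)
  · rintro _ ⟨t, ht, rfl⟩
    exact image_mono (h.s t ht)
  · rintro _ ⟨t, ht, rfl⟩
    exact hk.1.inter bX (b1 t ht) ▸ (h.c t ht).image k (hk.1.1.mono (inter_subset_left.trans bX))
  · rintro _ ⟨t, ht, rfl⟩
    exact (hk.disj (b2 t ht)).2 (h.kc t ht)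
  · rintro _ ⟨t, ht, rfl⟩ x hx
    have m := (hk.inter (b1 t ht)).le hx
    exact ⟨x, h.k t ht m, hk.fix ⟨m.1, b1 t ht m.2⟩⟩
  · rintro _ ⟨t, ht, rfl⟩ _ ⟨u, hu, rfl⟩ ne
    exact hk.1.disjoint (b1 t ht) (b1 u hu) (h.dj ht hu fun e => ne (congrArg _ e))
  · rintro _ ⟨x, hx, rfl⟩
    obtain ⟨t, ht, m⟩ := mem_iUnion₂.1 (h.x hx)
    exact mem_biUnion (mem_image_of_mem _ ht) ((hk.1.diff (b1 t ht) (b2 t ht)).le ⟨x, m, rfl⟩)

theorem SolU.mv' (ok : σ.Ok0) (h : SolU σ B S X) (hk : Mv σ.K k B) :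
    SolU σ (k '' B) (k '' S) (k '' X) := by
  obtain ⟨T, f, h⟩ := h
  exact ⟨_, f.mv hk (h.good.ball ok).rim_sub, h.mv ok hk⟩

theorem SolU.mv (ok : σ.Ok0) (hB : Ball B S) (hX : X ⊆ S) (hk : Mv σ.K k B) :
    SolU σ B S X ↔ SolU σ (k '' B) (k '' S) (k '' X) := by
  refine ⟨fun h => h.mv' ok hk, fun h => ?_⟩
  obtain ⟨g, hg, -, -, i⟩ := hk.inv hB.compact
  have := h.mv' ok hg
  rwa [i B subset_rfl, i S hB.rim_sub, i X (hX.trans hB.rim_sub)] at this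

theorem SolU.sup (ok : σ.Ok0) (hB : Ball B S) (hX : X ⊆ S) (hO : Disc O c) (hs : O ⊆ S)
    (hd : Disjoint O σ.K) (hF : Sup F O c) : SolU σ B S X ↔ SolU σ B S (F '' X) := by
  obtain ⟨h, m, i, j, e⟩ := hF.ext hB ok.kcl hO hs hd
  rw [SolU.mv ok hB hX m, i, j, (e.mono hX).image_eq]

theorem SolU.iso (ok : σ.Ok0) (hB : Ball B S) (hX : X ⊆ S) (hF : Iso S A F)
    (hd : Disjoint (closure (S \ A)) σ.K) : SolU σ B S X ↔ SolU σ B S (F '' X) := by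
  obtain ⟨h, m, i, j, e⟩ := hF.ext hB ok.kcl hd
  rw [SolU.mv ok hB hX m, i, j, (e.mono hX).image_eq]

theorem Sol.iso (ok : σ.Ok0) (h : Sol σ B S 𝒯) (hF : Iso S A F)
    (hd : Disjoint (closure (S \ A)) σ.K) : Sol σ B S (im F '' 𝒯) := by
  obtain ⟨k, m, i, j, e⟩ := hF.ext (h.good.ball ok) ok.kcl hd
  have := h.mv ok m
  rwa [i, j, solA_congr e fun t ht => ⟨(h.facts.2.2 t ht).2.1,
    (h.facts.2.2 t ht).1.rim_sub.trans (h.facts.2.2 t ht).2.1⟩] at this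

/-- an empty ball is added or removed away from the spine -/
theorem SolU.glue0 (ok : σ.Ok0) {W SW : Set Z} (g : Gl B S B1 S1 W SW D C) (h1 : Ball B1 S1)
    (hW : Ball W SW) (hd : Disjoint W σ.K) (hX : X ⊆ S ∩ B1) : SolU σ B1 S1 X ↔ SolU σ B S X := by
  obtain ⟨h, m, i, j, e, -⟩ := push g h1 hW ok.kcl hd
  rw [SolU.mv ok (g.ball h1 hW) (hX.trans inter_subset_left) m, i, j, (e.mono hX).image_eq,
    image_id]

end Pool.Agent.Lib.MP_b7d179_gt
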