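import Pool.Agent.Lib.MP_b7d179_gt.U.Req

/-! Balls: first facts, cone extension, convex bodies, the Alexander isotopy. -/

namespace Pool.Agent.Lib.MP_b7d179_gt

open Set Metric

section model
variable {E : Type*} [NormedAddCommGroup E] [NormedSpace ℝ E]

lemma ball1_smul {X : Type*} [TopologicalSpace X] {A : Set X} {r : X → ℝ} {g : X → E}
    (hr : Continuous r) (hg : ContinuousOn g (A ∩ {p | r p ≠ 0}))
    (hb : ∀ p ∈ A, r p ≠ 0 → ‖g p‖ ≤ 1) : ContinuousOn (fun p => r p • g p) A := by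
  intro p hp
  by_cases h : r p = 0
  · have t : Filter.Tendsto (fun q => |r q|) (nhdsWithin p A) (nhds 0) := by
      have := (hr.abs.tendsto p).mono_left (nhdsWithin_le_nhds (s := A))
      rwa [h, abs_zero] at this
    show Filter.Tendsto _ _ (nhds (r p • g p))
    rw [h, zero_smul]
    refine squeeze_zero_norm' ?_ t
    filter_upwards [self_mem_nhdsWithin] with q hq
    rw [norm_smul, Real.norm_eq_abs]
    by_cases h' : r q = 0
    · simp [h']
    · exact mul_le_of_le_one_right (abs_nonneg _) (hb q hq h')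
  · exact hr.continuousWithinAt.smul ((continuousWithinAt_inter
      ((isOpen_ne_fun hr continuous_const).mem_nhds h)).1 (hg p ⟨hp, h⟩))

lemma ball1_unit {x : E} (h : ‖x‖ ≠ 0) : ‖x‖⁻¹ • x ∈ sphere (0 : E) 1 := by
  rw [mem_sphere_zero_iff_norm, norm_smul, norm_inv, norm_norm, inv_mul_cancel₀ h]

/-- the cone of a homeomorphism of the unit sphere -/
lemma ball1_cone {ψ : E → E} (h : Emb ψ (sphere 0 1)) (hi : ψ '' sphere 0 1 = sphere 0 1) :
    ∃ H : E → E, Emb H (closedBall 0 1) ∧ H '' closedBall 0 1 = closedBall 0 1 ∧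
      EqOn H ψ (sphere 0 1) := by
  have m : ∀ x ∈ sphere (0 : E) 1, ‖ψ x‖ = 1 := fun x hx =>
    mem_sphere_zero_iff_norm.1 (hi.le ⟨x, hx, rfl⟩)
  have n : ∀ x : E, ‖‖x‖ • ψ (‖x‖⁻¹ • x)‖ = ‖x‖ := fun x => by
    by_cases h0 : ‖x‖ = 0
    · rw [h0, zero_smul, norm_zero]
    · rw [norm_smul, norm_norm, m _ (ball1_unit h0), mul_one]
  refine ⟨fun x => ‖x‖ • ψ (‖x‖⁻¹ • x), ⟨ball1_smul continuous_norm (h.1.comp
    ((continuous_norm.continuousOn.inv₀ fun x hx => hx.2).smul continuousOn_id)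
    fun x hx => ball1_unit hx.2) fun x _ h0 => (m _ (ball1_unit h0)).le, fun x _ y _ e => ?_⟩,
    Subset.antisymm ?_ fun y hy => ?_, fun x hx => ?_⟩
  · have e1 : ‖x‖ = ‖y‖ := by rw [← n x, ← n y]; exact congrArg _ e
    by_cases h0 : ‖x‖ = 0
    · exact (norm_eq_zero.1 h0).trans (norm_eq_zero.1 (e1.symm.trans h0)).symm
    · have e2 := h.2 (ball1_unit h0) (ball1_unit (e1 ▸ h0))
        (smul_right_injective E h0 (e.trans (by rw [e1])))
      rw [← e1] at e2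
      exact smul_right_injective E (inv_ne_zero h0) e2
  · rintro _ ⟨x, hx, rfl⟩
    rw [mem_closedBall_zero_iff] at hx ⊢
    exact (n x).trans_le hx
  · by_cases h0 : ‖y‖ = 0
    · exact ⟨y, hy, by simp only [norm_eq_zero.1 h0, norm_zero, zero_smul]⟩
    · obtain ⟨s, hs, e⟩ := hi.ge (ball1_unit h0)
      have e1 : ‖‖y‖ • s‖ = ‖y‖ := by
        rw [norm_smul, norm_norm, mem_sphere_zero_iff_norm.1 hs, mul_one]
      refine ⟨‖y‖ • s, by rwa [mem_closedBall_zero_iff, e1, ← mem_closedBall_zero_iff], ?_⟩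
      simp only [e1]
      rw [inv_smul_smul₀ h0, e, smul_inv_smul₀ h0]
  · simp only [mem_sphere_zero_iff_norm.1 hx, inv_one, one_smul]

/-- the Alexander isotopy of the unit ball -/
lemma ball1_alex {k : E → E} (hk : Emb k (closedBall 0 1))
    (hi : k '' closedBall 0 1 = closedBall 0 1) (hr : EqOn k id (sphere 0 1)) :
    ∃ H : ℝ → E → E, ContinuousOn (fun p : ℝ × E => H p.1 p.2) (Icc 0 1 ×ˢ closedBall 0 1) ∧
      (∀ t ∈ Icc (0 : ℝ) 1, BijOn (H t) (closedBall 0 1) (closedBall 0 1) ∧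
        EqOn (H t) id (sphere 0 1)) ∧ EqOn (H 0) id (closedBall 0 1) ∧
      EqOn (H 1) k (closedBall 0 1) := by
  classical
  have m : ∀ (t : ℝ) (x : E), ‖x‖ ≤ t → t⁻¹ • x ∈ closedBall (0 : E) 1 := fun t x h => by
    have h0 : 0 ≤ t := (norm_nonneg x).trans h
    rw [mem_closedBall_zero_iff, norm_smul, norm_inv, Real.norm_of_nonneg h0]
    exact inv_mul_le_one_of_le₀ h h0
  have b : ∀ x ∈ closedBall (0 : E) 1, ‖k x‖ ≤ 1 := fun x hx =>
    mem_closedBall_zero_iff.1 (hi.le ⟨x, hx, rfl⟩)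
  have n : ∀ (t : ℝ) (x : E), ‖x‖ ≤ t → ‖t • k (t⁻¹ • x)‖ ≤ t := fun t x h => by
    have h0 : 0 ≤ t := (norm_nonneg x).trans h
    rw [norm_smul, Real.norm_of_nonneg h0]
    exact mul_le_of_le_one_right h0 (b _ (m t x h))
  have o : ∀ (t : ℝ) (x : E), t ≤ ‖x‖ → (if ‖x‖ ≤ t then t • k (t⁻¹ • x) else x) = x :=
    fun t x h => by
    split_ifs with h'
    · obtain rfl := h.antisymm h'
      by_cases h0 : ‖x‖ = 0
      · rw [h0, zero_smul, norm_eq_zero.1 h0]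
      · rw [hr (ball1_unit h0), id, smul_inv_smul₀ h0]
    · rfl
  refine ⟨fun t x => if ‖x‖ ≤ t then t • k (t⁻¹ • x) else x, ?_,
    fun t ht => ⟨⟨fun x hx => ?_, fun x _ y _ e => ?_, fun y hy => ?_⟩, fun x hx =>
      o t x (ht.2.trans (mem_sphere_zero_iff_norm.1 hx).ge)⟩, fun x _ => o 0 x (norm_nonneg x),
    fun x hx => ?_⟩
  · have c1 : ContinuousOn (fun p : ℝ × E => p.1 • k (p.1⁻¹ • p.2)) {p | ‖p.2‖ ≤ p.1} :=
      ball1_smul continuous_fst (hk.1.comp ((continuousOn_fst.inv₀ fun p hp => hp.2).smul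
        continuousOn_snd) fun p hp => m _ _ hp.1) fun p hp _ => b _ (m _ _ hp)
    refine ((c1.congr fun p hp => if_pos hp).union_of_isClosed
      ((continuousOn_snd (s := {p : ℝ × E | p.1 ≤ ‖p.2‖})).congr fun p hp => o _ _ hp)
      (isClosed_le (by fun_prop) (by fun_prop)) (isClosed_le (by fun_prop) (by fun_prop))).mono
      fun p _ => le_total ‖p.2‖ p.1
  · rw [mem_closedBall_zero_iff] at hx ⊢
    simp only
    split_ifs with h
    · exact (n t x h).trans ht.2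
    · exact hx
  · simp only at e
    split_ifs at e with h h' h'
    · by_cases h0 : t = 0
      · exact (norm_le_zero_iff.1 (h.trans h0.le)).trans
          (norm_le_zero_iff.1 (h'.trans h0.le)).symm
      · exact smul_right_injective E (inv_ne_zero h0)
          (hk.2 (m t x h) (m t y h') (smul_right_injective E h0 e))
    · exact absurd (e ▸ n t x h) h'
    · exact absurd (e ▸ n t y h') h
    · exact e
  · by_cases h : t ≤ ‖y‖
    · exact ⟨y, hy, o t y h⟩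
    · have h1 := (not_le.1 h).le
      have h0 : t ≠ 0 := ((norm_nonneg y).trans_lt (not_le.1 h)).ne'
      obtain ⟨s, hs, e⟩ := hi.ge (m t y h1)
      have e1 : ‖t • s‖ ≤ t := by
        rw [norm_smul, Real.norm_of_nonneg ht.1]
        exact mul_le_of_le_one_right ht.1 (mem_closedBall_zero_iff.1 hs)
      refine ⟨t • s, mem_closedBall_zero_iff.2 (e1.trans ht.2), ?_⟩
      simp only [if_pos e1]
      rw [inv_smul_smul₀ h0, e, smul_inv_smul₀ h0]
  · simp only [if_pos (mem_closedBall_zero_iff.1 hx), inv_one, one_smul]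

end model

/-- the upper half of the rim of the model -/
lemma ball1_half : Disc (sphere (0 : ℂ × ℝ) 1 ∩ {p | 0 ≤ p.2}) (sphere 0 1 ∩ {p | p.2 = 0}) := by
  have z : ∀ z : ℂ, 0 < ‖((z, 1 - ‖z‖) : ℂ × ℝ)‖ := fun z => norm_pos_iff.2 fun h => by
    have h1 : z = 0 := congrArg Prod.fst h
    have h2 : 1 - ‖z‖ = 0 := congrArg Prod.snd h
    rw [h1] at h2
    simp at h2
  have s : ∀ p ∈ sphere (0 : ℂ × ℝ) 1, 0 ≤ p.2 → ∃ w : ℂ, 0 ≤ 1 - ‖w‖ ∧ (p.2 = 0 → ‖w‖ = 1) ∧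
      ‖((w, 1 - ‖w‖) : ℂ × ℝ)‖⁻¹ • ((w, 1 - ‖w‖) : ℂ × ℝ) = p := fun p hp h2 => by
    rw [mem_sphere_zero_iff_norm] at hp
    have h0 : 0 < ‖p.1‖ + p.2 := by
      refine (add_nonneg (norm_nonneg _) h2).lt_of_ne' fun h => ?_
      have h3 : p.2 = 0 := by linarith [norm_nonneg p.1]
      have h4 : p.1 = 0 := norm_eq_zero.1 (by linarith)
      rw [show p = 0 from Prod.ext h4 h3, norm_zero] at hp
      exact zero_ne_one hp
    have n : 1 - ‖(‖p.1‖ + p.2)⁻¹ • p.1‖ = (‖p.1‖ + p.2)⁻¹ * p.2 := by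
      rw [norm_smul, norm_inv, Real.norm_of_nonneg h0.le]
      field_simp
      ring
    refine ⟨(‖p.1‖ + p.2)⁻¹ • p.1, n ▸ mul_nonneg (inv_pos.2 h0).le h2, fun h => ?_, ?_⟩
    · rw [h, mul_zero] at n
      rw [h]
      linarith
    · rw [n, show (((‖p.1‖ + p.2)⁻¹ • p.1, (‖p.1‖ + p.2)⁻¹ * p.2) : ℂ × ℝ) = (‖p.1‖ + p.2)⁻¹ • p
        from rfl, norm_smul, hp, mul_one, norm_inv, Real.norm_of_nonneg h0.le, inv_inv,
        smul_inv_smul₀ h0.ne']
  refine ⟨fun w => ‖((w, 1 - ‖w‖) : ℂ × ℝ)‖⁻¹ • ((w, 1 - ‖w‖) : ℂ × ℝ), ⟨?_, fun x _ y _ e => ?_⟩,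
    Subset.antisymm ?_ fun p hp => ?_, Subset.antisymm ?_ fun p hp => ?_⟩
  · exact (Continuous.smul (Continuous.inv₀ (by fun_prop) fun w => (z w).ne')
      (by fun_prop)).continuousOn
  · have h1 : ‖((x, 1 - ‖x‖) : ℂ × ℝ)‖⁻¹ • x = ‖((y, 1 - ‖y‖) : ℂ × ℝ)‖⁻¹ • y :=
      congrArg Prod.fst e
    have h2 : ‖((x, 1 - ‖x‖) : ℂ × ℝ)‖⁻¹ * (1 - ‖x‖) = ‖((y, 1 - ‖y‖) : ℂ × ℝ)‖⁻¹ * (1 - ‖y‖) :=
      congrArg Prod.snd e
    have h3 := congrArg norm h1
    rw [norm_smul, norm_smul, norm_inv, norm_inv, norm_norm, norm_norm] at h3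
    have h4 : ‖((x, 1 - ‖x‖) : ℂ × ℝ)‖⁻¹ = ‖((y, 1 - ‖y‖) : ℂ × ℝ)‖⁻¹ := by linarith
    rw [← h4] at h1
    exact smul_right_injective ℂ (inv_ne_zero (z x).ne') h1
  · rintro _ ⟨w, hw, rfl⟩
    exact ⟨ball1_unit (z w).ne', mul_nonneg (inv_pos.2 (z w)).le
      (sub_nonneg.2 (mem_closedBall_zero_iff.1 hw))⟩
  · obtain ⟨w, h1, -, h3⟩ := s p hp.1 hp.2
    exact ⟨w, mem_closedBall_zero_iff.2 (sub_nonneg.1 h1), h3⟩
  · rintro _ ⟨w, hw, rfl⟩
    exact ⟨ball1_unit (z w).ne', mul_eq_zero_of_right _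
      (sub_eq_zero.2 (mem_sphere_zero_iff_norm.1 hw).symm)⟩
  · obtain ⟨w, -, h2, h3⟩ := s p hp.1 hp.2.ge
    exact ⟨w, mem_sphere_zero_iff_norm.2 (h2 hp.2), h3⟩

lemma ball1_sph : Sph (sphere (0 : ℂ × ℝ) 1) := by
  have h := ball1_half.image (f := fun p => -p) (B := univ)
    ⟨continuous_neg.continuousOn, neg_injective.injOn⟩ (subset_univ _)
  rw [show (fun p => -p) '' (sphere (0 : ℂ × ℝ) 1 ∩ {p | 0 ≤ p.2}) = sphere 0 1 ∩ {p | p.2 ≤ 0} by
      ext p; simp,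
    show (fun p => -p) '' (sphere (0 : ℂ × ℝ) 1 ∩ {p | p.2 = 0}) = sphere 0 1 ∩ {p | p.2 = 0} by
      ext p; simp] at h
  refine ⟨_, _, _, ball1_half, h, ?_, ?_⟩
  · rw [← inter_inter_distrib_left]
    exact congrArg _ (Set.ext fun p => ⟨fun h => h.2.antisymm h.1, fun h => ⟨h.ge, h.le⟩⟩)
  · rw [← inter_union_distrib_left]
    exact inter_eq_left.2 fun p _ => le_total 0 p.2

variable {Z Z' : Type*} [MetricSpace Z] [MetricSpace Z']

variable {B S A : Set Z}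

theorem Ball.rim_sub (h : Ball B S) : S ⊆ B := by
  obtain ⟨f, -, rfl, rfl⟩ := h; exact image_mono sphere_subset_closedBall

theorem Ball.compact (h : Ball B S) : IsCompact B := by
  obtain ⟨f, e, rfl, -⟩ := h; exact e.compact subset_rfl (isCompact_closedBall _ _)

theorem Ball.rim_compact (h : Ball B S) : IsCompact S := by
  obtain ⟨f, e, -, rfl⟩ := h; exact e.compact sphere_subset_closedBall (isCompact_sphere _ _)

theorem Ball.sph (h : Ball B S) : Sph S := by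
  obtain ⟨f, e, -, rfl⟩ := h; exact ball1_sph.image e sphere_subset_closedBall

theorem Ball.image (h : Ball B S) {f : Z → Z'} (hf : Emb f A) (hA : B ⊆ A) :
    Ball (f '' B) (f '' S) := by
  obtain ⟨φ, e, rfl, rfl⟩ := h
  exact ⟨f ∘ φ, hf.comp e hA, image_comp _ _ _, image_comp _ _ _⟩

lemma ball1_unit_ball : Ball (closedBall (0 : ℂ × ℝ) 1) (sphere 0 1) :=
  ⟨id, emb_id _, image_id _, image_id _⟩

/-- a chart of a ball with its inverse -/
lemma ball1_chart (h : Ball B S) : ∃ (f : ℂ × ℝ → Z) (g : Z → ℂ × ℝ),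
    Emb f (closedBall 0 1) ∧ Emb g B ∧ f '' closedBall 0 1 = B ∧ f '' sphere 0 1 = S ∧
    g '' B = closedBall 0 1 ∧ g '' S = sphere 0 1 ∧ (∀ z ∈ closedBall (0 : ℂ × ℝ) 1, g (f z) = z) ∧
    ∀ x ∈ B, f (g x) = x := by
  obtain ⟨f, e, rfl, rfl⟩ := h
  obtain ⟨g, e', l, r, i⟩ := e.inv (isCompact_closedBall _ _)
  exact ⟨f, g, e, e', rfl, rfl, i _ subset_rfl, i _ sphere_subset_closedBall, l, r⟩

/-- a homeomorphism of the rims extends -/
theorem Ball.ext {B' S' : Set Z'} (h : Ball B S) (h' : Ball B' S') {φ : Z → Z'} (hφ : Emb φ S)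
    (hi : φ '' S = S') : ∃ H : Z → Z', Emb H B ∧ H '' B = B' ∧ EqOn H φ S := by
  obtain ⟨f, g, ef, eg, f1, f2, g1, g2, -, r⟩ := ball1_chart h
  obtain ⟨f', g', ef', eg', f1', -, -, g2', -, r'⟩ := ball1_chart h'
  have i : (φ ∘ f) '' sphere 0 1 = S' := by rw [image_comp, f2, hi]
  obtain ⟨H, eH, iH, qH⟩ := ball1_cone (ψ := g' ∘ φ ∘ f) (eg'.comp
    (hφ.comp (ef.mono sphere_subset_closedBall) f2.le) (i.le.trans h'.rim_sub))
    (by rw [image_comp, i, g2'])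
  have j : (H ∘ g) '' B = closedBall 0 1 := by rw [image_comp, g1, iH]
  refine ⟨f' ∘ H ∘ g, ef'.comp (eH.comp eg g1.le) j.le, by rw [image_comp, j, f1'], fun x hx => ?_⟩
  simp only [Function.comp]
  rw [qH (g2.le ⟨x, hx, rfl⟩)]
  simp only [Function.comp]
  rw [r x (h.rim_sub hx), r' _ (h'.rim_sub (hi.le ⟨x, hx, rfl⟩))]

theorem ball_convex {E : Type*} [NormedAddCommGroup E] [NormedSpace ℝ E] [FiniteDimensional ℝ E]
    (hd : Module.finrank ℝ E = 3) {P : Set E} (hc : Convex ℝ P) (hk : IsCompact P)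
    (hi : (interior P).Nonempty) : Ball P (frontier P) := by
  have L : E ≃L[ℝ] ℂ × ℝ := ContinuousLinearEquiv.ofFinrankEq (by simp [hd])
  have k := hk.image L.continuous
  obtain ⟨h, -, h2, h3⟩ := exists_homeomorph_image_interior_closure_frontier_eq_unitBall
    (hc.is_linear_image L.toLinearEquiv.isLinear)
    (by have := L.toHomeomorph.image_interior P ▸ hi.image L.toHomeomorph; exact this) k.isBounded
  have e2 : (L.toHomeomorph.trans h) '' P = closedBall 0 1 := by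
    rw [← h2]
    exact (image_image h L P).symm.trans (congrArg _ k.isClosed.closure_eq.symm)
  have e3 : (L.toHomeomorph.trans h) '' frontier P = sphere 0 1 := by
    rw [← h3]
    exact (image_image h L _).symm.trans (congrArg _ (L.toHomeomorph.image_frontier P))
  refine ⟨(L.toHomeomorph.trans h).symm, ⟨(Homeomorph.continuous _).continuousOn,
    (Homeomorph.injective _).injOn⟩, ?_, ?_⟩
  · rw [← e2, image_image]; simp
  · rw [← e3, image_image]; simp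

theorem alexander (h : Ball B S) {k : Z → Z} (hk : Emb k B) (hi : k '' B = B) (hr : EqOn k id S) :
    ∃ H : ℝ → Z → Z, ContinuousOn (fun p : ℝ × Z => H p.1 p.2) (Icc 0 1 ×ˢ B) ∧
      (∀ t ∈ Icc (0 : ℝ) 1, BijOn (H t) B B ∧ EqOn (H t) id S) ∧ EqOn (H 0) id B ∧
      EqOn (H 1) k B := by
  obtain ⟨f, g, ef, eg, f1, f2, g1, g2, l, r⟩ := ball1_chart h
  have i : (k ∘ f) '' closedBall 0 1 = B := by rw [image_comp, f1, hi]
  obtain ⟨H, c, b, h0, h1⟩ := ball1_alex (k := g ∘ k ∘ f) (eg.comp (hk.comp ef f1.le) i.le)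
    (by rw [image_comp, i, g1]) fun x hx => by
      simp only [Function.comp]
      rw [hr (f2.le ⟨x, hx, rfl⟩)]
      exact l x (sphere_subset_closedBall hx)
  have bf : BijOn f (closedBall 0 1) B := f1 ▸ ef.2.bijOn_image
  have bg : BijOn g B (closedBall 0 1) := g1 ▸ eg.2.bijOn_image
  refine ⟨fun t => f ∘ H t ∘ g, ?_, fun t ht => ⟨bf.comp ((b t ht).1.comp bg), fun x hx => ?_⟩,
    fun x hx => ?_, fun x hx => ?_⟩
  · exact ef.1.comp (c.comp (f := fun p : ℝ × Z => (p.1, g p.2)) (continuousOn_fst.prodMk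
      (eg.1.comp continuousOn_snd fun p hp => hp.2)) fun p hp => ⟨hp.1, bg.1 hp.2⟩)
      fun p hp => (b _ hp.1).1.1 (bg.1 hp.2)
  · simp only [Function.comp]
    rw [(b t ht).2 (g2.le ⟨x, hx, rfl⟩)]
    exact r x (h.rim_sub hx)
  · simp only [Function.comp]
    rw [h0 (bg.1 hx)]
    exact r x hx
  · simp only [Function.comp]
    rw [h1 (bg.1 hx)]
    simp only [Function.comp]
    rw [r x hx, r _ (hi.le ⟨x, hx, rfl⟩)]

end Pool.Agent.Lib.MP_b7d179_gt
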