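import Pool.Agent.Lib.MP_b7d179_gt.T.Defs

/-! An abstract back and forth argument for graphs of homeomorphisms. -/

set_option linter.unusedSectionVars false

namespace Pool.Agent.Lib.MP_b7d179_gt

open Set Metric

variable {Z Z' : Type*} [MetricSpace Z] [MetricSpace Z']

/-- compact graph of a bijection from `A` to `A'` -/
def Bij (Γ : Set (Z × Z')) (A : Set Z) (A' : Set Z') : Prop :=
  IsCompact Γ ∧ Γ ⊆ A ×ˢ A' ∧ (∀ x ∈ A, ∃! x', (x, x') ∈ Γ) ∧ ∀ x' ∈ A', ∃! x, (x, x') ∈ Γ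

def Pres (K : Set Z) (K' : Set Z') (Γ : Set (Z × Z')) : Prop := ∀ z ∈ Γ, z.1 ∈ K ↔ z.2 ∈ K'

/-- the graph of `f` over `A` -/
def gr (f : Z → Z') (A : Set Z) : Set (Z × Z') := (fun x => (x, f x)) '' A

structure St (Z Z' : Type*) where
  A : Set Z
  A' : Set Z'
  Γ : Set (Z × Z')

def St.swap (s : St Z Z') : St Z' Z := ⟨s.A', s.A, Prod.swap '' s.Γ⟩

def St.Done (K : Set Z) (K' : Set Z') (t : St Z Z') : Prop :=
  Bij t.Γ t.A t.A' ∧ Disjoint t.A K ∧ Disjoint t.A' K'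

/-- matched finite decomposition of a state -/
structure St.Dec (s : St Z Z') (P : Set (St Z Z')) : Prop where
  fin : P.Finite
  u : s.A = ⋃ t ∈ P, t.A
  u' : s.A' = ⋃ t ∈ P, t.A'
  loc : ∀ t ∈ P, ∀ z ∈ s.Γ, z.1 ∈ t.A ∨ z.2 ∈ t.A' → z ∈ t.Γ
  sep : ∀ t ∈ P, ∀ r ∈ P, t ≠ r → ∀ x ∈ t.A ∩ r.A, ∃ x', (x, x') ∈ t.Γ ∩ r.Γ
  sep' : ∀ t ∈ P, ∀ r ∈ P, t ≠ r → ∀ x' ∈ t.A' ∩ r.A', ∃ x, (x, x') ∈ t.Γ ∩ r.Γ

variable {A : Set Z} {A' : Set Z'} {Γ : Set (Z × Z')} {K : Set Z} {K' : Set Z'}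

theorem mem_gr {f : Z → Z'} {z : Z × Z'} : z ∈ gr f A ↔ z.1 ∈ A ∧ z.2 = f z.1 := by
  constructor
  · rintro ⟨x, hx, rfl⟩
    exact ⟨hx, rfl⟩
  · exact fun h => ⟨z.1, h.1, Prod.ext rfl h.2.symm⟩

theorem bij_gr {f : Z → Z'} (hA : IsCompact A) (hf : Emb f A) : Bij (gr f A) A (f '' A) := by
  refine ⟨hA.image_of_continuousOn (continuousOn_id.prodMk hf.1), fun z hz => ?_,
    fun x hx => ⟨f x, mem_gr.2 ⟨hx, rfl⟩, fun y hy => (mem_gr.1 hy).2⟩, ?_⟩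
  · exact ⟨(mem_gr.1 hz).1, z.1, (mem_gr.1 hz).1, (mem_gr.1 hz).2.symm⟩
  · rintro _ ⟨x, hx, rfl⟩
    exact ⟨x, mem_gr.2 ⟨hx, rfl⟩, fun y hy => hf.2 (mem_gr.1 hy).1 hx (mem_gr.1 hy).2.symm⟩

theorem Bij.emb (h : Bij Γ A A') [Nonempty Z'] :
    ∃ f : Z → Z', Emb f A ∧ f '' A = A' ∧ Γ = gr f A := by
  obtain ⟨c, sub, l, r⟩ := h
  choose! f f1 f2 using l
  have e : Γ = gr f A := by
    ext z
    refine ⟨fun hz => mem_gr.2 ⟨(sub hz).1, f2 _ (sub hz).1 _ hz⟩, ?_⟩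
    rintro ⟨x, hx, rfl⟩
    exact f1 x hx
  refine ⟨f, ⟨continuousOn_iff_isClosed.2 fun C hC => ⟨Prod.fst '' (Γ ∩ Prod.snd ⁻¹' C),
    ((c.inter_right (hC.preimage continuous_snd)).image continuous_fst).isClosed, ?_⟩,
    fun x hx y hy k => ?_⟩, ?_, e⟩
  · ext x
    refine ⟨fun k => ⟨⟨(x, f x), ⟨f1 x k.2, k.1⟩, rfl⟩, k.2⟩, ?_⟩
    rintro ⟨⟨z, hz, rfl⟩, k⟩
    exact ⟨by rw [mem_preimage, ← f2 _ k _ hz.1]; exact hz.2, k⟩
  · exact (r _ (sub (f1 x hx)).2).unique (f1 x hx) (show (y, f x) ∈ Γ from k ▸ f1 y hy)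
  · refine subset_antisymm ?_ fun y hy => ?_
    · rintro _ ⟨x, hx, rfl⟩
      exact (sub (f1 x hx)).2
    · obtain ⟨x, hx, -⟩ := r y hy
      exact ⟨x, (sub hx).1, (f2 x (sub hx).1 y hx).symm⟩

omit [MetricSpace Z] [MetricSpace Z'] in
theorem bf_swap {z : Z' × Z} : z ∈ Prod.swap '' Γ ↔ z.swap ∈ Γ :=
  ⟨by rintro ⟨w, hw, rfl⟩; exact hw, fun h => ⟨_, h, rfl⟩⟩

theorem Bij.swap (h : Bij Γ A A') : Bij (Prod.swap '' Γ) A' A := by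
  refine ⟨h.1.image continuous_swap, fun z hz => ?_, fun y hy => ?_, fun x hx => ?_⟩
  · exact ⟨(h.2.1 (bf_swap.1 hz)).2, (h.2.1 (bf_swap.1 hz)).1⟩
  · simpa only [bf_swap, Prod.swap_prod_mk] using h.2.2.2 y hy
  · simpa only [bf_swap, Prod.swap_prod_mk] using h.2.2.1 x hx

theorem Pres.swap (h : Pres K K' Γ) : Pres K' K (Prod.swap '' Γ) :=   fun _ hz => (h _ (bf_swap.1 hz)).symm

theorem St.swap_swap (s : St Z Z') : s.swap.swap = s := by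
  simp only [St.swap, image_image, Prod.swap_swap, image_id']

theorem St.Done.swap {t : St Z Z'} (h : t.Done K K') : t.swap.Done K' K :=   ⟨h.1.swap, h.2.2, h.2.1⟩

theorem St.Dec.swap {s : St Z Z'} {P : Set (St Z Z')} (h : s.Dec P) :
    s.swap.Dec (St.swap '' P) := by
  refine ⟨h.fin.image _, ?_, ?_, ?_, ?_, ?_⟩
  · rw [biUnion_image]; exact h.u'
  · rw [biUnion_image]; exact h.u
  · rintro _ ⟨t, ht, rfl⟩ z hz k
    exact bf_swap.2 (h.loc t ht _ (bf_swap.1 hz) k.symm)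
  · rintro _ ⟨t, ht, rfl⟩ _ ⟨r, hr, rfl⟩ n x hx
    obtain ⟨y, a, b⟩ := h.sep' t ht r hr (fun e => n (congrArg _ e)) x hx
    exact ⟨y, bf_swap.2 a, bf_swap.2 b⟩
  · rintro _ ⟨t, ht, rfl⟩ _ ⟨r, hr, rfl⟩ n x hx
    obtain ⟨y, a, b⟩ := h.sep t ht r hr (fun e => n (congrArg _ e)) x hx
    exact ⟨y, bf_swap.2 a, bf_swap.2 b⟩

theorem St.Dec.refl (s : St Z Z') : s.Dec {s} :=   ⟨finite_singleton _, by simp, by simp, fun _ ht _ hz _ => ht ▸ hz,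
    fun _ ht _ hr n => (n (ht.trans hr.symm)).elim, fun _ ht _ hr n => (n (ht.trans hr.symm)).elim⟩

omit [MetricSpace Z] [MetricSpace Z'] in
theorem St.Dec.sub {s t : St Z Z'} {P : Set (St Z Z')} (h : s.Dec P) (ht : t ∈ P) : t.A ⊆ s.A :=
  h.u ▸ subset_biUnion_of_mem (u := St.A) ht

omit [MetricSpace Z] [MetricSpace Z'] in
theorem St.Dec.sub' {s t : St Z Z'} {P : Set (St Z Z')} (h : s.Dec P) (ht : t ∈ P) :
    t.A' ⊆ s.A' := h.u' ▸ subset_biUnion_of_mem (u := St.A') ht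

omit [MetricSpace Z] [MetricSpace Z'] in
/-- pieces of two neighbours are separated -/
theorem St.Dec.bf_sep {a b t r : St Z Z'} {P Q : Set (St Z Z')} (ha : a.Dec P) (hb : b.Dec Q)
    (ht : t ∈ P) (hr : r ∈ Q) {z : Z × Z'} (hz : z ∈ a.Γ ∩ b.Γ)
    (k : z.1 ∈ t.A ∩ r.A ∨ z.2 ∈ t.A' ∩ r.A') : z ∈ t.Γ ∩ r.Γ :=
  ⟨ha.loc t ht z hz.1 (k.imp And.left And.left), hb.loc r hr z hz.2 (k.imp And.right And.right)⟩

theorem St.Dec.trans {s : St Z Z'} {P : Set (St Z Z')} {Q : St Z Z' → Set (St Z Z')} (h : s.Dec P)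
    (hQ : ∀ t ∈ P, t.Dec (Q t)) : s.Dec (⋃ t ∈ P, Q t) := by
  refine ⟨h.fin.biUnion fun t ht => (hQ t ht).fin, ?_, ?_, ?_, ?_, ?_⟩
  · rw [h.u, biUnion_iUnion]
    refine iUnion_congr fun t => ?_
    rw [biUnion_iUnion]
    exact iUnion_congr fun ht => (hQ t ht).u
  · rw [h.u', biUnion_iUnion]
    refine iUnion_congr fun t => ?_
    rw [biUnion_iUnion]
    exact iUnion_congr fun ht => (hQ t ht).u'
  · intro r hr z hz k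
    obtain ⟨t, ht, hr⟩ := mem_iUnion₂.1 hr
    exact (hQ t ht).loc r hr z (h.loc t ht z hz
      (k.imp (fun m => (hQ t ht).sub hr m) fun m => (hQ t ht).sub' hr m)) k
  · intro r hr r' hr' n x hx
    obtain ⟨t, ht, hr⟩ := mem_iUnion₂.1 hr
    obtain ⟨t', ht', hr'⟩ := mem_iUnion₂.1 hr'
    by_cases e : t = t'
    · exact (hQ t ht).sep r hr r' (e ▸ hr') n x hx
    · obtain ⟨y, hy⟩ := h.sep t ht t' ht' e x ⟨(hQ t ht).sub hr hx.1, (hQ t' ht').sub hr' hx.2⟩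
      exact ⟨y, (hQ t ht).bf_sep (hQ t' ht') hr hr' hy (.inl hx)⟩
  · intro r hr r' hr' n x hx
    obtain ⟨t, ht, hr⟩ := mem_iUnion₂.1 hr
    obtain ⟨t', ht', hr'⟩ := mem_iUnion₂.1 hr'
    by_cases e : t = t'
    · exact (hQ t ht).sep' r hr r' (e ▸ hr') n x hx
    · obtain ⟨y, hy⟩ := h.sep' t ht t' ht' e x ⟨(hQ t ht).sub' hr hx.1, (hQ t' ht').sub' hr' hx.2⟩
      exact ⟨y, (hQ t ht).bf_sep (hQ t' ht') hr hr' hy (.inr hx)⟩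

/-- two pieces, each cut further -/
theorem St.Dec.two {s a b : St Z Z'} {P Q : Set (St Z Z')} (ha : a.Dec P) (hb : b.Dec Q)
    (u : s.A = a.A ∪ b.A) (u' : s.A' = a.A' ∪ b.A')
    (la : ∀ z ∈ s.Γ, z.1 ∈ a.A ∨ z.2 ∈ a.A' → z ∈ a.Γ)
    (lb : ∀ z ∈ s.Γ, z.1 ∈ b.A ∨ z.2 ∈ b.A' → z ∈ b.Γ)
    (sep : ∀ x ∈ a.A ∩ b.A, ∃ x', (x, x') ∈ a.Γ ∩ b.Γ)
    (sep' : ∀ x' ∈ a.A' ∩ b.A', ∃ x, (x, x') ∈ a.Γ ∩ b.Γ) : s.Dec (P ∪ Q) := by
  refine ⟨ha.fin.union hb.fin, ?_, ?_, ?_, ?_, ?_⟩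
  · rw [biUnion_union, u, ← ha.u, ← hb.u]
  · rw [biUnion_union, u', ← ha.u', ← hb.u']
  · rintro t (ht | ht) z hz k
    · exact ha.loc t ht z (la z hz (k.imp (fun m => ha.sub ht m) fun m => ha.sub' ht m)) k
    · exact hb.loc t ht z (lb z hz (k.imp (fun m => hb.sub ht m) fun m => hb.sub' ht m)) k
  · rintro t (ht | ht) r (hr | hr) n x hx
    · exact ha.sep t ht r hr n x hx
    · obtain ⟨y, hy⟩ := sep x ⟨ha.sub ht hx.1, hb.sub hr hx.2⟩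
      exact ⟨y, ha.bf_sep hb ht hr hy (.inl hx)⟩
    · obtain ⟨y, hy⟩ := sep x ⟨ha.sub hr hx.2, hb.sub ht hx.1⟩
      exact ⟨y, hb.bf_sep ha ht hr hy.symm (.inl hx)⟩
    · exact hb.sep t ht r hr n x hx
  · rintro t (ht | ht) r (hr | hr) n x hx
    · exact ha.sep' t ht r hr n x hx
    · obtain ⟨y, hy⟩ := sep' x ⟨ha.sub' ht hx.1, hb.sub' hr hx.2⟩
      exact ⟨y, ha.bf_sep hb ht hr hy (.inr hx)⟩
    · obtain ⟨y, hy⟩ := sep' x ⟨ha.sub' hr hx.2, hb.sub' ht hx.1⟩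
      exact ⟨y, hb.bf_sep ha ht hr hy.symm (.inr hx)⟩
    · exact hb.sep' t ht r hr n x hx

/-- the pairs that a state still allows -/
def St.box (K : Set Z) (K' : Set Z') (t : St Z Z') : Set (Z × Z') :=
  {z | z ∈ t.A ×ˢ t.A' ∧ (t.Done K K' → z ∈ t.Γ)}

theorem St.Done.box {t : St Z Z'} (h : t.Done K K') : t.box K K' = t.Γ :=
  subset_antisymm (fun _ k => k.2 h) fun _ k => ⟨h.1.2.1 k, fun _ => k⟩

theorem St.box_eq {t : St Z Z'} (h : ¬ t.Done K K') : t.box K K' = t.A ×ˢ t.A' :=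
  subset_antisymm (fun _ k => k.1) fun _ k => ⟨k, fun d => (h d).elim⟩

theorem bf_ex {W X : Type*} [TopologicalSpace W] [T2Space W] [TopologicalSpace X] [T1Space X]
    {p : W → X} (hp : Continuous p) {L : ℕ → Set W} (c : ∀ n, IsCompact (L n))
    (d : ∀ n, L (n + 1) ⊆ L n) {x : X} (e : ∀ n, ∃ z ∈ L n, p z = x) :
    ∃ z ∈ ⋂ n, L n, p z = x := by
  have k : ∀ n, IsCompact (L n ∩ p ⁻¹' {x}) := fun n =>
    (c n).inter_right (isClosed_singleton.preimage hp)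
  obtain ⟨z, hz⟩ := IsCompact.nonempty_iInter_of_sequence_nonempty_isCompact_isClosed
    (fun n => L n ∩ p ⁻¹' {x}) (fun n => inter_subset_inter_left _ (d n)) e (k 0)
    fun n => (k n).isClosed
  exact ⟨z, mem_iInter.2 fun n => (mem_iInter.1 hz n).1, (mem_iInter.1 hz 0).2⟩

theorem bf_eq {x y : Z} (h : ∀ n : ℕ, dist x y < 1 / (n + 1) + 1 / (n + 1)) : x = y :=
  eq_of_forall_dist_le fun ε hε => by
    obtain ⟨n, hn⟩ := exists_nat_one_div_lt (half_pos hε)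
    linarith [h n]

theorem bf_mem (hK : IsClosed K) {x : Z} (h : ∀ n : ℕ, ∃ k ∈ K, dist x k < 1 / (n + 1)) :
    x ∈ K := hK.closure_subset (Metric.mem_closure_iff.2 fun ε hε => by
  obtain ⟨n, hn⟩ := exists_nat_one_div_lt hε
  obtain ⟨k, a, b⟩ := h n
  exact ⟨k, a, b.trans hn⟩)

/-- one round of back and forth -/
theorem bf_step {R : St Z Z' → Prop}
    (h₁ : ∀ s, R s → ∀ ε > 0, ∃ P, s.Dec P ∧
      ∀ t ∈ P, (R t ∧ ∀ x ∈ t.A, ∀ y ∈ t.A, dist x y < ε) ∨ t.Done K K')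
    (h₂ : ∀ s, R s → ∀ ε > 0, ∃ P, s.Dec P ∧
      ∀ t ∈ P, (R t ∧ ∀ x ∈ t.A', ∀ y ∈ t.A', dist x y < ε) ∨ t.Done K K')
    {ε : ℝ} (hε : 0 < ε) (s : St Z Z') (hs : R s ∨ s.Done K K') :
    ∃ P, s.Dec P ∧ (∀ t ∈ P, t.box K K' ⊆ s.box K K') ∧ ∀ t ∈ P, (R t ∧
      (∀ x ∈ t.A, ∀ y ∈ t.A, dist x y < ε) ∧ ∀ x ∈ t.A', ∀ y ∈ t.A', dist x y < ε) ∨
        t.Done K K' := by
  by_cases d : s.Done K K'
  · exact ⟨{s}, .refl s, fun t ht => ht ▸ subset_rfl, fun t ht => .inr (ht ▸ d)⟩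
  obtain ⟨P, a, b⟩ := h₁ s (hs.resolve_right d) ε hε
  have k : ∀ t ∈ P, ∃ Q, t.Dec Q ∧ ∀ r ∈ Q, (R r ∧ (∀ x ∈ r.A, ∀ y ∈ r.A, dist x y < ε) ∧
      ∀ x ∈ r.A', ∀ y ∈ r.A', dist x y < ε) ∨ r.Done K K' := fun t ht => by
    obtain c | c := b t ht
    · obtain ⟨Q, e, f⟩ := h₂ t c.1 ε hε
      exact ⟨Q, e, fun r hr => (f r hr).imp_left fun g =>
        ⟨g.1, fun x hx y hy => c.2 x (e.sub hr hx) y (e.sub hr hy), g.2⟩⟩
    · exact ⟨{t}, .refl t, fun r hr => .inr (hr ▸ c)⟩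
  choose! Q e f using k
  refine ⟨_, a.trans e, fun r hr z hz => ?_, fun r hr => ?_⟩
  · rw [St.box_eq d]
    exact ⟨(a.trans e).sub hr hz.1.1, (a.trans e).sub' hr hz.1.2⟩
  · obtain ⟨t, ht, hr⟩ := mem_iUnion₂.1 hr
    exact f t ht r hr

theorem bf (hK : IsClosed K) (hK' : IsClosed K') {R : St Z Z' → Prop}
    (hR : ∀ s, R s → IsCompact s.A ∧ IsCompact s.A' ∧ (K ∩ s.A).Nonempty ∧ (K' ∩ s.A').Nonempty ∧
      ∃ S ⊆ s.A, ∃ S' ⊆ s.A', Bij s.Γ S S')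
    (h₁ : ∀ s, R s → ∀ ε > 0, ∃ P, s.Dec P ∧
      ∀ t ∈ P, (R t ∧ ∀ x ∈ t.A, ∀ y ∈ t.A, dist x y < ε) ∨ t.Done K K')
    (h₂ : ∀ s, R s → ∀ ε > 0, ∃ P, s.Dec P ∧
      ∀ t ∈ P, (R t ∧ ∀ x ∈ t.A', ∀ y ∈ t.A', dist x y < ε) ∨ t.Done K K')
    {s : St Z Z'} (hs : R s) : ∃ Γ, Bij Γ s.A s.A' ∧ s.Γ ⊆ Γ ∧ Pres K K' Γ := by
  choose! Q q1 q2 q3 using fun n : ℕ =>
    bf_step h₁ h₂ (ε := 1 / (n + 1)) Nat.one_div_pos_of_nat
  let P : ℕ → Set (St Z Z') := fun n => n.rec {s} fun n p => ⋃ t ∈ p, Q n t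
  have p1 : ∀ n, s.Dec (P n) ∧ ∀ t ∈ P n, R t ∨ t.Done K K' := by
    intro n
    induction n with
    | zero => exact ⟨.refl s, fun t ht => .inl ((show t = s from ht) ▸ hs)⟩
    | succ n ih =>
      refine ⟨ih.1.trans fun t ht => q1 n t (ih.2 t ht), fun r hr => ?_⟩
      obtain ⟨t, ht, hr⟩ := mem_iUnion₂.1 hr
      exact (q3 n t (ih.2 t ht) r hr).imp_left And.left
  have p2 : ∀ n, ∀ r ∈ P (n + 1), ¬ r.Done K K' → R r ∧ (∀ x ∈ r.A, ∀ y ∈ r.A,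
      dist x y < 1 / (n + 1)) ∧ ∀ x ∈ r.A', ∀ y ∈ r.A', dist x y < 1 / (n + 1) := by
    intro n r hr d
    obtain ⟨t, ht, hr⟩ := mem_iUnion₂.1 hr
    exact (q3 n t ((p1 n).2 t ht) r hr).resolve_right d
  have p3 : ∀ n, ∀ t ∈ P n, t.Γ ⊆ t.box K K' := fun n t ht z hz => by
    obtain c | c := (p1 n).2 t ht
    · obtain ⟨-, -, -, -, S, a, S', b, e⟩ := hR t c
      exact ⟨⟨a (e.2.1 hz).1, b (e.2.1 hz).2⟩, fun _ => hz⟩
    · exact c.box.ge hz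
  let L : ℕ → Set (Z × Z') := fun n => ⋃ t ∈ P n, t.box K K'
  have c : ∀ n, IsCompact (L n) := fun n => (p1 n).1.fin.isCompact_biUnion fun t ht => by
    by_cases d : t.Done K K'
    · exact d.box ▸ d.1.1
    · have := hR t (((p1 n).2 t ht).resolve_right d)
      exact St.box_eq d ▸ this.1.prod this.2.1
  have d : ∀ n, L (n + 1) ⊆ L n := fun n z hz => by
    obtain ⟨r, hr, hz⟩ := mem_iUnion₂.1 hz
    obtain ⟨t, ht, hr⟩ := mem_iUnion₂.1 hr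
    exact mem_biUnion ht (q2 n t ((p1 n).2 t ht) r hr hz)
  have m : ∀ {z}, z ∈ ⋂ n, L n → ∀ n, ∃ t ∈ P n, z ∈ t.box K K' := fun hz n => by
    simpa only [L, mem_iUnion, exists_prop] using mem_iInter.1 hz n
  have pos (n : ℕ) : (0 : ℝ) < 1 / (n + 1) := Nat.one_div_pos_of_nat
  have l : ∀ n, ∀ t ∈ P (n + 1), ∀ {x y w}, (x, y) ∈ t.box K K' → (x, w) ∈ t.box K K' →
      dist y w < 1 / (n + 1) := fun n t ht x y w a b => by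
    by_cases e : t.Done K K'
    · rw [(e.1.2.2.1 x a.1.1).unique (a.2 e) (b.2 e), dist_self]; exact pos n
    · exact (p2 n t ht e).2.2 y a.1.2 w b.1.2
  have l' : ∀ n, ∀ t ∈ P (n + 1), ∀ {x y w}, (y, x) ∈ t.box K K' → (w, x) ∈ t.box K K' →
      dist y w < 1 / (n + 1) := fun n t ht x y w a b => by
    by_cases e : t.Done K K'
    · rw [(e.1.2.2.2 x a.1.2).unique (a.2 e) (b.2 e), dist_self]; exact pos n
    · exact (p2 n t ht e).2.1 y a.1.1 w b.1.1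
  refine ⟨⋂ n, L n, ⟨(c 0).of_isClosed_subset (isClosed_iInter fun n => (c n).isClosed)
    (iInter_subset _ 0), fun z hz => ?_, fun x hx => ?_, fun x hx => ?_⟩,
    fun z hz => mem_iInter.2 fun n => ?_, fun z hz => ⟨fun k => ?_, fun k => ?_⟩⟩
  · obtain ⟨t, ht, k⟩ := m hz 0
    exact ⟨(p1 0).1.sub ht k.1.1, (p1 0).1.sub' ht k.1.2⟩
  · obtain ⟨⟨_, y⟩, hy, rfl⟩ := bf_ex continuous_fst c d (x := x) fun n => by
      obtain ⟨t, ht, k⟩ := mem_iUnion₂.1 ((p1 n).1.u.le hx)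
      by_cases e : t.Done K K'
      · obtain ⟨y, a, -⟩ := e.1.2.2.1 x k
        exact ⟨(x, y), mem_biUnion ht (e.box.ge a), rfl⟩
      · obtain ⟨y, a⟩ := (hR t (((p1 n).2 t ht).resolve_right e)).2.2.2.1
        exact ⟨(x, y), mem_biUnion ht ((St.box_eq e).ge ⟨k, a.2⟩), rfl⟩
    refine ⟨y, hy, fun w hw => bf_eq fun n => ?_⟩
    obtain ⟨t, ht, a⟩ := m hw (n + 1)
    obtain ⟨r, hr, b⟩ := m hy (n + 1)
    by_cases e : t = r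
    · exact (l n t ht a (e ▸ b)).trans (lt_add_of_pos_right _ (pos n))
    · obtain ⟨v, k⟩ := (p1 (n + 1)).1.sep t ht r hr e _ ⟨a.1.1, b.1.1⟩
      exact (dist_triangle _ v _).trans_lt
        (add_lt_add (l n t ht a (p3 (n + 1) t ht k.1)) (l n r hr (p3 (n + 1) r hr k.2) b))
  · obtain ⟨⟨y, _⟩, hy, rfl⟩ := bf_ex continuous_snd c d (x := x) fun n => by
      obtain ⟨t, ht, k⟩ := mem_iUnion₂.1 ((p1 n).1.u'.le hx)
      by_cases e : t.Done K K'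
      · obtain ⟨y, a, -⟩ := e.1.2.2.2 x k
        exact ⟨(y, x), mem_biUnion ht (e.box.ge a), rfl⟩
      · obtain ⟨y, a⟩ := (hR t (((p1 n).2 t ht).resolve_right e)).2.2.1
        exact ⟨(y, x), mem_biUnion ht ((St.box_eq e).ge ⟨a.2, k⟩), rfl⟩
    refine ⟨y, hy, fun w hw => bf_eq fun n => ?_⟩
    obtain ⟨t, ht, a⟩ := m hw (n + 1)
    obtain ⟨r, hr, b⟩ := m hy (n + 1)
    by_cases e : t = r
    · exact (l' n t ht a (e ▸ b)).trans (lt_add_of_pos_right _ (pos n))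
    · obtain ⟨v, k⟩ := (p1 (n + 1)).1.sep' t ht r hr e _ ⟨a.1.2, b.1.2⟩
      exact (dist_triangle _ v _).trans_lt
        (add_lt_add (l' n t ht a (p3 (n + 1) t ht k.1)) (l' n r hr (p3 (n + 1) r hr k.2) b))
  · obtain ⟨-, -, -, -, S, a, S', -, e⟩ := hR s hs
    obtain ⟨t, ht, k⟩ := mem_iUnion₂.1 ((p1 n).1.u.le (a (e.2.1 hz).1))
    exact mem_biUnion ht (p3 n t ht ((p1 n).1.loc t ht z hz (.inl k)))
  · refine bf_mem hK' fun n => ?_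
    obtain ⟨t, ht, a⟩ := m hz (n + 1)
    have e := p2 n t ht fun e => disjoint_left.1 e.2.1 a.1.1 k
    obtain ⟨y, b⟩ := (hR t e.1).2.2.2.1
    exact ⟨y, b.1, e.2.2 _ a.1.2 y b.2⟩
  · refine bf_mem hK fun n => ?_
    obtain ⟨t, ht, a⟩ := m hz (n + 1)
    have e := p2 n t ht fun e => disjoint_left.1 e.2.2 a.1.2 k
    obtain ⟨y, b⟩ := (hR t e.1).2.2.1
    exact ⟨y, b.1, e.2.1 _ a.1.1 y b.2⟩

end Pool.Agent.Lib.MP_b7d179_gt
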