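import Pool.Agent.Lib.MP_b7d179_gt.U.Level
import Pool.Agent.Lib.MP_b7d179_gt.U.BF

/-! Discs with a tame Cantor set: a homeomorphism of the rims extends and matches the sets. -/

namespace Pool.Agent.Lib.MP_b7d179_gt

open Set Metric

variable {Z Z' : Type*} [MetricSpace Z] [MetricSpace Z']

variable {K D C W w : Set Z} {K' D' C' : Set Z'}

theorem Can.sub (h : Can K D C) (hK : IsClosed K) (hW : KD K W w) (hs : W ⊆ D) : Can K W w := by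
  refine ⟨hW, fun x hx ε hε => ?_, fun ε hε => ?_⟩
  · obtain ⟨U, oU, hU⟩ := h.kd.d.sub_open hW.d hs
    obtain ⟨δ, δ0, hδ⟩ := Metric.isOpen_iff.1 oU x
      (hU.ge ⟨hx.2, fun e => disjoint_left.1 hW.c e hx.1⟩).1
    obtain ⟨y, hy, ne, d⟩ := h.perf x ⟨hx.1, hs hx.2⟩ _ (lt_min hε δ0)
    exact ⟨y, ⟨hy.1, (hU.le ⟨hδ (d.trans_le (min_le_right _ _)), hy.2⟩).1⟩, ne,
      d.trans_le (min_le_left _ _)⟩
  · obtain ⟨δ, δ0, hδ⟩ := hW.c.exists_thickenings hW.d.rim_compact hK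
    obtain ⟨t, ht, hk, hc⟩ := h.cov _ (lt_min hε δ0)
    refine ⟨{j ∈ t | j.1 ⊆ W \ w}, ⟨ht.fin.subset (sep_subset _ _), fun j m => ht.disc j m.1,
      fun j m => m.2, ht.disj.subset (sep_subset _ _)⟩, fun j m => ⟨(hk j m.1).1, fun x a y b =>
      ((hk j m.1).2 x a y b).trans_le (min_le_left _ _)⟩, fun x hx => ?_⟩
    obtain ⟨j, m, hj⟩ := mem_iUnion₂.1 (hc ⟨hx.1, hs hx.2⟩)
    refine mem_iUnion₂.2 ⟨j, ⟨m, h.kd.d.conn_in hW.d hs (ht.disc j m).conn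
      ((ht.sub j m).trans sdiff_subset) (disjoint_left.2 fun y a b => ?_) ⟨x, hj, hx.2⟩⟩, hj⟩
    exact disjoint_left.1 hδ (mem_thickening_iff.2 ⟨y, b, ((hk j m).2 x hj y a).trans_le
      (min_le_right _ _)⟩) (self_subset_thickening δ0 _ hx.1)

/-- small feet inside the disc that cover its points of `K` -/
lemma Cantor_feet {σ : Tw Z} {B S : Set Z} (ok : σ.Ok) (h : G σ B S) (hD : KD σ.K D C)
    (hs : D ⊆ S) {ε : ℝ} (hε : 0 < ε) : ∃ F : Set σ.φ, F.Finite ∧ F.PairwiseDisjoint σ.A ∧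
      (∀ f ∈ F, σ.A f ⊆ D \ C ∧ ∀ x ∈ σ.A f, ∀ y ∈ σ.A f, dist x y < ε) ∧
      σ.K ∩ D ⊆ ⋃ f ∈ F, σ.A f := by
  obtain ⟨F, V, hT, hF⟩ := h.fine ok hD.d.rim_closed hD.c hε
  obtain ⟨m, hI⟩ := hT.inv ok.ok1
  refine ⟨{f ∈ F | σ.A f ⊆ D \ C}, hI.ft.fin.subset (sep_subset _ _),
    hI.ft.dj.subset (sep_subset _ _), fun f m => ⟨m.2, (hF f m.1).2⟩, fun x hx => ?_⟩
  obtain ⟨f, m, hf⟩ := mem_iUnion₂.1 (hI.ft.cov ⟨hx.1, hs hx.2⟩)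
  exact mem_iUnion₂.2 ⟨f, ⟨m, (rq_side (h.ball ok.toOk0).sph hD.d hs (ok.foot f).d.conn
    (hI.ft.sub f m) (hF f m).1).resolve_right fun e => disjoint_left.1 e hf hx.2⟩, hf⟩

theorem G.can {σ : Tw Z} {B S : Set Z} (ok : σ.Ok) (h : G σ B S) (hD : KD σ.K D C) (hs : D ⊆ S) :
    Can σ.K D C := by
  refine ⟨hD, fun x hx ε hε => ?_, fun ε hε => ?_⟩
  · obtain ⟨F, -, -, hF, hc⟩ := Cantor_feet ok h hD hs hε
    obtain ⟨f, m, hf⟩ := mem_iUnion₂.1 (hc hx)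
    obtain ⟨g, hg, g', hg', ne⟩ := ok.stwo f
    obtain ⟨y, hy⟩ := (ok.foot g).k
    obtain ⟨y', hy'⟩ := (ok.foot g').k
    have a := ((ok.sin f g hg).2 hy.2).1
    have a' := ((ok.sin f g' hg').2 hy'.2).1
    by_cases e : y = x
    · refine ⟨y', ⟨hy'.1, ((hF f m).1 a').1⟩, fun e' => ?_, (hF f m).2 _ a' _ hf⟩
      exact disjoint_left.1 (ok.fdj g g' ((ok.sin f g hg).1.trans (ok.sin f g' hg').1.symm) ne)
        (e ▸ hy.2) (e' ▸ hy'.2)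
    · exact ⟨y, ⟨hy.1, ((hF f m).1 a).1⟩, e, (hF f m).2 _ a _ hf⟩
  · obtain ⟨F, fin, dj, hF, hc⟩ := Cantor_feet ok h hD hs hε
    refine ⟨(fun f => (σ.A f, σ.C f)) '' F, ⟨fin.image _, forall_mem_image.2 fun f _ =>
      (ok.foot f).d, forall_mem_image.2 fun f m => (hF f m).1, ?_⟩,
      forall_mem_image.2 fun f m => ⟨ok.foot f, (hF f m).2⟩, by rwa [biUnion_image]⟩
    rintro _ ⟨f, m, rfl⟩ _ ⟨g, m', rfl⟩ ne
    exact dj m m' fun e => ne (e ▸ rfl)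

lemma Cantor_gap {X : Set Z} (hX : X.Finite) :
    ∃ δ > 0, ∀ x ∈ X, ∀ y ∈ X, dist x y < δ → x = y := by
  obtain ⟨c, c0, hc⟩ := hX.relatively_discrete
  obtain ⟨δ, -, δ0, hδ⟩ := ENNReal.lt_iff_exists_real_btwn.1 c0
  refine ⟨δ, ENNReal.ofReal_pos.1 δ0, fun x a y b d => by_contra fun ne => ?_⟩
  exact (hδ.trans_le (hc x a y b ne)).not_gt (edist_lt_ofReal.2 d)

lemma Cantor_inf (h : Can K D C) : (K ∩ D).Infinite := fun fin => by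
  obtain ⟨δ, δ0, hδ⟩ := Cantor_gap fin
  obtain ⟨x, hx⟩ := h.kd.k
  obtain ⟨y, hy, ne, d⟩ := h.perf x hx δ δ0
  exact ne (hδ y hy x hx d)

/-- a cover by holes -/
def CantorCov (K D C : Set Z) (t : Set (Set Z × Set Z)) : Prop :=
  Holes (D \ C) t Prod.fst Prod.snd ∧ (∀ j ∈ t, KD K j.1 j.2) ∧ K ∩ D ⊆ ⋃ j ∈ t, j.1

lemma Cantor_join (hD : Disc D C) {t : Set (Set Z × Set Z)} (h : CantorCov K D C t)
    (h2 : 1 < t.ncard) : ∃ t', t'.ncard + 1 = t.ncard ∧ CantorCov K D C t' := by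
  obtain ⟨ht, hk, hc⟩ := h
  obtain ⟨i, hi, j, hj, ne⟩ := (one_lt_ncard ht.fin).1 h2
  obtain ⟨T, n, dT, s1, s2, dj⟩ := holes_join hD ht hi hj ne
  obtain ⟨x0, hx0⟩ := (hk i hi).k
  have x0T : x0 ∈ T := (s1 (Or.inl hx0.2)).1
  have dj' : ∀ l ∈ (t \ {i}) \ {j}, Disjoint T l.1 := fun l m => dj l m.1.1 m.1.2 m.2
  have nm : (T, n) ∉ (t \ {i}) \ {j} := fun m => disjoint_left.1 (dj' _ m) x0T x0T
  have f1 : (t \ {i}).Finite := ht.fin.subset sdiff_subset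
  have f2 : ((t \ {i}) \ {j}).Finite := f1.subset sdiff_subset
  have cov : ∀ x ∈ K ∩ D, x ∈ T \ n ∨ ∃ l ∈ (t \ {i}) \ {j}, x ∈ l.1 := fun x hx => by
    obtain ⟨l, m, hl⟩ := mem_iUnion₂.1 (hc hx)
    by_cases a : l = i
    · exact Or.inl (s1 (Or.inl (a ▸ hl)))
    by_cases b : l = j
    · exact Or.inl (s1 (Or.inr (b ▸ hl)))
    exact Or.inr ⟨l, ⟨⟨m, a⟩, b⟩, hl⟩
  refine ⟨insert (T, n) ((t \ {i}) \ {j}), ?_, ⟨f2.insert _,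
    forall_mem_insert.2 ⟨dT, fun l m => ht.disc l m.1.1⟩,
    forall_mem_insert.2 ⟨s2, fun l m => ht.sub l m.1.1⟩,
    (ht.disj.subset (sdiff_subset.trans sdiff_subset)).insert fun l m _ => dj' l m⟩,
    forall_mem_insert.2 ⟨⟨dT, disjoint_left.2 fun x a b => ?_, x0, hx0.1, x0T⟩,
      fun l m => hk l m.1.1⟩, fun x hx => ?_⟩
  · rw [ncard_insert_of_notMem nm f2, ncard_sdiff_singleton_add_one
      (show j ∈ t \ {i} from ⟨hj, ne.symm⟩) f1, ncard_sdiff_singleton_add_one hi ht.fin]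
  · rcases cov x ⟨b, (s2 (dT.rim_sub a)).1⟩ with e | ⟨l, m, e⟩
    exacts [e.2 a, disjoint_left.1 (dj' l m) (dT.rim_sub a) e]
  · rcases cov x hx with e | ⟨l, m, e⟩
    exacts [mem_iUnion₂.2 ⟨_, mem_insert _ _, e.1⟩, mem_iUnion₂.2 ⟨l, Or.inr m, e⟩]

lemma Cantor_down (hD : Disc D C) {n : ℕ} (hn : 0 < n) (k : ℕ) :
    ∀ t, CantorCov K D C t → t.ncard = n + k → ∃ t', t'.ncard = n ∧ CantorCov K D C t' := by
  induction k with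
  | zero => exact fun t h e => ⟨t, e, h⟩
  | succ k ih =>
    intro t h e
    obtain ⟨t', e', h'⟩ := Cantor_join hD h (by omega)
    exact ih t' h' (by omega)

/-- a cover by exactly `n` holes -/
theorem Can.split (h : Can K D C) {n : ℕ} (hn : 0 < n) :
    ∃ t : Set (Set Z × Set Z), t.ncard = n ∧ Holes (D \ C) t Prod.fst Prod.snd ∧
      (∀ j ∈ t, KD K j.1 j.2) ∧ K ∩ D ⊆ ⋃ j ∈ t, j.1 := by
  obtain ⟨X, sX, fX, eX⟩ := (Cantor_inf h).exists_subset_ncard_eq n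
  obtain ⟨δ, δ0, hδ⟩ := Cantor_gap fX
  obtain ⟨t, ht, hk, hc⟩ := h.cov δ δ0
  have : ∀ x : Z, ∃ j : Set Z × Set Z, x ∈ X → j ∈ t ∧ x ∈ j.1 := fun x => by
    by_cases a : x ∈ X
    · obtain ⟨j, m, hj⟩ := mem_iUnion₂.1 (hc (sX a))
      exact ⟨j, fun _ => ⟨m, hj⟩⟩
    · exact ⟨(∅, ∅), fun b => (a b).elim⟩
  choose f hf using this
  have le : n ≤ t.ncard := eX ▸ ncard_le_ncard_of_injOn f (fun x a => (hf x a).1)
    (fun x a y b e => hδ x a y b ((hk _ (hf x a).1).2 x (hf x a).2 y (e ▸ (hf y b).2))) ht.fin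
  obtain ⟨k, e⟩ := Nat.exists_eq_add_of_le le
  exact Cantor_down h.kd.d hn k t ⟨ht, fun j m => (hk j m).1, hc⟩ e

/-- a decomposition carried along by an embedding -/
lemma Cantor_dec {H : Z → Z'} (hH : Emb H D) (hC : C ⊆ D) {I : Set (Set Z × Set Z)}
    (fin : I.Finite) (u : D = ⋃ i ∈ I, i.1) (r : ∀ i ∈ I, C ∩ i.1 ⊆ i.2)
    (dj : ∀ i ∈ I, ∀ j ∈ I, i ≠ j → i.1 ∩ j.1 ⊆ i.2) :
    St.Dec ⟨D, H '' D, gr H C⟩ ((fun i => (⟨i.1, H '' i.1, gr H i.2⟩ : St Z Z')) '' I) := by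
  have sub : ∀ i ∈ I, i.1 ⊆ D := fun i m => u ▸ subset_biUnion_of_mem (u := Prod.fst) m
  have key : ∀ i ∈ I, ∀ j ∈ I, i ≠ j → ∀ x ∈ i.1 ∩ j.1, (x, H x) ∈ gr H i.2 ∩ gr H j.2 :=
    fun i a j b ne x hx => ⟨mem_gr.2 ⟨dj i a j b ne hx, rfl⟩,
      mem_gr.2 ⟨dj j b i a ne.symm hx.symm, rfl⟩⟩
  refine ⟨fin.image _, by rw [biUnion_image]; exact u, ?_, ?_, ?_, ?_⟩
  · rw [biUnion_image, ← image_iUnion₂, ← u]
  · rintro _ ⟨i, m, rfl⟩ z hz e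
    obtain ⟨a, b⟩ := mem_gr.1 hz
    refine mem_gr.2 ⟨r i m ⟨a, e.elim id fun e => ?_⟩, b⟩
    exact (hH.mem_iff (sub i m) (hC a)).1 (b ▸ e)
  · rintro _ ⟨i, a, rfl⟩ _ ⟨j, b, rfl⟩ ne x hx
    exact ⟨_, key i a j b (fun e => ne (e ▸ rfl)) x hx⟩
  · rintro _ ⟨i, a, rfl⟩ _ ⟨j, b, rfl⟩ ne x' hx
    obtain ⟨x, m, rfl⟩ := (hH.inter (sub i a) (sub j b)).ge hx
    exact ⟨_, key i a j b (fun e => ne (e ▸ rfl)) x m⟩

theorem cantor_step (hK : IsClosed K) (hK' : IsClosed K') (h : Can K D C) (h' : Can K' D' C')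
    {Γ : Set (Z × Z')} (hΓ : Bij Γ C C') {ε : ℝ} (hε : 0 < ε) :
    ∃ P, St.Dec ⟨D, D', Γ⟩ P ∧ ∀ t ∈ P,
      ((∃ c c', Can K t.A c ∧ Can K' t.A' c' ∧ Bij t.Γ c c') ∧ ∀ x ∈ t.A, ∀ y ∈ t.A, dist x y < ε) ∨
        t.Done K K' := by
  have : Nonempty Z' := ⟨h'.kd.k.some⟩
  obtain ⟨φ, hφ, hi, rfl⟩ := hΓ.emb
  obtain ⟨t, ht, hk, hc⟩ := h.cov ε hε
  obtain ⟨x0, hx0⟩ := h.kd.k
  obtain ⟨j0, m0, -⟩ := mem_iUnion₂.1 (hc hx0)
  obtain ⟨t', e', ht', hk', hc'⟩ := h'.split ((ncard_pos ht.fin).2 ⟨j0, m0⟩)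
  obtain ⟨π, hπ⟩ := ht.fin.exists_bijOn_of_encard_eq (t := t')
    (by rw [← ht.fin.cast_ncard_eq, ← ht'.fin.cast_ncard_eq, e'])
  obtain ⟨H, hH, rfl, eH, hj⟩ := holes_map (W' := fun j => (π j).1) (w' := fun j => (π j).2)
    h.kd.d h'.kd.d hφ hi ht ⟨ht.fin, fun j m => ht'.disc _ (hπ.1 m),
      fun j m => ht'.sub _ (hπ.1 m), fun i a j b ne => ht'.disj (hπ.1 a) (hπ.1 b)
        fun e => ne (hπ.2.1 a b e)⟩
  have sub : ∀ j ∈ t, j.1 ⊆ D := fun j m => (ht.sub j m).trans sdiff_subset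
  obtain ⟨M, hM⟩ : ∃ M, M = D \ ⋃ j ∈ t, j.1 \ j.2 := ⟨_, rfl⟩
  have sM : M ⊆ D := hM ▸ sdiff_subset
  have rM : ∀ j ∈ t, j.1 ∩ M ⊆ j.2 := fun j m x hx => by_contra fun e =>
    (hM.le hx.2).2 (mem_iUnion₂.2 ⟨j, m, hx.1, e⟩)
  have cM : IsCompact M := by
    choose! U oU hU using fun j m => h.kd.d.sub_open (ht.disc j m) (sub j m)
    have : M = D \ ⋃ j ∈ t, U j := by
      rw [hM, ← iUnion₂_congr hU, ← iUnion₂_inter, inter_comm, sdiff_self_inter]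
    exact this ▸ h.kd.d.compact.diff (isOpen_biUnion oU)
  have eg : gr φ C = gr H C := image_congr fun x m => by rw [eH m]
  rw [eg]
  refine ⟨(fun i => (⟨i.1, H '' i.1, gr H i.2⟩ : St Z Z')) '' insert (M, M) t,
    Cantor_dec hH h.kd.d.rim_sub (ht.fin.insert (M, M)) ?_ ?_ ?_, ?_⟩
  · rw [biUnion_insert]
    refine Subset.antisymm (fun x hx => ?_) (union_subset sM (iUnion₂_subset sub))
    by_cases e : x ∈ ⋃ j ∈ t, j.1 \ j.2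
    · exact Or.inr (iUnion₂_mono (fun _ _ => sdiff_subset) e)
    · exact Or.inl (hM.ge ⟨hx, e⟩)
  · exact forall_mem_insert.2 ⟨inter_subset_right, fun j m x hx => ((ht.sub j m hx.2).2 hx.1).elim⟩
  · rintro i (rfl | a) j b ne
    · exact inter_subset_left
    · rcases b with rfl | b
      · exact rM i a
      · exact fun x hx => (disjoint_left.1 (ht.disj a b ne) hx.1 hx.2).elim
  · rintro _ ⟨j, rfl | m, rfl⟩
    · refine Or.inr ⟨bij_gr cM (hH.mono sM), disjoint_left.2 fun x a b => ?_, disjoint_left.2 ?_⟩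
      · obtain ⟨j, m, e⟩ := mem_iUnion₂.1 (hc ⟨b, sM a⟩)
        exact disjoint_left.1 (hk j m).1.c (rM j m ⟨e, a⟩) b
      · rintro _ ⟨x, a, rfl⟩ b
        obtain ⟨j', m', e⟩ := mem_iUnion₂.1 (hc' ⟨b, x, sM a, rfl⟩)
        obtain ⟨j, m, rfl⟩ := hπ.2.2 m'
        have := rM j m ⟨(hH.mem_iff (sub j m) (sM a)).1 ((hj j m).1.ge e), a⟩
        exact disjoint_left.1 (hk' _ m').c ((hj j m).2.le ⟨x, this, rfl⟩) b
    · refine Or.inl ⟨⟨j.2, H '' j.2, h.sub hK (hk j m).1 (sub j m), ?_, bij_gr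
        (ht.disc j m).rim_compact (hH.mono ((ht.disc j m).rim_sub.trans (sub j m)))⟩, (hk j m).2⟩
      show Can K' (H '' j.1) (H '' j.2)
      rw [(hj j m).1, (hj j m).2]
      exact h'.sub hK' (hk' _ (hπ.1 m)) ((ht'.sub _ (hπ.1 m)).trans sdiff_subset)

theorem cantor2 (hK : IsClosed K) (hK' : IsClosed K') (h : Can K D C) (h' : Can K' D' C')
    {φ : Z → Z'} (hφ : Emb φ C) (hi : φ '' C = C') :
    ∃ H : Z → Z', Emb H D ∧ H '' D = D' ∧ EqOn H φ C ∧ ∀ x ∈ D, x ∈ K ↔ H x ∈ K' := by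
  have : Nonempty Z' := ⟨h'.kd.k.some⟩
  obtain ⟨Γ, hΓ, s, p⟩ := bf hK hK'
    (R := fun s => ∃ c c', Can K s.A c ∧ Can K' s.A' c' ∧ Bij s.Γ c c')
    (fun s ⟨c, c', a, a', b⟩ => ⟨a.kd.d.compact, a'.kd.d.compact, a.kd.k, a'.kd.k, c,
      a.kd.d.rim_sub, c', a'.kd.d.rim_sub, b⟩)
    (fun s ⟨c, c', a, a', b⟩ ε hε => cantor_step hK hK' a a' b hε)
    (fun s ⟨c, c', a, a', b⟩ ε hε => by
      obtain ⟨P, d, hP⟩ := cantor_step hK' hK a' a b.swap hε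
      refine ⟨St.swap '' P, s.swap_swap ▸ St.Dec.swap (s := s.swap) d,
        forall_mem_image.2 fun t m => (hP t m).imp ?_ St.Done.swap⟩
      rintro ⟨⟨e, e', u, u', v⟩, d⟩
      exact ⟨⟨e', e, u', u, v.swap⟩, d⟩)
    (s := ⟨D, D', gr φ C⟩) ⟨C, C', h, h', hi ▸ bij_gr h.kd.d.rim_compact hφ⟩
  obtain ⟨H, hH, e, rfl⟩ := hΓ.emb
  exact ⟨H, hH, e, fun x m => (mem_gr.1 (s (mem_gr.2 ⟨m, rfl⟩ : (x, φ x) ∈ gr φ C))).2.symm,
    fun x m => p (x, H x) (mem_gr.2 ⟨m, rfl⟩)⟩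

end Pool.Agent.Lib.MP_b7d179_gt
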