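import Pool.Agent.Lib.MP_b7d179_gt.U.Cut
import Pool.Agent.Lib.MP_b7d179_gt.U.Cantor

/-! A homeomorphism of the rims of two good balls that matches the sets extends. -/

namespace Pool.Agent.Lib.MP_b7d179_gt

open Set Metric

variable {Z Z' : Type*} [MetricSpace Z] [MetricSpace Z']

variable {σ : Tw Z} {τ : Tw Z'} {B S : Set Z} {B' S' : Set Z'}

/-- states of the back and forth argument -/
def ExtR (σ : Tw Z) (τ : Tw Z') (t : St Z Z') : Prop :=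
  ∃ S S', G σ t.A S ∧ G τ t.A' S' ∧ Bij t.Γ S S' ∧ Pres σ.K τ.K t.Γ

theorem ext_wall {B1 S1 B2 S2 D C : Set Z} (g : Gl B S B1 S1 B2 S2 D C) (h1 : Ball B1 S1)
    (h2 : Ball B2 S2) {φ ψ : Z → Z'} (hφ : Emb φ S) {R L D' : Set Z'} (hψ : Emb ψ D)
    (iψ : ψ '' D = D') (e : EqOn ψ φ C) (ls : L ∩ φ '' S = φ '' (S ∩ B2)) (lr : L ∩ R = D')
    (ds : D' ∩ φ '' S = φ '' C) (u : B' = R ∪ L) (p1 : ∀ x ∈ S, x ∈ σ.K ↔ φ x ∈ τ.K)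
    (p2 : ∀ x ∈ D, x ∈ σ.K ↔ ψ x ∈ τ.K) :
    ∃ Φ : Z → Z', Emb Φ S1 ∧ Emb Φ S2 ∧ Φ '' S1 = (φ '' S \ φ '' (S ∩ B2)) ∪ D' ∧
      Φ '' S2 = φ '' (S ∩ B2) ∪ D' ∧ Pres σ.K τ.K (gr Φ S1) ∧ Pres σ.K τ.K (gr Φ S2) ∧
      ∀ Γ1 Γ2 P Q, gr Φ S1 ⊆ Γ1 → gr Φ S2 ⊆ Γ2 → St.Dec ⟨B1, R, Γ1⟩ P → St.Dec ⟨B2, L, Γ2⟩ Q →
        St.Dec ⟨B, B', gr φ S⟩ (P ∪ Q) := by
  obtain ⟨th, e0, e1, e2, -, -, e3⟩ := g.th h1 h2
  have cS : C ⊆ S := e3 ▸ inter_subset_left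
  have cD : C ⊆ D := g.d.rim_sub
  have d1 : D ⊆ B1 := g.i ▸ inter_subset_left
  have d2 : D ⊆ B2 := g.i ▸ inter_subset_right
  obtain ⟨Φ, hΦ, f1, f2⟩ := hφ.paste hψ (g.ball h1 h2).rim_compact.isClosed g.d.closed
    (by rw [e3]; exact e.symm) (by rw [iψ, inter_comm, ds, e3])
  have s1 : S1 ⊆ S ∪ D := e1 ▸ union_subset_union_left _ inter_subset_left
  have s2 : S2 ⊆ S ∪ D := e2 ▸ union_subset_union_left _ inter_subset_left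
  have iD : Φ '' D = D' := by rw [f2.image_eq, iψ]
  have pr : ∀ A ⊆ S ∪ D, Pres σ.K τ.K (gr Φ A) := fun A hA z hz => by
    obtain ⟨a, b⟩ := mem_gr.1 hz
    rcases hA a with k | k
    · rw [b, f1 k]
      exact p1 _ k
    · rw [b, f2 k]
      exact p2 _ k
  have side : ∀ x ∈ S, x ∈ B1 ∨ x ∈ B2 := fun x hx => (e0.le hx).imp (·.2) (·.2)
  have m1 : ∀ x ∈ S, x ∈ B1 → x ∈ S1 := fun x a b => e1.ge (.inl ⟨a, b⟩)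
  have m2 : ∀ x ∈ S, x ∈ B2 → x ∈ S2 := fun x a b => e2.ge (.inl ⟨a, b⟩)
  refine ⟨Φ, hΦ.mono s1, hΦ.mono s2, ?_, ?_, pr _ s1, pr _ s2, fun Γ1 Γ2 P Q g1 g2 a b =>
    a.two b g.u u (fun z hz k => g1 ?_) (fun z hz k => g2 ?_) (fun x hx => ?_) fun x hx => ?_⟩
  · rw [← hφ.diff subset_rfl inter_subset_left, ← iD,
      ← (f1.mono (sdiff_subset (t := S ∩ B2))).image_eq, ← image_union]
    congr 1
    refine Subset.antisymm (fun x hx => ?_) (union_subset (fun x hx => ?_) g.s1)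
    · rcases e1.le hx with k | k
      · by_cases k2 : x ∈ B2
        · exact .inr (g.i.le ⟨k.2, k2⟩)
        · exact .inl ⟨k.1, fun k3 => k2 k3.2⟩
      · exact .inr k
    · exact m1 x hx.1 ((side x hx.1).resolve_right fun k => hx.2 ⟨hx.1, k⟩)
  · rw [← iD, ← (f1.mono (inter_subset_left (t := B2))).image_eq, ← image_union, ← e2]
  · obtain ⟨hx, hz⟩ := mem_gr.1 hz
    refine mem_gr.2 ⟨m1 _ hx ?_, hz.trans (f1 hx).symm⟩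
    rcases k with k | k
    · exact k
    · refine (side _ hx).elim id fun k2 => d1 (cD ?_)
      have k3 : φ z.1 ∈ L := (ls.ge ⟨_, ⟨hx, k2⟩, rfl⟩).1
      exact (hφ.mem_iff cS hx).1 (ds.le ⟨lr.le ⟨k3, hz ▸ k⟩, _, hx, rfl⟩)
  · obtain ⟨hx, hz⟩ := mem_gr.1 hz
    refine mem_gr.2 ⟨m2 _ hx ?_, hz.trans (f1 hx).symm⟩
    rcases k with k | k
    · exact k
    · exact ((hφ.mem_iff inter_subset_left hx).1 (ls.le ⟨hz ▸ k, _, hx, rfl⟩)).2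
  · have k : x ∈ D := g.i.le hx
    exact ⟨Φ x, g1 (mem_gr.2 ⟨g.s1 k, rfl⟩), g2 (mem_gr.2 ⟨g.s2 k, rfl⟩)⟩
  · obtain ⟨y, k, rfl⟩ := iD.ge (lr.le ⟨hx.2, hx.1⟩)
    exact ⟨y, g1 (mem_gr.2 ⟨g.s1 k, rfl⟩), g2 (mem_gr.2 ⟨g.s2 k, rfl⟩)⟩

theorem ext_step (ok : σ.Ok) (ok' : τ.Ok) {ε : ℝ} (h : Part σ ε B S) (h' : G τ B' S')
    {Γ : Set (Z × Z')} (hΓ : Bij Γ S S') (hp : Pres σ.K τ.K Γ) :
    ∃ P, St.Dec ⟨B, B', Γ⟩ P ∧ ∀ t ∈ P,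
      (ExtR σ τ t ∧ ∀ x ∈ t.A, ∀ y ∈ t.A, dist x y < ε) ∨ t.Done σ.K τ.K := by
  induction h generalizing B' S' Γ with
  | small g k => exact ⟨_, St.Dec.refl _, fun t ht => ht ▸ .inl ⟨⟨_, _, g, h', hΓ, hp⟩, k⟩⟩
  | @glue0 B S B1 S1 W SW D C a hW hd g ih =>
    obtain ⟨y, -⟩ := h'.ne ok'
    have : Nonempty Z' := ⟨y⟩
    obtain ⟨φ, hφ, rfl, rfl⟩ := hΓ.emb
    have p1 : ∀ x ∈ S, x ∈ σ.K ↔ φ x ∈ τ.K := fun x hx => hp (x, φ x) (mem_gr.2 ⟨hx, rfl⟩)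
    have b1 := a.g.ball ok.toOk0
    obtain ⟨th, -, -, -, -, -, e3⟩ := g.th b1 hW
    have cS : C ⊆ S := e3 ▸ inter_subset_left
    have hE := th.d2.image hφ inter_subset_left
    obtain ⟨R, L, D', c1, c2, c3, c4, c5, c6, c7, c8, -⟩ := (h'.ball ok'.toOk0).collar ok'.kcl hE
      (image_mono inter_subset_left) (disjoint_left.2 fun _ ⟨x, hx, e⟩ k =>
        disjoint_left.1 hd hx.2 ((p1 x hx.1).2 (e ▸ k)))
    obtain ⟨m, m1, m2, m3, -⟩ := push (gl_of_cut c1 (image_mono inter_subset_left) hE.rim_sub c7 c2 c6)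
      c4 c3 ok'.kcl c5
    have gR := h'.move m1
    rw [m2, m3] at gR
    obtain ⟨ψ, q1, q2, q3⟩ := g.d.cone c1 (hφ.mono cS) rfl
    obtain ⟨Φ, f1, f2, i1, i2, r1, -, dec⟩ := ext_wall (σ := σ) (τ := τ) g b1 hW hφ q1 q2 q3 c8 c7 c2 c6 p1
      fun x hx => iff_of_false (disjoint_left.1 hd (g.i.ge hx).2)
        (disjoint_left.1 c5 (c7.ge (q2.le ⟨x, hx, rfl⟩)).1)
    obtain ⟨P, hP, hP'⟩ := ih gR (i1 ▸ bij_gr b1.rim_compact f1) r1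
    obtain ⟨H, k1, k2, k3⟩ := hW.ext c3 f2 i2
    refine ⟨_, dec _ (gr H W) _ _ subset_rfl (fun z hz => ?_) hP (St.Dec.refl _), ?_⟩
    · obtain ⟨hx, hz⟩ := mem_gr.1 hz
      exact mem_gr.2 ⟨hW.rim_sub hx, hz.trans (k3 hx).symm⟩
    · rintro t (ht | rfl)
      · exact hP' t ht
      · exact .inr ⟨k2 ▸ bij_gr hW.compact k1, hd, c5⟩
  | @glue1 B S B1 S1 B2 S2 D C a b g kd ih1 ih2 =>
    obtain ⟨y, -⟩ := h'.ne ok'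
    have : Nonempty Z' := ⟨y⟩
    obtain ⟨φ, hφ, rfl, rfl⟩ := hΓ.emb
    have p1 : ∀ x ∈ S, x ∈ σ.K ↔ φ x ∈ τ.K := fun x hx => hp (x, φ x) (mem_gr.2 ⟨hx, rfl⟩)
    have b1 := a.g.ball ok.toOk0
    have b2 := b.g.ball ok.toOk0
    obtain ⟨th, -, -, -, -, -, e3⟩ := g.th b1 b2
    have cS : C ⊆ S := e3 ▸ inter_subset_left
    obtain ⟨R, SR, L, D', c⟩ := h'.cut ok' (th.d2.image hφ inter_subset_left)
      (image_mono inter_subset_left) (disjoint_left.2 fun _ ⟨x, hx, e⟩ k =>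
        disjoint_left.1 kd.c hx ((p1 x (cS hx)).2 (e ▸ k)))
    have gR := c.g
    have gL := c.gl _ rfl
    have u := c.u
    rw [c.r, biUnion_singleton, biUnion_singleton] at gR
    rw [biUnion_singleton] at u
    obtain ⟨ψ, q1, q2, q3, q4⟩ := cantor2 ok.kcl ok'.kcl (a.g.can ok kd g.s1)
      (gL.can ok' (c.dd _ rfl) subset_union_right) (hφ.mono cS) rfl
    obtain ⟨Φ, f1, f2, i1, i2, r1, r2, dec⟩ := ext_wall g b1 b2 hφ q1 q2 q3 (c.ls _ rfl) (c.lr _ rfl)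
      (c.ds _ rfl) u p1 q4
    obtain ⟨P, hP, hP'⟩ := ih1 gR (i1 ▸ bij_gr b1.rim_compact f1) r1
    obtain ⟨Q, hQ, hQ'⟩ := ih2 gL (i2 ▸ bij_gr b2.rim_compact f2) r2
    exact ⟨_, dec _ _ _ _ subset_rfl subset_rfl hP hQ, fun t ht => ht.elim (hP' t) (hQ' t)⟩

theorem ext (ok : σ.Ok) (ok' : τ.Ok) (h : G σ B S) (h' : G τ B' S') {φ : Z → Z'} (hφ : Emb φ S)
    (hi : φ '' S = S') (hp : ∀ x ∈ S, x ∈ σ.K ↔ φ x ∈ τ.K) :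
    ∃ H : Z → Z', Emb H B ∧ H '' B = B' ∧ EqOn H φ S ∧ ∀ x ∈ B, x ∈ σ.K ↔ H x ∈ τ.K := by
  obtain ⟨y, -⟩ := h'.ne ok'
  have : Nonempty Z' := ⟨y⟩
  obtain ⟨Γ, a, b, c⟩ := bf ok.kcl ok'.kcl (R := ExtR σ τ) (s := ⟨B, B', gr φ S⟩)
    (fun s ⟨S, S', g, g', k, _⟩ => ⟨(g.ball ok.toOk0).compact, (g'.ball ok'.toOk0).compact, g.ne ok,
      g'.ne ok', S, (g.ball ok.toOk0).rim_sub, S', (g'.ball ok'.toOk0).rim_sub, k⟩)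
    (fun s ⟨S, S', g, g', k, k'⟩ ε hε => ext_step ok ok' (g.part ok hε) g' k k')
    (fun s ⟨S, S', g, g', k, k'⟩ ε hε => by
      obtain ⟨P, hP, hP'⟩ := ext_step ok' ok (g'.part ok' hε) g k.swap k'.swap
      refine ⟨_, s.swap_swap ▸ St.Dec.swap (s := s.swap) hP, ?_⟩
      rintro _ ⟨r, hr, rfl⟩
      exact (hP' r hr).imp (fun ⟨⟨T, T', a, b, c, d⟩, e⟩ => ⟨⟨T', T, b, a, c.swap, d.swap⟩, e⟩)
        St.Done.swap)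
    ⟨S, S', h, h', hi ▸ bij_gr (h.ball ok.toOk0).rim_compact hφ, fun z hz => by
      obtain ⟨hx, hz⟩ := mem_gr.1 hz
      rw [hz]
      exact hp _ hx⟩
  obtain ⟨H, k1, k2, rfl⟩ := a.emb
  exact ⟨H, k1, k2, fun x hx => (mem_gr.1 (b (mem_gr.2 ⟨hx, rfl⟩ : (x, φ x) ∈ gr φ S))).2.symm,
    fun x hx => c (x, H x) (mem_gr.2 ⟨hx, rfl⟩)⟩

end Pool.Agent.Lib.MP_b7d179_gt
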