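import Pool.Agent.Lib.MP_b7d179_gt.U.Tree

/-! Essential arcs: transport, dumbbells, one wall. -/

namespace Pool.Agent.Lib.MP_b7d179_gt

open Set Metric

variable {Z Z' : Type*} [MetricSpace Z] [MetricSpace Z']

variable {σ : Tw Z} {S X O1 O2 D C : Set Z} {F F1 F2 : Set σ.φ} {E E' : σ.φ → Set Z}

/-- introduction rule with any finite index set -/
theorem ess_intro {ι : Type*} {s : Set ι} (hs : s.Finite) {a : ι → Set Z} {p q : ι → Z}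
    {f g : ι → σ.φ} (h : ∀ i ∈ s, Arc (a i) (p i) (q i) ∧ a i ⊆ S ∧ f i ∈ F ∧ g i ∈ F ∧
      p i ∈ σ.J (f i) ∧ q i ∈ σ.J (g i) ∧ (a i ∩ ⋃ k ∈ F, σ.A k) = {p i, q i} ∧
      (f i = g i → ∃ k ∈ F, ∃ l ∈ F, k ≠ f i ∧ l ≠ f i ∧ ∀ Y, IsPreconnected Y →
        Y ⊆ S \ (σ.A (f i) ∪ a i) → Disjoint Y (σ.A k) ∨ Disjoint Y (σ.A l)))
    (hd : s.PairwiseDisjoint a) (hE : ∀ k ∈ F, E k = (⋃ i ∈ s, a i) ∩ σ.A k) :
    Ess σ S F E (⋃ i ∈ s, a i) := by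
  have := hs.to_subtype
  obtain ⟨n, ⟨e⟩⟩ := Finite.exists_equiv_fin s
  have u : (⋃ i ∈ s, a i) = ⋃ j : Fin n, a (e.symm j) := by
    rw [biUnion_eq_iUnion]
    exact (e.symm.surjective.iUnion_comp fun i => a i).symm
  exact ⟨Fin n, inferInstance, fun j => a (e.symm j), fun j => p (e.symm j), fun j => q (e.symm j),
    fun j => f (e.symm j), fun j => g (e.symm j), fun j => h _ (e.symm j).2, fun j k m =>
    hd (e.symm j).2 (e.symm k).2 fun c => m (e.symm.injective (Subtype.ext c)), u, hE⟩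

theorem Ess.sub (h : Ess σ S F E X) : X ⊆ S := by
  obtain ⟨ι, _, a, p, q, f, g, k, -, rfl, -⟩ := h
  exact iUnion_subset fun i => (k i).2.1

theorem Ess.congr (h : Ess σ S F E X) (he : ∀ f ∈ F, E' f = E f) : Ess σ S F E' X := by
  obtain ⟨ι, i, a, p, q, f, g, k, d, u, e⟩ := h
  exact ⟨ι, i, a, p, q, f, g, k, d, u, fun j hj => (he j hj).trans (e j hj)⟩

theorem ess_fix {k : Z → Z} {M Y : Set Z} (hk : Emb k S) (hM : M ⊆ S) (hf : ∀ x ∈ M, k x = x)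
    (hY : Y ⊆ S) : k '' Y ∩ M = Y ∩ M := by
  refine subset_antisymm ?_ fun z hz => ⟨⟨z, hz.1, hf z hz.2⟩, hz.2⟩
  rintro _ ⟨⟨y, hy, rfl⟩, hz⟩
  exact ⟨(hk.2 (hM hz) (hY hy) (hf _ hz)).symm ▸ hy, hz⟩

theorem Ess.map (h : Ess σ S F E X) (hS : IsCompact S) (hF : ∀ f ∈ F, σ.A f ⊆ S) {k : Z → Z}
    (hk : Emb k S) (hf : ∀ f ∈ F, ∀ x ∈ σ.A f, k x = x) : Ess σ (k '' S) F E (k '' X) := by
  have hX := h.sub
  obtain ⟨ι, i, a, p, q, f, g, m, d, u, e⟩ := h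
  have hM : (⋃ j ∈ F, σ.A j) ⊆ S := iUnion₂_subset hF
  have fx : ∀ x ∈ ⋃ j ∈ F, σ.A j, k x = x := fun x hx => by
    obtain ⟨j, hj, hx⟩ := mem_iUnion₂.1 hx
    exact hf j hj x hx
  refine ⟨ι, i, fun j => k '' a j, p, q, f, g, fun j => ?_,
    fun j l n => hk.disjoint (m j).2.1 (m l).2.1 (d n), by rw [u, image_iUnion],
    fun j hj => (e j hj).trans (ess_fix hk (hF j hj) (hf j hj) hX).symm⟩
  obtain ⟨m1, m2, m3, m4, m5, m6, m7, m8⟩ := m j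
  have b := m1.image hk m2
  rw [fx _ (m7.ge (mem_insert _ _)).2, fx _ (m7.ge (mem_insert_of_mem _ rfl)).2] at b
  refine ⟨b, image_mono m2, m3, m4, m5, m6, (ess_fix hk hM fx m2).trans m7, fun c => ?_⟩
  obtain ⟨r, hr, t, ht, n1, n2, y⟩ := m8 c
  have : Nonempty Z := ⟨p j⟩
  obtain ⟨k', i1, i2, -, -⟩ := hk.inv hS
  refine ⟨r, hr, t, ht, n1, n2, fun Y hY s => ?_⟩
  have w : ∀ r ∈ F, Disjoint (k' '' Y) (σ.A r) → Disjoint Y (σ.A r) := fun r hr n =>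
    disjoint_left.2 fun z hz hz' => disjoint_left.1 n
      ⟨z, hz, by rw [← hf r hr z hz', i2 z (hF r hr hz'), hf r hr z hz']⟩ hz'
  refine (y (k' '' Y) (hY.image _ (i1.1.mono fun z hz => (s hz).1)) ?_).imp (w r hr) (w t ht)
  rintro _ ⟨z, hz, rfl⟩
  obtain ⟨⟨x, hx, rfl⟩, n⟩ := s hz
  rw [i2 x hx]
  exact ⟨hx, fun c => n (c.imp (fun c => (hf _ m3 x c).symm ▸ c) (mem_image_of_mem k))⟩

theorem ess_land (ok : σ.Ok) (f : σ.φ) : σ.J f ⊆ σ.C f := by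
  obtain ⟨a, p, q, -, s, e⟩ := ok.land f
  exact e ▸ sdiff_subset.trans s

theorem ess_foot (ok : σ.Ok) (ft : Ft σ S F) {f g : σ.φ} (hf : f ∈ F) (hg : g ∈ F) {x : Z}
    (hx : x ∈ σ.J f) (hy : x ∈ σ.A g) : f = g :=
  ft.dj.elim_set hf hg x ((ok.foot f).d.rim_sub (ess_land ok f hx)) hy

theorem Ess.free (ok : σ.Ok) (h : Ess σ S F E X) (ft : Ft σ S F) :
    Disjoint X σ.K ∧ IsCompact X ∧ ∀ f ∈ F, (E f).Finite ∧ E f ⊆ σ.J f := by
  have hX := h.sub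
  obtain ⟨ι, _, a, p, q, f, g, m, -, rfl, e⟩ := h
  have k : ∀ z ∈ ⋃ i, a i, ∀ r ∈ F, z ∈ σ.A r → z ∈ σ.J r ∧ z ∈ range p ∪ range q :=
    fun z hz r hr hz' => by
      obtain ⟨i, hi⟩ := mem_iUnion.1 hz
      obtain ⟨-, -, m3, m4, m5, m6, m7, -⟩ := m i
      rcases m7.le ⟨hi, mem_biUnion hr hz'⟩ with rfl | rfl
      · exact ⟨ess_foot ok ft m3 hr m5 hz' ▸ m5, .inl ⟨i, rfl⟩⟩
      · exact ⟨ess_foot ok ft m4 hr m6 hz' ▸ m6, .inr ⟨i, rfl⟩⟩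
  refine ⟨disjoint_left.2 fun z hz hK => ?_, isCompact_iUnion fun i => (m i).1.compact,
    fun r hr => ?_⟩
  · obtain ⟨r, hr, hz'⟩ := mem_iUnion₂.1 (ft.cov ⟨hK, hX hz⟩)
    exact disjoint_left.1 (ok.foot r).c (ess_land ok r (k z hz r hr hz').1) hK
  · rw [e r hr]
    exact ⟨((finite_range p).union (finite_range q)).subset fun z hz => (k z hz.1 r hr hz.2).2,
      fun z hz => (k z hz.1 r hr hz.2).1⟩

theorem ess_bell {K D' C' l l' a : Set Z} {e e' : Z} (h : Pop K D C e l) (h' : Pop K D' C' e' l')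
    (ha : Arc a e e') (hK : Disjoint a K) (i : a ∩ l ⊆ {e}) (i' : a ∩ l' ⊆ {e'})
    (hd : Disjoint l l') : ∃ W w W' w' b p q, Bell K W w W' w' b p q ∧ W ⊆ D ∧ W' ⊆ D' ∧
      W ∪ b ∪ W' = l ∪ a ∪ l' := by
  obtain ⟨m, η, Q, q, x, t, k, s, d, -, -, rfl⟩ := h
  obtain ⟨m', η', Q', q', x', t', k', s', d', -, -, rfl⟩ := h'
  have n := disjoint_left.1 hd
  have j : η ∩ a = {e} := subset_antisymm (fun z hz => i ⟨hz.2, .inr hz.1⟩)
    (singleton_subset_iff.2 ⟨t.arc.left, ha.left⟩)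
  have j' : (η ∪ a) ∩ η' = {e'} := subset_antisymm
    (fun z hz => hz.1.elim (fun c => (n (.inr c) (.inr hz.2)).elim) fun c => i' ⟨c, .inr hz.2⟩)
    (singleton_subset_iff.2 ⟨.inr ha.right, t'.arc.left⟩)
  refine ⟨Q, q, Q', q', η ∪ a ∪ η', x, x', ⟨k, k', hd.mono subset_union_left subset_union_left,
    (t.arc.symm.cat ha j).cat t'.arc j', disjoint_union_left.2 ⟨disjoint_union_left.2 ⟨d, hK⟩, d'⟩,
    subset_antisymm ?_ (singleton_subset_iff.2 ⟨.inl (.inl t.arc.right), (t.inter.ge rfl).2⟩),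
    subset_antisymm ?_ (singleton_subset_iff.2 ⟨.inr t'.arc.right, (t'.inter.ge rfl).2⟩),
    t.mem, t'.mem⟩, s.trans sdiff_subset, s'.trans sdiff_subset, ?_⟩
  · rintro z ⟨(c | c) | c, hz⟩
    · exact t.inter.le ⟨c, hz⟩
    · exact ((s hz).2 ((i ⟨c, .inl hz⟩ : z = e) ▸ m)).elim
    · exact (n (.inl hz) (.inr c)).elim
  · rintro z ⟨(c | c) | c, hz⟩
    · exact (n (.inr c) (.inl hz)).elim
    · exact ((s' hz).2 ((i' ⟨c, .inl hz⟩ : z = e') ▸ m')).elim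
    · exact t'.inter.le ⟨c, hz⟩
  · ext z
    simp only [mem_union]
    tauto

theorem Ess.dumb (ok : σ.Ok) (h : Ess σ S F E X) (ft : Ft σ S F) {Λ : σ.φ → Set Z}
    (hΛ : ∀ f ∈ F, Lols σ.K (σ.A f) (σ.C f) univ (E f) (Λ f)) :
    Dumb σ.K S (⋃ f ∈ F, σ.A f) (X ∪ ⋃ f ∈ F, Λ f) := by
  have hK := (h.free ok ft).1
  obtain ⟨ι, _, a, p, q, f, g, m, d, u, e⟩ := h
  choose! l l1 l2 l3 using fun r hr => (hΛ r hr).pops
  have aX : ∀ i, a i ⊆ X := fun i => u ▸ subset_iUnion a i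
  have jA : ∀ r, σ.J r ⊆ σ.A r := fun r => (ess_land ok r).trans (ok.foot r).d.rim_sub
  have pE : ∀ i, p i ∈ E (f i) := fun i =>
    (e _ (m i).2.2.1).ge ⟨aX i (m i).1.left, jA _ (m i).2.2.2.2.1⟩
  have qE : ∀ i, q i ∈ E (g i) := fun i =>
    (e _ (m i).2.2.2.1).ge ⟨aX i (m i).1.right, jA _ (m i).2.2.2.2.2.1⟩
  have lA : ∀ r ∈ F, ∀ x ∈ E r, l r x ⊆ σ.A r := fun r hr x hx => (l1 r hr x hx).facts.1
  have lX : ∀ r ∈ F, ∀ x ∈ E r, X ∩ l r x ⊆ {x} := fun r hr x hx z hz =>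
    (l1 r hr x hx).facts.2.1.le ⟨hz.2, (hΛ r hr).2.1 ((e r hr).ge ⟨hz.1, lA r hr x hx hz.2⟩)⟩
  have ll : ∀ r ∈ F, ∀ x ∈ E r, ∀ t ∈ F, ∀ y ∈ E t, x ≠ y → Disjoint (l r x) (l t y) :=
    fun r hr x hx t ht y hy n => by
      by_cases c : r = t
      · subst c
        exact l2 r hr hx hy n
      · exact (ft.dj hr ht c).mono (lA r hr x hx) (lA t ht y hy)
  choose W w W' w' b x y k1 k2 k3 k4 using fun i => ess_bell (l1 _ (m i).2.2.1 _ (pE i))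
    (l1 _ (m i).2.2.2.1 _ (qE i)) (m i).1 (hK.mono_left (aX i))
    ((inter_subset_inter_left _ (aX i)).trans (lX _ (m i).2.2.1 _ (pE i)))
    ((inter_subset_inter_left _ (aX i)).trans (lX _ (m i).2.2.2.1 _ (qE i)))
    (ll _ (m i).2.2.1 _ (pE i) _ (m i).2.2.2.1 _ (qE i) (m i).1.ne)
  have T : ∀ i, ∀ z ∈ W i ∪ b i ∪ W' i, z ∈ a i ∨ ∃ r ∈ F, ∃ x ∈ E r, x ∈ a i ∧ z ∈ l r x :=
    fun i z hz => by
      rcases (k4 i).le hz with (c | c) | c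
      · exact .inr ⟨_, (m i).2.2.1, _, pE i, (m i).1.left, c⟩
      · exact .inl c
      · exact .inr ⟨_, (m i).2.2.2.1, _, qE i, (m i).1.right, c⟩
  refine ⟨ι, ‹_›, W, w, W', w', b, x, y, fun i => ⟨k1 i, fun z hz => ?_, union_subset
    ((k2 i).trans (subset_biUnion_of_mem (u := σ.A) (m i).2.2.1))
    ((k3 i).trans (subset_biUnion_of_mem (u := σ.A) (m i).2.2.2.1))⟩,
    fun i j n => disjoint_left.2 fun z hz hz' => ?_, subset_antisymm ?_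
    (iUnion_subset fun i z hz => ?_)⟩
  · rcases T i z hz with c | ⟨r, hr, x, hx, -, c⟩
    · exact (m i).2.1 c
    · exact ft.sub r hr (lA r hr x hx c)
  · have n := disjoint_left.1 (d n)
    rcases T i z hz with c | ⟨r, hr, x, hx, s, c⟩ <;>
      rcases T j z hz' with c' | ⟨t, ht, y, hy, s', c'⟩
    · exact n c c'
    · exact n c ((lX t ht y hy ⟨aX i c, c'⟩ : z = y) ▸ s')
    · exact n ((lX r hr x hx ⟨aX j c', c⟩ : z = x) ▸ s) c'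
    · exact disjoint_left.1 (ll r hr x hx t ht y hy fun o => n s (o ▸ s')) c c'
  · rintro z (hz | hz)
    · obtain ⟨i, hi⟩ := mem_iUnion.1 (u.le hz)
      exact mem_iUnion.2 ⟨i, (k4 i).ge (.inl (.inr hi))⟩
    · obtain ⟨r, hr, hz⟩ := mem_iUnion₂.1 hz
      obtain ⟨x, hx, hz⟩ := mem_iUnion₂.1 ((l3 r hr).le hz)
      have o := (e r hr).le hx
      obtain ⟨i, hi⟩ := mem_iUnion.1 (u.le o.1)
      obtain ⟨-, -, m3, m4, m5, m6, m7, -⟩ := m i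
      refine mem_iUnion.2 ⟨i, (k4 i).ge ?_⟩
      rcases m7.le ⟨hi, mem_biUnion hr o.2⟩ with rfl | rfl
      · exact .inl (.inl (ess_foot ok ft m3 hr m5 o.2 ▸ hz))
      · exact .inr (ess_foot ok ft m4 hr m6 o.2 ▸ hz)
  · rcases T i z hz with c | ⟨r, hr, x, hx, -, c⟩
    · exact .inl (aX i c)
    · exact .inr (mem_biUnion hr ((l3 r hr).ge (mem_biUnion hx c)))

/-- one arc between two different feet -/
theorem ess_one (ft : Ft σ S F) {a : Set Z} {p q : Z} {f g : σ.φ} (ha : Arc a p q) (hs : a ⊆ S)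
    (hf : f ∈ F) (hg : g ∈ F) (hne : f ≠ g) (hp : p ∈ σ.J f) (hq : q ∈ σ.J g)
    (hi : (a ∩ ⋃ k ∈ F, σ.A k) = {p, q}) : Ess σ S F (fun k => a ∩ σ.A k) a :=
  have _ := ft
  ⟨Unit, inferInstance, fun _ => a, fun _ => p, fun _ => q, fun _ => f, fun _ => g,
    fun _ => ⟨ha, hs, hf, hg, hp, hq, hi, fun c => (hne c).elim⟩, Subsingleton.pairwise,
    (iUnion_const a).symm, fun _ _ => rfl⟩

theorem ess_lols {K P : Set Z} {l : Z → Set Z} (hP : P.Finite) (h : ∀ e ∈ P, Pop K D C e (l e))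
    (hd : P.PairwiseDisjoint l) (hn : ((K ∩ D) \ ⋃ e ∈ P, l e).Nonempty) :
    Lols K D C univ P (⋃ e ∈ P, l e) := by
  have : Nonempty Z := ⟨hn.some⟩
  choose! η Q q x k1 k2 k3 k4 k5 k6 k7 using fun e he => (h e he).2
  exact ⟨hP, fun e he => (h e he).1, Q, q, η, x, fun e he => ⟨k1 e he, k2 e he,
    subset_inter (subset_univ _) (k3 e he), k4 e he, k5 e he, k6 e he⟩,
    hd.mono_on fun e he => (k7 e he).ge, iUnion₂_congr k7, hn⟩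

/-- lollipops in a foot inside the wall, prolonged by access arcs -/
theorem lols_access {K A c Y Λ E₀ P : Set Z} {η : Z → Set Z} {x : Z → Z} (hA : A ⊆ D \ C)
    (hP : P.Finite) (hs : P ⊆ C) (hη : ∀ e ∈ P, Arc (η e) e (x e) ∧ η e ⊆ D ∧ η e ∩ C = {e} ∧
      η e ∩ A = {x e} ∧ Disjoint (η e) K) (hd : P.PairwiseDisjoint η) (hE : E₀ = x '' P)
    (hY : Y = ⋃ e ∈ P, η e) (hΛ : Lols K A c univ E₀ Λ) : Lols K D C univ P (Y ∪ Λ) := by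
  obtain ⟨l, k, d, e⟩ := hΛ.pops
  obtain ⟨-, -, -, -, -, -, -, -, -, z, hz, hz'⟩ := hΛ
  subst hE
  have m : ∀ e ∈ P, Pop K A c (x e) (l (x e)) := fun e he => k _ (mem_image_of_mem x he)
  have u : Y ∪ Λ = ⋃ e ∈ P, η e ∪ l (x e) := by
    rw [hY, e, biUnion_image]
    simp only [iUnion_union_distrib]
  have n : ∀ a ∈ P, ∀ b ∈ P, a ≠ b → Disjoint (l (x a)) (l (x b)) := fun a ha b hb n =>
    d (mem_image_of_mem x ha) (mem_image_of_mem x hb) fun o =>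
      disjoint_left.1 (hd ha hb n) (hη a ha).1.right (o ▸ (hη b hb).1.right)
  have n' : ∀ a ∈ P, ∀ b ∈ P, a ≠ b → Disjoint (η a) (l (x b)) := fun a ha b hb o =>
    disjoint_left.2 fun y hy hy' => disjoint_left.1 (n a ha b hb o)
      (((hη a ha).2.2.2.1.le ⟨hy, (m b hb).facts.1 hy'⟩ : y = x a) ▸
        ((m a ha).facts.2.1.ge rfl).1) hy'
  rw [u]
  refine ess_lols hP (fun a ha => ?_) (fun a ha b hb o => disjoint_union_left.2
    ⟨disjoint_union_right.2 ⟨hd ha hb o, n' a ha b hb o⟩,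
      disjoint_union_right.2 ⟨(n' b hb a ha o.symm).symm, n a ha b hb o⟩⟩)
    ⟨z, ⟨hz.1, (hA hz.2).1⟩, fun o => (u.ge o).elim (fun o => ?_) hz'⟩
  · obtain ⟨h1, h2, h3, h4, h5⟩ := hη a ha
    exact (m a ha).extend hA (hs ha) h1 h2 h3 h4 h5
  · obtain ⟨a, ha, o⟩ := mem_iUnion₂.1 (hY.le o)
    exact disjoint_left.1 (hη a ha).2.2.2.2 o hz.1

end Pool.Agent.Lib.MP_b7d179_gt
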