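import Pool.Agent.Lib.MP_b7d179_gt.U.SolA

/-! Cuts do not depend on the choice of the discs round a spine. -/

namespace Pool.Agent.Lib.MP_b7d179_gt

open Set Metric

variable {Z Z' : Type*} [MetricSpace Z] [MetricSpace Z']

variable {σ : Tw Z} {K B S X X₀ U : Set Z} {𝒯 𝒯' : Set (Set Z × Set Z)}

theorem solB_conn {D c : Set Z} (h : Disc D c) : IsConnected D :=
  ⟨let ⟨φ, _, e, _⟩ := h; ⟨φ 0, e ▸ ⟨0, mem_closedBall_self zero_le_one, rfl⟩⟩, h.conn⟩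

theorem solB_fix {A : Set Z} {F : Z → Z} (hF : Iso S A F) {u : Set Z × Set Z} (h1 : u.1 ⊆ A)
    (h2 : u.2 ⊆ u.1) : im F u = u :=
  Prod.ext ((image_congr fun _ hx => hF.fix (.inl (h1 hx))).trans (image_id' _))
    ((image_congr fun _ hx => hF.fix (.inl (h1 (h2 hx)))).trans (image_id' _))

omit [MetricSpace Z] in
theorem solB_comp (F G : Z → Z) (u : Set Z × Set Z) : im (G ∘ F) u = im G (im F u) :=
  Prod.ext (image_comp _ _ _) (image_comp _ _ _)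

/-- inner discs are moved onto outer discs at once -/
theorem grow_all (hS : Sph S) (hK : IsClosed K) {π : Set Z × Set Z → Set Z × Set Z}
    (hf : 𝒯'.Finite) (hd : 𝒯'.PairwiseDisjoint fun u => (π u).1)
    (h : ∀ u ∈ 𝒯', Disc u.1 u.2 ∧ Disc (π u).1 (π u).2 ∧ (π u).1 ⊆ S ∧ u.1 ⊆ (π u).1 \ (π u).2 ∧
      K ∩ (π u).1 ⊆ u.1 \ u.2) :
    ∃ A F, Iso S A F ∧ Disjoint (closure (S \ A)) K ∧ ∀ u ∈ 𝒯', im F u = π u := by
  have one : ∀ u ∈ 𝒯', ∃ A F, Iso S A F ∧ Disjoint (closure (S \ A)) K ∧ im F u = π u ∧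
      ∀ v ∈ 𝒯', v ≠ u → (π v).1 ⊆ A := by
    intro u hu
    obtain ⟨d1, d2, s2, s1, k⟩ := h u hu
    obtain ⟨O, hO, e⟩ := hS.open d1 ((s1.trans sdiff_subset).trans s2)
    have hY : IsCompact ((π u).1 \ (u.1 \ u.2)) := by
      have : (π u).1 \ (u.1 \ u.2) = (π u).1 \ O := by
        rw [← e]
        ext x
        exact ⟨fun m => ⟨m.1, fun o => m.2 ⟨o, s2 m.1⟩⟩, fun m => ⟨m.1, fun o => m.2 o.1⟩⟩
      rw [this]
      exact d2.compact.diff hO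
    obtain ⟨A, cA, sA, dA, kA⟩ := clear_nbhd (X := ⋃ v ∈ 𝒯' \ {u}, (π v).1) hK hY
      (disjoint_left.2 fun x m m' => m.2 (k ⟨m', m.1⟩))
      ((hf.subset sdiff_subset).isClosed_biUnion fun v hv => (h v hv.1).2.1.closed)
      (disjoint_iUnion₂_right.2 fun v hv =>
        (hd hu hv.1 (Ne.symm hv.2)).mono_left sdiff_subset)
    obtain ⟨F, hF, e1, e2⟩ := grow hS d2 d1 s2 s1 cA dA
    exact ⟨A, F, hF, kA S, Prod.ext e1 e2, fun v hv n =>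
      (subset_biUnion_of_mem (u := fun v => (π v).1) (⟨hv, n⟩ : v ∈ 𝒯' \ {u})).trans sA⟩
  have all : ∀ t : Set (Set Z × Set Z), t.Finite → t ⊆ 𝒯' → ∃ A F, Iso S A F ∧
      Disjoint (closure (S \ A)) K ∧ (∀ u ∈ t, im F u = π u) ∧
        ∀ v ∈ 𝒯', v ∉ t → (π v).1 ⊆ A := by
    intro t ht
    induction t, ht using Set.Finite.induction_on with
    | empty => exact fun _ => ⟨univ, id, .refl, by simp, by simp, fun _ _ _ => subset_univ _⟩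
    | @insert u t hu _ ih =>
      intro hs
      obtain ⟨A, F, hF, kA, e, r⟩ := ih ((subset_insert _ _).trans hs)
      have hu' := hs (mem_insert _ _)
      obtain ⟨A', F', hF', kA', e', r'⟩ := one u hu'
      refine ⟨A ∩ A', F' ∘ F, (hF'.mono inter_subset_right).comp (hF.mono inter_subset_left), ?_,
        ?_, fun v hv n => subset_inter (r v hv fun m => n (mem_insert_of_mem _ m))
          (r' v hv fun m => n (m ▸ mem_insert _ _))⟩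
      · rw [sdiff_inter, closure_union]
        exact kA.union_left kA'
      · rintro v (rfl | hv)
        · rw [solB_comp, solB_fix hF (((h v hu').2.2.2.1.trans sdiff_subset).trans (r v hu' hu))
            (h v hu').1.rim_sub, e']
        · have hv' := hs (mem_insert_of_mem _ hv)
          rw [solB_comp, e v hv, solB_fix hF' (r' v hv' fun m => hu (m ▸ hv))
            (h v hv').2.1.rim_sub]
  obtain ⟨A, F, h1, h2, h3, -⟩ := all 𝒯' hf subset_rfl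
  exact ⟨A, F, h1, h2, h3⟩

theorem Sol.congr (ok : σ.Ok0) (hB : Ball B S) {π : Set Z × Set Z → Set Z × Set Z}
    (hf : 𝒯'.Finite) (hd : 𝒯'.PairwiseDisjoint fun u => (π u).1)
    (h : ∀ u ∈ 𝒯', Disc u.1 u.2 ∧ Disc (π u).1 (π u).2 ∧ (π u).1 ⊆ S ∧ u.1 ⊆ (π u).1 \ (π u).2 ∧
      σ.K ∩ (π u).1 ⊆ u.1 \ u.2) : Sol σ B S 𝒯' ↔ Sol σ B S (π '' 𝒯') := by
  obtain ⟨A, F, hF, hA, e⟩ := grow_all hB.sph ok.kcl hf hd h
  obtain ⟨G, hG, l, -⟩ := hF.inv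
  rw [← image_congr e]
  refine ⟨fun k => k.iso ok hF hA, fun k => ?_⟩
  have := k.iso ok hG hA
  have e' : ∀ u, im G (im F u) = u := fun u => by
    rw [← solB_comp, (funext l : G ∘ F = id)]
    exact Prod.ext (image_id _) (image_id _)
  rwa [image_image, funext e', image_id'] at this

theorem solB_match (ok : σ.Ok0) (hB : Ball B S) (h : Fit σ.K S X 𝒯) (h' : Fit σ.K S X 𝒯')
    (hs : ∀ u ∈ 𝒯', u.1 ⊆ ⋃ v ∈ 𝒯, v.1 \ v.2) : Sol σ B S 𝒯' ↔ Sol σ B S 𝒯 := by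
  obtain ⟨π, hπ, e⟩ := h.match h' hs
  rw [← hπ.image_eq]
  exact Sol.congr ok hB h'.fin
    (fun u hu v hv n => h.dj (hπ.1 hu) (hπ.1 hv) fun m => n (hπ.2.1 hu hv m))
    fun u hu => ⟨h'.d u hu, h.d _ (hπ.1 hu), h.s _ (hπ.1 hu), (e u hu).1, (e u hu).2⟩

theorem SolU.indep (ok : σ.Ok0) (h : SolU σ B S X) (hX : NSU S X) (hT : Fit σ.K S X 𝒯) :
    Sol σ B S 𝒯 := by
  have hB := h.good.ball ok
  obtain ⟨T0, f0, s0⟩ := h
  obtain ⟨V0, o0, e0, x0, k0⟩ := f0.open hB.sph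
  obtain ⟨V, o, e, x, -⟩ := hT.open hB.sph
  obtain ⟨T', f', s'⟩ := hX.fit (K := σ.K) (o0.inter o) (subset_inter x0 x)
    fun y hy => k0 ⟨⟨hy.1.1, hy.1.2.1⟩, hy.2⟩
  refine (solB_match ok hB hT f' fun u hu => ?_).1 ((solB_match ok hB f0 f' fun u hu => ?_).2 s0)
  · exact e ▸ subset_inter ((s' u hu).trans inter_subset_right) (f'.s u hu)
  · exact e0 ▸ subset_inter ((s' u hu).trans inter_subset_left) (f'.s u hu)

theorem SolU.thin (ok : σ.Ok0) (h : SolU σ B S X) (hX : NSU S X) (hU : IsOpen U) (hs : X ⊆ U) :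
    ∃ 𝒯, Fit σ.K S X 𝒯 ∧ Sol σ B S 𝒯 ∧ ∀ t ∈ 𝒯, t.1 ⊆ U := by
  obtain ⟨T0, f0, s0⟩ := id h
  obtain ⟨V0, o0, -, x0, k0⟩ := f0.open (h.good.ball ok).sph
  obtain ⟨T', f', s'⟩ := hX.fit (K := σ.K) (o0.inter hU) (subset_inter x0 hs)
    fun y hy => k0 ⟨⟨hy.1.1, hy.1.2.1⟩, hy.2⟩
  exact ⟨T', f', h.indep ok hX f', fun t ht => (s' t ht).trans inter_subset_right⟩

omit [MetricSpace Z] in
theorem solB_eq {ι : Type*} {s : Set ι} {W : ι → Set Z} (hd : s.PairwiseDisjoint W) {i j : ι}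
    (hi : i ∈ s) (hj : j ∈ s) {x : Z} (h : x ∈ W i) (h' : x ∈ W j) : i = j :=
  hd.elim_set hi hj x h h'

theorem solB_fit (ok : σ.Ok0) (hB : Ball B S) (hf : 𝒯.Finite)
    (hd : 𝒯.PairwiseDisjoint Prod.fst) (h : ∀ t ∈ 𝒯, Disc t.1 t.2 ∧ t.1 ⊆ S ∧ Disjoint t.2 σ.K)
    (hT : Fit σ.K S (⋃ t ∈ 𝒯, t.1) 𝒯') : Sol σ B S 𝒯 ↔ Sol σ B S 𝒯' := by
  have sub : ∀ t ∈ 𝒯, t.1 ⊆ ⋃ t ∈ 𝒯, t.1 := fun t ht =>
    subset_biUnion_of_mem (u := fun t : Set Z × Set Z => t.1) ht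
  have ex : ∀ t ∈ 𝒯, ∃ u ∈ 𝒯', t.1 ⊆ u.1 := fun t ht =>
    rq_one hT.fin (fun u hu => (hT.d u hu).closed) hT.dj (solB_conn (h t ht).1)
      (((sub t ht).trans hT.x).trans (iUnion₂_mono fun _ _ => sdiff_subset))
  choose! π hπ sπ using ex
  have back : ∀ u ∈ 𝒯', ∃ t ∈ 𝒯, (⋃ t ∈ 𝒯, t.1) ∩ u.1 ⊆ t.1 := fun u hu =>
    rq_one hf (fun t ht => (h t ht).1.closed) hd (hT.c u hu) inter_subset_left
  have key : ∀ t ∈ 𝒯, (⋃ t ∈ 𝒯, t.1) ∩ (π t).1 ⊆ t.1 := fun t ht => by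
    obtain ⟨t0, h0, s0⟩ := back _ (hπ t ht)
    obtain ⟨x, hx⟩ := (solB_conn (h t ht).1).1
    rwa [← solB_eq hd ht h0 hx (s0 ⟨sub t ht hx, sπ t ht hx⟩)] at s0
  have img : π '' 𝒯 = 𝒯' := by
    refine (image_subset_iff.2 hπ).antisymm fun u hu => ?_
    obtain ⟨t0, h0, s0⟩ := back u hu
    obtain ⟨x, hx⟩ := (hT.c u hu).1
    exact ⟨t0, h0, solB_eq hT.dj (hπ t0 h0) hu (sπ t0 h0 (s0 hx)) hx.2⟩
  rw [← img]
  refine Sol.congr ok hB hf (fun t ht t' ht' n => hT.dj (hπ t ht) (hπ t' ht') fun m => n ?_)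
    fun t ht => ⟨(h t ht).1, hT.d _ (hπ t ht), hT.s _ (hπ t ht), fun x hx => ?_, fun x hx =>
      ⟨key t ht ⟨hT.k _ (hπ t ht) hx, hx.2⟩, fun m => disjoint_left.1 (h t ht).2.2 m hx.1⟩⟩
  · obtain ⟨x, hx⟩ := (solB_conn (h t ht).1).1
    exact solB_eq hd ht ht' hx (key t' ht' ⟨sub t ht hx, m ▸ sπ t ht hx⟩)
  · obtain ⟨u, hu, m⟩ := mem_iUnion₂.1 (hT.x (sub t ht hx))
    rwa [solB_eq hT.dj (hπ t ht) hu (sπ t ht hx) m.1]

theorem sol_iff_solU (ok : σ.Ok0) (hB : Ball B S) (hf : 𝒯.Finite)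
    (hd : 𝒯.PairwiseDisjoint Prod.fst) (h : ∀ t ∈ 𝒯, Disc t.1 t.2 ∧ t.1 ⊆ S ∧ Disjoint t.2 σ.K) :
    Sol σ B S 𝒯 ↔ SolU σ B S (⋃ t ∈ 𝒯, t.1) := by
  refine ⟨fun k => ?_, fun ⟨T0, f0, s0⟩ => (solB_fit ok hB hf hd h f0).2 s0⟩
  have n : NSU S (⋃ t ∈ 𝒯, t.1) :=
    nsu_biUnion hf (fun t ht => (rq_ns hB.sph (h t ht).1 (h t ht).2.1).nsu) hd
  have ex : ∀ t ∈ 𝒯, ∃ O, IsOpen O ∧ O ∩ S = t.1 \ t.2 := fun t ht =>
    hB.sph.open (h t ht).1 (h t ht).2.1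
  choose! O hO eO using ex
  obtain ⟨T', f', -⟩ := n.fit (K := σ.K) (U := σ.Kᶜ ∪ ⋃ t ∈ 𝒯, O t)
    (ok.kcl.isOpen_compl.union (isOpen_biUnion hO)) (fun x hx => by
      obtain ⟨t, ht, m⟩ := mem_iUnion₂.1 hx
      by_cases c : x ∈ σ.K
      · exact Or.inr (mem_iUnion₂.2 ⟨t, ht,
          ((eO t ht).ge ⟨m, fun r => disjoint_left.1 (h t ht).2.2 r c⟩).1⟩)
      · exact Or.inl c) (by
      rintro x ⟨⟨c, m | m⟩, s⟩
      · exact absurd c m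
      · obtain ⟨t, ht, m⟩ := mem_iUnion₂.1 m
        exact mem_iUnion₂.2 ⟨t, ht, ((eO t ht).le ⟨m, s⟩).1⟩)
  exact ⟨T', f', (solB_fit ok hB hf hd h f').1 k⟩

theorem Sol.solU (ok : σ.Ok0) (h : Sol σ B S 𝒯) : SolU σ B S (⋃ t ∈ 𝒯, t.1) :=
  (sol_iff_solU ok (h.good.ball ok) h.facts.1 h.facts.2.1 h.facts.2.2).1 h

/-- components of a spine are replaced by connected parts with the same points of `K` -/
theorem SolU.shrink {ι : Type*} {s : Set ι} {Y Y' : ι → Set Z} (h : SolU σ B S (X₀ ∪ ⋃ i ∈ s, Y i))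
    (hs : s.Finite) (h₀ : IsClosed X₀) (hd : s.PairwiseDisjoint Y)
    (hY : ∀ i ∈ s, IsClosed (Y i) ∧ IsPreconnected (Y i) ∧ Disjoint X₀ (Y i) ∧ Y' i ⊆ Y i ∧
      IsConnected (Y' i) ∧ σ.K ∩ Y i ⊆ Y' i) : SolU σ B S (X₀ ∪ ⋃ i ∈ s, Y' i) := by
  obtain ⟨T, f, k⟩ := h
  have le : (X₀ ∪ ⋃ i ∈ s, Y' i) ⊆ X₀ ∪ ⋃ i ∈ s, Y i :=
    union_subset_union_right _ (iUnion₂_mono fun i hi => (hY i hi).2.2.2.1)
  have dj : Disjoint X₀ (⋃ i ∈ s, Y i) := disjoint_iUnion₂_right.2 fun i hi => (hY i hi).2.2.1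
  refine ⟨T, ⟨f.fin, f.d, f.s, fun t ht => ?_, f.kc, fun t ht x hx => ?_, f.dj, le.trans f.x⟩, k⟩
  · have c := f.c t ht
    rcases side_of c.2 h₀ (hs.isClosed_biUnion fun i hi => (hY i hi).1) inter_subset_left
      (by rw [dj.inter_eq]; exact disjoint_empty _) with m | m
    · have e : (X₀ ∪ ⋃ i ∈ s, Y' i) ∩ t.1 = (X₀ ∪ ⋃ i ∈ s, Y i) ∩ t.1 :=
        (inter_subset_inter_left _ le).antisymm fun x hx => ⟨Or.inl (m hx), hx.2⟩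
      rwa [e]
    · obtain ⟨i, hi, m'⟩ := rq_one hs (fun i hi => (hY i hi).1) hd c m
      obtain ⟨x, hx⟩ := c.1
      obtain ⟨t', ht', m2⟩ := rq_one f.fin (fun u hu => (f.d u hu).closed) f.dj
        ⟨⟨x, m' hx⟩, (hY i hi).2.1⟩ (fun y hy => iUnion₂_mono (fun _ _ => sdiff_subset)
          (f.x (Or.inr (mem_iUnion₂.2 ⟨i, hi, hy⟩))))
      rw [solB_eq f.dj ht' ht (m2 (m' hx)) hx.2] at m2
      have e : (X₀ ∪ ⋃ i ∈ s, Y' i) ∩ t.1 = Y' i := by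
        refine Subset.antisymm (fun y hy => ?_) fun y hy =>
          ⟨Or.inr (mem_iUnion₂.2 ⟨i, hi, hy⟩), m2 ((hY i hi).2.2.2.1 hy)⟩
        have hy' := m' ⟨le hy.1, hy.2⟩
        rcases hy.1 with a | a
        · exact absurd hy' (disjoint_left.1 (hY i hi).2.2.1 a)
        · obtain ⟨j, hj, a⟩ := mem_iUnion₂.1 a
          rwa [solB_eq hd hi hj hy' ((hY j hj).2.2.2.1 a)]
      rw [e]
      exact (hY i hi).2.2.2.2.1
  · rcases f.k t ht hx with a | a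
    · exact Or.inl a
    · obtain ⟨j, hj, a⟩ := mem_iUnion₂.1 a
      exact Or.inr (mem_iUnion₂.2 ⟨j, hj, (hY j hj).2.2.2.2.2 ⟨hx.1, a⟩⟩)

theorem SolU.shrink1 {Y Y' : Set Z} (h : SolU σ B S (X₀ ∪ Y)) (h₀ : IsClosed X₀) (hc : IsClosed Y)
    (hp : IsPreconnected Y) (hd : Disjoint X₀ Y) (hs : Y' ⊆ Y) (hY : IsConnected Y')
    (hK : σ.K ∩ Y ⊆ Y') : SolU σ B S (X₀ ∪ Y') := by
  have := SolU.shrink (σ := σ) (B := B) (S := S) (X₀ := X₀) (s := ({()} : Set Unit))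
    (Y := fun _ => Y) (Y' := fun _ => Y') (by rwa [biUnion_singleton]) (finite_singleton _) h₀
    (pairwise_singleton _ _) fun _ _ => ⟨hc, hp, hd, hs, hY, hK⟩
  rwa [biUnion_singleton] at this

/-- a cut along discs that fit a spine up to their rims solves the spine -/
theorem Sol.spine (ok : σ.Ok0) (h : Sol σ B S 𝒯) (hX : X ⊆ ⋃ t ∈ 𝒯, t.1)
    (hc : ∀ t ∈ 𝒯, IsConnected (X ∩ t.1) ∧ σ.K ∩ t.1 ⊆ X) : SolU σ B S X := by
  obtain ⟨f1, f2, f3⟩ := h.facts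
  have := SolU.shrink (σ := σ) (B := B) (S := S) (X₀ := ∅) (s := 𝒯) (Y := fun t => t.1)
    (Y' := fun t => X ∩ t.1) (by rw [empty_union]; exact h.solU ok) f1 isClosed_empty f2
    fun t ht => ⟨(f3 t ht).1.closed, (f3 t ht).1.conn, empty_disjoint _, inter_subset_right,
      (hc t ht).1, fun x hx => ⟨(hc t ht).2 hx, hx.2⟩⟩
  rwa [empty_union, ← inter_iUnion₂, inter_eq_left.2 hX] at this

end Pool.Agent.Lib.MP_b7d179_gt
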