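import Pool.Agent.Lib.MP_b7d179_gt.U.Ball1

/-! Gluing of balls along a disc, collars and cuts. -/

namespace Pool.Agent.Lib.MP_b7d179_gt

open Set Metric

variable {Z Z' : Type*} [MetricSpace Z] [MetricSpace Z']

variable {K B S B1 S1 B2 S2 D C Q O1 O2 A : Set Z}

/-- three discs with a common rim -/
structure Th (O1 O2 D C : Set Z) : Prop where
  d1 : Disc O1 C
  d2 : Disc O2 C
  d : Disc D C
  i12 : O1 ∩ O2 = C
  i1 : O1 ∩ D = C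
  i2 : O2 ∩ D = C

theorem Th.symm (h : Th O1 O2 D C) : Th O2 O1 D C :=
  ⟨h.d2, h.d1, h.d, (inter_comm _ _).trans h.i12, h.i2, h.i1⟩

theorem Gl.symm (g : Gl B S B1 S1 B2 S2 D C) : Gl B S B2 S2 B1 S1 D C :=
  ⟨g.d, (inter_comm _ _).trans g.i, g.s2, g.s1, g.u.trans (union_comm _ _),
    by rw [g.r, union_comm]⟩

theorem Gl.image (g : Gl B S B1 S1 B2 S2 D C) (s1 : S1 ⊆ B1) (s2 : S2 ⊆ B2) {f : Z → Z'}
    (hf : Emb f A) (hA : B ⊆ A) :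
    Gl (f '' B) (f '' S) (f '' B1) (f '' S1) (f '' B2) (f '' S2) (f '' D) (f '' C) := by
  have b1 : B1 ⊆ A := (g.u ▸ subset_union_left : B1 ⊆ B).trans hA
  have b2 : B2 ⊆ A := (g.u ▸ subset_union_right : B2 ⊆ B).trans hA
  have d : D ⊆ A := (g.s1.trans s1).trans b1
  refine ⟨g.d.image hf d, by rw [← hf.inter b1 b2, g.i], image_mono g.s1, image_mono g.s2,
    by rw [g.u, image_union], ?_⟩
  rw [← image_union, ← hf.diff d (g.d.rim_sub.trans d),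
    ← hf.diff (union_subset (s1.trans b1) (s2.trans b2)) (sdiff_subset.trans d), ← g.r]

theorem Gl.ball2_side (g : Gl B S B1 S1 B2 S2 D C) (s1 : S1 ⊆ B1) (s2 : S2 ⊆ B2) :
    S ∩ B1 = (S1 \ D) ∪ C := by
  ext x
  have a := @s1 x
  have b := @s2 x
  have c := @g.s1 x
  have d : x ∈ C → x ∈ D := fun k => g.d.rim_sub k
  have e := Set.ext_iff.1 g.i x
  rw [g.r]
  simp only [mem_inter_iff, mem_union, mem_sdiff] at e ⊢
  tauto

theorem Gl.th (g : Gl B S B1 S1 B2 S2 D C) (h1 : Ball B1 S1) (h2 : Ball B2 S2) :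
    Th (S ∩ B1) (S ∩ B2) D C ∧ S = S ∩ B1 ∪ S ∩ B2 ∧ S1 = S ∩ B1 ∪ D ∧ S2 = S ∩ B2 ∪ D ∧
      S ∩ B1 = (S1 \ D) ∪ C ∧ S ∩ B2 = (S2 \ D) ∪ C ∧ S ∩ D = C := by
  have e1 := g.ball2_side h1.rim_sub h2.rim_sub
  have e2 := g.symm.ball2_side h2.rim_sub h1.rim_sub
  have k1 := rq_compl h1.sph g.d g.s1
  have k2 := rq_compl h2.sph g.d g.s2
  have e3 : S ∩ D = C := by
    ext x
    have c := @g.s1 x
    have d : x ∈ C → x ∈ D := fun k => g.d.rim_sub k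
    rw [g.r]
    simp only [mem_inter_iff, mem_union, mem_sdiff]
    tauto
  refine ⟨⟨e1 ▸ k1.d2, e2 ▸ k2.d2, g.d, ?_, ?_, ?_⟩, ?_, ?_, ?_, e1, e2, e3⟩
  · rw [← inter_inter_distrib_left, g.i, e3]
  · rw [e1, inter_comm, k1.inter]
  · rw [e2, inter_comm, k2.inter]
  · rw [← inter_union_distrib_left, ← g.u]
    refine (inter_eq_left.2 ?_).symm
    rw [g.r, g.u]
    exact sdiff_subset.trans (union_subset_union h1.rim_sub h2.rim_sub)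
  · rw [e1, union_comm, k1.union]
  · rw [e2, union_comm, k2.union]

/-- the form in which cuts are written -/
theorem gl_of_cut {L R T : Set Z} (hD : Disc D C) (hTS : T ⊆ S) (hCT : C ⊆ T) (hi : L ∩ R = D)
    (hd : D ∩ S = C) (hu : B = R ∪ L) : Gl B S R ((S \ T) ∪ D) L (T ∪ D) D C := by
  refine ⟨hD, (inter_comm _ _).trans hi, subset_union_right, subset_union_right, hu, ?_⟩
  ext x
  have a := @hTS x
  have b := @hCT x
  have e := Set.ext_iff.1 hd x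
  simp only [mem_inter_iff, mem_union, mem_sdiff] at e ⊢
  tauto

/-- a homeomorphism of discs in the rims extends to the balls -/
theorem ball2_pair {B' S' Q' C' : Set Z'} (h : Ball B S) (h' : Ball B' S') (hQ : Disc Q C)
    (hQ' : Disc Q' C') (hs : Q ⊆ S) (hs' : Q' ⊆ S') {φ : Z → Z'} (hφ : Emb φ Q) (i : φ '' Q = Q')
    (j : φ '' C = C') : ∃ H : Z → Z', Emb H B ∧ H '' B = B' ∧ H '' S = S' ∧ EqOn H φ Q := by
  have k := rq_compl h.sph hQ hs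
  have k' := rq_compl h'.sph hQ' hs'
  obtain ⟨ψ, eψ, iψ, qψ⟩ := k.d2.cone k'.d2 (hφ.mono hQ.rim_sub) j
  obtain ⟨Φ, eΦ, q1, q2⟩ := hφ.paste eψ hQ.closed k.d2.closed
    (by rw [k.inter]; exact qψ.symm) (by rw [i, iψ, k'.inter, k.inter, j])
  have iΦ : Φ '' S = S' := by
    rw [← k.union, image_union, q1.image_eq, q2.image_eq, i, iψ, k'.union]
  obtain ⟨H, eH, iH, qH⟩ := h.ext h' (k.union ▸ eΦ) iΦ
  exact ⟨H, eH, iH, qH.image_eq.trans iΦ, (qH.mono hs).trans q1⟩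

theorem ball2_unit : Ball (closedBall (0 : ℂ × ℝ) 1) (sphere 0 1) :=
  ⟨id, emb_id _, image_id _, image_id _⟩

theorem ball2_graph (g : ℂ → ℝ) (hg : Continuous g) :
    Disc {p : ℂ × ℝ | ‖p.1‖ ≤ 1 ∧ p.2 = g p.1} {p | ‖p.1‖ = 1 ∧ p.2 = g p.1} := by
  refine ⟨fun z => (z, g z), ⟨by fun_prop, fun _ _ _ _ e => congrArg Prod.fst e⟩, ?_, ?_⟩
  · ext ⟨z, t⟩
    simp [eq_comm]
  · ext ⟨z, t⟩
    simp [eq_comm]

theorem ball2_top : (closedBall 0 1 ×ˢ {1} : Set (ℂ × ℝ)) = {p | ‖p.1‖ ≤ 1 ∧ p.2 = 1} := by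
  ext ⟨z, t⟩
  simp

theorem ball2_rim : (sphere 0 1 ×ˢ {1} : Set (ℂ × ℝ)) = {p | ‖p.1‖ = 1 ∧ p.2 = 1} := by
  ext ⟨z, t⟩
  simp

theorem ball2_cyl : closedBall (0 : ℂ × ℝ) 1 = {p | ‖p.1‖ ≤ 1 ∧ -1 ≤ p.2 ∧ p.2 ≤ 1} := by
  ext ⟨z, t⟩
  simp [Prod.norm_def, abs_le]

theorem ball2_sph : sphere (0 : ℂ × ℝ) 1 =
    {p | (‖p.1‖ ≤ 1 ∧ -1 ≤ p.2 ∧ p.2 ≤ 1) ∧ (‖p.1‖ = 1 ∨ p.2 = 1 ∨ p.2 = -1)} := by
  ext ⟨z, t⟩
  simp only [mem_sphere_zero_iff_norm, Prod.norm_def, Real.norm_eq_abs, mem_ofPred_eq]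
  rcases abs_cases t with a | a <;> rcases max_cases ‖z‖ |t| with b | b <;> grind

theorem ball2_disc : Disc (closedBall 0 1 ×ˢ {1} : Set (ℂ × ℝ)) (sphere 0 1 ×ˢ {1}) := by
  rw [ball2_top, ball2_rim]
  exact ball2_graph (fun _ => 1) continuous_const

theorem ball2_sub : (closedBall 0 1 ×ˢ {1} : Set (ℂ × ℝ)) ⊆ sphere 0 1 := by
  rw [ball2_top, ball2_sph]
  rintro p ⟨a, b⟩
  exact ⟨⟨a, by linarith, b.le⟩, .inr (.inl b)⟩

/-- a chart in which a given disc of the rim is the top face -/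
theorem Ball.chart (h : Ball B S) (hQ : Disc Q C) (hs : Q ⊆ S) :
    ∃ f : ℂ × ℝ → Z, Emb f (closedBall 0 1) ∧ f '' closedBall 0 1 = B ∧ f '' sphere 0 1 = S ∧
      f '' (closedBall 0 1 ×ˢ {1}) = Q ∧ f '' (sphere 0 1 ×ˢ {1}) = C := by
  obtain ⟨φ, e, i, j⟩ := id hQ
  have i' : (φ ∘ Prod.fst) '' (closedBall 0 1 ×ˢ {1} : Set (ℂ × ℝ)) = Q := by
    rw [image_comp, fst_image_prod _ (singleton_nonempty _), i]
  have j' : (φ ∘ Prod.fst) '' (sphere 0 1 ×ˢ {1} : Set (ℂ × ℝ)) = C := by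
    rw [image_comp, fst_image_prod _ (singleton_nonempty _), j]
  obtain ⟨H, a, b, c, d⟩ := ball2_pair ball2_unit h ball2_disc hQ ball2_sub hs
    (e.comp ⟨continuousOn_fst, fun p hp q hq k => Prod.ext k (hp.2.trans hq.2.symm)⟩
      (fst_image_prod_subset _ _)) i' j'
  exact ⟨H, a, b, c, d.image_eq.trans i', (d.mono ball2_disc.rim_sub).image_eq.trans j'⟩

theorem ball2_lens {ε : ℝ} (h0 : 0 < ε) :
    Ball {p : ℂ × ℝ | 1 - ε * (1 - ‖p.1‖) ≤ p.2 ∧ p.2 ≤ 1}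
      {p | (1 - ε * (1 - ‖p.1‖) ≤ p.2 ∧ p.2 ≤ 1) ∧ (p.2 = 1 ∨ p.2 = 1 - ε * (1 - ‖p.1‖))} := by
  have cl : IsClosed {p : ℂ × ℝ | 1 - ε * (1 - ‖p.1‖) ≤ p.2 ∧ p.2 ≤ 1} :=
    (isClosed_le (by fun_prop) continuous_snd).inter (isClosed_le continuous_snd continuous_const)
  have it : interior {p : ℂ × ℝ | 1 - ε * (1 - ‖p.1‖) ≤ p.2 ∧ p.2 ≤ 1} =
      {p | 1 - ε * (1 - ‖p.1‖) < p.2 ∧ p.2 < 1} := by
    refine Subset.antisymm (fun p hp => ?_) (interior_maximal (fun p hp => ⟨hp.1.le, hp.2.le⟩)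
      ((isOpen_lt (by fun_prop) continuous_snd).inter (isOpen_lt continuous_snd continuous_const)))
    obtain ⟨δ, hδ, k⟩ := Metric.mem_nhds_iff.1 (mem_interior_iff_mem_nhds.1 hp)
    have a := (@k (p.1, p.2 - δ / 2) (by
      simp [Prod.dist_eq, abs_of_pos hδ, hδ])).1
    have b := (@k (p.1, p.2 + δ / 2) (by
      simp [Prod.dist_eq, abs_of_pos hδ, hδ])).2
    exact ⟨by dsimp only at a; linarith, by dsimp only at b; linarith⟩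
  have := ball_convex (E := ℂ × ℝ) (by simp) (P := {p | 1 - ε * (1 - ‖p.1‖) ≤ p.2 ∧ p.2 ≤ 1})
    (fun p hp q hq a b ha hb hab => ?_) ?_ ⟨(0, 1 - ε / 2), by rw [it]; simp; linarith⟩
  · rw [cl.frontier_eq, it] at this
    refine (congrArg (Ball _) ?_).mp this
    ext p
    simp only [mem_ofPred_eq, mem_sdiff]
    grind
  · have n : ‖(a • p + b • q).1‖ ≤ a * ‖p.1‖ + b * ‖q.1‖ :=
      (norm_add_le _ _).trans (by simp [abs_of_nonneg ha, abs_of_nonneg hb])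
    have e : (a • p + b • q).2 = a * p.2 + b * q.2 := rfl
    have n' := mul_le_mul_of_nonneg_left n h0.le
    have a1 := mul_le_mul_of_nonneg_left hp.1 ha
    have a2 := mul_le_mul_of_nonneg_left hp.2 ha
    have b1 := mul_le_mul_of_nonneg_left hq.1 hb
    have b2 := mul_le_mul_of_nonneg_left hq.2 hb
    obtain rfl : b = 1 - a := by linarith
    exact ⟨by rw [e]; linarith, by rw [e]; linarith⟩
  · refine (isCompact_closedBall (0 : ℂ × ℝ) (1 + ε)).of_isClosed_subset cl fun p hp => ?_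
    have a : ‖p.1‖ ≤ 1 := by nlinarith [hp.1, hp.2]
    have b := mul_nonneg h0.le (norm_nonneg p.1)
    rw [mem_closedBall_zero_iff, Prod.norm_def, max_le_iff, Real.norm_eq_abs, abs_le]
    exact ⟨by linarith, by linarith [hp.1], by linarith [hp.2]⟩

theorem ball2_rest {g : ℂ → ℝ} (hg : Continuous g) (h0 : ∀ z, -1 < g z) :
    Ball {p : ℂ × ℝ | ‖p.1‖ ≤ 1 ∧ -1 ≤ p.2 ∧ p.2 ≤ g p.1}
      {p | (‖p.1‖ ≤ 1 ∧ -1 ≤ p.2 ∧ p.2 ≤ g p.1) ∧ (‖p.1‖ = 1 ∨ p.2 = g p.1 ∨ p.2 = -1)} := by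
  have k : ∀ (z : ℂ) (t : ℝ), (2 * (t + 1) / (g z + 1) - 1 + 1) * (g z + 1) / 2 - 1 = t :=
    fun z t => by
      have : g z + 1 ≠ 0 := by linarith [h0 z]
      field_simp
      ring
  have m : ∀ (z : ℂ) (t : ℝ), (-1 ≤ (t + 1) * (g z + 1) / 2 - 1 ↔ -1 ≤ t) ∧
      ((t + 1) * (g z + 1) / 2 - 1 ≤ g z ↔ t ≤ 1) ∧ ((t + 1) * (g z + 1) / 2 - 1 = g z ↔ t = 1) ∧
      ((t + 1) * (g z + 1) / 2 - 1 = -1 ↔ t = -1) := fun z t => by
    have := h0 z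
    refine ⟨⟨fun a => ?_, fun a => ?_⟩, ⟨fun a => ?_, fun a => ?_⟩, ⟨fun a => ?_, fun a => ?_⟩,
      fun a => ?_, fun a => ?_⟩ <;> nlinarith
  refine ⟨fun p => (p.1, (p.2 + 1) * (g p.1 + 1) / 2 - 1), ⟨by fun_prop, ?_⟩, ?_, ?_⟩
  · rintro ⟨z, t⟩ - ⟨z', t'⟩ - e
    obtain ⟨rfl, e⟩ := Prod.mk.inj e
    have := h0 z
    exact Prod.ext rfl (by dsimp only at e ⊢; nlinarith)
  · rw [ball2_cyl]
    ext ⟨z, t⟩
    constructor
    · rintro ⟨⟨w, s⟩, a, e⟩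
      obtain ⟨rfl, rfl⟩ := Prod.mk.inj e
      exact ⟨a.1, (m w s).1.2 a.2.1, (m w s).2.1.2 a.2.2⟩
    · intro a
      have b := m z (2 * (t + 1) / (g z + 1) - 1)
      rw [k] at b
      exact ⟨(z, 2 * (t + 1) / (g z + 1) - 1), ⟨a.1, b.1.1 a.2.1, b.2.1.1 a.2.2⟩,
        Prod.ext rfl (k z t)⟩
  · rw [ball2_sph]
    ext ⟨z, t⟩
    constructor
    · rintro ⟨⟨w, s⟩, ⟨a, c⟩, e⟩
      obtain ⟨rfl, rfl⟩ := Prod.mk.inj e
      exact ⟨⟨a.1, (m w s).1.2 a.2.1, (m w s).2.1.2 a.2.2⟩,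
        c.imp id (Or.imp (m w s).2.2.1.2 (m w s).2.2.2.2)⟩
    · rintro ⟨a, c⟩
      have b := m z (2 * (t + 1) / (g z + 1) - 1)
      rw [k] at b
      exact ⟨(z, 2 * (t + 1) / (g z + 1) - 1), ⟨⟨a.1, b.1.1 a.2.1, b.2.1.1 a.2.2⟩,
        c.imp id (Or.imp b.2.2.1.1 b.2.2.2.1)⟩, Prod.ext rfl (k z t)⟩

theorem ball2_model {ε : ℝ} (h0 : 0 < ε) (h1 : ε < 2) {M S Q C : Set (ℂ × ℝ)}
    (eM : M = closedBall 0 1) (eS : S = sphere 0 1) (eQ : Q = closedBall 0 1 ×ˢ {1})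
    (eC : C = sphere 0 1 ×ˢ {1}) : ∃ R W D, Disc D C ∧ D ∩ S = C ∧ Ball W (Q ∪ D) ∧
      Ball R ((S \ Q) ∪ D) ∧ (∀ p ∈ W, 1 - ε ≤ p.2) ∧ M = R ∪ W ∧ W ∩ R = D ∧ W ∩ S = Q ∧
        R ∩ S = (S \ Q) ∪ C := by
  rw [eM, eS, eQ, eC, ball2_top, ball2_rim, ball2_cyl, ball2_sph]
  have hg : Continuous fun z : ℂ => 1 - ε * (1 - ‖z‖) := by fun_prop
  have a : ∀ z : ℂ, 1 - ε ≤ 1 - ε * (1 - ‖z‖) := fun z => by
    linarith [mul_nonneg h0.le (norm_nonneg z)]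
  have b : ∀ z : ℂ, (1 - ε * (1 - ‖z‖) ≤ 1 ↔ ‖z‖ ≤ 1) ∧ (1 - ε * (1 - ‖z‖) = 1 ↔ ‖z‖ = 1) :=
    fun z => ⟨⟨fun k => by nlinarith, fun k => by nlinarith⟩, fun k => by nlinarith,
      fun k => by rw [k]; ring⟩
  have l := ball2_lens h0
  have r := ball2_rest hg fun z => by linarith [a z]
  have d := ball2_graph _ hg
  refine ⟨{p | ‖p.1‖ ≤ 1 ∧ -1 ≤ p.2 ∧ p.2 ≤ 1 - ε * (1 - ‖p.1‖)},
    {p | 1 - ε * (1 - ‖p.1‖) ≤ p.2 ∧ p.2 ≤ 1}, {p | ‖p.1‖ ≤ 1 ∧ p.2 = 1 - ε * (1 - ‖p.1‖)},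
    (congrArg (Disc _) ?_).mp d, ?_, (congrArg (Ball _) ?_).mp l, (congrArg (Ball _) ?_).mp r,
    fun p hp => (a _).trans hp.1, ?_, ?_, ?_, ?_⟩
  all_goals
    ext ⟨z, t⟩
    have a' := a z
    have b' := b z
    simp only [mem_ofPred_eq, mem_inter_iff, mem_union, mem_sdiff]
    generalize 1 - ε * (1 - ‖z‖) = s at *
    grind

/-- two gluings of balls are homeomorphic -/
theorem ball2_two {B' S' B1' S1' B2' S2' D' C' : Set Z'} (g : Gl B S B1 S1 B2 S2 D C)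
    (g' : Gl B' S' B1' S1' B2' S2' D' C') (h1 : Ball B1 S1) (h2 : Ball B2 S2) (h1' : Ball B1' S1')
    (h2' : Ball B2' S2') (h : Ball B S) : Ball B' S' := by
  obtain ⟨-, ψ, -, eψ, -, -, i1, i2, -⟩ := g.d.chart
  obtain ⟨φ, eφ, j1, j2⟩ := id g'.d
  have e := eφ.comp eψ i1.le
  have i : (φ ∘ ψ) '' D = D' := by rw [image_comp, i1, j1]
  have j : (φ ∘ ψ) '' C = C' := by rw [image_comp, i2, j2]
  obtain ⟨H1, a1, b1, c1, d1⟩ := ball2_pair h1 h1' g.d g'.d g.s1 g'.s1 e i j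
  obtain ⟨H2, a2, b2, c2, d2⟩ := ball2_pair h2 h2' g.d g'.d g.s2 g'.s2 e i j
  obtain ⟨H, eH, q1, q2⟩ := a1.paste a2 h1.compact.isClosed h2.compact.isClosed
    (by rw [g.i]; exact d1.trans d2.symm) (by rw [b1, b2, g'.i, g.i, d1.image_eq, i])
  have k := g.image h1.rim_sub h2.rim_sub eH g.u.le
  have qD : EqOn H (φ ∘ ψ) D := (q1.mono (g.s1.trans h1.rim_sub)).trans d1
  have := h.image eH g.u.le
  rwa [k.u, k.r, q1.image_eq, q2.image_eq, (q1.mono h1.rim_sub).image_eq,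
    (q2.mono h2.rim_sub).image_eq, qD.image_eq, (qD.mono g.d.rim_sub).image_eq, b1, b2, c1, c2, i,
    j, ← g'.u, ← g'.r] at this

theorem Gl.ball (g : Gl B S B1 S1 B2 S2 D C) (h1 : Ball B1 S1) (h2 : Ball B2 S2) : Ball B S := by
  obtain ⟨R, W, D₀, a, b, c, d, -, e, f, -⟩ := ball2_model one_pos one_lt_two rfl rfl rfl rfl
  exact ball2_two (gl_of_cut a ball2_sub ball2_disc.rim_sub f b e) g d c h1 h2 ball2_unit

/-- a thin lens under a disc of the rim; for empty `K` this cuts a ball along a spanning disc -/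
theorem Ball.collar (h : Ball B S) (hK : IsClosed K) (hQ : Disc Q C) (hs : Q ⊆ S)
    (hd : Disjoint Q K) :
    ∃ R W D, Disc D C ∧ D ∩ S = C ∧ Ball W (Q ∪ D) ∧ Ball R ((S \ Q) ∪ D) ∧ Disjoint W K ∧
      B = R ∪ W ∧ W ∩ R = D ∧ W ∩ S = Q ∧ R ∩ S = (S \ Q) ∪ C := by
  obtain ⟨f, e, rfl, rfl, rfl, rfl⟩ := h.chart hQ hs
  have k : IsCompact (closedBall (0 : ℂ × ℝ) 1 ∩ f ⁻¹' K) :=
    (isCompact_closedBall _ _).of_isClosed_subset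
      (e.1.preimage_isClosed_of_isClosed isClosed_closedBall hK) inter_subset_left
  obtain ⟨ε, h0, h1, hε⟩ : ∃ ε : ℝ, 0 < ε ∧ ε < 2 ∧
      ∀ p ∈ closedBall (0 : ℂ × ℝ) 1 ∩ f ⁻¹' K, p.2 < 1 - ε := by
    rcases (closedBall (0 : ℂ × ℝ) 1 ∩ f ⁻¹' K).eq_empty_or_nonempty with n | n
    · exact ⟨1, one_pos, one_lt_two, by simp [n]⟩
    · obtain ⟨q, hq, m⟩ := k.exists_isMaxOn n continuousOn_snd
      have a := ball2_cyl.le hq.1
      have b : q.2 ≠ 1 := fun c => disjoint_left.1 hd ⟨q, ball2_top.ge ⟨a.1, c⟩, rfl⟩ hq.2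
      have c := lt_of_le_of_ne a.2.2 b
      exact ⟨(1 - q.2) / 2, by linarith, by linarith [a.2.1], fun p hp => by
        have : p.2 ≤ q.2 := m hp
        linarith⟩
  obtain ⟨R, W, D, a1, a2, a3, a4, a5, a6, a7, a8, a9⟩ := ball2_model h0 h1 rfl rfl rfl rfl
  have sR : R ⊆ closedBall 0 1 := a6 ▸ subset_union_left
  have sW : W ⊆ closedBall 0 1 := a6 ▸ subset_union_right
  have sD : D ⊆ closedBall 0 1 := (a7 ▸ inter_subset_left : D ⊆ W).trans sW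
  have sS : sphere (0 : ℂ × ℝ) 1 ⊆ closedBall 0 1 := sphere_subset_closedBall
  have sQ := ball2_sub.trans sS
  refine ⟨f '' R, f '' W, f '' D, a1.image e sD, by rw [← e.inter sD sS, a2],
    image_union f _ _ ▸ a3.image e sW, ?_, ?_, by rw [← image_union, ← a6],
    by rw [← e.inter sW sR, a7], by rw [← e.inter sW sS, a8],
    by rw [← e.inter sR sS, a9, image_union, e.diff sS sQ]⟩
  · rw [← e.diff sS sQ, ← image_union]
    exact a4.image e sR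
  · rw [disjoint_left]
    rintro _ ⟨p, hp, rfl⟩ hk
    exact (hε p ⟨sW hp, hk⟩).not_ge (a5 p hp)

end Pool.Agent.Lib.MP_b7d179_gt
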