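import Pool.Agent.Lib.MP_b7d179_gt.U.Level
import Pool.Agent.Lib.MP_b7d179_gt.U.SolC

/-! Buds and caps. -/

namespace Pool.Agent.Lib.MP_b7d179_gt

open Set Metric

variable {Z Z' : Type*} [MetricSpace Z] [MetricSpace Z']

variable {σ : Tw Z} {mv : Bool} {B S E C E₀ C₀ N : Set Z} {F F₀ : Set σ.φ} {V : Set σ.β}

theorem bud_any (ok : σ.Ok) (h : Sol σ B S {(E₀, C₀)}) (h₀ : Disjoint E₀ σ.K) (hE : Disc E C)
    (hs : E ⊆ S) (hd : Disjoint E σ.K) : Sol σ B S {(E, C)} := by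
  have hS := (h.good.ball ok.toOk0).sph
  obtain ⟨d₀, s₀, -⟩ := h.facts.2.2 _ (mem_singleton _)
  obtain ⟨F, V, t, hf⟩ := h.good.fine ok (hE.closed.union d₀.closed) (hd.union_left h₀) one_pos
  obtain ⟨m, inv⟩ := t.inv ok.ok1
  have key : ∀ X, X ⊆ S → X ⊆ E ∪ E₀ → X ⊆ S \ ⋃ f ∈ F, σ.A f := fun X a b x hx =>
    ⟨a hx, fun c => by
      obtain ⟨f, f1, f2⟩ := mem_iUnion₂.1 c
      exact disjoint_left.1 (hf f f1).1 f2 (b hx)⟩
  obtain ⟨k, hk, e1, e2⟩ := discmove hS (inv.ft.holes ok.ok1) d₀ hE (key _ s₀ subset_union_right)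
    (key _ hs subset_union_left)
  have := h.iso ok.toOk0 hk (inv.ft.clear ok.ok1 hS)
  rwa [image_singleton, im, e1, e2] at this

theorem bud_two (hE : Disc E C) : ∃ x ∈ E \ C, ∃ y ∈ E \ C, x ≠ y := by
  obtain ⟨φ, e, rfl, rfl⟩ := hE
  have a : ∀ z : ℂ, ‖z‖ < 1 → φ z ∈ φ '' closedBall 0 1 \ φ '' sphere 0 1 := fun z hz =>
    ⟨⟨z, by simpa using hz.le, rfl⟩, fun c => hz.ne (by
      simpa using (e.mem_iff sphere_subset_closedBall (by simpa using hz.le)).1 c)⟩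
  refine ⟨_, a 0 (by simp), _, a 2⁻¹ (by norm_num), fun c => ?_⟩
  have := e.2 (by simp) (by norm_num) c
  norm_num at this

/-- a disc without points of `K` inside a given disc of the rim -/
theorem G.free_disc (ok : σ.Ok) (h : G σ B S) (hE : Disc E C) (hs : E ⊆ S) :
    ∃ Q q, Disc Q q ∧ Q ⊆ E \ C ∧ Disjoint Q σ.K := by
  obtain ⟨x, hx, y, hy, hn⟩ := bud_two hE
  obtain ⟨F, V, t, hf⟩ := h.fine ok isClosed_empty (empty_disjoint _) (dist_pos.2 hn)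
  obtain ⟨m, inv⟩ := t.inv ok.ok1
  have cl : ∀ f ∈ F, IsClosed (σ.A f) := fun f _ => (ok.foot f).d.closed
  obtain ⟨p, hp, hp'⟩ := rq_free hE inv.ft.fin cl inv.ft.dj fun f hF c =>
    lt_irrefl _ ((hf f hF).2 x (c hx) y (c hy))
  obtain ⟨Q, q, d, s, -⟩ := hE.small hp ((inv.ft.fin.isClosed_biUnion cl).isOpen_compl.mem_nhds hp')
  exact ⟨Q, q, d, fun z hz => (s hz).1, disjoint_left.2 fun z hz hK =>
    (s hz).2 (inv.ft.cov ⟨hK, hs (s hz).1.1⟩)⟩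

/-- a bud is moved to the visible part of the rim -/
theorem bud_out {B1 S1 B2 S2 D : Set Z} (ok : σ.Ok) (g : Gl B S B1 S1 B2 S2 D C) (h2 : Ball B2 S2)
    (h : Sol σ B1 S1 {(E₀, C₀)}) (h₀ : Disjoint E₀ σ.K) :
    ∃ Q q, Disc Q q ∧ Q ⊆ S ∩ B1 ∧ Disjoint Q D ∧ Disjoint Q σ.K ∧ Sol σ B1 S1 {(Q, q)} := by
  obtain ⟨th, -, e, -⟩ := g.th (h.good.ball ok.toOk0) h2
  have s : S ∩ B1 ⊆ S1 := fun x hx => e ▸ Or.inl hx
  obtain ⟨Q, q, d, hQ, hK⟩ := h.good.free_disc ok th.d1 s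
  exact ⟨Q, q, d, fun x hx => (hQ hx).1, disjoint_left.2 fun x hx hD =>
    (hQ hx).2 (th.i1.le ⟨(hQ hx).1, hD⟩), hK, bud_any ok h h₀ d (fun x hx => s (hQ hx).1) hK⟩

theorem bud_side {B1 S1 B2 S2 D : Set Z} (ok : σ.Ok) (g : Gl B S B1 S1 B2 S2 D C)
    (hD : KD σ.K D C) (h2 : G σ B2 S2)
    (h : ∃ E C, Disjoint E σ.K ∧ Sol σ B1 S1 {(E, C)}) :
    ∃ E C, Disjoint E σ.K ∧ Sol σ B S {(E, C)} := by
  obtain ⟨E, c, h₀, h⟩ := h
  obtain ⟨Q, q, -, -, a, b, s⟩ := bud_out ok g (h2.ball ok.toOk0) h h₀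
  have := Sol.both ok.toOk0 g hD s (sol_empty.2 h2) (fun t ht => by rw [ht]; exact a)
    fun t ht => ht.elim
  rw [union_empty] at this
  exact ⟨Q, q, b, this⟩

theorem Tree.bud (ok : σ.Ok) (h : Tree σ mv B S F V)
    (hw : ∃ w ∈ V, ∃ E C, Disjoint E σ.K ∧ Sol σ (σ.B w) (σ.S w) {(E, C)}) :
    ∃ E C, Disjoint E σ.K ∧ Sol σ B S {(E, C)} := by
  induction h with
  | leaf v =>
    obtain ⟨w, rfl, h⟩ := hw
    exact h
  | move _ t hk _ ih =>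
    obtain ⟨E, C, a, s⟩ := ih hw
    have := s.mv ok.toOk0 hk
    rw [image_singleton] at this
    exact ⟨_, _, (hk.disj ((s.facts.2.2 _ (mem_singleton _)).2.1.trans
      (t.ball ok.toOk0).rim_sub)).2 a, this⟩
  | glue0 t hW hK g _ ih =>
    obtain ⟨E, C, a, s⟩ := ih hw
    obtain ⟨Q, q, d, b, -, c, s⟩ := bud_out ok g hW s a
    have h1 := t.ball ok.toOk0
    refine ⟨Q, q, c, (sol_iff_solU ok.toOk0 (g.ball h1 hW) (finite_singleton _)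
      (pairwiseDisjoint_singleton _ _) fun t ht => ?_).2
        ((SolU.glue0 ok.toOk0 g h1 hW hK (by simpa using b)).1 (s.solU ok.toOk0))⟩
    rw [ht]
    exact ⟨d, b.trans inter_subset_left, c.mono_left d.rim_sub⟩
  | glue1 t1 t2 g hf _ hn _ _ ih1 ih2 =>
    obtain ⟨m, inv⟩ := t1.inv ok.ok1
    have hD := wall_kd ok.ok1 inv.ft g.d g.s1 (fun f c => hf f (Or.inl c)) hn
    obtain ⟨w, c | c, h⟩ := hw
    · exact bud_side ok g hD (t2.g ok.ok1) (ih1 ⟨w, c, h⟩)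
    · exact bud_side ok g.symm hD (t1.g ok.ok1) (ih2 ⟨w, c, h⟩)

theorem G.bud (ok : σ.Ok) (h : G σ B S) (hE : Disc E C) (hs : E ⊆ S) (hd : Disjoint E σ.K) :
    Sol σ B S {(E, C)} := by
  obtain ⟨m, hm⟩ := h.level ok
  obtain ⟨F, V, t, inv⟩ := hm m le_rfl
  obtain ⟨v, hv⟩ := inv.vne
  obtain ⟨w, hw, h'⟩ := ok.bud v
  obtain ⟨E₀, C₀, a, s⟩ := (t.refine ok).bud ok ⟨w, mem_biUnion hv hw, h'⟩
  exact bud_any ok s a hE hs hd

theorem bud_nsu (ok : σ.Ok1) (h : Tree σ mv B S F V) (hF : F₀ ⊆ F) : NSU S (⋃ f ∈ F₀, σ.A f) := by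
  obtain ⟨m, inv⟩ := h.inv ok
  exact nsu_biUnion (inv.ft.fin.subset hF) (fun f hf =>
    (rq_ns (h.ball ok.toOk0).sph (ok.foot f).d (inv.ft.sub f (hF hf))).nsu) (inv.ft.dj.subset hF)

theorem Tree.cap (ok : σ.Ok1) (h : Tree σ mv B S F V) (hF : F₀ ⊆ F)
    (hw : ∀ w ∈ V, SolU σ (σ.B w) (σ.S w) (⋃ f ∈ F₀ ∩ σ.F w, σ.A f)) :
    SolU σ B S (⋃ f ∈ F₀, σ.A f) := by
  induction h generalizing F₀ with
  | leaf v =>
    have := hw v rfl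
    rwa [inter_eq_left.2 hF] at this
  | move _ t hk hf ih =>
    have := (ih hF hw).mv' ok.toOk0 hk
    rwa [(image_congr (s := ⋃ f ∈ F₀, σ.A f) fun x hx => ?_).trans (image_id' _)] at this
    obtain ⟨f, f1, f2⟩ := mem_iUnion₂.1 hx
    exact hf f (hF f1) x f2
  | glue0 t hW hK g hf ih =>
    obtain ⟨m, inv⟩ := t.inv ok
    have h1 := t.ball ok.toOk0
    refine (SolU.glue0 ok.toOk0 g h1 hW hK (iUnion₂_subset fun f c x hx => ?_)).1 (ih hF hw)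
    rw [(g.th h1 hW).2.2.2.2.1]
    exact Or.inl ⟨inv.ft.sub f (hF c) hx, disjoint_left.1 (hf f (hF c)) hx⟩
  | @glue1 B S B1 S1 B2 S2 D C F F1 V1 F2 V2 t1 t2 g hf he hn _ hm ih1 ih2 =>
    obtain ⟨m, i1⟩ := t1.inv ok
    obtain ⟨m', i2⟩ := t2.inv ok
    have hD := wall_kd ok i1.ft g.d g.s1 (fun f c => hf f (Or.inl c)) hn
    have h12 : ∃ f ∈ F1, f ∈ F2 := hn.imp fun f c => ⟨c.1, (he f c.2).1 c.1⟩
    have s1 := ih1 (F₀ := F₀ ∩ F1) inter_subset_right fun w c => by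
      rw [show F₀ ∩ F1 ∩ σ.F w = F₀ ∩ σ.F w from ?_]
      · exact hw w (Or.inl c)
      refine Subset.antisymm (fun f a => ⟨a.1.1, a.2⟩) fun f a => ⟨⟨a.1, ?_⟩, a.2⟩
      rcases ((hm f).1 (hF a.1)).1 with b | b
      · exact b
      · obtain ⟨u, u1, u2⟩ := i2.src f b
        exact (Tree.mid ok t1 t2 g h12 c u1 a.2 u2).1
    have s2 := ih2 (F₀ := F₀ ∩ F2) inter_subset_right fun w c => by
      rw [show F₀ ∩ F2 ∩ σ.F w = F₀ ∩ σ.F w from ?_]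
      · exact hw w (Or.inr c)
      refine Subset.antisymm (fun f a => ⟨a.1.1, a.2⟩) fun f a => ⟨⟨a.1, ?_⟩, a.2⟩
      rcases ((hm f).1 (hF a.1)).1 with b | b
      · obtain ⟨u, u1, u2⟩ := i1.src f b
        exact (Tree.mid ok t1 t2 g h12 u1 c u2 a.2).2
      · exact b
    have d : ∀ G : Set σ.φ, Disjoint (⋃ f ∈ F₀ ∩ G, σ.A f) D := fun G =>
      disjoint_iUnion₂_left.2 fun f a => ((hm f).1 (hF a.1)).2
    have := SolU.both ok.toOk0 g hD s1 s2 (bud_nsu ok t1 inter_subset_right)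
      (bud_nsu ok t2 inter_subset_right) (d _) (d _)
    rwa [← biUnion_union, ← inter_union_distrib_left,
      inter_eq_left.2 fun f a => ((hm f).1 (hF a)).1] at this

theorem G.cap (ok : σ.Ok) (h : G σ B S) (hN : IsClosed N) (hd : Disjoint N σ.K) :
    ∃ F, Ft σ S F ∧ (∀ f ∈ F, Disjoint (σ.A f) N) ∧ ∀ F₀ ⊆ F, SolU σ B S (⋃ f ∈ F₀, σ.A f) := by
  obtain ⟨F, V, t, hf⟩ := h.fine ok hN hd one_pos
  obtain ⟨m, inv⟩ := t.inv ok.ok1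
  obtain ⟨m', inv'⟩ := (t.refine ok).inv ok.ok1
  refine ⟨_, inv'.ft, fun g hg => ?_, fun F₀ h₀ => (t.refine ok).cap ok.ok1 h₀ fun w hw => ?_⟩
  · obtain ⟨f, f1, f2⟩ := mem_iUnion₂.1 hg
    exact (hf f f1).1.mono_left fun x hx => ((ok.sin f g f2).2 hx).1
  · obtain ⟨v, hv, hw⟩ := mem_iUnion₂.1 hw
    obtain ⟨n, iv⟩ := (ok.s2 v).inv ok.ok1
    have s : F₀ ∩ σ.F w ⊆ σ.F w ∩ ⋃ f ∈ σ.F v, σ.sub f := fun g hg => by
      obtain ⟨f, f1, f2⟩ := mem_iUnion₂.1 (h₀ hg.1)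
      obtain ⟨x, x1, x2⟩ := (ok.foot g).k
      have : x ∈ σ.K ∩ σ.B v := iv.kb ▸ mem_biUnion hw
        ⟨x1, (ok.ball w).rim_sub ((ok.fin w g hg.2).2 x2)⟩
      exact ⟨hg.2, mem_biUnion (inv.uniq f f1 v hv
        ⟨x, ⟨x1, ((ok.sin f g f2).2 x2).1⟩, this.2⟩) f2⟩
    rcases ((ok.one v w hw).anti s).eq_empty_or_singleton with e | ⟨g, e⟩
    · rw [e, biUnion_empty]
      exact solU_empty.2 (G.leaf w)
    · rw [e, biUnion_singleton]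
      exact ok.cap v w hw g (s (e ▸ mem_singleton g))

end Pool.Agent.Lib.MP_b7d179_gt
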