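import Pool.Agent.Lib.MP_b7d179_gt.U.Wall
import Pool.Agent.Lib.MP_b7d179_gt.U.Surg

/-! Essential arcs on the rim of a tree are distributed to the leaves. -/

namespace Pool.Agent.Lib.MP_b7d179_gt

open Set Metric

variable {Z Z' : Type*} [MetricSpace Z] [MetricSpace Z']

variable {σ : Tw Z} {mv : Bool} {B S X : Set Z} {F : Set σ.φ} {V : Set σ.β} {E : σ.φ → Set Z}

/-- the statement that is proved by induction on the tree -/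
def LocP (σ : Tw Z) (B S : Set Z) (F : Set σ.φ) (V : Set σ.β) : Prop :=
  ∀ (E : σ.φ → Set Z) (X : Set Z), Ess σ S F E X →
    ∃ (E' : σ.φ → Set Z) (X' : σ.β → Set Z), (∀ f ∈ F, E' f = E f) ∧
      (∀ v ∈ V, Ess σ (σ.S v) (σ.F v) E' (X' v)) ∧ ∀ Λ : σ.φ → Set Z,
        (∀ v ∈ V, ∀ f ∈ σ.F v, Lols σ.K (σ.A f) (σ.C f) univ (E' f) (Λ f)) →
        (∀ v ∈ V, SolU σ (σ.B v) (σ.S v) (X' v ∪ ⋃ f ∈ σ.F v, Λ f)) →
        SolU σ B S (X ∪ ⋃ f ∈ F, Λ f)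

omit [MetricSpace Z] in
theorem loc_img {k : Z → Z} {X U : Set Z} (h : ∀ x ∈ U, k x = x) : k '' (X ∪ U) = k '' X ∪ U := by
  rw [image_union, (image_congr h).trans (image_id' U)]

/-- transport along a move that fixes the feet -/
theorem LocP.move (ok : σ.Ok) {B' S' : Set Z} {k : Z → Z} (h : LocP σ B S F V) (hb : Ball B' S')
    (hk : Mv σ.K k B') (e1 : k '' B' = B) (e2 : k '' S' = S) (hF : ∀ f ∈ F, σ.A f ⊆ S')
    (hf : ∀ f ∈ F, ∀ x ∈ σ.A f, k x = x) (src : ∀ f ∈ F, ∃ v ∈ V, f ∈ σ.F v) :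
    LocP σ B' S' F V := by
  intro E X he
  subst e1 e2
  obtain ⟨E', X', h1, h2, h3⟩ := h E _ (he.map hb.rim_compact hF (hk.1.mono hb.rim_sub) hf)
  refine ⟨E', X', h1, h2, fun Λ a b => ?_⟩
  have s : ∀ f ∈ F, Λ f ⊆ σ.A f := fun f m => by
    obtain ⟨v, hv, m'⟩ := src f m
    exact (a v hv f m').sub.1
  rw [SolU.mv ok.toOk0 hb (union_subset he.sub (iUnion₂_subset fun f m => (s f m).trans (hF f m)))
    hk, loc_img fun x hx => ?_]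
  · exact h3 Λ a b
  · obtain ⟨f, m, hx⟩ := mem_iUnion₂.1 hx
    exact hf f m x (s f m hx)

omit [MetricSpace Z] in
theorem loc_side {ι : Type*} {B1 S1 B2 S2 D S W Y : Set Z} {F F1 F2 : Set ι} {Λ : ι → Set Z}
    {f₀ : ι} (i : B1 ∩ B2 ⊆ D) (s1 : S1 ⊆ B1) (s2 : S2 ⊆ B2) (hW : W ⊆ S) (o : S ∩ B1 ⊆ S1)
    (a1 : ∀ f ∈ F1, Λ f ⊆ S1) (a2 : ∀ f ∈ F2, Λ f ⊆ S2)
    (mem : ∀ f ∈ F, (f ∈ F1 ∨ f ∈ F2) ∧ Disjoint (Λ f) D) (h0 : f₀ ∈ F1)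
    (he : ∀ f ∈ F1, f ∉ F → f ≠ f₀ → Λ f = ∅) :
    (W ∪ ⋃ f ∈ F, Λ f) ∩ S1 ∪ (Y ∪ Λ f₀) = W ∩ (S ∩ B1) ∪ Y ∪ ⋃ f ∈ F1, Λ f := by
  ext x
  simp only [mem_union, mem_inter_iff, mem_iUnion₂]
  constructor
  · rintro (⟨h | ⟨f, m, h⟩, h'⟩ | h | h)
    · exact .inl (.inl ⟨h, hW h, s1 h'⟩)
    · obtain m1 | m2 := (mem f m).1
      · exact .inr ⟨f, m1, h⟩
      · exact (disjoint_left.1 (mem f m).2 h (i ⟨s1 h', s2 (a2 f m2 h)⟩)).elim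
    · exact .inl (.inr h)
    · exact .inr ⟨f₀, h0, h⟩
  · rintro ((⟨h, h'⟩ | h) | ⟨f, m, h⟩)
    · exact .inl ⟨.inl h, o h'⟩
    · exact .inr (.inl h)
    · by_cases c : f ∈ F
      · exact .inl ⟨.inr ⟨f, c, h⟩, a1 f m h⟩
      · by_cases c' : f = f₀
        · exact .inr (.inr (c' ▸ h))
        · rw [he f m c c'] at h
          exact h.elim

/-- two trees along a wall -/
theorem LocP.glue (ok : σ.Ok) {B1 S1 B2 S2 D C : Set Z} {F1 F2 : Set σ.φ} {V1 V2 : Set σ.β}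
    (t1 : Tree σ mv B1 S1 F1 V1) (t2 : Tree σ mv B2 S2 F2 V2) (g : Gl B S B1 S1 B2 S2 D C)
    (pos : ∀ f ∈ F1 ∪ F2, σ.A f ⊆ D \ C ∨ Disjoint (σ.A f) D)
    (eq : ∀ f, σ.A f ⊆ D → (f ∈ F1 ↔ f ∈ F2)) (ex : ∃ f ∈ F1, σ.A f ⊆ D) (dj : Disjoint V1 V2)
    (mem : ∀ f, f ∈ F ↔ f ∈ F1 ∪ F2 ∧ Disjoint (σ.A f) D) (p1 : LocP σ B1 S1 F1 V1)
    (p2 : LocP σ B2 S2 F2 V2) : LocP σ B S F (V1 ∪ V2) := by
  classical
  intro E X he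
  have t := Tree.glue1 t1 t2 g pos eq ex dj mem
  have b1 := t1.ball ok.toOk0
  have b2 := t2.ball ok.toOk0
  have b := t.ball ok.toOk0
  obtain ⟨m1, i1⟩ := t1.inv ok.ok1
  obtain ⟨m2, i2⟩ := t2.inv ok.ok1
  obtain ⟨m, i⟩ := t.inv ok.ok1
  have kd := wall_kd ok.ok1 i1.ft g.d g.s1 (fun f h => pos f (.inl h)) ex
  obtain ⟨f₀, h0, s0⟩ := ex
  have h0' := (eq f₀ s0).1 h0
  obtain ⟨th, e, e1, e2, -⟩ := g.th b1 b2
  have w : Wall σ (S ∩ B1) (S ∩ B2) D C F F1 F2 f₀ :=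
    ⟨th, e1 ▸ i1.ft, e2 ▸ i2.ft, e ▸ i.ft, pos, eq, mem, h0, s0⟩
  obtain ⟨k, E', Y, iso, hE, hE0, q0, q1, q2, crs, lol⟩ := loc2 ok w (e ▸ he)
  rw [← e] at iso q0
  rw [← e1] at q1 crs
  rw [← e2] at q2 crs
  obtain ⟨E1, X1, a1, a2, a3⟩ := p1 _ _ q1
  obtain ⟨E2, X2, c1, c2, c3⟩ := p2 _ _ q2
  let E3 : σ.φ → Set Z := fun f => if ∃ v ∈ V1, f ∈ σ.F v then E1 f else E2 f
  have r1 : ∀ v ∈ V1, ∀ f ∈ σ.F v, E3 f = E1 f := fun v hv f hf => if_pos ⟨v, hv, hf⟩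
  have r2 : ∀ v ∈ V2, ∀ f ∈ σ.F v, E3 f = E2 f := fun v hv f hf => by
    by_cases c : ∃ v ∈ V1, f ∈ σ.F v
    · obtain ⟨u, hu, hf'⟩ := c
      obtain ⟨n1, n2⟩ := Tree.mid ok.ok1 t1 t2 g ⟨f₀, h0, h0'⟩ hu hv hf' hf
      rw [r1 u hu f hf', a1 f n1, c1 f n2]
    · exact if_neg c
  have r3 : ∀ f ∈ F1 ∪ F2, ∃ v ∈ V1 ∪ V2, f ∈ σ.F v ∧ E3 f = E' f := by
    rintro f (hf | hf)
    · obtain ⟨v, hv, hf'⟩ := i1.src f hf
      exact ⟨v, .inl hv, hf', (r1 v hv f hf').trans (a1 f hf)⟩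
    · obtain ⟨v, hv, hf'⟩ := i2.src f hf
      exact ⟨v, .inr hv, hf', (r2 v hv f hf').trans (c1 f hf)⟩
  let X3 : σ.β → Set Z := fun v => if v ∈ V1 then X1 v else X2 v
  have x1 : ∀ v ∈ V1, X3 v = X1 v := fun v hv => if_pos hv
  have x2 : ∀ v ∈ V2, X3 v = X2 v := fun v hv => if_neg (disjoint_right.1 dj hv)
  refine ⟨E3, X3, fun f hf => ?_, ?_, fun Λ hΛ hS => ?_⟩
  · obtain ⟨v, -, -, h⟩ := r3 f ((mem f).1 hf).1
    exact h.trans (hE f hf)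
  · rintro v (hv | hv)
    · exact x1 v hv ▸ (a2 v hv).congr (r1 v hv)
    · exact x2 v hv ▸ (c2 v hv).congr (r2 v hv)
  have s1 := a3 Λ (fun v hv f hf => r1 v hv f hf ▸ hΛ v (.inl hv) f hf)
    fun v hv => x1 v hv ▸ hS v (.inl hv)
  have s2 := c3 Λ (fun v hv f hf => r2 v hv f hf ▸ hΛ v (.inr hv) f hf)
    fun v hv => x2 v hv ▸ hS v (.inr hv)
  have hL : ∀ f ∈ F1 ∪ F2, Lols σ.K (σ.A f) (σ.C f) univ (E' f) (Λ f) := fun f hf => by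
    obtain ⟨v, hv, hf', h⟩ := r3 f hf
    exact h ▸ hΛ v hv f hf'
  have sA : ∀ f ∈ F1 ∪ F2, Λ f ⊆ σ.A f := fun f hf => (hL f hf).sub.1
  have em : ∀ f ∈ F1 ∪ F2, f ∉ F → f ≠ f₀ → Λ f = ∅ := fun f hf c c' =>
    Lols.empty (hE0 f hf c c' ▸ hL f hf)
  have dD : ∀ f ∈ F, Disjoint (Λ f) D := fun f hf =>
    ((mem f).1 hf).2.mono_left (sA f ((mem f).1 hf).1)
  have eC : (k '' X ∪ ⋃ f ∈ F, Λ f) ∩ C = k '' X ∩ C := by
    rw [union_inter_distrib_right, disjoint_iff_inter_eq_empty.1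
      (disjoint_iUnion₂_left.2 fun f hf => (dD f hf).mono_right g.d.rim_sub), union_empty]
  have l1 : ∀ f ∈ F1, Λ f ⊆ S1 := fun f hf => (sA f (.inl hf)).trans (i1.ft.sub f hf)
  have l2 : ∀ f ∈ F2, Λ f ⊆ S2 := fun f hf => (sA f (.inr hf)).trans (i2.ft.sub f hf)
  have key : SolU σ B S (k '' X ∪ ⋃ f ∈ F, Λ f) := by
    refine surg ok.toOk0 g kd.c
      (q0.dumb ok i.ft fun f hf => hE f hf ▸ hL f ((mem f).1 hf).1)
      (disjoint_iUnion₂_left.2 fun f hf => ((mem f).1 hf).2.mono_right g.d.rim_sub)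
      ⟨eC ▸ crs.1, fun x hx => ?_⟩ (eC ▸ lol _ (hL f₀ (.inl h0))) ?_ ?_
    · rw [eC] at hx
      exact ⟨closure_mono (sdiff_subset_sdiff_left (inter_subset_inter_left _ subset_union_left))
        (crs.2 x hx).1, closure_mono (sdiff_subset_sdiff_left
          (inter_subset_inter_left _ subset_union_left)) (crs.2 x hx).2⟩
    · rwa [loc_side g.i.le b1.rim_sub b2.rim_sub q0.sub (subset_union_left.trans e1.ge) l1 l2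
        (fun f hf => ⟨((mem f).1 hf).1, dD f hf⟩) h0 fun f hf => em f (.inl hf)]
    · rwa [loc_side g.symm.i.le b2.rim_sub b1.rim_sub q0.sub (subset_union_left.trans e2.ge) l2 l1
        (fun f hf => ⟨((mem f).1 hf).1.symm, dD f hf⟩) h0' fun f hf => em f (.inr hf)]
  rw [SolU.iso ok.toOk0 b (union_subset he.sub (iUnion₂_subset fun f hf =>
    (sA f ((mem f).1 hf).1).trans (i.ft.sub f hf))) iso (i.ft.clear ok.ok1 b.sph),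
    loc_img fun x hx => ?_]
  · exact key
  · obtain ⟨f, hf, hx⟩ := mem_iUnion₂.1 hx
    exact iso.fix (.inl (mem_iUnion₂.2 ⟨f, hf, sA f ((mem f).1 hf).1 hx⟩))

theorem Tree.locP (ok : σ.Ok) (h : Tree σ mv B S F V) : LocP σ B S F V := by
  induction h with
  | leaf v =>
    intro E X he
    exact ⟨E, fun _ => X, fun _ _ => rfl, fun w hw => hw ▸ he, fun Λ _ b => b v rfl⟩
  | @move B S F V k hm t hk hf ih =>
    have t' := Tree.move hm t hk hf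
    have b := t.ball ok.toOk0
    obtain ⟨m, i⟩ := t.inv ok.ok1
    obtain ⟨m', i'⟩ := t'.inv ok.ok1
    obtain ⟨g, g1, g2, -, g4⟩ := hk.inv b.compact
    refine ih.move ok (t'.ball ok.toOk0) g1 (g4 _ subset_rfl) (g4 _ b.rim_sub) i'.ft.sub
      (fun f m x hx => ?_) i.src
    have := g2 x (b.rim_sub (i.ft.sub f m hx))
    rwa [hf f m x hx] at this
  | @glue0 B S B1 S1 W SW D C F V t hW hd g hf ih =>
    have t' := Tree.glue0 t hW hd g hf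
    have b := t.ball ok.toOk0
    obtain ⟨m, i⟩ := t.inv ok.ok1
    obtain ⟨m', i'⟩ := t'.inv ok.ok1
    obtain ⟨k, k1, k2, k3, k4, -⟩ := push g b hW ok.kcl hd
    exact ih.move ok (t'.ball ok.toOk0) k1 k2 k3 i'.ft.sub
      (fun f m x hx => k4 ⟨i'.ft.sub f m hx, b.rim_sub (i.ft.sub f m hx)⟩) i.src
  | glue1 t1 t2 g pos eq ex dj mem ih1 ih2 => exact ih1.glue ok t1 t2 g pos eq ex dj mem ih2

theorem loc (ok : σ.Ok) (h : Tree σ mv B S F V) (he : Ess σ S F E X) :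
    ∃ (E' : σ.φ → Set Z) (X' : σ.β → Set Z), (∀ f ∈ F, E' f = E f) ∧
      (∀ v ∈ V, Ess σ (σ.S v) (σ.F v) E' (X' v)) ∧ ∀ Λ : σ.φ → Set Z,
        (∀ v ∈ V, ∀ f ∈ σ.F v, Lols σ.K (σ.A f) (σ.C f) univ (E' f) (Λ f)) →
        (∀ v ∈ V, SolU σ (σ.B v) (σ.S v) (X' v ∪ ⋃ f ∈ σ.F v, Λ f)) →
        SolU σ B S (X ∪ ⋃ f ∈ F, Λ f) := h.locP ok E X he

theorem route (ok : σ.Ok) (h : Tree σ mv B S F V) (he : Ess σ S F E X) :
    ∃ Λ : σ.φ → Set Z, (∀ f ∈ F, Lols σ.K (σ.A f) (σ.C f) univ (E f) (Λ f)) ∧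
      SolU σ B S (X ∪ ⋃ f ∈ F, Λ f) := by
  obtain ⟨E', X', h1, h2, h3⟩ := loc ok h he
  obtain ⟨m, i⟩ := h.inv ok.ok1
  obtain ⟨Λ, a, b⟩ := ok.s5 m V E' X' i.vfin fun v hv => ⟨i.vl v hv, h2 v hv⟩
  refine ⟨Λ, fun f hf => ?_, h3 Λ a b⟩
  obtain ⟨v, hv, hf'⟩ := i.src f hf
  exact h1 f hf ▸ a v hv f hf'

end Pool.Agent.Lib.MP_b7d179_gt
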