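import Pool.Agent.Lib.MP_b7d179_gt.U.Bud
import Pool.Agent.Lib.MP_b7d179_gt.U.Loc

/-! Every disc of the rim of a good ball can be cut off. -/

namespace Pool.Agent.Lib.MP_b7d179_gt

open Set Metric

variable {Z Z' : Type*} [MetricSpace Z] [MetricSpace Z']

variable {σ : Tw Z} {B S E C : Set Z} {𝒯 : Set (Set Z × Set Z)}

/-- an arc in a disc from a point of its rim to the landing arc of a foot -/
theorem cut_leg (ok : σ.Ok) (hS : Sph S) {F : Set σ.φ} (ft : Ft σ S F) (hE : KD σ.K E C)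
    (hs : E ⊆ S) (hF : ∀ f ∈ F, Disjoint (σ.A f) C) {e : Z} (he : e ∈ C) :
    ∃ f ∈ F, σ.A f ⊆ E \ C ∧ ∃ η z, Arc η e z ∧ z ∈ σ.J f ∧ z ∈ σ.A f ∧ η ⊆ E ∧ η ∩ C = {e} ∧
      (∀ y ∈ η, ∀ k ∈ F, y ∈ σ.A k → y = z) ∧ Disjoint η σ.K := by
  have side (f) (hf : f ∈ F) := rq_side hS hE.d hs (ok.foot f).d.conn (ft.sub f hf) (hF f hf)
  obtain ⟨x, xK, xE⟩ := hE.k
  obtain ⟨f, hf, xf⟩ := mem_iUnion₂.1 (ft.cov ⟨xK, hs xE⟩)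
  have sf : σ.A f ⊆ E \ C := (side f hf).resolve_right fun d => disjoint_left.1 d xf xE
  obtain ⟨a, p, q, ha, aC, eJ⟩ := ok.land f
  obtain ⟨z, za, zn⟩ := ha.exists_notMem (toFinite {p, q})
  have zA : z ∈ σ.A f := (ok.foot f).d.rim_sub (aC za)
  have H : Holes (E \ C) {k ∈ F | σ.A k ⊆ E \ C} σ.A σ.C :=
    ⟨ft.fin.subset fun _ a => a.1, fun k _ => (ok.foot k).d, fun _ a => a.2,
      ft.dj.subset fun _ a => a.1⟩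
  obtain ⟨η, hη, i⟩ := hole_arc hE.d H (p := e) (q := z) (.inl he)
    (.inr (mem_biUnion (show f ∈ {k ∈ F | σ.A k ⊆ E \ C} from ⟨hf, sf⟩) (aC za)))
    fun h => (sf zA).2 (h ▸ he)
  have tri (y) (hy : y ∈ η) : y = e ∨ y = z ∨
      y ∈ (E \ C) \ ⋃ j ∈ {k ∈ F | σ.A k ⊆ E \ C}, σ.A j := by
    by_cases h : y ∈ ({e, z} : Set Z)
    · exact h.imp_right .inl
    · exact .inr (.inr (i ⟨hy, h⟩))
  have one : ∀ y ∈ η, ∀ k ∈ F, y ∈ σ.A k → y = z := fun y hy k hk yk => by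
    rcases tri y hy with rfl | h | h
    · exact (disjoint_left.1 (hF k hk) yk he).elim
    · exact h
    · rcases side k hk with s | s
      · exact (h.2 (mem_biUnion (show k ∈ {k ∈ F | σ.A k ⊆ E \ C} from ⟨hk, s⟩) yk)).elim
      · exact (disjoint_left.1 s yk h.1.1).elim
  have sub : η ⊆ E := fun y hy => by
    rcases tri y hy with rfl | rfl | h
    exacts [hE.d.rim_sub he, (sf zA).1, h.1.1]
  refine ⟨f, hf, sf, η, z, hη, eJ ▸ ⟨za, zn⟩, zA, sub, ?_, one, disjoint_left.2 fun y hy yK => ?_⟩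
  · refine Subset.antisymm (fun y hy => ?_) (singleton_subset_iff.2 ⟨hη.left, he⟩)
    rcases tri y hy.1 with h | rfl | h
    exacts [h, ((sf zA).2 hy.2).elim, (h.1.2 hy.2).elim]
  · obtain ⟨k, hk, yk⟩ := mem_iUnion₂.1 (ft.cov ⟨yK, hs (sub hy)⟩)
    rw [one y hy k hk yk] at yK
    exact disjoint_left.1 (ok.foot f).c (aC za) yK

/-- two lanes are joined along an arc of the rim -/
theorem join (ok : σ.Ok) (h : Sol σ B S 𝒯) {t₁ t₂ : Set Z × Set Z} (h₁ : t₁ ∈ 𝒯) (h₂ : t₂ ∈ 𝒯)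
    (hne : t₁ ≠ t₂) {a : Set Z} {e₁ e₂ : Z} (ha : Arc a e₁ e₂) (hs : a ⊆ S) (hK : Disjoint a σ.K)
    (i₁ : a ∩ t₁.1 = {e₁}) (i₂ : a ∩ t₂.1 = {e₂}) (m₁ : e₁ ∈ t₁.2) (m₂ : e₂ ∈ t₂.2)
    (io : ∀ t ∈ 𝒯, t ≠ t₁ → t ≠ t₂ → Disjoint a t.1) (k₁ : (σ.K ∩ t₁.1).Nonempty) :
    SolU σ B S (a ∪ ⋃ t ∈ 𝒯, t.1) := by
  obtain ⟨R, SR, Lf, Df, h⟩ := h
  obtain ⟨-, -, r₁, c₁, l₁, -, s₁, -⟩ := h.sub h₁
  obtain ⟨-, -, r₂, c₂, l₂, -, s₂, -⟩ := h.sub h₂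
  obtain ⟨F, V, tr, hF⟩ := h.g.fine ok (N := t₁.2 ∪ t₂.2 ∪ a)
    (((h.dt _ h₁).rim_closed.union (h.dt _ h₂).rim_closed).union ha.closed)
    (disjoint_union_left.2 ⟨disjoint_union_left.2 ⟨(h.dd _ h₁).c, (h.dd _ h₂).c⟩, hK⟩) one_pos
  obtain ⟨m, iv⟩ := tr.inv ok.ok1
  have ft := iv.ft
  have hS := (h.g.ball ok.toOk0).sph
  obtain ⟨f₁, hf₁, sf₁, η₁, z₁, a₁, j₁, zA₁, b₁, d₁, o₁, n₁⟩ := cut_leg ok hS ft (h.dd _ h₁) s₁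
    (fun f hf => (hF f hf).1.mono_right fun _ a => .inl (.inl a)) m₁
  obtain ⟨f₂, hf₂, sf₂, η₂, z₂, a₂, j₂, zA₂, b₂, d₂, o₂, n₂⟩ := cut_leg ok hS ft (h.dd _ h₂) s₂
    (fun f hf => (hF f hf).1.mono_right fun _ a => .inl (.inr a)) m₂
  have dj : Disjoint (Df t₁) (Df t₂) := (h.dj h₁ h₂ hne).mono l₁ l₂
  have u₁ : η₁ ∩ a = {e₁} := Subset.antisymm
    (fun y hy => i₁.le ⟨hy.2, r₁ ((h.ds _ h₁).le ⟨b₁ hy.1, hs hy.2⟩)⟩)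
    (singleton_subset_iff.2 ⟨a₁.left, ha.left⟩)
  have u₂ : (η₁ ∪ a) ∩ η₂ = {e₂} := Subset.antisymm
    (fun y hy => hy.1.elim (fun k => (disjoint_left.1 dj (b₁ k) (b₂ hy.2)).elim)
      fun k => i₂.le ⟨k, r₂ ((h.ds _ h₂).le ⟨b₂ hy.2, hs k⟩)⟩)
    (singleton_subset_iff.2 ⟨.inr ha.right, a₂.left⟩)
  have hX := (a₁.symm.cat ha u₁).cat a₂ u₂
  have aS : a ⊆ SR := fun y hy => by
    by_cases k : y ∈ ⋃ t ∈ 𝒯, t.1
    · obtain ⟨t, ht, yt⟩ := mem_iUnion₂.1 k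
      by_cases k₁ : t = t₁
      · rw [show y = e₁ from i₁.le ⟨hy, k₁ ▸ yt⟩]; exact s₁ (c₁ m₁)
      by_cases k₂ : t = t₂
      · rw [show y = e₂ from i₂.le ⟨hy, k₂ ▸ yt⟩]; exact s₂ (c₂ m₂)
      exact (disjoint_left.1 (io t ht k₁ k₂) hy yt).elim
    · exact h.r.ge (.inl ⟨hs hy, k⟩)
  have ne : f₁ ≠ f₂ := fun e => disjoint_left.1 dj (sf₁ zA₁).1 (sf₂ (e ▸ zA₁)).1
  have two : ∀ y ∈ η₁ ∪ a ∪ η₂, ∀ k ∈ F, y ∈ σ.A k → (y = z₁ ∧ k = f₁) ∨ (y = z₂ ∧ k = f₂) := by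
    rintro y ((hy | hy) | hy) k hk yk
    · obtain rfl := o₁ y hy k hk yk
      exact .inl ⟨rfl, ft.dj.elim_set hk hf₁ _ yk zA₁⟩
    · exact (disjoint_left.1 (hF k hk).1 yk (.inr hy)).elim
    · obtain rfl := o₂ y hy k hk yk
      exact .inr ⟨rfl, ft.dj.elim_set hk hf₂ _ yk zA₂⟩
  obtain ⟨Λ, hΛ, sol⟩ := route ok tr (ess_one ft hX
    (union_subset (union_subset (b₁.trans s₁) aS) (b₂.trans s₂)) hf₁ hf₂ ne j₁ j₂
    (Subset.antisymm (fun y hy => by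
      obtain ⟨k, hk, yk⟩ := mem_iUnion₂.1 hy.2
      exact (two y hy.1 k hk yk).imp And.left And.left)
      (insert_subset ⟨hX.left, mem_biUnion hf₁ zA₁⟩
        (singleton_subset_iff.2 ⟨hX.right, mem_biUnion hf₂ zA₂⟩))))
  have x₁ : (η₁ ∪ a ∪ η₂) ∩ σ.A f₁ = {z₁} := Subset.antisymm
    (fun y hy => ((two y hy.1 f₁ hf₁ hy.2).resolve_right fun k => ne k.2).1)
    (singleton_subset_iff.2 ⟨hX.left, zA₁⟩)
  have x₂ : (η₁ ∪ a ∪ η₂) ∩ σ.A f₂ = {z₂} := Subset.antisymm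
    (fun y hy => ((two y hy.1 f₂ hf₂ hy.2).resolve_left fun k => ne k.2.symm).1)
    (singleton_subset_iff.2 ⟨hX.right, zA₂⟩)
  have p₁ := hΛ f₁ hf₁
  have p₂ := hΛ f₂ hf₂
  simp only [x₁, x₂] at p₁ p₂
  have q₁ := p₁.pop.extend sf₁ m₁ a₁ b₁ d₁ (Subset.antisymm (fun y hy => o₁ y hy.1 f₁ hf₁ hy.2)
    (singleton_subset_iff.2 ⟨a₁.right, zA₁⟩)) n₁
  have q₂ := p₂.pop.extend sf₂ m₂ a₂ b₂ d₂ (Subset.antisymm (fun y hy => o₂ y hy.1 f₂ hf₂ hy.2)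
    (singleton_subset_iff.2 ⟨a₂.right, zA₂⟩)) n₂
  have un : ⋃ f ∈ F, Λ f = Λ f₁ ∪ Λ f₂ := by
    refine Subset.antisymm (iUnion₂_subset fun f hf => ?_)
      (union_subset (subset_biUnion_of_mem hf₁) (subset_biUnion_of_mem hf₂))
    by_cases k₁ : f = f₁
    · exact k₁ ▸ subset_union_left
    by_cases k₂ : f = f₂
    · exact k₂ ▸ subset_union_right
    have p := hΛ f hf
    have x : (η₁ ∪ a ∪ η₂) ∩ σ.A f = ∅ := eq_empty_of_forall_notMem fun y hy =>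
      (two y hy.1 f hf hy.2).elim (fun k => k₁ k.2) fun k => k₂ k.2
    simp only [x] at p
    rw [p.empty]
    exact empty_subset _
  refine merge ok.toOk0 h h₁ h₂ hne ha hs hK i₁ i₂ io q₁ q₂ k₁ ?_
  rw [un] at sol
  convert sol using 1
  ext y
  simp only [mem_union]
  tauto

theorem cut_step (ok : σ.Ok) (h : Sol σ B S 𝒯) (hE : Disc E C) (hs : E ⊆ S)
    (hT : ∀ t ∈ 𝒯, t.1 ⊆ E \ C ∧ (σ.K ∩ t.1).Nonempty) (hc : σ.K ∩ E ⊆ ⋃ t ∈ 𝒯, t.1)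
    (hn : 𝒯.Nontrivial) :
    ∃ 𝒯' : Set (Set Z × Set Z), Sol σ B S 𝒯' ∧ (∀ t ∈ 𝒯', t.1 ⊆ E \ C ∧ (σ.K ∩ t.1).Nonempty) ∧
      σ.K ∩ E ⊆ ⋃ t ∈ 𝒯', t.1 ∧ 𝒯'.ncard < 𝒯.ncard := by
  obtain ⟨t₁, h₁, t₂, h₂, hne⟩ := hn
  obtain ⟨fin, dj, fa⟩ := h.facts
  have hS := (h.good.ball ok.toOk0).sph
  obtain ⟨e₁, m₁, -⟩ := (fa _ h₁).1.exists_rim finite_empty
  obtain ⟨e₂, m₂, -⟩ := (fa _ h₂).1.exists_rim finite_empty
  have n₁ := (fa _ h₁).1.rim_sub m₁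
  have n₂ := (fa _ h₂).1.rim_sub m₂
  have d12 : Disjoint t₁.1 t₂.1 := dj h₁ h₂ hne
  obtain ⟨a, ha, i⟩ := hole_arc hE (t := 𝒯) (W := Prod.fst) (w := Prod.snd)
    ⟨fin, fun t ht => (fa t ht).1, fun t ht => (hT t ht).1, dj⟩ (p := e₁) (q := e₂)
    (.inr (mem_biUnion h₁ m₁)) (.inr (mem_biUnion h₂ m₂))
    fun e => disjoint_left.1 d12 n₁ (e ▸ n₂)
  have tri (y) (hy : y ∈ a) : y = e₁ ∨ y = e₂ ∨ y ∈ (E \ C) \ ⋃ t ∈ 𝒯, t.1 := by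
    by_cases h : y ∈ ({e₁, e₂} : Set Z)
    · exact h.imp_right .inl
    · exact .inr (.inr (i ⟨hy, h⟩))
  have two : ∀ y ∈ a, ∀ t ∈ 𝒯, y ∈ t.1 → (y = e₁ ∧ t = t₁) ∨ (y = e₂ ∧ t = t₂) := by
    intro y hy t ht yt
    rcases tri y hy with rfl | rfl | k
    · exact .inl ⟨rfl, dj.elim_set ht h₁ _ yt n₁⟩
    · exact .inr ⟨rfl, dj.elim_set ht h₂ _ yt n₂⟩
    · exact (k.2 (mem_biUnion ht yt)).elim
  have aE : a ⊆ E \ C := fun y hy => by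
    rcases tri y hy with rfl | rfl | k
    exacts [(hT _ h₁).1 n₁, (hT _ h₂).1 n₂, k.1]
  have aS : a ⊆ S := fun y hy => hs (aE hy).1
  have aK : Disjoint a σ.K := disjoint_left.2 fun y hy yK => by
    obtain ⟨t, ht, yt⟩ := mem_iUnion₂.1 (hc ⟨yK, (aE hy).1⟩)
    rcases two y hy t ht yt with ⟨rfl, -⟩ | ⟨rfl, -⟩
    exacts [disjoint_left.1 (fa _ h₁).2.2 m₁ yK, disjoint_left.1 (fa _ h₂).2.2 m₂ yK]
  have i₁ : a ∩ t₁.1 = {e₁} := Subset.antisymm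
    (fun y hy => ((two y hy.1 t₁ h₁ hy.2).resolve_right fun k => hne k.2).1)
    (singleton_subset_iff.2 ⟨ha.left, n₁⟩)
  have i₂ : a ∩ t₂.1 = {e₂} := Subset.antisymm
    (fun y hy => ((two y hy.1 t₂ h₂ hy.2).resolve_left fun k => hne k.2.symm).1)
    (singleton_subset_iff.2 ⟨ha.right, n₂⟩)
  have io : ∀ t ∈ 𝒯, t ≠ t₁ → t ≠ t₂ → Disjoint a t.1 := fun t ht k₁ k₂ =>
    disjoint_left.2 fun y hy yt => (two y hy t ht yt).elim (fun k => k₁ k.2) fun k => k₂ k.2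
  have sol := join ok h h₁ h₂ hne ha aS aK i₁ i₂ m₁ m₂ io (hT _ h₁).2
  have bell := rq_ns_bell hS (fa _ h₁).1 (fa _ h₂).1 d12 ha i₁ i₂
    (union_subset (union_subset (fa _ h₁).2.1 aS) (fa _ h₂).2.1)
  have ns : NSU S (a ∪ ⋃ t ∈ 𝒯, t.1) := by
    have := bell.nsu.union (nsu_biUnion (t := {t ∈ 𝒯 | t ≠ t₁ ∧ t ≠ t₂}) (W := Prod.fst)
      (fin.subset fun _ a => a.1) (fun t ht => (rq_ns hS (fa t ht.1).1 (fa t ht.1).2.1).nsu)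
      (dj.subset fun _ a => a.1)) (disjoint_iUnion₂_right.2 fun t ht => disjoint_union_left.2
        ⟨disjoint_union_left.2 ⟨dj h₁ ht.1 ht.2.1.symm, io t ht.1 ht.2.1 ht.2.2⟩,
          dj h₂ ht.1 ht.2.2.symm⟩)
    convert this using 1
    refine Subset.antisymm (union_subset (fun y hy => .inl (.inl (.inr hy)))
      (iUnion₂_subset fun t ht y hy => ?_)) (union_subset (union_subset (union_subset
        (fun y hy => .inr (mem_biUnion h₁ hy)) subset_union_left)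
        fun y hy => .inr (mem_biUnion h₂ hy))
        (iUnion₂_subset fun t ht y hy => .inr (mem_biUnion ht.1 hy)))
    by_cases k₁ : t = t₁
    · exact .inl (.inl (.inl (k₁ ▸ hy)))
    by_cases k₂ : t = t₂
    · exact .inl (.inr (k₂ ▸ hy))
    exact .inr (mem_biUnion (show t ∈ {t ∈ 𝒯 | t ≠ t₁ ∧ t ≠ t₂} from ⟨ht, k₁, k₂⟩) hy)
  obtain ⟨U, oU, eU⟩ := hS.open hE hs
  obtain ⟨𝒯', fit, sol', hU⟩ := sol.thin ok.toOk0 ns oU (union_subset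
    (fun y hy => (eU.ge (aE hy)).1) (iUnion₂_subset fun t ht y hy => (eU.ge ((hT t ht).1 hy)).1))
  have cov : (a ∪ ⋃ t ∈ 𝒯, t.1) ⊆ ⋃ u ∈ 𝒯', u.1 :=
    fit.x.trans (iUnion₂_mono fun _ _ => sdiff_subset)
  have inn {P : Set Z} (hP : IsConnected P) (s : P ⊆ a ∪ ⋃ t ∈ 𝒯, t.1) {u} (hu : u ∈ 𝒯') {y}
      (yP : y ∈ P) (yu : y ∈ u.1) : P ⊆ u.1 := by
    obtain ⟨v, hv, k⟩ := rq_one fit.fin (fun j hj => (fit.d j hj).closed) fit.dj hP (s.trans cov)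
    rwa [fit.dj.elim_set hu hv _ yu (k yP)]
  have sb : t₁.1 ∪ a ∪ t₂.1 ⊆ a ∪ ⋃ t ∈ 𝒯, t.1 := union_subset (union_subset
    (fun y hy => .inr (mem_biUnion h₁ hy)) subset_union_left) fun y hy => .inr (mem_biUnion h₂ hy)
  have key : ∀ u ∈ 𝒯', ∃ t ∈ 𝒯 \ {t₂}, t.1 ⊆ u.1 := fun u hu => by
    obtain ⟨y, hy, yu⟩ := (fit.c u hu).nonempty
    by_cases k : y ∈ t₁.1 ∪ a ∪ t₂.1
    · exact ⟨t₁, ⟨h₁, hne⟩, fun z hz => inn bell.2.1 sb hu k yu (.inl (.inl hz))⟩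
    · obtain ⟨t, ht, yt⟩ := mem_iUnion₂.1 (hy.resolve_left fun b => k (.inl (.inr b)))
      exact ⟨t, ⟨ht, fun e => k (.inr ((show t = t₂ from e) ▸ yt))⟩, inn (rq_conn (fa t ht).1)
        (fun z hz => .inr (mem_biUnion ht hz)) hu yt yu⟩
  choose! ψ hψ kψ using key
  refine ⟨𝒯', sol', fun u hu => ⟨fun y hy => eU.le ⟨hU u hu hy, fit.s u hu hy⟩,
    (hT _ (hψ u hu).1).2.mono (inter_subset_inter_right _ (kψ u hu))⟩,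
    hc.trans (subset_union_right.trans cov), lt_of_le_of_lt (ncard_le_ncard_of_injOn ψ hψ
      (fun u hu v hv e => ?_) (fin.subset sdiff_subset)) (ncard_sdiff_singleton_lt_of_mem h₂ fin)⟩
  obtain ⟨y, -, hy⟩ := (hT _ (hψ u hu).1).2
  exact fit.dj.elim_set hu hv _ (kψ u hu hy) (kψ v hv (e ▸ hy))

theorem cut_down (ok : σ.Ok) (hE : Disc E C) (hs : E ⊆ S) (hn : (σ.K ∩ E).Nonempty) (n : ℕ) :
    ∀ 𝒯 : Set (Set Z × Set Z), 𝒯.ncard = n → Sol σ B S 𝒯 →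
      (∀ t ∈ 𝒯, t.1 ⊆ E \ C ∧ (σ.K ∩ t.1).Nonempty) → σ.K ∩ E ⊆ ⋃ t ∈ 𝒯, t.1 →
      Sol σ B S {(E, C)} := by
  induction n using Nat.strong_induction_on with
  | _ n ih =>
    intro 𝒯 e h hT hc
    rcases 𝒯.subsingleton_or_nontrivial with k | k
    · obtain ⟨y, hy⟩ := hn
      obtain ⟨t, ht, -⟩ := mem_iUnion₂.1 (hc hy)
      obtain rfl := k.eq_singleton_of_mem ht
      obtain ⟨d, -, c⟩ := h.facts.2.2 t ht
      have := (Sol.congr ok.toOk0 (h.good.ball ok.toOk0) (π := fun _ => (E, C))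
        (finite_singleton t) (pairwiseDisjoint_singleton _ _) fun u hu => by
          obtain rfl : u = t := hu
          exact ⟨d, hE, hs, (hT u ht).1, fun z hz => ⟨by simpa using hc hz,
            fun m => disjoint_left.1 c m hz.1⟩⟩).1 h
      rwa [image_singleton] at this
    · obtain ⟨𝒯', a, b, c, d⟩ := cut_step ok h hE hs hT hc k
      exact ih _ (e ▸ d) 𝒯' rfl a b c

theorem G.cut (ok : σ.Ok) (h : G σ B S) (hE : Disc E C) (hs : E ⊆ S) (hd : Disjoint C σ.K) :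
    Sol σ B S {(E, C)} := by
  rcases (σ.K ∩ E).eq_empty_or_nonempty with k | k
  · exact h.bud ok hE hs (disjoint_iff_inter_eq_empty.2 k).symm
  obtain ⟨F, ft, hF, cap⟩ := h.cap ok hE.rim_closed hd
  have hB := h.ball ok.toOk0
  have sol := cap {f ∈ F | σ.A f ⊆ E \ C} fun _ a => a.1
  have e : ⋃ t ∈ (fun f => (σ.A f, σ.C f)) '' {f ∈ F | σ.A f ⊆ E \ C}, t.1 =
      ⋃ f ∈ {f ∈ F | σ.A f ⊆ E \ C}, σ.A f := biUnion_image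
  rw [← e, ← sol_iff_solU ok.toOk0 hB ((ft.fin.subset fun _ a => a.1).image _)] at sol
  · refine cut_down ok hE hs k _ _ rfl sol ?_ fun y hy => ?_
    · rintro _ ⟨f, hf, rfl⟩
      exact ⟨hf.2, (ok.foot f).k⟩
    · obtain ⟨f, hf, yf⟩ := mem_iUnion₂.1 (ft.cov ⟨hy.1, hs hy.2⟩)
      rw [e]
      exact mem_biUnion (show f ∈ {f ∈ F | σ.A f ⊆ E \ C} from ⟨hf, (rq_side hB.sph hE hs
        (ok.foot f).d.conn (ft.sub f hf) (hF f hf)).resolve_right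
          fun d => disjoint_left.1 d yf hy.2⟩) yf
  · rintro _ ⟨f, hf, rfl⟩ _ ⟨g, hg, rfl⟩ ne
    exact ft.dj hf.1 hg.1 fun e => ne (e ▸ rfl)
  · rintro _ ⟨f, hf, rfl⟩
    exact ⟨(ok.foot f).d, ft.sub f hf.1, (ok.foot f).c⟩

end Pool.Agent.Lib.MP_b7d179_gt
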