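import Pool.Agent.Lib.MP_b7d179_gt.U.Ball2

/-! Ends of dumbbells, arcs cut in order. -/

namespace Pool.Agent.Lib.MP_b7d179_gt

open Set Metric

variable {Z : Type*} [MetricSpace Z]

variable {K D C M O W w W' w' l l' a b η A A' E : Set Z} {e e' x y p q : Z}

/-- `l` is an end with disc `W` to which arcs can be attached at `e` -/
def JE (K W w l : Set Z) (e : Z) : Prop :=
  KD K W w ∧ W ⊆ l ∧ ∀ a y, Arc a e y → a ∩ l = {e} → Disjoint a K →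
    ∃ b p, Arc b p y ∧ p ∈ w ∧ b ∩ W = {p} ∧ Disjoint b K ∧ W ∪ b = l ∪ a ∧ a ⊆ b

theorem je_self (h : KD K W w) (he : e ∈ w) : JE K W w W e :=
  ⟨h, subset_rfl, fun a _ i j k => ⟨a, e, i, he, j, k, rfl, subset_rfl⟩⟩

theorem je_lol (h : Lol η W w e x) (k : KD K W w) (he : e ∉ W) (hK : Disjoint η K) :
    JE K W w (W ∪ η) e := by
  refine ⟨k, subset_union_left, fun a y i j d => ⟨η ∪ a, x, h.arc.symm.cat i ?_, h.mem, ?_,
    disjoint_union_left.2 ⟨hK, d⟩, (union_assoc ..).symm, subset_union_right⟩⟩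
  · exact subset_antisymm (fun z c => j.le ⟨c.2, .inr c.1⟩)
      (singleton_subset_iff.2 ⟨h.arc.left, i.left⟩)
  · refine subset_antisymm ?_ (h.inter.ge.trans (inter_subset_inter_left _ subset_union_left))
    rintro z ⟨c | c, f⟩
    · exact h.inter.le ⟨c, f⟩
    · exact (he (j.le ⟨c, .inl f⟩ ▸ f)).elim

theorem JE.bell (h : JE K W w l e) (h' : JE K W' w' l' e') (ha : Arc a e e') (hK : Disjoint a K)
    (i : a ∩ l = {e}) (i' : a ∩ l' = {e'}) (hd : Disjoint l l') :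
    ∃ b p q, Bell K W w W' w' b p q ∧ W ∪ b ∪ W' = l ∪ a ∪ l' := by
  obtain ⟨b, p, b1, b2, b3, b4, b5, b6⟩ := h.2.2 a e' ha i hK
  obtain ⟨c, q, c1, c2, c3, c4, c5, c6⟩ := h'.2.2 b p b1.symm (by
    refine subset_antisymm (fun z k => ?_) (i'.ge.trans (inter_subset_inter_left _ b6))
    obtain m | m := b5.le (.inr k.1)
    · exact (disjoint_left.1 hd m k.2).elim
    · exact i'.le ⟨m, k.2⟩) b4
  refine ⟨c, p, q, ⟨h.1, h'.1, hd.mono h.2.1 h'.2.1, c1.symm, c4, ?_, c3, b2, c2⟩, ?_⟩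
  · refine subset_antisymm (fun z k => ?_) (b3.ge.trans (inter_subset_inter_left _ c6))
    obtain m | m := c5.le (.inr k.1)
    · exact (disjoint_left.1 hd (h.2.1 k.2) m).elim
    · exact b3.le ⟨m, k.2⟩
  · rw [union_assoc, union_comm c, c5, union_comm l', ← union_assoc, b5]

theorem jp_chain (n : ℕ) : ∀ (a : Set Z) (p : Z), Arc a p q → ((a ∩ E) \ {p, q}).Finite →
    ((a ∩ E) \ {p, q}).ncard < n → ∃ (n : ℕ) (b : ℕ → Set Z) (e : ℕ → Z), e 0 = p ∧ e (n + 1) = q ∧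
      (∀ j ≤ n, Arc (b j) (e j) (e (j + 1)) ∧ b j ∩ E ⊆ {e j, e (j + 1)}) ∧
      (∀ j < n, e (j + 1) ∈ E ∧ b j ∩ b (j + 1) = {e (j + 1)}) ∧
      (∀ j k, j + 1 < k → k ≤ n → Disjoint (b j) (b k)) ∧ a = ⋃ j ≤ n, b j := by
  induction n with
  | zero => exact fun _ _ _ _ h => (Nat.not_lt_zero _ h).elim
  | succ n ih =>
    intro a p h f c
    obtain k | k := ((a ∩ E) \ {p, q}).eq_empty_or_nonempty
    · refine ⟨0, fun _ => a, fun j => if j = 0 then p else q, rfl, rfl, fun j m => ?_,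
        fun j m => by omega, fun j k m o => by omega, by simp⟩
      obtain rfl : j = 0 := by omega
      exact ⟨h, sdiff_eq_empty.1 k⟩
    obtain ⟨u', x, a1, a2, a3⟩ := h.first_hit f.isClosed (fun m => m.2 (.inl rfl))
      (k.mono fun z m => ⟨m.1.1, m⟩)
    have hx := (a3.ge rfl).2
    have xp : x ≠ p := fun m => hx.2 (.inl m)
    have xq : x ≠ q := fun m => hx.2 (.inr m)
    obtain ⟨u, v, b1, b2, b3, b4⟩ := h.split hx.1.1 xp xq
    have ua : u ⊆ a := b4 ▸ subset_union_left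
    have va : v ⊆ a := b4 ▸ subset_union_right
    have uu := h.sub_of_conn b1 ua a2.conn a1 a2.left a2.right
    have s : (v ∩ E) \ {x, q} ⊆ ((a ∩ E) \ {p, q}) \ {x} := fun z m =>
      ⟨⟨⟨va m.1.1, m.1.2⟩, fun o => o.elim (fun o => m.2 (.inl (b3.le ⟨o ▸ b1.left, m.1.1⟩)))
        fun o => m.2 (.inr o)⟩, fun o => m.2 (.inl o)⟩
    obtain ⟨m, b, e, c1, c2, c3, c4, c5, c6⟩ := ih v x b2 (f.subset (s.trans sdiff_le))
      (lt_of_le_of_lt (ncard_le_ncard s f.sdiff) (lt_of_lt_of_le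
        (ncard_sdiff_singleton_lt_of_mem hx f) (Nat.lt_succ_iff.1 c)))
    have bv (j) (o : j ≤ m) : b j ⊆ v := fun z r => c6.ge (mem_iUnion₂.2 ⟨j, o, r⟩)
    subst c1
    have x0 : e 0 ∈ b 0 := (c3 0 m.zero_le).1.left
    refine ⟨m + 1, fun j => Nat.casesOn j u b, fun j => Nat.casesOn j p e, rfl, c2, ?_, ?_, ?_, ?_⟩
    · rintro (_ | j) o
      · refine ⟨b1, fun z r => ?_⟩
        by_cases t : z = p
        · exact .inl t
        refine .inr (a3.le ⟨uu r.1, ⟨ua r.1, r.2⟩, fun s => s.elim t fun s => xq ?_⟩)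
        exact (b3.le ⟨s ▸ r.1, b2.right⟩).symm
      · exact c3 j (by omega)
    · rintro (_ | j) o
      · exact ⟨hx.1.2, subset_antisymm (fun z r => b3.le ⟨r.1, bv 0 m.zero_le r.2⟩)
          (singleton_subset_iff.2 ⟨b1.right, x0⟩)⟩
      · exact c4 j (by omega)
    · rintro (_ | j) (_ | k) o r
      · omega
      · refine disjoint_left.2 fun z s t => ?_
        obtain rfl : z = e 0 := b3.le ⟨s, bv k (by omega) t⟩
        obtain rfl | g : k = 1 ∨ 1 < k := by omega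
        · exact (c3 0 m.zero_le).1.ne ((c4 0 (by omega)).2.le ⟨x0, t⟩)
        · exact disjoint_left.1 (c5 0 k g (by omega)) x0 t
      · omega
      · exact c5 j k (by omega) (by omega)
    · rw [biUnion_le_succ', ← b4, c6]
      rfl

/-- the end of a trunk: a point of the curve or a disc -/
def JT (K O C M b A : Set Z) (x : Z) : Prop :=
  (x ∈ C ∧ A = ∅) ∨ ∃ w, KD K A w ∧ x ∈ w ∧ A ⊆ M ∧ A ⊆ O \ C ∧ b ∩ A = {x}

/-- lollipops with their ends -/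
structure JL (K D C M E : Set Z) (l : Z → Set Z) : Prop where
  d : ∀ e ∈ E, l e ⊆ D
  c : ∀ e ∈ E, l e ∩ C = {e}
  j : ∀ e ∈ E, ∃ V v, JE K V v (l e) e ∧ V ⊆ M
  dj : E.PairwiseDisjoint l

variable {l : Z → Set Z}

theorem JT.je (h : JT K O C M b A x) (hO : O ∩ D = C) (hl : JL K D C M E l) (hx : x ∈ b)
    (bO : b ⊆ O) (bE : b ∩ C ⊆ E) : ∃ V v L, JE K V v L x ∧ V ⊆ M ∧ b ∩ L = {x} ∧
      (x ∈ C ∧ A = ∅ ∧ L = l x ∨ x ∉ C ∧ L = A ∧ A ⊆ O \ C) := by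
  obtain ⟨c, rfl⟩ | ⟨w, c1, c2, c3, c4, c5⟩ := h
  · have m := bE ⟨hx, c⟩
    obtain ⟨V, v, d, f⟩ := hl.j x m
    exact ⟨V, v, _, d, f, subset_antisymm
      (fun z k => (hl.c x m).le ⟨k.2, hO.le ⟨bO k.1, hl.d x m k.2⟩⟩)
      (singleton_subset_iff.2 ⟨hx, ((hl.c x m).ge rfl).1⟩), .inl ⟨c, rfl, rfl⟩⟩
  · exact ⟨A, w, A, je_self c1 c2, c3, c5, .inr ⟨(c4 (c1.d.rim_sub c2)).2, rfl, c4⟩⟩

theorem jp_piece (hO : O ∩ D = C) (hl : JL K D C M E l) (hb : Arc b x y) (bO : b ⊆ O)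
    (bC : b ∩ C ⊆ {x, y}) (bE : b ∩ C ⊆ E) (bK : Disjoint b K) (hA : JT K O C M b A x)
    (hA' : JT K O C M b A' y) (dj : Disjoint A A') : ∃ V v V' v' c p q, Bell K V v V' v' c p q ∧
      V ∪ c ∪ V' = (A ∪ b ∪ A') ∪ (⋃ e ∈ (A ∪ b ∪ A') ∩ C, l e) ∧ V ∪ V' ⊆ M := by
  obtain ⟨V, v, L, c1, c2, c3, c4⟩ := hA.je hO hl hb.left bO bE
  obtain ⟨V', v', L', d1, d2, d3, d4⟩ := hA'.je hO hl hb.right bO bE
  have k {A : Set Z} {x} (m : x ∈ E) (o : A ⊆ O \ C) : Disjoint (l x) A :=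
    disjoint_left.2 fun z r s => (o s).2 (hO.le ⟨(o s).1, hl.d x m r⟩)
  obtain ⟨c, p, q, f, g⟩ := c1.bell d1 hb bK c3 d3 (by
    obtain ⟨c5, -, rfl⟩ | ⟨-, rfl, c5⟩ := c4 <;> obtain ⟨d5, -, rfl⟩ | ⟨-, rfl, d5⟩ := d4
    · exact hl.dj (bE ⟨hb.left, c5⟩) (bE ⟨hb.right, d5⟩) hb.ne
    · exact k (bE ⟨hb.left, c5⟩) d5
    · exact (k (bE ⟨hb.right, d5⟩) c5).symm
    · exact dj)
  refine ⟨V, v, V', v', c, p, q, f, g.trans ?_, union_subset c2 d2⟩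
  have e : (A ∪ b ∪ A') ∩ C = {x, y} ∩ C := by
    refine subset_antisymm ?_ (inter_subset_inter_left _
      (hb.ends.trans (subset_union_right.trans subset_union_left)))
    rintro z ⟨(m | m) | m, o⟩
    · obtain ⟨-, rfl, -⟩ | ⟨-, -, c5⟩ := c4
      exacts [m.elim, ((c5 m).2 o).elim]
    · exact ⟨bC ⟨m, o⟩, o⟩
    · obtain ⟨-, rfl, -⟩ | ⟨-, -, c5⟩ := d4
      exacts [m.elim, ((c5 m).2 o).elim]
  rw [e]
  obtain ⟨c5, rfl, rfl⟩ | ⟨c5, rfl, -⟩ := c4 <;> obtain ⟨d5, rfl, rfl⟩ | ⟨d5, rfl, -⟩ := d4 <;>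
    ext z <;> simp [insert_inter_of_mem, insert_inter_of_notMem, singleton_inter_of_mem,
      singleton_inter_of_notMem, c5, d5] <;> tauto

/-- trunks closed up by lollipops stay disjoint -/
theorem jp_close {ι : Type*} {s : Set ι} {T : ι → Set Z} (hO : O ∩ D = C) (hl : JL K D C M E l)
    (hT : ∀ i ∈ s, T i ⊆ O ∧ T i ∩ C ⊆ E) (hd : s.PairwiseDisjoint T) :
    s.PairwiseDisjoint fun i => T i ∪ ⋃ e ∈ T i ∩ C, l e := by
  have k (i) (a : i ∈ s) (j) (b : j ∈ s) (c : i ≠ j) (z) (m : z ∈ T i) :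
      z ∉ ⋃ e ∈ T j ∩ C, l e := fun o => by
    obtain ⟨e, r, t⟩ := mem_iUnion₂.1 o
    have u := (hT j b).2 r
    obtain rfl : z = e := (hl.c e u).le ⟨t, hO.le ⟨(hT i a).1 m, hl.d e u t⟩⟩
    exact disjoint_left.1 (hd a b c) m r.1
  intro i a j b c
  refine disjoint_left.2 ?_
  rintro z (m | m) (o | o)
  · exact disjoint_left.1 (hd a b c) m o
  · exact k i a j b c z m o
  · exact k j b i a c.symm z o m
  · obtain ⟨e, r, t⟩ := mem_iUnion₂.1 m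
    obtain ⟨e', r', t'⟩ := mem_iUnion₂.1 o
    obtain rfl := hl.dj.elim_set ((hT i a).2 r) ((hT j b).2 r') z t t'
    exact disjoint_left.1 (hd a b c) r.1 r'.1

theorem Lols.jl {Λ : Set Z} (h : Lols K D C M E Λ) : ∃ l, JL K D C M E l ∧ Λ = ⋃ e ∈ E, l e := by
  obtain ⟨-, a, W, w, η, x, b, c, d, -⟩ := h
  refine ⟨fun e => W e ∪ η e, ⟨fun e k => ?_, fun e k => ?_, fun e k => ?_, c⟩, d⟩
  all_goals obtain ⟨b1, b2, b3, b4, b5, b6⟩ := b e k
  · exact union_subset (fun z m => (b3 m).2.1) b5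
  · refine subset_antisymm ?_ (b6.ge.trans (inter_subset_inter_left _ subset_union_right))
    rintro z ⟨m | m, o⟩
    exacts [((b3 m).2.2 o).elim, b6.le ⟨m, o⟩]
  · exact ⟨_, _, je_lol b1 b2 (fun m => (b3 m).2.2 (a k)) b4, fun z m => (b3 m).1⟩

end Pool.Agent.Lib.MP_b7d179_gt
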