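import Pool.Agent.Lib.MP_b7d179_gt.U.JStar
import Pool.Agent.Lib.MP_b7d179_gt.U.JPiece

/-! Data of bites, cells and chains of cells. -/

namespace Pool.Agent.Lib.MP_b7d179_gt

open Set Metric

variable {Z Z' : Type*} [MetricSpace Z] [MetricSpace Z']

/-- disjoint bites of the wall `D` round the lollipops of `Λ` -/
structure Bt (K D C E Λ : Set Z) (l I I' g β R : Z → Set Z) (p q : Z → Z) : Prop where
  fin : E.Finite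
  cut : ∀ e ∈ E, Cut D C (I e) (I' e) (g e) (β e) (R e) (p e) (q e)
  pop : ∀ e ∈ E, Pop K D C e (l e)
  ie : ∀ e ∈ E, I e ∩ E = {e} ∧ e ∉ I' e
  lb : ∀ e ∈ E, l e ⊆ β e \ g e ∧ K ∩ β e ⊆ l e ∧ KD K (β e) (I e ∪ g e)
  dj : E.PairwiseDisjoint β
  lam : Λ = ⋃ e ∈ E, l e
  left : ((K ∩ D) \ Λ).Nonempty

/-- discs `N c` with rims `ν c` round the pieces `Q c` of `X` on the sides `s c` -/
structure Cells (K : Set Z) (O : Bool → Set Z) (C X : Set Z) (I : Z → Set Z) {κ : Type*}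
    (J : Set κ) (s : κ → Bool) (Q N ν : κ → Set Z) : Prop where
  fin : J.Finite
  disc : ∀ c ∈ J, Disc (N c) (ν c)
  sub : ∀ c ∈ J, N c ⊆ O (s c)
  nc : ∀ c ∈ J, N c ∩ C = ⋃ e ∈ Q c ∩ C, I e
  rim : ∀ c ∈ J, N c ∩ C ⊆ ν c
  q : ∀ c ∈ J, Q c ⊆ N c ∧ Q c ∩ ν c ⊆ C ∧ IsConnected (Q c) ∧ K ∩ N c ⊆ Q c
  dj : ∀ c ∈ J, ∀ c' ∈ J, c ≠ c' → s c = s c' → Disjoint (N c) (N c')
  x : X = ⋃ c ∈ J, Q c
  two : ∀ e ∈ X ∩ C, ∀ i, ∃ c ∈ J, s c = i ∧ e ∈ Q c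

/-- the cells `c 0, ..., c n` form a chain through the points `e 1, ..., e n` -/
structure Run (C : Set Z) {κ : Type*} (J : Set κ) (s : κ → Bool) (Q : κ → Set Z) (n : ℕ)
    (c : ℕ → κ) (e : ℕ → Z) : Prop where
  mem : ∀ j ≤ n, c j ∈ J
  alt : ∀ j < n, s (c (j + 1)) = !s (c j) ∧ Q (c j) ∩ Q (c (j + 1)) = {e (j + 1)} ∧ e (j + 1) ∈ C
  far : ∀ j k, j + 1 < k → k ≤ n → Disjoint (Q (c j)) (Q (c k))
  ends : ∀ j ≤ n, ∀ x ∈ Q (c j) ∩ C, (0 < j ∧ x = e j) ∨ (j < n ∧ x = e (j + 1))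

/-- a cell together with its bites -/
def cellT (C : Set Z) (g β : Z → Set Z) (Q N ν : Set Z) : Set Z × Set Z :=
  (N ∪ ⋃ e ∈ Q ∩ C, β e, (ν \ C) ∪ ⋃ e ∈ Q ∩ C, g e)

theorem Lols.bt {K D C M E Λ : Set Z} (h : Lols K D C M E Λ) (hD : Disc D C) (hK : IsClosed K)
    (hC : Disjoint C K) : ∃ l I I' g β R p q, Bt K D C E Λ l I I' g β R p q := by
  obtain ⟨l, hl, hd, hΛ⟩ := h.pops
  obtain ⟨I, I', p, q, hI, dI⟩ := rq_arcs hD h.1 h.2.1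
  obtain ⟨g, β, R, hb, db⟩ := pop_bites hD hK hC h.1 hl hd hI dI isClosed_empty
    (fun _ _ => empty_disjoint _)
  obtain ⟨-, -, W, w, η, x, -, -, -, hne⟩ := id h
  exact ⟨l, I, I', g, β, R, p, q, h.1, fun e he => (hb e he).1, hl, fun e he => (hI e he).2,
    fun e he => ⟨(hb e he).2.1, (hb e he).2.2.1, (hb e he).2.2.2.1⟩, db, hΛ, hne⟩

end Pool.Agent.Lib.MP_b7d179_gt
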