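import Pool.Agent.Lib.MP_b7d179_gt.U.JSp0

/-! Discs round the pieces of cut dumbbells. -/

namespace Pool.Agent.Lib.MP_b7d179_gt

open Set Metric

variable {Z Z' : Type*} [MetricSpace Z] [MetricSpace Z']

/-- the end `x` of the arc `a` lies on the rim of a disc `L` inside `O`, or in an arc `L` of `C` -/
def End (K O C a : Set Z) (x : Z) (L : Set Z) : Prop :=
  a ∩ L = {x} ∧ ((∃ w, KD K L w ∧ L ⊆ O \ C ∧ x ∈ w) ∨ ∃ I' p q, Two C L I' p q ∧ x ∉ I')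

section
variable {K O C a L R A : Set Z} {x y : Z}

theorem jsp1_open (hO : Disc O C) (hC : Disjoint C K) (hL : End K O C a x L) :
    ∃ V, IsOpen V ∧ V ∩ O ⊆ L ∧ K ∩ L ⊆ V := by
  obtain ⟨w, b, c, -⟩ | ⟨I', p, q, b, -⟩ := hL.2
  · obtain ⟨V, d, e⟩ := hO.sub_open b.d (c.trans sdiff_le)
    exact ⟨V, d, e.le.trans sdiff_le,
      fun z m => (e.ge ⟨m.2, fun o => disjoint_left.1 b.c o m.1⟩).1⟩
  · exact ⟨∅, isOpen_empty, by simp, fun z m => disjoint_left.1 hC (b.sub1 m.2) m.1⟩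

theorem jsp1_mix {w I' : Set Z} {p q : Z} (hO : Disc O C) (ha : Arc a x y) (hs : a ⊆ O)
    (hi : a ∩ C ⊆ {x, y}) (l : a ∩ L = {x}) (t : Two C L I' p q) (n : x ∉ I') (r : a ∩ R = {y})
    (d : Disc R w) (s : R ⊆ O \ C) (m : y ∈ w) (hA : IsClosed A) (hd : Disjoint A (L ∪ a ∪ R)) :
    ∃ N ν, Disc N ν ∧ N ⊆ O ∧ L ∪ a ∪ R ⊆ N ∧ N ∩ C = (L ∪ R) ∩ C ∧ N ∩ C ⊆ ν ∧
      (L ∪ a ∪ R) ∩ ν ⊆ C ∧ Disjoint N A := by
  obtain ⟨g, D, E, c1, c2, c3, c4⟩ := bite_lol hO t ⟨ha, d, r, m⟩ hs (subset_antisymm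
    (fun z k => (hi k).resolve_right fun o => (s (d.rim_sub m)).2 ((show z = y from o) ▸ k.2))
    (singleton_subset_iff.2 ⟨ha.left, t.sub1 (l.ge rfl).2⟩)) s n hA
    (by rwa [union_comm, ← union_assoc])
  refine ⟨D, L ∪ g, c1.d1, c1.sub1, ?_, ?_, c1.inter_rim.le.trans subset_union_left, ?_, c4⟩
  · rw [union_assoc]
    exact union_subset (c1.inter_rim.ge.trans inter_subset_left) c2
  · rw [c1.inter_rim]
    exact subset_antisymm (fun z k => ⟨.inl k, t.sub1 k⟩)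
      fun z k => k.1.resolve_right fun o => (s o).2 k.2
  · rw [union_assoc]
    rintro z ⟨k | k, o | o⟩
    exacts [t.sub1 k, t.sub1 k, t.sub1 o, (disjoint_left.1 c3 k o).elim]

theorem jsp1_core (hO : Disc O C) (ha : Arc a x y) (hs : a ⊆ O) (hi : a ∩ C ⊆ {x, y})
    (hL : End K O C a x L) (hR : End K O C a y R) (hLR : Disjoint L R) (hA : IsClosed A)
    (hd : Disjoint A (L ∪ a ∪ R)) :
    ∃ N ν, Disc N ν ∧ N ⊆ O ∧ L ∪ a ∪ R ⊆ N ∧ N ∩ C = (L ∪ R) ∩ C ∧ N ∩ C ⊆ ν ∧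
      (L ∪ a ∪ R) ∩ ν ⊆ C ∧ Disjoint N A := by
  obtain ⟨l, ⟨w, b1, b2, b3⟩ | ⟨I', p, q, b1, b2⟩⟩ := hL <;>
    obtain ⟨r, ⟨w', c1, c2, c3⟩ | ⟨I'', p', q', c1, c2⟩⟩ := hR
  · obtain ⟨T, t, d1, d2, d3, d4⟩ := hO.dumb_nbhd b1.d c1.d ha (union_subset (union_subset b2
      fun z k => ⟨hs k, fun o => (hi ⟨k, o⟩).elim
        (fun e => (b2 (b1.d.rim_sub b3)).2 (e ▸ o))
        fun e => (c2 (c1.d.rim_sub c3)).2 ((show z = y from e) ▸ o)⟩) c2) hLR l r hA hd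
    refine ⟨T, t, d1, d3.trans sdiff_le, d2.trans sdiff_le, ?_, fun z k => ((d3 k.1).2 k.2).elim,
      fun z k => ((d2 k.1).2 k.2).elim, d4⟩
    exact subset_antisymm (fun z k => ((d3 k.1).2 k.2).elim)
      fun z k => ((union_subset b2 c2 k.1).2 k.2).elim
  · have e : L ∪ a ∪ R = R ∪ a ∪ L := by ac_rfl
    rw [e] at hd ⊢
    rw [union_comm L]
    exact jsp1_mix hO ha.symm hs (pair_comm x y ▸ hi) r c1 c2 l b1.d b2 b3 hA hd
  · exact jsp1_mix hO ha hs hi l b1 b2 r c1.d c2 c3 hA hd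
  · obtain ⟨u, v, k⟩ := hO.quad b1.a1 c1.a1 b1.sub1 c1.sub1 hLR
    obtain ⟨z1, z2, z3, z4, e1, -, e2, -, e3, e4, e5, e6⟩ := k.ex
    have f1 : ({z1, z2} : Set Z) ⊆ I' := e1.ends_eq b1.a1 ▸ b1.a2.ends
    have f2 : ({z3, z4} : Set Z) ⊆ I'' := e2.ends_eq c1.a1 ▸ c1.a2.ends
    have x1 := (l.ge rfl).2
    have y1 := (r.ge rfl).2
    obtain ⟨N, n, g, g', d1, d2, d3, d4, d5, d6⟩ := strip hO k ⟨ha, hs, subset_antisymm hi
      (subset_inter ha.ends (insert_subset (b1.sub1 x1) (singleton_subset_iff.2 (c1.sub1 y1))))⟩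
      ⟨x1, fun o => b2 (f1 (o.elim (fun o => .inr (e3.le ⟨x1, o⟩)) fun o => .inl (e6.le ⟨o, x1⟩)))⟩
      ⟨y1, fun o => c2 (f2 (o.elim (fun o => .inl (e4.le ⟨o, y1⟩)) fun o => .inr (e5.le ⟨y1, o⟩)))⟩
      hA (by rwa [union_comm a])
    have s := union_subset b1.sub1 c1.sub1
    refine ⟨N, n, d1, d2, ?_, d4.trans (inter_eq_left.2 s).symm, ?_, ?_, d6⟩
    · rw [union_right_comm]
      exact union_subset (d4.ge.trans inter_subset_left) d5.sub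
    · rw [d4, ← d3.union]
      exact (union_subset_union_left _ subset_union_left).trans subset_union_left
    · rintro z ⟨(m | m) | m, o⟩
      · exact b1.sub1 m
      · obtain rfl | rfl := d5.inter.le ⟨m, o⟩
        exacts [b1.sub1 x1, c1.sub1 y1]
      · exact c1.sub1 m

end

theorem piece_disc {K O C a L R U : Set Z} {x y : Z} (hO : Disc O C) (hK : IsClosed K)
    (hC : Disjoint C K) (ha : Arc a x y) (hs : a ⊆ O) (hi : a ∩ C ⊆ {x, y}) (hd : Disjoint a K)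
    (hL : End K O C a x L) (hR : End K O C a y R) (hLR : Disjoint L R) (hU : IsOpen U)
    (hsU : L ∪ a ∪ R ⊆ U) :
    ∃ N ν, Disc N ν ∧ N ⊆ O ∩ U ∧ L ∪ a ∪ R ⊆ N ∧ N ∩ C = (L ∪ R) ∩ C ∧ N ∩ C ⊆ ν ∧
      (L ∪ a ∪ R) ∩ ν ⊆ C ∧ K ∩ N ⊆ L ∪ R := by
  obtain ⟨V, v1, v2, v3⟩ := jsp1_open hO hC hL
  obtain ⟨V', w1, w2, w3⟩ := jsp1_open hO hC hR
  obtain ⟨N, ν, c1, c2, c3, c4, c5, c6, c7⟩ := jsp1_core hO ha hs hi hL hR hLR
    (hU.isClosed_compl.union (hK.sdiff (v1.union w1))) (disjoint_left.2 (by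
      rintro z (k | k) m
      · exact k (hsU m)
      · obtain (m | m) | m := m
        exacts [k.2 (.inl (v3 ⟨k.1, m⟩)), disjoint_left.1 hd m k.1, k.2 (.inr (w3 ⟨k.1, m⟩))]))
  refine ⟨N, ν, c1, fun z k => ⟨c2 k, by_contra fun o => disjoint_left.1 c7 k (.inl o)⟩, c3, c4,
    c5, c6, fun z k => ?_⟩
  obtain m | m : z ∈ V ∪ V' := by_contra fun o => disjoint_left.1 c7 k.2 (.inr ⟨k.1, o⟩)
  exacts [.inl (v2 ⟨m, c2 k.2⟩), .inr (w2 ⟨m, c2 k.2⟩)]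

/-- small arcs of `C` round the points of `X ∩ C` -/
structure Jsp1I (C X : Set Z) (I : Z → Set Z) : Prop where
  two : ∀ e ∈ X ∩ C, ∃ I' p q, Two C (I e) I' p q ∧ e ∉ I'
  ie : ∀ e ∈ X ∩ C, I e ∩ (X ∩ C) = {e}
  dj : (X ∩ C).PairwiseDisjoint I

section
variable {K O C M X b A A' : Set Z} {x y : Z} {I : Z → Set Z}

theorem Jsp1I.sub (h : Jsp1I C X I) (m : x ∈ X ∩ C) : I x ⊆ C :=
  (h.two x m).elim fun _ ⟨_, _, k⟩ => k.1.sub1

theorem jsp1_end (hI : Jsp1I C X I) (h : JT K O C M b A x) (hx : x ∈ b) (bX : b ⊆ X) :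
    ∃ L, End K O C b x L ∧ IsCompact L ∧ (x ∈ C ∧ A = ∅ ∧ L = I x ∨
      x ∉ C ∧ L = A ∧ A ⊆ O \ C ∧ IsPreconnected A ∧ x ∈ A) := by
  obtain ⟨c, rfl⟩ | ⟨w, c1, c2, -, c4, c5⟩ := h
  · have m : x ∈ X ∩ C := ⟨bX hx, c⟩
    obtain ⟨I', p, q, d⟩ := hI.two x m
    exact ⟨I x, ⟨subset_antisymm (fun z k => (hI.ie x m).le ⟨k.2, bX k.1, d.1.sub1 k.2⟩)
      (singleton_subset_iff.2 ⟨hx, ((hI.ie x m).ge rfl).1⟩), .inr ⟨I', p, q, d⟩⟩, d.1.a1.compact,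
      .inl ⟨c, rfl, rfl⟩⟩
  · exact ⟨A, ⟨c5, .inl ⟨w, c1, c4, c2⟩⟩, c1.d.compact,
      .inr ⟨(c4 (c1.d.rim_sub c2)).2, rfl, c4, c1.d.conn, c1.d.rim_sub c2⟩⟩

theorem jsp1_cell (hI : Jsp1I C X I) (hb : Arc b x y) (bC : b ∩ C ⊆ {x, y}) (bX : b ⊆ X)
    (hA : JT K O C M b A x) (hA' : JT K O C M b A' y) (dj : Disjoint A A') :
    ∃ L R, End K O C b x L ∧ End K O C b y R ∧ Disjoint L R ∧ IsCompact (L ∪ b ∪ R) ∧
      L ∪ b ∪ R = (A ∪ b ∪ A') ∪ (⋃ e ∈ (A ∪ b ∪ A') ∩ C, I e) ∧ IsConnected (A ∪ b ∪ A') := by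
  obtain ⟨L, c1, c2, c4⟩ := jsp1_end hI hA hb.left bX
  obtain ⟨R, d1, d2, d4⟩ := jsp1_end hI hA' hb.right bX
  have k {A : Set Z} {x} (m : x ∈ X ∩ C) (o : A ⊆ O \ C) : Disjoint (I x) A :=
    disjoint_left.2 fun z r s => (o s).2 (hI.sub m r)
  refine ⟨L, R, c1, d1, ?_, (c2.union hb.compact).union d2, ?_, ⟨x, .inl (.inr hb.left)⟩, ?_⟩
  · obtain ⟨c5, -, rfl⟩ | ⟨-, rfl, c5, -⟩ := c4 <;> obtain ⟨d5, -, rfl⟩ | ⟨-, rfl, d5, -⟩ := d4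
    · exact hI.dj ⟨bX hb.left, c5⟩ ⟨bX hb.right, d5⟩ hb.ne
    · exact k ⟨bX hb.left, c5⟩ d5
    · exact (k ⟨bX hb.right, d5⟩ c5).symm
    · exact dj
  · have e : (A ∪ b ∪ A') ∩ C = {x, y} ∩ C := by
      refine subset_antisymm ?_ (inter_subset_inter_left _
        (hb.ends.trans (subset_union_right.trans subset_union_left)))
      rintro z ⟨(m | m) | m, o⟩
      · obtain ⟨-, rfl, -⟩ | ⟨-, -, c5, -⟩ := c4
        exacts [m.elim, ((c5 m).2 o).elim]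
      · exact ⟨bC ⟨m, o⟩, o⟩
      · obtain ⟨-, rfl, -⟩ | ⟨-, -, c5, -⟩ := d4
        exacts [m.elim, ((c5 m).2 o).elim]
    rw [e]
    obtain ⟨c5, rfl, rfl⟩ | ⟨c5, rfl, -⟩ := c4 <;> obtain ⟨d5, rfl, rfl⟩ | ⟨d5, rfl, -⟩ := d4 <;>
      ext z <;> simp [insert_inter_of_mem, insert_inter_of_notMem, singleton_inter_of_mem,
        singleton_inter_of_notMem, c5, d5] <;> tauto
  · have e : IsPreconnected (A ∪ b) := by
      obtain ⟨-, rfl, -⟩ | ⟨-, -, -, c5, c6⟩ := c4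
      · rw [empty_union]
        exact hb.conn
      · exact c5.union x c6 hb.left hb.conn
    obtain ⟨-, rfl, -⟩ | ⟨-, -, -, c5, c6⟩ := d4
    · rwa [union_empty]
    · exact e.union y (.inr hb.right) c6 c5

theorem jsp1_close {ι : Type*} {s : Set ι} {T : ι → Set Z} (hI : Jsp1I C X I)
    (hT : ∀ i ∈ s, T i ⊆ X) (hd : s.PairwiseDisjoint T) :
    s.PairwiseDisjoint fun i => T i ∪ ⋃ e ∈ T i ∩ C, I e := by
  have k (i) (a : i ∈ s) (j) (b : j ∈ s) (c : i ≠ j) (z) (m : z ∈ T i) :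
      z ∉ ⋃ e ∈ T j ∩ C, I e := fun o => by
    obtain ⟨e, r, t⟩ := mem_iUnion₂.1 o
    have u : e ∈ X ∩ C := ⟨hT j b r.1, r.2⟩
    obtain rfl : z = e := (hI.ie e u).le ⟨t, hT i a m, hI.sub u t⟩
    exact disjoint_left.1 (hd a b c) m r.1
  intro i a j b c
  refine disjoint_left.2 ?_
  rintro z (m | m) (o | o)
  · exact disjoint_left.1 (hd a b c) m o
  · exact k i a j b c z m o
  · exact k j b i a c.symm z o m
  · obtain ⟨e, r, t⟩ := mem_iUnion₂.1 m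
    obtain ⟨e', r', t'⟩ := mem_iUnion₂.1 o
    obtain rfl := hI.dj.elim_set ⟨hT i a r.1, r.2⟩ ⟨hT j b r'.1, r'.2⟩ z t t'
    exact disjoint_left.1 (hd a b c) r.1 r'.1

end

section
variable {K D C M W w W' w' : Set Z} {O : Bool → Set Z} {n j : ℕ} {b : ℕ → Set Z} {e : ℕ → Z}
  {s : ℕ → Bool} {z : Z}

theorem Pc.jsp1_b (h : Pc K O C M W w W' w' n b e s) (m : z ∈ jpT W W' n b j ∩ C) : z ∈ b j := by
  obtain ⟨(k | k) | k, o⟩ := m
  · split_ifs at k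
    exacts [((h.w0 k).2 o).elim, k.elim]
  · exact k
  · split_ifs at k
    exacts [((h.w1 k).2 o).elim, k.elim]

theorem Pc.jsp1_ends (h : Pc K O C M W w W' w' n b e s) (o : j ≤ n) (m : z ∈ jpT W W' n b j ∩ C) :
    (0 < j ∧ z = e j) ∨ (j < n ∧ z = e (j + 1)) := by
  obtain rfl | rfl := (h.arc j o).2.2 ⟨h.jsp1_b m, m.2⟩
  · refine .inl ⟨Nat.pos_of_ne_zero ?_, rfl⟩
    rintro rfl
    exact (h.w0 (h.bell.w.d.rim_sub h.bell.m)).2 m.2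
  · refine .inr ⟨lt_of_le_of_ne o ?_, rfl⟩
    rintro rfl
    exact (h.w1 (h.bell.w'.d.rim_sub h.bell.m')).2 m.2

theorem Pc.jsp1_alt (th : Th (O false) (O true) D C) (h : Pc K O C M W w W' w' n b e s)
    (o : j < n) : jpT W W' n b j ∩ jpT W W' n b (j + 1) = {e (j + 1)} := by
  refine subset_antisymm (fun z m => ?_) ((h.alt j o).2.2.ge.trans
    fun z m => ⟨.inl (.inr m.1), .inl (.inr m.2)⟩)
  have c := jp_both th (h.jpO o.le m.1) (h.jpO o m.2) (by simp [(h.alt j o).1])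
  exact (h.alt j o).2.2.le ⟨h.jsp1_b ⟨m.1, c⟩, h.jsp1_b ⟨m.2, c⟩⟩

end

theorem Pcs.cells {K D C M X Λ : Set Z} {O : Bool → Set Z} {l I I' g β R : Z → Set Z}
    {p q : Z → Z} (th : Th (O false) (O true) D C) (hK : IsClosed K) (hC : Disjoint C K)
    (h : Pcs K O C M X) (bt : Bt K D C (X ∩ C) Λ l I I' g β R p q) :
    ∃ (ι : Type) (_ : Finite ι) (n : ι → ℕ) (e : ι → ℕ → Z) (s : ι × ℕ → Bool)
      (Q N ν : ι × ℕ → Set Z), Cells K O C X I {c | c.2 ≤ n c.1} s Q N ν ∧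
      (∀ i, Run C {c | c.2 ≤ n c.1} s Q (n i) (fun j => (i, j)) (e i)) ∧
      ∀ i i', i ≠ i' → ∀ j ≤ n i, ∀ j' ≤ n i', Disjoint (Q (i, j)) (Q (i', j')) := by
  have hI : Jsp1I C X I := ⟨fun e k => ⟨_, _, _, (bt.cut e k).two, (bt.ie e k).2⟩,
    fun e k => (bt.ie e k).1, fun e k e' k' o => (bt.dj k k' o).mono
      (subset_union_left.trans (bt.cut e k).d1.rim_sub)
      (subset_union_left.trans (bt.cut e' k').d1.rim_sub)⟩
  obtain ⟨ι, _, W, w, W', w', n, b, e, s, h, d, hX⟩ := h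
  let J : Set (ι × ℕ) := {c | c.2 ≤ n c.1}
  let T (x : ι × ℕ) : Set Z := jpT (W x.1) (W' x.1) (n x.1) (b x.1) x.2
  have fin : J.Finite := (finite_iUnion fun k => (finite_le_nat (n k)).image (Prod.mk k)).subset
    fun x r => mem_iUnion.2 ⟨x.1, x.2, r, rfl⟩
  have t1 (x) (r : x ∈ J) : T x ⊆ X := fun z m => hX.ge (mem_iUnion.2 ⟨x.1, jpT_sub r m⟩)
  have t4 (i : Bool) : {x ∈ J | s x.1 x.2 = i}.PairwiseDisjoint T := by
    rintro ⟨k, j⟩ a ⟨k', j'⟩ c f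
    by_cases g : k = k'
    · subst g
      have u (j j') (a : s k j = i) (c : j' ≤ n k) (c' : s k j' = i) : j' ≠ j + 1 := by
        rintro rfl
        have := ((h k).alt j c).1
        rw [a, c'] at this
        simp at this
      have := u j j' a.2 c.1 c.2
      have := u j' j c.2 a.1 a.2
      have : j ≠ j' := fun m => f (m ▸ rfl)
      obtain m | m : j + 1 < j' ∨ j' + 1 < j := by omega
      exacts [(h k).jpdj m c.1, ((h k).jpdj m a.1).symm]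
    · exact (d g).mono (jpT_sub a.1) (jpT_sub c.1)
  choose! L R' c1 c2 c3 c4 c5 c6 using fun (x : ι × ℕ) (r : x ∈ J) =>
    jsp1_cell hI ((h x.1).arc x.2 r).1 ((h x.1).arc x.2 r).2.2
      ((subset_union_right.trans subset_union_left).trans (t1 x r)) ((h x.1).jpl r)
      ((h x.1).jpr r) ((h x.1).bell.dj.mono (by split_ifs <;> simp) (by split_ifs <;> simp))
  replace c5 : ∀ x ∈ J, L x ∪ b x.1 x.2 ∪ R' x = T x ∪ ⋃ e ∈ T x ∩ C, I e := c5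
  choose U u1 u2 using fun i : Bool => rq_sep (t := {x ∈ J | s x.1 x.2 = i})
    (W := fun x => T x ∪ ⋃ e ∈ T x ∩ C, I e) (fin.subset (sep_subset _ _))
    (fun x r => c5 x r.1 ▸ c4 x r.1) (jsp1_close hI (fun x r => t1 x r.1) (t4 i))
  choose! N ν a1 a2 a3 a4 a5 a6 a7 using fun (x : ι × ℕ) (r : x ∈ J) =>
    piece_disc (jp_od th (s x.1 x.2)).1 hK hC ((h x.1).arc x.2 r).1 ((h x.1).arc x.2 r).2.1
      ((h x.1).arc x.2 r).2.2 ((h x.1).bell.k.mono_left (jp_sb r)) (c1 x r) (c2 x r) (c3 x r)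
      (u1 _ x ⟨r, rfl⟩).1 (c5 x r ▸ (u1 _ x ⟨r, rfl⟩).2)
  have t5 (x) (r : x ∈ J) : (⋃ e ∈ T x ∩ C, I e) ⊆ C :=
    iUnion₂_subset fun y m => hI.sub ⟨t1 x r m.1, m.2⟩
  have t6 (x) (r : x ∈ J) : L x ∪ R' x ⊆ T x ∪ ⋃ e ∈ T x ∩ C, I e :=
    c5 x r ▸ union_subset_union_left _ subset_union_left
  refine ⟨ι, inferInstance, n, e, fun x => s x.1 x.2, T, N, ν, ⟨fin, a1,
    fun x r => (a2 x r).trans inter_subset_left, fun x r => ?_, a5, fun x r => ⟨?_, ?_, c6 x r, ?_⟩,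
    fun x r y o f g => ?_, ?_, fun z m i => ?_⟩, fun i => ⟨fun j o => o, fun j o =>
      ⟨((h i).alt j o).1, (h i).jsp1_alt th o, ((h i).alt j o).2.1⟩, fun j k => (h i).jpdj,
      fun j o z => (h i).jsp1_ends o⟩, fun i i' f j o j' o' => (d f).mono (jpT_sub o) (jpT_sub o')⟩
  · refine subset_antisymm (fun z m => ?_) (subset_inter
      ((subset_union_right.trans (c5 x r).ge).trans (a3 x r)) (t5 x r))
    obtain o | o := t6 x r ((a4 x r).le m).1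
    · exact mem_iUnion₂.2 ⟨z, ⟨o, m.2⟩, ((hI.ie z ⟨t1 x r o, m.2⟩).ge rfl).1⟩
    · exact o
  · exact (subset_union_left.trans (c5 x r).ge).trans (a3 x r)
  · exact (inter_subset_inter_left _ (subset_union_left.trans (c5 x r).ge)).trans (a6 x r)
  · exact fun z m => (t6 x r (a7 x r m)).resolve_right fun o => disjoint_left.1 hC (t5 x r o) m.1
  · exact (u2 (s x.1 x.2) ⟨r, rfl⟩ ⟨o, g.symm⟩ f).mono ((a2 x r).trans inter_subset_right)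
      ((show s y.1 y.2 = s x.1 x.2 from g.symm) ▸ (a2 y o).trans inter_subset_right)
  · refine subset_antisymm (fun z m => ?_) (iUnion₂_subset t1)
    obtain ⟨k, m⟩ := mem_iUnion.1 (hX.le m)
    obtain (o | o) | o := id m
    · obtain ⟨j, a, -, c⟩ := (h k).jpcov th m ((h k).w0 o).1
      exact mem_iUnion₂.2 ⟨(k, j), a, c⟩
    · obtain ⟨j, a, c⟩ := mem_iUnion₂.1 o
      exact mem_iUnion₂.2 ⟨(k, j), a, .inl (.inr c)⟩
    · obtain ⟨j, a, -, c⟩ := (h k).jpcov th m ((h k).w1 o).1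
      exact mem_iUnion₂.2 ⟨(k, j), a, c⟩
  · obtain ⟨k, o⟩ := mem_iUnion.1 (hX.le m.1)
    obtain ⟨j, a, c, f⟩ := (h k).jpcov th o ((jp_od th i).1.rim_sub m.2)
    exact ⟨(k, j), a, c, f⟩

end Pool.Agent.Lib.MP_b7d179_gt
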