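import Pool.Agent.Lib.MP_b7d179_gt.U.JSp0

/-! Cells with their bites. -/

namespace Pool.Agent.Lib.MP_b7d179_gt

open Set Metric

variable {Z Z' : Type*} [MetricSpace Z] [MetricSpace Z']

variable {K D C X Λ : Set Z} {O : Bool → Set Z} {l I I' g β R : Z → Set Z} {p q : Z → Z}
  {κ : Type*} {J : Set κ} {s : κ → Bool} {Q N ν : κ → Set Z} {c c' : κ}

theorem Th.jsp2_d (th : Th (O false) (O true) D C) (i : Bool) {x : Z} (h : x ∈ O i) (k : x ∈ D) :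
    x ∈ C := by
  cases i
  · exact th.i1.le ⟨h, k⟩
  · exact th.i2.le ⟨h, k⟩

theorem Th.jsp2_o (th : Th (O false) (O true) D C) {i j : Bool} (n : i ≠ j) {x : Z} (h : x ∈ O i)
    (k : x ∈ O j) : x ∈ C := by
  cases i <;> cases j
  · exact (n rfl).elim
  · exact th.i12.le ⟨h, k⟩
  · exact th.i12.le ⟨k, h⟩
  · exact (n rfl).elim

omit [MetricSpace Z] in
theorem Th.jsp2_u (i : Bool) : O i ⊆ O false ∪ O true := by
  cases i
  · exact subset_union_left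
  · exact subset_union_right

section

variable {E : Set Z} (bt : Bt K D C E Λ l I I' g β R p q) {e e' x : Z}
include bt

theorem Bt.jsp2_I (he : e ∈ E) : I e ⊆ β e := subset_union_left.trans (bt.cut e he).d1.rim_sub

theorem Bt.jsp2_g (he : e ∈ E) : g e ⊆ β e := subset_union_right.trans (bt.cut e he).d1.rim_sub

theorem Bt.jsp2_eq (he : e ∈ E) (he' : e' ∈ E) (h : x ∈ β e) (h' : x ∈ β e') : e = e' :=
  by_contra fun n => disjoint_left.1 (bt.dj he he' n) h h'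

theorem Bt.jsp2_l (he : e ∈ E) : l e ⊆ Λ := bt.lam ▸ subset_biUnion_of_mem (u := l) he

theorem Bt.jsp2_e (he : e ∈ E) : e ∈ l e := ((bt.pop e he).facts.2.1.ge rfl).1

end

theorem Cells.jsp2_x (ce : Cells K O C X I J s Q N ν) (hc : c ∈ J) : Q c ⊆ X :=
  ce.x ▸ subset_biUnion_of_mem (u := Q) hc

theorem Cells.jsp2_E (ce : Cells K O C X I J s Q N ν) (hc : c ∈ J) : Q c ∩ C ⊆ X ∩ C :=
  inter_subset_inter_left _ (ce.jsp2_x hc)

theorem Cells.jsp2_I (ce : Cells K O C X I J s Q N ν) (hc : c ∈ J) {e : Z} (he : e ∈ Q c ∩ C) :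
    I e ⊆ N c := fun _ h => ((ce.nc c hc).ge (mem_biUnion he h)).1

theorem Cells.jsp2_n (ce : Cells K O C X I J s Q N ν) (hc : c ∈ J) {x : Z} (h : x ∈ N c)
    (k : x ∈ C) : ∃ e ∈ Q c ∩ C, x ∈ I e := by
  simpa only [mem_iUnion, exists_prop] using (ce.nc c hc).le ⟨h, k⟩

/-- a bite that meets a cell belongs to it -/
theorem jsp2_meet (th : Th (O false) (O true) D C) (bt : Bt K D C (X ∩ C) Λ l I I' g β R p q)
    (ce : Cells K O C X I J s Q N ν) (hc : c ∈ J) {e x : Z} (he : e ∈ X ∩ C) (h : x ∈ β e)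
    (k : x ∈ (cellT C g β (Q c) (N c) (ν c)).1) : e ∈ Q c := by
  obtain k | k := k
  · obtain ⟨e', a, b⟩ := ce.jsp2_n hc k (th.jsp2_d _ (ce.sub c hc k) ((bt.cut e he).sub1 h))
    exact bt.jsp2_eq (ce.jsp2_E hc a) he (bt.jsp2_I (ce.jsp2_E hc a) b) h ▸ a.1
  · obtain ⟨e', a, b⟩ := mem_iUnion₂.1 k
    exact bt.jsp2_eq (ce.jsp2_E hc a) he b h ▸ a.1

theorem cell_disc (th : Th (O false) (O true) D C) (bt : Bt K D C (X ∩ C) Λ l I I' g β R p q)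
    (ce : Cells K O C X I J s Q N ν) (hc : c ∈ J) :
    Disc (cellT C g β (Q c) (N c) (ν c)).1 (cellT C g β (Q c) (N c) (ν c)).2 := by
  have h : ∀ e ∈ Q c ∩ C, ∃ v, Two (ν c) (I e) v (p e) (q e) := fun e he =>
    (ce.disc c hc).two_of_arc (bt.cut e (ce.jsp2_E hc he)).two.a1 fun x hx =>
      ce.rim c hc ⟨ce.jsp2_I hc he hx, (bt.cut e (ce.jsp2_E hc he)).two.sub1 hx⟩
  choose! v hv using h
  have := bites_on (ce.disc c hc) (bt.fin.subset (ce.jsp2_E hc)) (I := I) (I' := v) (g := g)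
    (β := β) (p := p) (q := q) (fun e he => ?_) (bt.dj.subset (ce.jsp2_E hc))
  · have e : ν c \ ⋃ e ∈ Q c ∩ C, I e = ν c \ C := by
      rw [← ce.nc c hc]
      exact subset_antisymm (fun x h => ⟨h.1, fun k => h.2 ⟨(ce.disc c hc).rim_sub h.1, k⟩⟩)
        fun x h => ⟨h.1, fun k => h.2 k.2⟩
    rwa [e] at this
  · have k := bt.cut e (ce.jsp2_E hc he)
    exact ⟨hv e he, k.two1, k.d1, subset_antisymm
      (fun x h => k.inter_rim.le ⟨h.1, th.jsp2_d _ (ce.sub c hc h.2) (k.sub1 h.1)⟩)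
      fun x h => ⟨bt.jsp2_I (ce.jsp2_E hc he) h, ce.jsp2_I hc he h⟩⟩

theorem cell_traces (th : Th (O false) (O true) D C) (bt : Bt K D C (X ∩ C) Λ l I I' g β R p q)
    (ce : Cells K O C X I J s Q N ν) (hc : c ∈ J) :
    (cellT C g β (Q c) (N c) (ν c)).1 ∩ D = (⋃ e ∈ Q c ∩ C, β e) ∧
    (cellT C g β (Q c) (N c) (ν c)).2 ∩ D = (⋃ e ∈ Q c ∩ C, g e) ∧
    (O false ∪ O true) ∩ (cellT C g β (Q c) (N c) (ν c)).1 = N c ∧
    (O false ∪ O true) ∩ (cellT C g β (Q c) (N c) (ν c)).2 =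
      (ν c \ C) ∪ (⋃ e ∈ Q c ∩ C, {p e, q e}) ∧
    (cellT C g β (Q c) (N c) (ν c)).1 ⊆ O (s c) ∪ D ∧ X ∩ N c = Q c ∧ Q c ∩ C ⊆ X ∩ C := by
  have oc : ∀ {x}, x ∈ O false ∪ O true → x ∈ D → x ∈ C := fun h k =>
    h.elim (th.jsp2_d false · k) (th.jsp2_d true · k)
  have cut := fun e (he : e ∈ Q c ∩ C) => bt.cut e (ce.jsp2_E hc he)
  refine ⟨subset_antisymm ?_ fun x h => ?_, subset_antisymm ?_ fun x h => ?_,
    subset_antisymm ?_ fun x h => ⟨Th.jsp2_u _ (ce.sub c hc h), .inl h⟩,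
    subset_antisymm ?_ ?_, ?_, subset_antisymm ?_ fun x h => ⟨ce.jsp2_x hc h, (ce.q c hc).1 h⟩,
    ce.jsp2_E hc⟩
  · rintro x ⟨h | h, k⟩
    · obtain ⟨e, a, b⟩ := ce.jsp2_n hc h (th.jsp2_d _ (ce.sub c hc h) k)
      exact mem_biUnion a (bt.jsp2_I (ce.jsp2_E hc a) b)
    · exact h
  · obtain ⟨e, a, b⟩ := mem_iUnion₂.1 h
    exact ⟨.inr h, (cut e a).sub1 b⟩
  · rintro x ⟨h | h, k⟩
    · exact (h.2 (th.jsp2_d _ (ce.sub c hc ((ce.disc c hc).rim_sub h.1)) k)).elim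
    · exact h
  · obtain ⟨e, a, b⟩ := mem_iUnion₂.1 h
    exact ⟨.inr h, (cut e a).cc.sub b⟩
  · rintro x ⟨k, h | h⟩
    · exact h
    · obtain ⟨e, a, b⟩ := mem_iUnion₂.1 h
      exact ce.jsp2_I hc a ((cut e a).inter_rim.le ⟨b, oc k ((cut e a).sub1 b)⟩)
  · rintro x ⟨k, h | h⟩
    · exact .inl h
    · obtain ⟨e, a, b⟩ := mem_iUnion₂.1 h
      exact .inr (mem_biUnion a ((cut e a).cc.inter.le ⟨b, oc k ((cut e a).cc.sub b)⟩))
  · rintro x (h | h)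
    · exact ⟨Th.jsp2_u _ (ce.sub c hc ((ce.disc c hc).rim_sub h.1)), .inl h⟩
    · obtain ⟨e, a, b⟩ := mem_iUnion₂.1 h
      have := (cut e a).cc.inter.ge b
      exact ⟨.inl (th.d1.rim_sub this.2), .inr (mem_biUnion a this.1)⟩
  · rintro x (h | h)
    · exact .inl (ce.sub c hc h)
    · obtain ⟨e, a, b⟩ := mem_iUnion₂.1 h
      exact .inr ((cut e a).sub1 b)
  · rintro x ⟨h, k⟩
    obtain ⟨c', hc', h'⟩ := mem_iUnion₂.1 (ce.x.le h)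
    by_cases e : c = c'
    · exact e ▸ h'
    by_cases e' : s c = s c'
    · exact (disjoint_left.1 (ce.dj c hc c' hc' e e') k ((ce.q c' hc').1 h')).elim
    · have m := th.jsp2_o e' (ce.sub c hc k) (ce.sub c' hc' ((ce.q c' hc').1 h'))
      obtain ⟨y, a, b⟩ := ce.jsp2_n hc k m
      exact (show x = y from (bt.ie y (ce.jsp2_E hc a)).1.le ⟨b, h, m⟩) ▸ a.1

theorem cell_dj (th : Th (O false) (O true) D C) (bt : Bt K D C (X ∩ C) Λ l I I' g β R p q)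
    (ce : Cells K O C X I J s Q N ν) (hc : c ∈ J) (hc' : c' ∈ J) (hd : Disjoint (Q c) (Q c')) :
    Disjoint (cellT C g β (Q c) (N c) (ν c)).1 (cellT C g β (Q c') (N c') (ν c')).1 := by
  refine disjoint_left.2 fun x h h' => ?_
  have k : ∀ e ∈ Q c ∩ C, x ∉ β e := fun e a b =>
    disjoint_left.1 hd a.1 (jsp2_meet th bt ce hc' (ce.jsp2_E hc a) b h')
  have k' : ∀ e ∈ Q c' ∩ C, x ∉ β e := fun e a b =>
    disjoint_left.1 hd (jsp2_meet th bt ce hc (ce.jsp2_E hc' a) b h) a.1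
  obtain h | h := h
  · obtain h' | h' := h'
    · by_cases e' : s c = s c'
      · refine disjoint_left.1 (ce.dj c hc c' hc' ?_ e') h h'
        rintro rfl
        obtain ⟨y, hy⟩ := (ce.q c hc).2.2.1.nonempty
        exact disjoint_left.1 hd hy hy
      · obtain ⟨e, a, b⟩ := ce.jsp2_n hc h (th.jsp2_o e' (ce.sub c hc h) (ce.sub c' hc' h'))
        exact k e a (bt.jsp2_I (ce.jsp2_E hc a) b)
    · obtain ⟨e, a, b⟩ := mem_iUnion₂.1 h'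
      exact k' e a b
  · obtain ⟨e, a, b⟩ := mem_iUnion₂.1 h
    exact k e a b

set_option linter.unusedVariables false in
theorem cell_fit (th : Th (O false) (O true) D C) (hC : Disjoint C K)
    (bt : Bt K D C (X ∩ C) Λ l I I' g β R p q) (ce : Cells K O C X I J s Q N ν) (i : Bool) :
    Fit K (O i ∪ D) (X ∩ O i ∪ Λ)
      ((fun c => cellT C g β (Q c) (N c) (ν c)) '' {c ∈ J | s c = i}) := by
  have lam : ∀ {x}, x ∈ Λ → ∃ e ∈ X ∩ C, x ∈ l e := fun h => by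
    simpa only [mem_iUnion, exists_prop] using bt.lam.le h
  refine ⟨(ce.fin.subset (sep_subset _ _)).image _, ?_, ?_, ?_, ?_, ?_, ?_, ?_⟩
  · rintro _ ⟨c, ⟨hc, rfl⟩, rfl⟩
    exact cell_disc th bt ce hc
  · rintro _ ⟨c, ⟨hc, rfl⟩, rfl⟩
    exact (cell_traces th bt ce hc).2.2.2.2.1
  · rintro _ ⟨c, ⟨hc, rfl⟩, rfl⟩
    obtain ⟨-, -, t3, -, -, t6, -⟩ := cell_traces th bt ce hc
    obtain ⟨q1, -, q3, -⟩ := ce.q c hc
    obtain ⟨y, hy⟩ := q3.nonempty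
    have a : Q c ⊆ (X ∩ O (s c) ∪ Λ) ∩ (cellT C g β (Q c) (N c) (ν c)).1 := fun x h =>
      ⟨.inl ⟨ce.jsp2_x hc h, ce.sub c hc (q1 h)⟩, .inl (q1 h)⟩
    refine ⟨⟨y, a hy⟩, isPreconnected_of_forall y ?_⟩
    rintro x ⟨h | h, k⟩
    · exact ⟨Q c, a, hy, t6.le ⟨h.1, t3.le ⟨Th.jsp2_u _ h.2, k⟩⟩, q3.2⟩
    · obtain ⟨e, he, h⟩ := lam h
      have m := jsp2_meet th bt ce hc he ((bt.lb e he).1 h).1 k
      exact ⟨Q c ∪ l e, union_subset a fun z hz => ⟨.inr (bt.jsp2_l he hz),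
        .inr (mem_biUnion (show e ∈ Q c ∩ C from ⟨m, he.2⟩) ((bt.lb e he).1 hz).1)⟩, .inl hy, .inr h,
        q3.2.union e m (bt.jsp2_e he) (bt.pop e he).facts.2.2.2.1.2⟩
  · rintro _ ⟨c, ⟨hc, rfl⟩, rfl⟩
    refine disjoint_left.2 ?_
    rintro x (h | h) k
    · exact h.2 ((ce.q c hc).2.1 ⟨(ce.q c hc).2.2.2 ⟨k, (ce.disc c hc).rim_sub h.1⟩, h.1⟩)
    · obtain ⟨e, a, b⟩ := mem_iUnion₂.1 h
      exact disjoint_left.1 (bt.lb e (ce.jsp2_E hc a)).2.2.c (.inr b) k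
  · rintro _ ⟨c, ⟨hc, rfl⟩, rfl⟩ x ⟨k, h | h⟩
    · exact .inl ⟨ce.jsp2_x hc ((ce.q c hc).2.2.2 ⟨k, h⟩), ce.sub c hc h⟩
    · obtain ⟨e, a, b⟩ := mem_iUnion₂.1 h
      exact .inr (bt.jsp2_l (ce.jsp2_E hc a) ((bt.lb e (ce.jsp2_E hc a)).2.1 ⟨k, b⟩))
  · rintro _ ⟨c, ⟨hc, rfl⟩, rfl⟩ _ ⟨c', ⟨hc', e⟩, rfl⟩ n
    exact cell_dj th bt ce hc hc' ((ce.dj c hc c' hc' (fun k => n (k ▸ rfl)) e.symm).mono
      (ce.q c hc).1 (ce.q c' hc').1)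
  · have pop : ∀ e ∈ X ∩ C, ∀ x ∈ l e, x ∈ ⋃ t ∈ (fun c => cellT C g β (Q c) (N c) (ν c)) ''
        {c ∈ J | s c = i}, t.1 \ t.2 := fun e he x h => by
      obtain ⟨c, hc, a, b⟩ := ce.two e he i
      have m := (bt.lb e he).1 h
      refine mem_biUnion (mem_image_of_mem _ (show c ∈ {c ∈ J | s c = i} from ⟨hc, a⟩))
        ⟨.inr (mem_biUnion (show e ∈ Q c ∩ C from ⟨b, he.2⟩) m.1), fun k => ?_⟩
      obtain ⟨e', a', b'⟩ := mem_iUnion₂.1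
        ((cell_traces th bt ce hc).2.1.le ⟨k, (bt.cut e he).sub1 m.1⟩)
      exact m.2 (bt.jsp2_eq (ce.jsp2_E hc a') he (bt.jsp2_g (ce.jsp2_E hc a') b') m.1 ▸ b')
    rintro x (h | h)
    · by_cases k : x ∈ C
      · exact pop x ⟨h.1, k⟩ x (bt.jsp2_e ⟨h.1, k⟩)
      obtain ⟨c, hc, h'⟩ := mem_iUnion₂.1 (ce.x.le h.1)
      have n := (ce.q c hc).1 h'
      have e : s c = i := by_contra fun e => k (th.jsp2_o e (ce.sub c hc n) h.2)
      refine mem_biUnion (mem_image_of_mem _ (show c ∈ {c ∈ J | s c = i} from ⟨hc, e⟩))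
        ⟨.inl n, ?_⟩
      rintro (m | m)
      · exact k ((ce.q c hc).2.1 ⟨h', m.1⟩)
      · obtain ⟨e', a, b⟩ := mem_iUnion₂.1 m
        exact k (th.jsp2_d _ h.2 ((bt.cut e' (ce.jsp2_E hc a)).cc.sub b))
    · obtain ⟨e, he, h⟩ := lam h
      exact pop e he x h

theorem cell_wall (th : Th (O false) (O true) D C) (bt : Bt K D C (X ∩ C) Λ l I I' g β R p q)
    (ce : Cells K O C X I J s Q N ν) (i : Bool) :
    (D ∩ ⋃ t ∈ (fun c => cellT C g β (Q c) (N c) (ν c)) '' {c ∈ J | s c = i}, t.1) =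
      (⋃ e ∈ X ∩ C, β e) ∧
    (D ∩ ⋃ t ∈ (fun c => cellT C g β (Q c) (N c) (ν c)) '' {c ∈ J | s c = i}, t.2) =
      ⋃ e ∈ X ∩ C, g e := by
  constructor <;> refine subset_antisymm ?_ fun x h => ?_
  · rintro x ⟨k, h⟩
    obtain ⟨_, ⟨c, ⟨hc, -⟩, rfl⟩, h⟩ := mem_iUnion₂.1 h
    exact biUnion_subset_biUnion_left (ce.jsp2_E hc) ((cell_traces th bt ce hc).1.le ⟨h, k⟩)
  · obtain ⟨e, he, h⟩ := mem_iUnion₂.1 h
    obtain ⟨c, hc, a, b⟩ := ce.two e he i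
    exact ⟨(bt.cut e he).sub1 h, mem_biUnion (mem_image_of_mem _
      (show c ∈ {c ∈ J | s c = i} from ⟨hc, a⟩))
        (.inr (mem_biUnion (show e ∈ Q c ∩ C from ⟨b, he.2⟩) h))⟩
  · rintro x ⟨k, h⟩
    obtain ⟨_, ⟨c, ⟨hc, -⟩, rfl⟩, h⟩ := mem_iUnion₂.1 h
    exact biUnion_subset_biUnion_left (ce.jsp2_E hc) ((cell_traces th bt ce hc).2.1.le ⟨h, k⟩)
  · obtain ⟨e, he, h⟩ := mem_iUnion₂.1 h
    obtain ⟨c, hc, a, b⟩ := ce.two e he i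
    exact ⟨(bt.cut e he).cc.sub h, mem_biUnion (mem_image_of_mem _
      (show c ∈ {c ∈ J | s c = i} from ⟨hc, a⟩))
        (.inr (mem_biUnion (show e ∈ Q c ∩ C from ⟨b, he.2⟩) h))⟩

/-- the wall without the bites -/
theorem Bt.rest {E Y Y' : Set Z} (hD : Disc D C) (hC : Disjoint C K)
    (bt : Bt K D C E Λ l I I' g β R p q) (h1 : D ∩ Y = ⋃ e ∈ E, β e) (h2 : D ∩ Y' = ⋃ e ∈ E, g e) :
    KD K ((D \ Y) ∪ (D ∩ Y')) ((C \ Y) ∪ (D ∩ Y')) := by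
  have e1 : D \ Y = D \ ⋃ e ∈ E, β e := by
    rw [← h1]
    exact subset_antisymm (fun x h => ⟨h.1, fun k => h.2 k.2⟩) fun x h => ⟨h.1, fun k => h.2 ⟨h.1, k⟩⟩
  have e2 : C \ Y = C \ ⋃ e ∈ E, I e := by
    ext x
    refine and_congr_right fun h => not_congr ⟨fun k => ?_, fun k => ?_⟩
    · obtain ⟨e, a, b⟩ := mem_iUnion₂.1 (h1.le ⟨hD.rim_sub h, k⟩)
      exact mem_biUnion a ((bt.cut e a).inter_rim.le ⟨b, h⟩)
    · obtain ⟨e, a, b⟩ := mem_iUnion₂.1 k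
      exact (h1.ge (mem_biUnion a (bt.jsp2_I a b))).2
  rw [e1, e2, h2]
  refine ⟨bites_off hD bt.fin bt.cut bt.dj, disjoint_left.2 ?_, ?_⟩
  · rintro x (h | h) k
    · exact disjoint_left.1 hC h.1 k
    · obtain ⟨e, a, b⟩ := mem_iUnion₂.1 h
      exact disjoint_left.1 (bt.lb e a).2.2.c (.inr b) k
  · obtain ⟨x, h, k⟩ := bt.left
    refine ⟨x, h.1, .inl ⟨h.2, fun m => ?_⟩⟩
    obtain ⟨e, a, b⟩ := mem_iUnion₂.1 m
    exact k (bt.jsp2_l a ((bt.lb e a).2.1 ⟨h.1, b⟩))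

end Pool.Agent.Lib.MP_b7d179_gt
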