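import Pool.Agent.Lib.MP_b7d179_gt.U.Ball2

/-! Bites round lollipops. -/

namespace Pool.Agent.Lib.MP_b7d179_gt

open Set Metric

variable {Z Z' : Type*} [MetricSpace Z] [MetricSpace Z']

variable {K O1 O2 D C Y E : Set Z}

lemma jstar_rest {O c u v g A B : Set Z} {p q : Z} (h : Cut O c u v g A B p q) :
    B = (O \ A) ∪ g := by
  refine subset_antisymm (fun x hx => ?_) (union_subset (fun x hx => ?_) fun x hx => ?_)
  · by_cases hx' : x ∈ A
    · exact .inr (h.inter.le ⟨hx', hx⟩)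
    · exact .inl ⟨h.sub2 hx, hx'⟩
  · exact (h.union.ge hx.1).resolve_left hx.2
  · exact (h.inter.ge hx).2

lemma jstar_rim {c u v g : Set Z} {p q : Z} (h : Two c u v p q) (hg : Arc g p q) :
    v ∪ g = (c \ u) ∪ g := by
  refine subset_antisymm (union_subset (fun x hx => ?_) subset_union_right)
    (union_subset_union_left _ fun x hx => (h.union.ge hx.1).resolve_left hx.2)
  by_cases hx' : x ∈ u
  · exact .inr (hg.ends (h.inter.le ⟨hx', hx⟩))
  · exact .inl ⟨h.sub2 hx, hx'⟩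

lemma jstar_set {α : Type*} {X b g B G : Set α} (h : Disjoint g B) :
    (((X \ b) ∪ g) \ B) ∪ G = (X \ (b ∪ B)) ∪ (g ∪ G) := by
  ext x
  have : x ∈ g → x ∉ B := fun k => disjoint_left.1 h k
  simp only [mem_union, mem_sdiff]
  tauto

lemma jstar_le {c u g g' : Set Z} {p q : Z} (h : Two c u g p q) (h' : Two c u g' p q) : g ⊆ g' :=
  fun _ hx => (h'.union.ge (h.sub2 hx)).elim (fun k => h'.a2.ends (h.inter.le ⟨k, hx⟩)) id

lemma jstar_half {A B I I' g g' β N R R' : Set Z} {p q : Z} (i : A ∩ B = C)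
    (c1 : Cut A C I I' g β R p q) (c2 : Cut B C I I' g' N R' p q) :
    (∀ x ∈ N, x ∈ A → x ∈ I) ∧ (∀ x ∈ g', x ∈ A → x ∈ g) ∧ I ⊆ β ∧ g ⊆ β :=
  ⟨fun _ h k => c2.inter_rim.le ⟨h, i.le ⟨k, c2.sub1 h⟩⟩,
    fun _ h k => c1.cc.arc.ends (c2.cc.inter.le ⟨h, i.le ⟨k, c2.cc.sub h⟩⟩),
    fun _ h => c1.d1.rim_sub (.inl h), fun _ h => c1.d1.rim_sub (.inr h)⟩

/-- disjoint bites with given foot arcs round disjoint lollipops -/
theorem pop_bites (hD : Disc D C) (hK : IsClosed K) (hC : Disjoint C K) (hE : E.Finite)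
    {l I I' : Z → Set Z} {p q : Z → Z} (hl : ∀ e ∈ E, Pop K D C e (l e)) (hd : E.PairwiseDisjoint l)
    (hI : ∀ e ∈ E, Two C (I e) (I' e) (p e) (q e) ∧ I e ∩ E = {e} ∧ e ∉ I' e)
    (hdI : E.PairwiseDisjoint I) (hY : IsClosed Y) (hYd : ∀ e ∈ E, Disjoint Y (l e ∪ I e)) :
    ∃ g β R : Z → Set Z, (∀ e ∈ E, Cut D C (I e) (I' e) (g e) (β e) (R e) (p e) (q e) ∧
      l e ⊆ β e \ g e ∧ K ∩ β e ⊆ l e ∧ KD K (β e) (I e ∪ g e) ∧ Disjoint (β e) Y) ∧
      E.PairwiseDisjoint β := by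
  have m : ∀ e ∈ E, ∀ e' ∈ E, e ≠ e' → Disjoint (l e) (I e') := fun e a e' a' n =>
    disjoint_left.2 fun x hx hx' => by
      obtain rfl : x = e := (hl e a).facts.2.1.le ⟨hx, (hI e' a').1.sub1 hx'⟩
      exact n ((hI e' a').2.1.le ⟨hx', a⟩)
  obtain ⟨O, h1, h2⟩ := rq_sep (W := fun e => l e ∪ I e) hE
    (fun e a => (hl e a).facts.2.2.1.union (hI e a).1.a1.compact) fun e a e' a' n =>
      disjoint_union_left.2 ⟨disjoint_union_right.2 ⟨hd a a' n, m e a e' a' n⟩,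
        disjoint_union_right.2 ⟨(m e' a' e a n.symm).symm, hdI a a' n⟩⟩
  have k : ∀ e ∈ E, ∃ g β R, (Cut D C (I e) (I' e) g β R (p e) (q e) ∧
      l e ⊆ β \ g ∧ K ∩ β ⊆ l e ∧ KD K β (I e ∪ g) ∧ Disjoint β Y) ∧ β ⊆ O e := fun e a => by
    obtain ⟨-, η, Q, r, x, L, kd, s, d, s', i, el⟩ := hl e a
    obtain ⟨U, hU, eU⟩ := hD.sub_open L.disc (s.trans sdiff_subset)
    have o := (h1 e a).2
    have y := hYd e a
    simp only [el, union_comm Q η] at o y ⊢
    obtain ⟨g, β, R, c, b1, b2, b3⟩ := bite_lol hD (hI e a).1 L s' i s (hI e a).2.2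
      ((hY.union (h1 e a).1.isClosed_compl).union (hK.inter hU.isClosed_compl))
      (disjoint_union_left.2 ⟨disjoint_union_left.2 ⟨y, disjoint_compl_left_iff_subset.2 o⟩,
        disjoint_left.2 fun z hz hz' => by
          rcases hz' with (hz' | hz') | hz'
          · exact disjoint_left.1 d hz' hz.1
          · exact hz.2 (eU.ge ⟨hz', fun n => disjoint_left.1 kd.c n hz.1⟩).1
          · exact disjoint_left.1 hC ((hI e a).1.sub1 hz') hz.1⟩)
    have b4 : K ∩ β ⊆ η ∪ Q := fun z hz => .inr (eU.le ⟨not_not.1 fun n =>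
      disjoint_left.1 b3 hz.2 (.inr ⟨hz.1, n⟩), c.sub1 hz.2⟩).1
    refine ⟨g, β, R, ⟨c, subset_sdiff.2 ⟨b1, b2⟩, b4, ⟨c.d1, disjoint_left.2 fun z hz hz' => ?_,
      kd.k.mono (inter_subset_inter_right _ (subset_union_right.trans b1))⟩,
      b3.mono_right (subset_union_left.trans subset_union_left)⟩, fun z hz => not_not.1 fun n =>
        disjoint_left.1 b3 hz (.inl (.inr n))⟩
    rcases hz with hz | hz
    · exact disjoint_left.1 hC ((hI e a).1.sub1 hz) hz'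
    · exact disjoint_left.1 b2 (b4 ⟨hz', c.d1.rim_sub (.inr hz)⟩) hz
  choose! g β R k k' using k
  exact ⟨g, β, R, k, h2.mono_on k'⟩

/-- a disc without finitely many disjoint bites -/
theorem bites_off (hD : Disc D C) (hE : E.Finite) {I I' g β R : Z → Set Z} {p q : Z → Z}
    (h : ∀ e ∈ E, Cut D C (I e) (I' e) (g e) (β e) (R e) (p e) (q e)) (hd : E.PairwiseDisjoint β) :
    Disc ((D \ ⋃ e ∈ E, β e) ∪ ⋃ e ∈ E, g e) ((C \ ⋃ e ∈ E, I e) ∪ ⋃ e ∈ E, g e) := by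
  induction E, hE using Set.Finite.induction_on generalizing D C I' R with
  | empty => simpa using hD
  | @insert a s ha _ ih =>
    have c := h a (mem_insert _ _)
    have h' := fun e he => h e (mem_insert_of_mem _ he)
    have d : ∀ e ∈ s, Disjoint (β a) (β e) := fun e he =>
      hd (mem_insert _ _) (mem_insert_of_mem _ he) fun n => ha (n ▸ he)
    have gs : g a ⊆ β a := fun _ k => c.d1.rim_sub (.inr k)
    have Is : ∀ e ∈ s, I e ⊆ β e := fun e he _ k => (h' e he).d1.rim_sub (.inl k)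
    have k : ∀ e ∈ s, ∃ v R', Cut (R a) (I' a ∪ g a) (I e) v (g e) (β e) R' (p e) (q e) := by
      intro e he
      have c' := h' e he
      have s1 : β e ⊆ R a := (c.side c'.d1.conn c'.sub1 ((d e he).symm.mono_right gs)).resolve_left
        fun n => disjoint_left.1 (d e he) (n (Is e he c'.two.a1.left)) (Is e he c'.two.a1.left)
      obtain ⟨v, g', R', c2, e2⟩ := c.d2.cut_of_sub c'.d1 s1 c'.two.a1 (subset_antisymm
        (fun x hx => hx.2.elim (fun n => c'.inter_rim.le ⟨hx.1, c.two.sub2 n⟩)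
          fun n => (disjoint_left.1 (d e he) (gs n) hx.1).elim)
        fun x hx => ⟨Is e he hx, .inl ((c.two.union.ge (c'.two.sub1 hx)).resolve_left fun n =>
          disjoint_left.1 (d e he) (c.d1.rim_sub (.inl n)) (Is e he hx))⟩)
      have t1 := c'.two1
      have t2 := c2.two1
      rw [← e2] at t2
      obtain rfl : g' = g e := subset_antisymm (jstar_le t2 t1) (jstar_le t1 t2)
      exact ⟨v, R', c2⟩
    choose! v R' k using k
    have := ih c.d2 k (hd.subset (subset_insert _ _))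
    rw [jstar_rest c, jstar_rim c.two c.cc.arc,
      jstar_set (disjoint_iUnion₂_right.2 fun e he => (d e he).mono_left gs),
      jstar_set (disjoint_iUnion₂_right.2 fun e he => (d e he).mono gs (Is e he))] at this
    simpa only [biUnion_insert] using this

/-- a disc with finitely many disjoint discs attached along arcs of the rim -/
theorem bites_on (hD : Disc D C) (hE : E.Finite) {I I' g β : Z → Set Z} {p q : Z → Z}
    (h : ∀ e ∈ E, Two C (I e) (I' e) (p e) (q e) ∧ Two (I e ∪ g e) (I e) (g e) (p e) (q e) ∧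
      Disc (β e) (I e ∪ g e) ∧ β e ∩ D = I e) (hd : E.PairwiseDisjoint β) :
    Disc (D ∪ ⋃ e ∈ E, β e) ((C \ ⋃ e ∈ E, I e) ∪ ⋃ e ∈ E, g e) := by
  induction E, hE using Set.Finite.induction_on generalizing D C I' with
  | empty => simpa using hD
  | @insert a s ha _ ih =>
    obtain ⟨a1, a2, a3, a4⟩ := h a (mem_insert _ _)
    have h' := fun e he => h e (mem_insert_of_mem _ he)
    have d : ∀ e ∈ s, Disjoint (β a) (β e) := fun e he =>
      hd (mem_insert _ _) (mem_insert_of_mem _ he) fun n => ha (n ▸ he)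
    have gs : g a ⊆ β a := fun _ k => a3.rim_sub (.inr k)
    have Is : ∀ e ∈ s, I e ⊆ β e := fun e he _ k => (h' e he).2.2.1.rim_sub (.inl k)
    have c := hD.glue a3 a1.symm a2.symm (by rw [inter_comm, a4])
    have k : ∀ e ∈ s, ∃ v, Two (I' a ∪ g a) (I e) v (p e) (q e) := fun e he =>
      c.disc.two_of_arc (h' e he).1.a1 fun x hx => .inl
        ((a1.union.ge ((h' e he).1.sub1 hx)).resolve_left fun n =>
          disjoint_left.1 (d e he) (a3.rim_sub (.inl n)) (Is e he hx))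
    choose! v k using k
    have := ih c.disc (fun e he => ⟨k e he, (h' e he).2.1, (h' e he).2.2.1, by
      rw [inter_union_distrib_left, (h' e he).2.2.2, (d e he).symm.inter_eq, union_empty]⟩)
      (hd.subset (subset_insert _ _))
    rw [jstar_rim a1 a2.a2, union_assoc,
      jstar_set (disjoint_iUnion₂_right.2 fun e he => (d e he).mono gs (Is e he))] at this
    simpa only [biUnion_insert] using this

/-- discs in bite position round pairs of lollipops on the two sides of `C` -/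
theorem star_discs (th : Th O1 O2 D C) (hK : IsClosed K) (hC : Disjoint C K) (hE : E.Finite)
    {l k : Z → Set Z} (hl : ∀ e ∈ E, Pop K D C e (l e) ∧ Pop K O1 C e (k e))
    (dl : E.PairwiseDisjoint l) (dk : E.PairwiseDisjoint k) (hY : IsClosed Y)
    (hYC : Disjoint Y D) (hYk : ∀ e ∈ E, Disjoint Y (k e)) :
    ∃ (u : Z → Set Z × Set Z) (b : Set Z × Set Z → Set Z),
      Fit K (O1 ∪ D) (⋃ e ∈ E, l e ∪ k e) (u '' E) ∧ (∀ t ∈ u '' E, Disjoint t.1 Y ∧
        KD K (t.1 ∩ D) (b t) ∧ b t ⊆ t.2 ∪ C ∧ Disjoint ((t.1 ∩ D) \ b t) (t.2 ∪ C)) ∧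
      (∀ e ∈ E, k e ⊆ (u e).1 ∧ K ∩ (u e).1 ∩ O1 ⊆ k e) ∧
      Disc (O2 ∪ (O1 ∩ ⋃ t ∈ u '' E, t.1)) ((O1 ∩ ⋃ t ∈ u '' E, t.2) ∪ (C \ ⋃ t ∈ u '' E, t.1)) := by
  obtain ⟨I, I', p, q, hI, dI⟩ := rq_arcs th.d hE fun e a => (hl e a).1.1
  obtain ⟨g, β, R, h1, d1⟩ := pop_bites th.d hK hC hE (fun e a => (hl e a).1) dl hI dI
    isClosed_empty fun _ _ => empty_disjoint _
  obtain ⟨g', N, R', h2, d2⟩ := pop_bites th.d1 hK hC hE (fun e a => (hl e a).2) dk hI dI hY
    fun e a => disjoint_union_right.2 ⟨hYk e a,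
      hYC.mono_right ((hI e a).1.sub1.trans th.d.rim_sub)⟩
  have iD : D ∩ O1 = C := by rw [inter_comm, th.i1]
  have f1 := fun e a => jstar_half iD (h1 e a).1 (h2 e a).1
  have f2 := fun e a => jstar_half th.i1 (h2 e a).1 (h1 e a).1
  have eD : ∀ e ∈ E, (β e ∪ N e) ∩ D = β e := fun e a => subset_antisymm
    (fun x hx => hx.1.elim id fun n => (f1 e a).2.2.1 ((f1 e a).1 x n hx.2))
    fun x hx => ⟨.inl hx, (h1 e a).1.sub1 hx⟩
  have eC : ∀ e ∈ E, (β e ∪ N e) ∩ C = I e := fun e a => by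
    rw [union_inter_distrib_right, (h1 e a).1.inter_rim, (h2 e a).1.inter_rim, union_self]
  have eg : ∀ e ∈ E, (g e ∪ g' e) ∩ D = g e := fun e a => subset_antisymm
    (fun x hx => hx.1.elim id fun n => (f1 e a).2.1 x n hx.2)
    fun x hx => ⟨.inl hx, (h1 e a).1.cc.sub hx⟩
  have eO : ∀ e ∈ E, O1 ∩ (β e ∪ N e) = N e := fun e a => subset_antisymm
    (fun x hx => hx.2.elim (fun n => (f2 e a).2.2.1 ((f2 e a).1 x n hx.1)) id)
    fun x hx => ⟨(h2 e a).1.sub1 hx, .inr hx⟩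
  have eg' : ∀ e ∈ E, O1 ∩ (g e ∪ g' e) = g' e := fun e a => subset_antisymm
    (fun x hx => hx.2.elim (fun n => (f2 e a).2.1 x n hx.1) id)
    fun x hx => ⟨(h2 e a).1.cc.sub hx, .inr hx⟩
  have m : ∀ e ∈ E, ∀ e' ∈ E, e ≠ e' → Disjoint (β e) (N e') := fun e a e' a' n =>
    disjoint_left.2 fun x hx hx' => disjoint_left.1 (dI a a' n)
      ((f2 e a).1 x hx ((h2 e' a').1.sub1 hx')) ((f1 e' a').1 x hx' ((h1 e a).1.sub1 hx))
  have dj : E.PairwiseDisjoint fun e => β e ∪ N e := fun e a e' a' n =>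
    disjoint_union_left.2 ⟨disjoint_union_right.2 ⟨d1 a a' n, m e a e' a' n⟩,
      disjoint_union_right.2 ⟨(m e' a' e a n.symm).symm, d2 a a' n⟩⟩
  have sx : ∀ e ∈ E, l e ∪ k e ⊆ (β e ∪ N e) \ (g e ∪ g' e) := fun e a => union_subset
    (fun x hx => ⟨.inl ((h1 e a).2.1 hx).1, fun n => ((h1 e a).2.1 hx).2
      ((eg e a).le ⟨n, (hl e a).1.facts.1 hx⟩)⟩)
    fun x hx => ⟨.inr ((h2 e a).2.1 hx).1, fun n => ((h2 e a).2.1 hx).2
      ((eg' e a).le ⟨(hl e a).2.facts.1 hx, n⟩)⟩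
  refine ⟨fun e => (β e ∪ N e, g e ∪ g' e), fun t => (t.1 ∩ C) ∪ (t.2 ∩ D),
    ⟨hE.image _, forall_mem_image.2 fun e a => ?_, forall_mem_image.2 fun e a => ?_,
      forall_mem_image.2 fun e a => ?_, forall_mem_image.2 fun e a => ?_,
      forall_mem_image.2 fun e a => ?_, ?_, ?_⟩, forall_mem_image.2 fun e a => ?_,
    fun e a => ⟨fun x hx => (sx e a (.inr hx)).1, fun x hx => ?_⟩, ?_⟩
  · exact ((h1 e a).1.d1.glue (h2 e a).1.d1 (h1 e a).1.two1.symm (h2 e a).1.two1.symm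
      (subset_antisymm (fun x hx => (f1 e a).1 x hx.2 ((h1 e a).1.sub1 hx.1))
        (subset_inter (f1 e a).2.2.1 (f2 e a).2.2.1))).disc
  · exact union_subset ((h1 e a).1.sub1.trans subset_union_right)
      ((h2 e a).1.sub1.trans subset_union_left)
  · have e1 : (⋃ e ∈ E, l e ∪ k e) ∩ (β e ∪ N e) = l e ∪ k e := by
      refine subset_antisymm (fun x hx => ?_) fun x hx => ⟨mem_biUnion a hx, (sx e a hx).1⟩
      obtain ⟨e', a', hx'⟩ := mem_iUnion₂.1 hx.1
      exact dj.elim_set a' a x (sx e' a' hx').1 hx.2 ▸ hx'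
    rw [e1]
    exact (hl e a).1.facts.2.2.2.1.union ⟨e, ((hl e a).1.facts.2.1.ge rfl).1,
      ((hl e a).2.facts.2.1.ge rfl).1⟩ (hl e a).2.facts.2.2.2.1
  · exact disjoint_union_left.2 ⟨(h1 e a).2.2.2.1.c.mono_left subset_union_right,
      (h2 e a).2.2.2.1.c.mono_left subset_union_right⟩
  · exact fun x hx => mem_biUnion a (hx.2.imp (fun n => (h1 e a).2.2.1 ⟨hx.1, n⟩)
      fun n => (h2 e a).2.2.1 ⟨hx.1, n⟩)
  · rintro _ ⟨e, a, rfl⟩ _ ⟨e', a', rfl⟩ n
    exact dj a a' fun e => n (e ▸ rfl)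
  · rw [biUnion_image]
    exact iUnion₂_mono sx
  · simp only [eD e a, eC e a, eg e a]
    refine ⟨disjoint_union_left.2 ⟨(hYC.mono_right (h1 e a).1.sub1).symm, (h2 e a).2.2.2.2⟩,
      (h1 e a).2.2.2.1, union_subset ((hI e a).1.sub1.trans subset_union_right)
        (subset_union_left.trans subset_union_left), disjoint_left.2 fun x hx n => hx.2 ?_⟩
    exact n.elim (fun n => .inr ((eg e a).le ⟨n, (h1 e a).1.sub1 hx.1⟩))
      fun n => .inl ((h1 e a).1.inter_rim.le ⟨hx.1, n⟩)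
  · exact (h2 e a).2.2.1 ⟨hx.1.1, (eO e a).le ⟨hx.2, hx.1.2⟩⟩
  · have := bites_on th.d2 hE (fun e a => ⟨(hI e a).1, (h2 e a).1.two1, (h2 e a).1.d1,
      subset_antisymm (fun x hx => (h2 e a).1.inter_rim.le
        ⟨hx.1, th.i12.le ⟨(h2 e a).1.sub1 hx.1, hx.2⟩⟩) fun x hx =>
          ⟨(f2 e a).2.2.1 hx, th.d2.rim_sub ((hI e a).1.sub1 hx)⟩⟩) d2
    have e3 : C \ ⋃ e ∈ E, β e ∪ N e = C \ ⋃ e ∈ E, I e := by
      rw [← iUnion₂_congr eC, ← iUnion₂_inter, sdiff_inter_self_eq_sdiff]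
    simp only [biUnion_image, inter_iUnion₂]
    rw [iUnion₂_congr eO, iUnion₂_congr eg', e3, union_comm (⋃ e ∈ E, g' e)]
    exact this

end Pool.Agent.Lib.MP_b7d179_gt
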