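import Pool.Agent.Lib.MP_b7d179_gt.U.Tree

/-! Good balls are trees at all deep levels; partitions into small good balls. -/

namespace Pool.Agent.Lib.MP_b7d179_gt

open Set Metric

variable {Z Z' : Type*} [MetricSpace Z] [MetricSpace Z']

variable {σ : Tw Z} {B S N : Set Z} {ε δ : ℝ}

/-- deep feet with a point of `K` in `B` miss a closed set that has no point of `K` in `B` -/
theorem deep_miss (ok : σ.Ok) (hB : IsCompact B) (hN : IsClosed N) (hd : Disjoint N (σ.K ∩ B)) :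
    ∃ m₀, ∀ f, m₀ ≤ σ.lf f → σ.A f ⊆ B → Disjoint (σ.A f) N := by
  obtain ⟨r, r0, hr⟩ := (hB.inter_left ok.kcl).exists_thickening_subset_open hN.isOpen_compl
    hd.subset_compl_left
  obtain ⟨m, -, hm⟩ := ok.mesh r r0
  refine ⟨m, fun f a b => disjoint_left.2 fun y c => hr ?_⟩
  obtain ⟨x, d⟩ := (ok.foot f).k
  exact mem_thickening_iff.2 ⟨x, ⟨d.1, b d.2⟩, hm f a y c x d.2⟩

theorem level_inv (ok : σ.Ok) {mv : Bool} {F : Set σ.φ} {V : Set σ.β} {m : ℕ}
    (h : Tree σ mv B S F V) (hv : ∃ v ∈ V, σ.lv v = m) : Inv σ m B S F V := by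
  obtain ⟨m', i⟩ := h.inv ok.ok1
  obtain ⟨v, a, b⟩ := hv
  exact (i.vl v a).symm.trans b ▸ i

theorem level_ex {F : Set σ.φ} {V : Set σ.β} {m : ℕ} (i : Inv σ m B S F V) :
    ∃ v ∈ V, σ.lv v = m := i.vne.imp fun v a => ⟨a, i.vl v a⟩

theorem G.level (ok : σ.Ok) (h : G σ B S) :
    ∃ m₀, ∀ m ≥ m₀, ∃ F V, Tree σ true B S F V ∧ Inv σ m B S F V := by
  induction h with
  | leaf v => exact (Tree.leaf v).deep ok
  | @move B S k g hk ih =>
    obtain ⟨m₀, ih⟩ := ih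
    obtain ⟨U, u1, u2, u3⟩ := hk.2.1
    have b := g.ball ok.toOk0
    obtain ⟨m₁, l⟩ := deep_miss ok b.compact u1.isClosed_compl
      (disjoint_left.2 fun x a c => a (u2 c))
    refine ⟨max m₀ m₁, fun m hm => ?_⟩
    obtain ⟨F, V, t, i⟩ := ih m (le_of_max_le_left hm)
    have t' := Tree.move rfl t hk fun f a x c => u3 x ⟨not_not.1 (disjoint_left.1
      (l f ((i.fl f a).symm ▸ le_of_max_le_right hm) ((i.ft.sub f a).trans b.rim_sub)) c),
        b.rim_sub (i.ft.sub f a c)⟩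
    exact ⟨F, V, t', level_inv ok t' (level_ex i)⟩
  | @glue0 B S B1 S1 W SW D C g hW hd gl ih =>
    obtain ⟨m₀, ih⟩ := ih
    have b := g.ball ok.toOk0
    obtain ⟨m₁, l⟩ := deep_miss ok b.compact gl.d.closed
      (hd.mono (gl.i ▸ inter_subset_right) inter_subset_left)
    refine ⟨max m₀ m₁, fun m hm => ?_⟩
    obtain ⟨F, V, t, i⟩ := ih m (le_of_max_le_left hm)
    have t' := Tree.glue0 t hW hd gl fun f a =>
      l f ((i.fl f a).symm ▸ le_of_max_le_right hm) ((i.ft.sub f a).trans b.rim_sub)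
    exact ⟨F, V, t', level_inv ok t' (level_ex i)⟩
  | @glue1 B S B1 S1 B2 S2 D C g1 g2 gl kd ih1 ih2 =>
    obtain ⟨m₁, ih1⟩ := ih1
    obtain ⟨m₂, ih2⟩ := ih2
    have b1 := g1.ball ok.toOk0
    have b2 := g2.ball ok.toOk0
    obtain ⟨m₃, l⟩ := deep_miss ok (b1.compact.union b2.compact) gl.d.rim_closed
      (kd.c.mono_right inter_subset_left)
    refine ⟨max (max m₁ m₂) m₃, fun m hm => ?_⟩
    obtain ⟨F1, V1, t1, i1⟩ := ih1 m (le_of_max_le_left (le_of_max_le_left hm))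
    obtain ⟨F2, V2, t2, i2⟩ := ih2 m (le_of_max_le_right (le_of_max_le_left hm))
    have a : ∀ f ∈ F1 ∪ F2, σ.A f ⊆ D \ C ∨ Disjoint (σ.A f) D := by
      rintro f (a | a)
      · exact rq_side b1.sph gl.d gl.s1 (ok.foot f).d.conn (i1.ft.sub f a)
          (l f ((i1.fl f a).symm ▸ le_of_max_le_right hm)
            (((i1.ft.sub f a).trans b1.rim_sub).trans subset_union_left))
      · exact rq_side b2.sph gl.d gl.s2 (ok.foot f).d.conn (i2.ft.sub f a)
          (l f ((i2.fl f a).symm ▸ le_of_max_le_right hm)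
            (((i2.ft.sub f a).trans b2.rim_sub).trans subset_union_right))
    have c (x) (k : x ∈ σ.K ∩ D) : ∃ f ∈ F1, x ∈ σ.A f := by
      simpa using i1.ft.cov ⟨k.1, gl.s1 k.2⟩
    have t' := Tree.glue1 (F := {f | f ∈ F1 ∪ F2 ∧ Disjoint (σ.A f) D}) t1 t2 gl a
      (fun f e => ⟨fun k => i2.mem ok.ok1 (i1.fl f k)
        ((ok.foot f).k.mono fun x o => ⟨o, gl.s2 (e o.2)⟩), fun k => i1.mem ok.ok1 (i2.fl f k)
        ((ok.foot f).k.mono fun x o => ⟨o, gl.s1 (e o.2)⟩)⟩) (by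
      obtain ⟨x, k⟩ := kd.k
      obtain ⟨f, d, e⟩ := c x k
      exact ⟨f, d, ((a f (.inl d)).resolve_right fun o => disjoint_left.1 o e k.2).trans
        sdiff_le⟩) (disjoint_left.2 fun v d e => by
      obtain ⟨x, k, o⟩ := ok.core v
      obtain ⟨f, p, q⟩ := c x ⟨k.1, gl.i ▸ ⟨(i1.kb.ge (mem_biUnion d k)).2,
        (i2.kb.ge (mem_biUnion e k)).2⟩⟩
      exact o f ((i1.fl f p).trans (i1.vl v d).symm) q) fun _ => Iff.rfl
    exact ⟨_, _, t', level_inv ok t' ((level_ex i1).imp fun v k => ⟨.inl k.1, k.2⟩)⟩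

theorem G.fine (ok : σ.Ok) (h : G σ B S) (hN : IsClosed N) (hd : Disjoint N σ.K) (hε : 0 < ε) :
    ∃ F V, Tree σ true B S F V ∧ ∀ f ∈ F, Disjoint (σ.A f) N ∧
      ∀ x ∈ σ.A f, ∀ y ∈ σ.A f, dist x y < ε := by
  obtain ⟨m₀, a⟩ := h.level ok
  have b := h.ball ok.toOk0
  obtain ⟨m₁, l⟩ := deep_miss ok b.compact hN (hd.mono_right inter_subset_left)
  obtain ⟨m₂, -, c⟩ := ok.mesh ε hε
  obtain ⟨F, V, t, i⟩ := a (max m₀ (max m₁ m₂)) (le_max_left _ _)
  exact ⟨F, V, t, fun f k => ⟨l f (by rw [i.fl f k]; omega) ((i.ft.sub f k).trans b.rim_sub),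
    c f (by rw [i.fl f k]; omega)⟩⟩

theorem Part.g (h : Part σ ε B S) : G σ B S := by
  induction h with
  | small g _ => exact g
  | glue0 _ a b c ih => exact ih.glue0 a b c
  | glue1 _ _ a b ih1 ih2 => exact ih1.glue1 ih2 a b

theorem Part.map (ok : σ.Ok0) (h : Part σ δ B S) {k : Z → Z} (hk : Mv σ.K k B)
    (hu : ∀ x ∈ B, ∀ y ∈ B, dist x y < δ → dist (k x) (k y) < ε) :
    Part σ ε (k '' B) (k '' S) := by
  induction h with
  | small g a =>
    refine .small (g.move hk) ?_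
    rintro _ ⟨x, b, rfl⟩ _ ⟨y, c, rfl⟩
    exact hu x b y c (a x b y c)
  | @glue0 B S B1 S1 W SW D C p a b c ih =>
    have s1 : B1 ⊆ B := c.u ▸ subset_union_left
    have s2 : W ⊆ B := c.u ▸ subset_union_right
    exact .glue0 (ih (hk.mono s1) fun x d y e => hu x (s1 d) y (s1 e)) (a.image hk.1 s2)
      ((hk.disj s2).2 b) (c.image (p.g.ball ok).rim_sub a.rim_sub hk.1 subset_rfl)
  | @glue1 B S B1 S1 B2 S2 D C p q c a ih1 ih2 =>
    have s1 : B1 ⊆ B := c.u ▸ subset_union_left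
    have s2 : B2 ⊆ B := c.u ▸ subset_union_right
    exact .glue1 (ih1 (hk.mono s1) fun x d y e => hu x (s1 d) y (s1 e))
      (ih2 (hk.mono s2) fun x d y e => hu x (s2 d) y (s2 e))
      (c.image (p.g.ball ok).rim_sub (q.g.ball ok).rim_sub hk.1 subset_rfl)
      (hk.kd a ((c.i ▸ inter_subset_left : D ⊆ B1).trans s1))

theorem level_part (ok : σ.Ok1) {F : Set σ.φ} {V : Set σ.β} (h : Tree σ false B S F V)
    (hv : ∀ v ∈ V, ∀ x ∈ σ.B v, ∀ y ∈ σ.B v, dist x y < ε) : Part σ ε B S := by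
  induction h with
  | leaf v => exact .small (.leaf v) (hv v rfl)
  | move e => exact absurd e Bool.false_ne_true
  | glue0 _ a b c _ ih => exact .glue0 (ih hv) a b c
  | glue1 t _ g a _ b _ _ ih1 ih2 =>
    obtain ⟨m, i⟩ := t.inv ok
    exact .glue1 (ih1 fun v k => hv v (.inl k)) (ih2 fun v k => hv v (.inr k)) g
      (wall_kd ok i.ft g.d g.s1 (fun f k => a f (.inl k)) b)

theorem G.part (ok : σ.Ok) (h : G σ B S) (hε : 0 < ε) : Part σ ε B S := by
  induction h generalizing ε with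
  | leaf v =>
    obtain ⟨m₀, a⟩ := (Tree.leaf (mv := false) v).deep ok
    obtain ⟨m₁, b, -⟩ := ok.mesh ε hε
    obtain ⟨F, V, t, i⟩ := a (max m₀ m₁) (le_max_left _ _)
    exact level_part ok.ok1 t fun w k => b w ((i.vl w k).symm ▸ le_max_right _ _)
  | move g hk ih =>
    obtain ⟨δ, a, b⟩ := Metric.uniformContinuousOn_iff.1
      ((g.ball ok.toOk0).compact.uniformContinuousOn_of_continuous hk.1.1) ε hε
    exact (ih a).map ok.toOk0 hk b
  | glue0 _ a b c ih => exact .glue0 (ih hε) a b c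
  | glue1 _ _ a b ih1 ih2 => exact .glue1 (ih1 hε) (ih2 hε) a b

end Pool.Agent.Lib.MP_b7d179_gt
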