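import Pool.Agent.Lib.MP_b7d179_gt.U.Ball3

/-! Trees: invariants and refinement. -/

namespace Pool.Agent.Lib.MP_b7d179_gt

open Set Metric

variable {Z Z' : Type*} [MetricSpace Z] [MetricSpace Z']

variable {σ : Tw Z} {mv : Bool} {B S B1 S1 B2 S2 D C : Set Z} {F F1 F2 : Set σ.φ}
  {V V1 V2 : Set σ.β} {m : ℕ}

/-- the axioms on feet that the invariants of trees need -/
structure Tw.Ok1 (σ : Tw Z) : Prop extends σ.Ok0 where
  foot : ∀ f, KD σ.K (σ.A f) (σ.C f)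
  fdj : ∀ f g, σ.lf f = σ.lf g → f ≠ g → Disjoint (σ.A f) (σ.A g)
  ffin : ∀ v, (σ.F v).Finite
  fin : ∀ v, ∀ f ∈ σ.F v, σ.lf f = σ.lv v ∧ σ.A f ⊆ σ.S v
  fcov : ∀ v, σ.K ∩ σ.S v ⊆ ⋃ f ∈ σ.F v, σ.A f

theorem Tw.Ok.ok1 (h : σ.Ok) : σ.Ok1 := ⟨h.toOk0, h.foot, h.fdj, h.ffin, h.fin, h.fcov⟩

/-- `F` is a finite disjoint family of feet in `S` that covers the points of `K` in `S` -/
structure Ft (σ : Tw Z) (S : Set Z) (F : Set σ.φ) : Prop where
  fin : F.Finite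
  sub : ∀ f ∈ F, σ.A f ⊆ S
  dj : F.PairwiseDisjoint σ.A
  cov : σ.K ∩ S ⊆ ⋃ f ∈ F, σ.A f

structure Inv (σ : Tw Z) (m : ℕ) (B S : Set Z) (F : Set σ.φ) (V : Set σ.β) : Prop where
  ft : Ft σ S F
  fl : ∀ f ∈ F, σ.lf f = m
  vl : ∀ v ∈ V, σ.lv v = m
  vfin : V.Finite
  vne : V.Nonempty
  kb : σ.K ∩ B = ⋃ v ∈ V, σ.K ∩ σ.B v
  src : ∀ f ∈ F, ∃ v ∈ V, f ∈ σ.F v
  uniq : ∀ f ∈ F, ∀ v ∈ V, (σ.K ∩ σ.A f ∩ σ.B v).Nonempty → f ∈ σ.F v

theorem G.ball (ok : σ.Ok0) (h : G σ B S) : Ball B S := by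
  induction h with
  | leaf v => exact ok.ball v
  | move _ k ih => exact ih.image k.1 subset_rfl
  | glue0 _ w _ g ih => exact g.ball ih w
  | glue1 _ _ g _ i1 i2 => exact g.ball i1 i2

theorem Tree.ball (ok : σ.Ok0) (h : Tree σ mv B S F V) : Ball B S := by
  induction h with
  | leaf v => exact ok.ball v
  | move _ _ k _ ih => exact ih.image k.1 subset_rfl
  | glue0 _ w _ g _ ih => exact g.ball ih w
  | glue1 _ _ g _ _ _ _ _ i1 i2 => exact g.ball i1 i2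

theorem Tree.mono (h : Tree σ false B S F V) : Tree σ mv B S F V := by
  induction h with
  | leaf v => exact .leaf v
  | move e => exact absurd e Bool.false_ne_true
  | glue0 _ w d g k ih => exact ih.glue0 w d g k
  | glue1 _ _ g a b c d e i1 i2 => exact i1.glue1 i2 g a b c d e

theorem Ft.holes (ok : σ.Ok1) (h : Ft σ S F) : Holes S F σ.A σ.C :=
  ⟨h.fin, fun f _ => (ok.foot f).d, h.sub, h.dj⟩

theorem Ft.clear (ok : σ.Ok1) (h : Ft σ S F) (hS : Sph S) :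
    Disjoint (closure (S \ ⋃ f ∈ F, σ.A f)) σ.K :=
  clear_of_discs hS (fun f hf => ⟨(ok.foot f).d, h.sub f hf, (ok.foot f).c⟩) h.cov

theorem Inv.tree_k (h : Inv σ m B S F V) {v : σ.β} (hv : v ∈ V) {x : Z} (hx : x ∈ σ.K)
    (k : x ∈ σ.B v) : x ∈ B :=
  (h.kb.ge (mem_biUnion hv ⟨hx, k⟩)).2

theorem Tree.inv (ok : σ.Ok1) (h : Tree σ mv B S F V) : ∃ m, Inv σ m B S F V := by
  induction h with
  | leaf v =>
    exact ⟨σ.lv v, ⟨ok.ffin v, fun f h => (ok.fin v f h).2, fun f h g k =>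
      ok.fdj f g ((ok.fin v f h).1.trans (ok.fin v g k).1.symm), ok.fcov v⟩,
      fun f h => (ok.fin v f h).1, fun _ h => h ▸ rfl, finite_singleton v, singleton_nonempty v,
      by rw [biUnion_singleton], fun f h => ⟨v, rfl, h⟩, fun f h _ k _ => k ▸ h⟩
  | move _ t k e ih =>
    obtain ⟨m, i⟩ := ih
    exact ⟨m, ⟨i.ft.fin, fun f h x hx => ⟨x, i.ft.sub f h hx, e f h x hx⟩, i.ft.dj,
      (k.inter (t.ball ok.toOk0).rim_sub).le.trans i.ft.cov⟩, i.fl, i.vl, i.vfin, i.vne,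
      (k.inter subset_rfl).trans i.kb, i.src, i.uniq⟩
  | glue0 _ w d g k ih =>
    obtain ⟨m, i⟩ := ih
    refine ⟨m, ⟨i.ft.fin, fun f h x hx => g.r.ge ⟨.inl (i.ft.sub f h hx), fun a =>
      (k f h).notMem_of_mem_left hx a.1⟩, i.ft.dj, fun x hx => i.ft.cov ⟨hx.1,
        (g.r.le hx.2).1.resolve_right fun a => d.notMem_of_mem_left (w.rim_sub a) hx.1⟩⟩,
      i.fl, i.vl, i.vfin, i.vne, ?_, i.src, i.uniq⟩
    rw [g.u, inter_union_distrib_left, d.symm.inter_eq, union_empty, i.kb]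
  | @glue1 B S B1 S1 B2 S2 D C F F1 V1 F2 V2 t1 t2 g a b c _ e i1 i2 =>
    obtain ⟨m, i⟩ := i1
    obtain ⟨m', j⟩ := i2
    obtain ⟨f₀, c1, c2⟩ := c
    obtain rfl : m = m' := (i.fl f₀ c1).symm.trans (j.fl f₀ ((b f₀ c2).1 c1))
    have fl : ∀ f ∈ F, σ.lf f = m := fun f h => ((e f).1 h).1.elim (i.fl f) (j.fl f)
    refine ⟨m, ⟨(i.ft.fin.union j.ft.fin).subset fun f h => ((e f).1 h).1, fun f h x hx => g.r.ge
      ⟨((e f).1 h).1.imp (i.ft.sub f · hx) (j.ft.sub f · hx), fun k =>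
        ((e f).1 h).2.notMem_of_mem_left hx k.1⟩,
      fun f h f' h' => ok.fdj f f' ((fl f h).trans (fl f' h').symm), fun x hx => ?_⟩, fl,
      fun v h => h.elim (i.vl v) (j.vl v), i.vfin.union j.vfin, i.vne.inl, ?_, fun f h => ?_, ?_⟩
    · obtain ⟨h1, h2⟩ := g.r.le hx.2
      obtain ⟨f, hf, k⟩ : ∃ f ∈ F1 ∪ F2, x ∈ σ.A f := by
        rcases h1 with h1 | h1
        · obtain ⟨f, hf, k⟩ := mem_iUnion₂.1 (i.ft.cov ⟨hx.1, h1⟩)
          exact ⟨f, .inl hf, k⟩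
        · obtain ⟨f, hf, k⟩ := mem_iUnion₂.1 (j.ft.cov ⟨hx.1, h1⟩)
          exact ⟨f, .inr hf, k⟩
      exact mem_biUnion ((e f).2 ⟨hf, (a f hf).resolve_left fun l => h2 (l k)⟩) k
    · rw [g.u, inter_union_distrib_left, i.kb, j.kb, biUnion_union]
    · rcases ((e f).1 h).1 with k | k
      · exact (i.src f k).imp fun v l => ⟨.inl l.1, l.2⟩
      · exact (j.src f k).imp fun v l => ⟨.inr l.1, l.2⟩
    · rintro f h v hv ⟨x, hx⟩
      obtain ⟨k | k, d⟩ := (e f).1 h <;> rcases hv with hv | hv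
      · exact i.uniq f k v hv ⟨x, hx⟩
      · exact (d.notMem_of_mem_left hx.1.2 (g.i.le ⟨(t1.ball ok.toOk0).rim_sub
          (i.ft.sub f k hx.1.2), j.tree_k hv hx.1.1 hx.2⟩)).elim
      · exact (d.notMem_of_mem_left hx.1.2 (g.i.le ⟨i.tree_k hv hx.1.1 hx.2,
          (t2.ball ok.toOk0).rim_sub (j.ft.sub f k hx.1.2)⟩)).elim
      · exact j.uniq f k v hv ⟨x, hx⟩

/-- a foot of the right level with a point of `K` in `S` is a boundary foot -/
theorem Inv.mem (ok : σ.Ok1) (h : Inv σ m B S F V) {f : σ.φ} (hf : σ.lf f = m)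
    (hx : (σ.K ∩ σ.A f ∩ S).Nonempty) : f ∈ F := by
  obtain ⟨x, hx⟩ := hx
  obtain ⟨g, hg, k⟩ := mem_iUnion₂.1 (h.ft.cov ⟨hx.1.1, hx.2⟩)
  by_contra c
  exact (ok.fdj f g (hf.trans (h.fl g hg).symm) fun e => c (e ▸ hg)).notMem_of_mem_left hx.1.2 k

/-- the two sides of a wall have one level and share only feet inside the wall -/
theorem Tree.mid (ok : σ.Ok1) (h1 : Tree σ mv B1 S1 F1 V1) (h2 : Tree σ mv B2 S2 F2 V2)
    (g : Gl B S B1 S1 B2 S2 D C) (hf : ∃ f ∈ F1, f ∈ F2) {v w : σ.β} (hv : v ∈ V1) (hw : w ∈ V2)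
    {f : σ.φ} (h : f ∈ σ.F v) (h' : f ∈ σ.F w) : f ∈ F1 ∧ f ∈ F2 := by
  have _ := hf
  obtain ⟨m, i⟩ := h1.inv ok
  obtain ⟨m', j⟩ := h2.inv ok
  obtain ⟨x, hx⟩ := (ok.foot f).k
  have d : x ∈ D := g.i.le ⟨i.tree_k hv hx.1 ((ok.ball v).rim_sub ((ok.fin v f h).2 hx.2)),
    j.tree_k hw hx.1 ((ok.ball w).rim_sub ((ok.fin w f h').2 hx.2))⟩
  exact ⟨i.mem ok ((ok.fin v f h).1.trans (i.vl v hv)) ⟨x, hx, g.s1 d⟩,
    j.mem ok ((ok.fin w f h').1.trans (j.vl w hw)) ⟨x, hx, g.s2 d⟩⟩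

/-- the rim of a wall that respects the feet is free of `K` -/
theorem wall_kd (ok : σ.Ok1) (h1 : Ft σ S1 F1) (hD : Disc D C) (hs : D ⊆ S1)
    (hf : ∀ f ∈ F1, σ.A f ⊆ D \ C ∨ Disjoint (σ.A f) D) (hn : ∃ f ∈ F1, σ.A f ⊆ D) :
    KD σ.K D C := by
  refine ⟨hD, disjoint_left.2 fun x hx hk => ?_, ?_⟩
  · obtain ⟨f, h, k⟩ := mem_iUnion₂.1 (h1.cov ⟨hk, hs (hD.rim_sub hx)⟩)
    exact (hf f h).elim (fun l => (l k).2 hx) fun l => l.notMem_of_mem_left k (hD.rim_sub hx)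
  · obtain ⟨f, -, k⟩ := hn
    exact (ok.foot f).k.mono (inter_subset_inter_right _ k)

theorem Tree.g (ok : σ.Ok1) (h : Tree σ mv B S F V) : G σ B S := by
  induction h with
  | leaf v => exact .leaf v
  | move _ _ k _ ih => exact ih.move k
  | glue0 _ w d g _ ih => exact ih.glue0 w d g
  | glue1 t1 _ g a _ c _ _ i1 i2 =>
    obtain ⟨m, i⟩ := t1.inv ok
    exact i1.glue1 i2 g (wall_kd ok i.ft g.d g.s1 (fun f h => a f (.inl h)) c)

theorem Tree.refine (ok : σ.Ok) (h : Tree σ mv B S F V) :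
    Tree σ mv B S (⋃ f ∈ F, σ.sub f) (⋃ v ∈ V, σ.ch v) := by
  have s : ∀ f, ∀ g ∈ σ.sub f, σ.A g ⊆ σ.A f := fun f g h => (ok.sin f g h).2.trans sdiff_subset
  have n : ∀ f {D : Set Z}, σ.A f ⊆ D → ¬ Disjoint (σ.A f) D := fun f D a b => by
    obtain ⟨x, hx⟩ := (ok.foot f).k
    exact b.notMem_of_mem_left hx.2 (a hx.2)
  induction h with
  | leaf v => exact biUnion_singleton v σ.ch ▸ (ok.s2 v).mono
  | move e _ k l ih =>
    refine ih.move e k fun g hg x hx => ?_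
    obtain ⟨f, h, h'⟩ := mem_iUnion₂.1 hg
    exact l f h x (s f g h' hx)
  | glue0 _ w d g k ih =>
    refine ih.glue0 w d g fun f' hg => ?_
    obtain ⟨f, h, h'⟩ := mem_iUnion₂.1 hg
    exact (k f h).mono_left (s f f' h')
  | glue1 _ _ g a b c d e i1 i2 =>
    rw [biUnion_union]
    refine i1.glue1 i2 g (fun f' h => ?_) (fun f' h => ⟨fun k => ?_, fun k => ?_⟩) ?_
      (disjoint_left.2 fun w h h' => ?_) fun f' => ?_
    · rw [← biUnion_union] at h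
      obtain ⟨f, h, h'⟩ := mem_iUnion₂.1 h
      exact (a f h).imp (s f f' h').trans (·.mono_left (s f f' h'))
    · obtain ⟨f, k, k'⟩ := mem_iUnion₂.1 k
      exact mem_biUnion ((b f (((a f (.inl k)).resolve_right fun l =>
        n f' h (l.mono_left (s f f' k'))).trans sdiff_subset)).1 k) k'
    · obtain ⟨f, k, k'⟩ := mem_iUnion₂.1 k
      exact mem_biUnion ((b f (((a f (.inr k)).resolve_right fun l =>
        n f' h (l.mono_left (s f f' k'))).trans sdiff_subset)).2 k) k'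
    · obtain ⟨f, h, k⟩ := c
      obtain ⟨f', h'⟩ := (ok.stwo f).nonempty
      exact ⟨f', mem_biUnion h h', (s f f' h').trans k⟩
    · obtain ⟨v, hv, k⟩ := mem_iUnion₂.1 h
      obtain ⟨v', hv', k'⟩ := mem_iUnion₂.1 h'
      exact (ok.chd v v' (Nat.succ_injective ((ok.chl v w k).symm.trans (ok.chl v' w k')))
        (d.ne_of_mem hv hv')).notMem_of_mem_left k k'
    · rw [← biUnion_union]
      refine ⟨fun h => ?_, fun ⟨h, l⟩ => ?_⟩ <;> obtain ⟨f, h, h'⟩ := mem_iUnion₂.1 h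
      · exact ⟨mem_biUnion ((e f).1 h).1 h', ((e f).1 h).2.mono_left (s f f' h')⟩
      · exact mem_biUnion ((e f).2 ⟨h, (a f h).resolve_left fun k =>
          n f' ((s f f' h').trans (k.trans sdiff_subset)) l⟩) h'

theorem Tree.deep (ok : σ.Ok) (h : Tree σ mv B S F V) :
    ∃ m₀, ∀ m ≥ m₀, ∃ F' V', Tree σ mv B S F' V' ∧ Inv σ m B S F' V' := by
  obtain ⟨m₀, i⟩ := h.inv ok.ok1
  refine ⟨m₀, fun m hm => ?_⟩
  induction m, hm using Nat.le_induction with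
  | base => exact ⟨F, V, h, i⟩
  | succ m _ ih =>
    obtain ⟨F', V', t, j⟩ := ih
    obtain ⟨m', k⟩ := (t.refine ok).inv ok.ok1
    obtain ⟨w, hw⟩ := k.vne
    obtain ⟨v, hv, l⟩ := mem_iUnion₂.1 hw
    obtain rfl : m' = m + 1 := by rw [← k.vl w hw, ok.chl v w l, j.vl v hv]
    exact ⟨_, _, t.refine ok, k⟩

theorem G.ne (ok : σ.Ok) (h : G σ B S) : (σ.K ∩ B).Nonempty := by
  induction h with
  | leaf v => exact (ok.core v).imp fun _ h => h.1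
  | move _ k ih => exact (k.inter subset_rfl).symm ▸ ih
  | glue0 _ _ _ g ih => exact ih.mono (inter_subset_inter_right _ (g.u.ge.trans' subset_union_left))
  | glue1 _ _ g _ ih => exact ih.mono (inter_subset_inter_right _ (g.u.ge.trans' subset_union_left))

end Pool.Agent.Lib.MP_b7d179_gt
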