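import Pool.Agent.Lib.MP_b7d179_gt.U.Ess

/-! Helpers for the distribution of essential arcs to the two sides of a wall. -/

namespace Pool.Agent.Lib.MP_b7d179_gt

open Set Metric

variable {Z : Type*} [MetricSpace Z] {σ : Tw Z} {X O1 O2 D C : Set Z}

theorem wall_J (ok : σ.Ok) (f : σ.φ) : σ.J f ⊆ σ.C f := by
  obtain ⟨a, p, q, -, h, e⟩ := ok.land f
  exact e ▸ sdiff_subset.trans h

theorem wall_JA (ok : σ.Ok) (f : σ.φ) : σ.J f ⊆ σ.A f := (wall_J ok f).trans (ok.foot f).d.rim_sub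

theorem wall_ne (ok : σ.Ok) (f : σ.φ) : (σ.A f).Nonempty := (ok.foot f).k.mono inter_subset_right

/-- exchange of the disc `D` for the disc `O2` in a connected set -/
theorem wall_swap {Y : Set Z} (c1 : IsClosed O1) (cD : IsClosed D) (h2 : IsPreconnected O2)
    (hi : O1 ∩ D ⊆ O2) (hY : IsPreconnected Y) (hs : Y ⊆ O1 ∪ D) (hn : (Y ∩ D).Nonempty) :
    IsPreconnected (Y ∩ O1 ∪ O2) := by
  have key : ∀ U V : Set Z, IsClosed U → IsClosed V → Y ∩ O1 ∪ O2 ⊆ U ∪ V →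
      Disjoint (Y ∩ O1 ∪ O2) (U ∩ V) → O2 ⊆ U → Y ∩ O1 ∪ O2 ⊆ U := fun U V cU cV s d o => by
    have k := side_of hY ((cU.inter c1).union cD) (cV.inter c1) (fun t ht => ?_)
      (disjoint_left.2 fun t ht l => d.notMem_of_mem_left (.inl ⟨ht, l.2.2⟩)
        ⟨l.1.elim And.left fun m => o (hi ⟨l.2.2, m⟩), l.2.1⟩)
    · rcases k with k | k
      · exact union_subset (fun t ht => (k ht.1).elim And.left fun m => o (hi ⟨ht.2, m⟩)) o
      · obtain ⟨t, ht, m⟩ := hn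
        exact (d.notMem_of_mem_left (.inl ⟨ht, (k ht).2⟩) ⟨o (hi ⟨(k ht).2, m⟩), (k ht).1⟩).elim
    · rcases hs ht with m | m
      · exact (s (.inl ⟨ht, m⟩)).imp (fun l => .inl ⟨l, m⟩) fun l => ⟨l, m⟩
      · exact .inl (.inr m)
  refine isPreconnected_iff_subset_of_disjoint_closed.2 fun U V cU cV s d => ?_
  have d' := disjoint_iff_inter_eq_empty.2 d
  exact (side_of h2 cU cV (subset_union_right.trans s) (d'.mono_left subset_union_right)).imp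
    (key U V cU cV s d') (key V U cV cU (union_comm U V ▸ s) (inter_comm U V ▸ d'))

theorem wall_nsymm {A : Set Z} {s₁ s₂ : Set (Set Z)} {x y : Set Z → Z}
    (h : Normal O1 O2 C A X s₁ s₂ x y) : Normal O2 O1 C A X s₂ s₁ x y :=
  ⟨h.fin, h.f2, h.f1, h.p2, h.p1, h.d2, h.d1, fun b hb b' hb' => inter_comm b b' ▸ h.d12 b' hb' b hb,
    (union_comm _ _).trans h.cov, h.cov2, h.cov1, h.b2, h.b1⟩

theorem wall_crs (t : Th O1 O2 D C) {A : Set Z} {s₁ s₂ : Set (Set Z)} {x y : Set Z → Z}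
    (hn : Normal O1 O2 C A X s₁ s₂ x y) {e : Z} (he : e ∈ X ∩ C) (hA : e ∉ A) :
    e ∈ closure ((X ∩ (O1 ∪ D)) \ D) := by
  obtain ⟨b, hb, m⟩ := hn.cov1 ⟨⟨he.1, t.d1.rim_sub he.2⟩, hA⟩
  obtain ⟨b1, b2, b3⟩ := hn.p1 b hb
  refine closure_mono (fun r o => ?_) (b1.dense (toFinite {x b, y b}) m)
  exact ⟨⟨hn.cov.le (.inl ⟨b, hb, o.1⟩), .inl (b2 o.1)⟩, fun d =>
    o.2 (b3.le ⟨o.1, .inl (t.i1.le ⟨b2 o.1, d⟩)⟩)⟩

end Pool.Agent.Lib.MP_b7d179_gt
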