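import Pool.Agent.Lib.MP_b7d179_gt.U.Ess
import Pool.Agent.Lib.MP_b7d179_gt.U.WallA

/-! Essential arcs are distributed to the two sides of a wall. -/

namespace Pool.Agent.Lib.MP_b7d179_gt

open Set Metric

variable {Z Z' : Type*} [MetricSpace Z] [MetricSpace Z']

variable {σ : Tw Z} {X O1 O2 D C : Set Z} {F F1 F2 : Set σ.φ} {E : σ.φ → Set Z}

/-- the feet of two spheres with a common wall -/
structure Wall (σ : Tw Z) (O1 O2 D C : Set Z) (F F1 F2 : Set σ.φ) (f₀ : σ.φ) : Prop where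
  th : Th O1 O2 D C
  f1 : Ft σ (O1 ∪ D) F1
  f2 : Ft σ (O2 ∪ D) F2
  ft : Ft σ (O1 ∪ O2) F
  pos : ∀ f ∈ F1 ∪ F2, σ.A f ⊆ D \ C ∨ Disjoint (σ.A f) D
  eq : ∀ f, σ.A f ⊆ D → (f ∈ F1 ↔ f ∈ F2)
  mem : ∀ f, f ∈ F ↔ f ∈ F1 ∪ F2 ∧ Disjoint (σ.A f) D
  m0 : f₀ ∈ F1
  s0 : σ.A f₀ ⊆ D

theorem Wall.symm {f₀ : σ.φ} (h : Wall σ O1 O2 D C F F1 F2 f₀) : Wall σ O2 O1 D C F F2 F1 f₀ :=
  ⟨h.th.symm, h.f2, h.f1, union_comm O1 O2 ▸ h.ft, fun f k => h.pos f k.symm,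
    fun f k => (h.eq f k).symm, fun f => (h.mem f).trans (by rw [union_comm]),
    (h.eq f₀ h.s0).1 h.m0, h.s0⟩

section
variable {f₀ f : σ.φ}

theorem Wall.wall_dj (w : Wall σ O1 O2 D C F F1 F2 f₀) (h : f ∈ F) : Disjoint (σ.A f) D :=
  ((w.mem f).1 h).2

theorem Wall.wall_AC (w : Wall σ O1 O2 D C F F1 F2 f₀) {e : Z} (he : e ∈ C) :
    e ∉ ⋃ f ∈ F, σ.A f := fun h => by
  obtain ⟨f, h, k⟩ := mem_iUnion₂.1 h
  exact (w.wall_dj h).notMem_of_mem_left k (w.th.d.rim_sub he)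

theorem Wall.wall_in (w : Wall σ O1 O2 D C F F1 F2 f₀) (h : f ∈ F1 ∪ F2) {e : Z} (k : e ∈ σ.A f)
    (he : e ∈ D) : σ.A f ⊆ D \ C :=
  (w.pos f h).resolve_right fun l => l.notMem_of_mem_left k he

theorem Wall.wall_0 (ok : σ.Ok) (w : Wall σ O1 O2 D C F F1 F2 f₀) : σ.A f₀ ⊆ D \ C ∧ f₀ ∉ F := by
  obtain ⟨e, he⟩ := wall_ne ok f₀
  exact ⟨w.wall_in (.inl w.m0) he (w.s0 he), fun h => (w.wall_dj h).notMem_of_mem_left he (w.s0 he)⟩

theorem Wall.wall_O (w : Wall σ O1 O2 D C F F1 F2 f₀) (h : f ∈ F) (k : f ∈ F1) : σ.A f ⊆ O1 :=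
  fun _ he => (w.f1.sub f k he).resolve_right ((w.wall_dj h).notMem_of_mem_left he)

theorem Wall.wall_F1 (w : Wall σ O1 O2 D C F F1 F2 f₀) (h : f ∈ F) {e : Z} (k : e ∈ σ.A f)
    (he : e ∈ O1) : f ∈ F1 :=
  ((w.mem f).1 h).1.resolve_right fun l => (w.wall_dj h).notMem_of_mem_left k
    (w.th.d.rim_sub (w.th.i12.le ⟨he, w.symm.wall_O h l k⟩))

theorem Wall.wall_F (w : Wall σ O1 O2 D C F F1 F2 f₀) (h : f ∈ F1) {e : Z} (k : e ∈ σ.A f)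
    (he : e ∈ O1) : f ∈ F :=
  (w.mem f).2 ⟨.inl h, (w.pos f (.inl h)).resolve_left fun l => (l k).2 (w.th.i1.le ⟨he, (l k).1⟩)⟩

/-- an access arc in the wall -/
theorem Wall.wall_eta (ok : σ.Ok) (w : Wall σ O1 O2 D C F F1 F2 f₀) {η : Set Z} {e z : Z}
    (he : e ∈ C) (h : Arc η e z ∧ z ∈ σ.J f₀ ∧
      η \ {e, z} ⊆ (D \ C) \ ⋃ f ∈ {f ∈ F1 | σ.A f ⊆ D}, σ.A f) :
    η ⊆ D ∧ η ∩ C = {e} ∧ (η ∩ ⋃ f ∈ F1, σ.A f) = {z} := by
  have z0 := wall_JA ok f₀ h.2.1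
  have z1 := (w.wall_0 ok).1 z0
  have c : ∀ t ∈ η, t = e ∨ t = z ∨ t ∈ (D \ C) \ ⋃ f ∈ {f ∈ F1 | σ.A f ⊆ D}, σ.A f :=
    fun t ht => by
      by_cases k : t ∈ ({e, z} : Set Z)
      · exact k.imp_right .inl
      · exact .inr (.inr (h.2.2 ⟨ht, k⟩))
  have s : η ⊆ D := fun t ht => by
    rcases c t ht with rfl | rfl | k
    exacts [w.th.d.rim_sub he, z1.1, k.1.1]
  refine ⟨s, subset_antisymm (fun t ht => ?_) (singleton_subset_iff.2 ⟨h.1.left, he⟩),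
    subset_antisymm (fun t ht => ?_) (singleton_subset_iff.2 ⟨h.1.right, mem_biUnion w.m0 z0⟩)⟩
  · rcases c t ht.1 with k | rfl | k
    exacts [k, (z1.2 ht.2).elim, (k.1.2 ht.2).elim]
  · obtain ⟨f, hf, l⟩ := mem_iUnion₂.1 ht.2
    have m := w.wall_in (.inl hf) l (s ht.1)
    rcases c t ht.1 with rfl | k | k
    exacts [((m l).2 he).elim, k, (k.2 (mem_biUnion ⟨hf, m.trans sdiff_subset⟩ l)).elim]

/-- an essential arc with both ends on one foot stays essential -/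
theorem Wall.wall_same (ok : σ.Ok) (w : Wall σ O1 O2 D C F F1 F2 f₀) {B : Set Z} (hf : f ∈ F)
    (hB : Disjoint O2 B) (h : ∃ k ∈ F, ∃ l ∈ F, k ≠ f ∧ l ≠ f ∧ ∀ Y, IsPreconnected Y →
      Y ⊆ (O1 ∪ O2) \ B → Disjoint Y (σ.A k) ∨ Disjoint Y (σ.A l)) :
    ∃ k ∈ F1, ∃ l ∈ F1, k ≠ f ∧ l ≠ f ∧ ∀ Y, IsPreconnected Y →
      Y ⊆ (O1 ∪ D) \ B → Disjoint Y (σ.A k) ∨ Disjoint Y (σ.A l) := by
  have key : ∀ k ∈ F, k ≠ f → ∃ k' ∈ F1, k' ≠ f ∧ ∀ Y : Set Z,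
      (Disjoint Y D → Disjoint Y (σ.A k) → Disjoint Y (σ.A k')) ∧
      (Disjoint (Y ∩ O1 ∪ O2) (σ.A k) → Disjoint Y (σ.A k')) := fun k hk n => by
    rcases ((w.mem k).1 hk).1 with m | m
    · exact ⟨k, m, n, fun Y => ⟨fun _ d => d, fun d => disjoint_left.2 fun t ht l =>
        d.notMem_of_mem_left (.inl ⟨ht, w.wall_O hk m l⟩) l⟩⟩
    · obtain ⟨t, ht⟩ := wall_ne ok k
      exact ⟨f₀, w.m0, fun e => (w.wall_0 ok).2 (e ▸ hf), fun Y => ⟨fun d _ => d.mono_right w.s0,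
        fun d => (d.notMem_of_mem_left (.inr (w.symm.wall_O hk m ht)) ht).elim⟩⟩
  obtain ⟨k, hk, l, hl, n, n', h⟩ := h
  obtain ⟨k', hk', m, a⟩ := key k hk n
  obtain ⟨l', hl', m', a'⟩ := key l hl n'
  refine ⟨k', hk', l', hl', m, m', fun Y hY s => ?_⟩
  rcases (Y ∩ D).eq_empty_or_nonempty with e | e
  · have d := disjoint_iff_inter_eq_empty.2 e
    exact (h Y hY fun t ht => ⟨.inl ((s ht).1.resolve_right (d.notMem_of_mem_left ht)),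
      (s ht).2⟩).imp ((a Y).1 d) ((a' Y).1 d)
  · exact (h _ (wall_swap w.th.d1.closed w.th.d.closed w.th.d2.conn
      (w.th.i1.le.trans w.th.d2.rim_sub) hY (s.trans sdiff_subset) e) (union_subset
      (fun t ht => ⟨.inl ht.2, (s ht.1).2⟩) fun t ht => ⟨.inr ht, hB.notMem_of_mem_left ht⟩)).imp
      (a Y).2 (a' Y).2

/-- a piece with both ends on the rim of the wall is essential after prolongation -/
theorem Wall.wall_rim (ok : σ.Ok) (w : Wall σ O1 O2 D C F F1 F2 f₀) {b η η' : Set Z}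
    {x y z z' : Z} (hb : Cc O1 C b x y) (hA : Disjoint b (⋃ f ∈ F, σ.A f))
    (hn : ∀ u v P Q, Cut O1 C u v b P Q x y → (P ∩ ⋃ f ∈ F, σ.A f).Nonempty)
    (h : Arc η x z ∧ z ∈ σ.J f₀ ∧ η \ {x, z} ⊆ (D \ C) \ ⋃ f ∈ {f ∈ F1 | σ.A f ⊆ D}, σ.A f)
    (h' : Arc η' y z' ∧ z' ∈ σ.J f₀ ∧
      η' \ {y, z'} ⊆ (D \ C) \ ⋃ f ∈ {f ∈ F1 | σ.A f ⊆ D}, σ.A f) (hd : Disjoint η η') :
    ∃ k ∈ F1, ∃ l ∈ F1, k ≠ f₀ ∧ l ≠ f₀ ∧ ∀ Y, IsPreconnected Y →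
      Y ⊆ (O1 ∪ D) \ (σ.A f₀ ∪ (η ∪ b ∪ η')) → Disjoint Y (σ.A k) ∨ Disjoint Y (σ.A l) := by
  obtain ⟨s, i, j⟩ := w.wall_eta ok hb.left h
  obtain ⟨s', i', j'⟩ := w.wall_eta ok hb.right h'
  obtain ⟨a0, n0⟩ := w.wall_0 ok
  obtain ⟨u, v, t⟩ := w.th.d.exists_two hb.left hb.right hb.arc.ne
  obtain ⟨P, Q, c⟩ := w.th.d1.cut t hb
  have key : ∀ {u v P Q}, Cut O1 C u v b P Q x y → ∃ k ∈ F1, k ∈ F ∧ Disjoint (σ.A k) Q :=
    fun {u v P Q} c => by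
      obtain ⟨e, he, k⟩ := hn u v P Q c
      obtain ⟨k, hk, l⟩ := mem_iUnion₂.1 k
      have m := w.wall_F1 hk l (c.sub1 he)
      exact ⟨k, m, hk, (c.side1 (ok.foot k).d.conn (w.wall_O hk m)
        (hA.symm.mono_left (subset_biUnion_of_mem hk)) ⟨e, l, he⟩).2⟩
  obtain ⟨k, hk, mk, dk⟩ := key c
  obtain ⟨l, hl, ml, dl⟩ := key c.symm
  obtain ⟨r, r', tr⟩ := (ok.foot f₀).d.exists_two (wall_J ok f₀ h.2.1) (wall_J ok f₀ h'.2.1)
    (hd.ne_of_mem h.1.right h'.1.right)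
  have r0 : r ⊆ σ.A f₀ := tr.sub1.trans (ok.foot f₀).d.rim_sub
  have r1 : r ⊆ ⋃ f ∈ F1, σ.A f := r0.trans (subset_biUnion_of_mem w.m0)
  have g : Cc D C (η ∪ r ∪ η') x y := by
    refine ⟨(h.1.cat tr.a1 (subset_antisymm ((inter_subset_inter_right _ r1).trans j.le)
      (singleton_subset_iff.2 ⟨h.1.right, tr.a1.left⟩))).cat h'.1.symm (subset_antisymm
        (fun e he => he.1.elim (fun m => (hd.notMem_of_mem_left m he.2).elim) fun m =>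
          j'.le ⟨he.2, r1 m⟩) (singleton_subset_iff.2 ⟨.inr tr.a1.right, h'.1.right⟩)),
      union_subset (union_subset s (r0.trans w.s0)) s', ?_⟩
    rw [union_inter_distrib_right, union_inter_distrib_right, i, i',
      (disjoint_sdiff_left.mono_left (r0.trans a0)).inter_eq, union_empty]
    rfl
  obtain ⟨P', Q', c'⟩ := w.th.d.cut t g
  have x1 : ∀ {u v P Q P' Q'}, Cut O1 C u v b P Q x y → Cut D C u v (η ∪ r ∪ η') P' Q' x y →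
      P ∩ Q' ⊆ b := fun {u v P Q P' Q'} c c' e he =>
    have m : e ∈ C := w.th.i1.le ⟨c.sub1 he.1, c'.sub2 he.2⟩
    hb.arc.ends (c.two.inter.le ⟨c.inter_rim.le ⟨he.1, m⟩, c'.symm.inter_rim.le ⟨he.2, m⟩⟩)
  refine ⟨k, hk, l, hl, fun e => n0 (e ▸ mk), fun e => n0 (e ▸ ml), fun Y hY sY => ?_⟩
  refine ((side_of hY (c.d1.closed.union c'.d1.closed) (c.d2.closed.union c'.d2.closed)
    (fun e he => ?_) (disjoint_left.2 fun e he m => (sY he).2 ?_)).imp (fun m => ?_)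
    fun m => ?_).symm
  · rcases (sY he).1 with m | m
    · exact (c.union.ge m).imp .inl .inl
    · exact (c'.union.ge m).imp .inr .inr
  · obtain ⟨m | m, m' | m'⟩ := m
    · exact .inr (.inl (.inr (c.inter.le ⟨m, m'⟩)))
    · exact .inr (.inl (.inr (x1 c c' ⟨m, m'⟩)))
    · exact .inr (.inl (.inr (x1 c.symm c'.symm ⟨m', m⟩)))
    · rcases c'.inter.le ⟨m, m'⟩ with (o | o) | o
      exacts [.inr (.inl (.inl o)), .inl (r0 o), .inr (.inr o)]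
  · exact (disjoint_union_left.2 ⟨dl.symm, (w.wall_dj ml).symm.mono_left c'.sub1⟩).mono_left m
  · exact (disjoint_union_left.2 ⟨dk.symm, (w.wall_dj mk).symm.mono_left c'.sub2⟩).mono_left m

end

/-- the pieces on the first side, prolonged by access arcs, are essential -/
theorem Wall.ess (ok : σ.Ok) {f₀ : σ.φ} (w : Wall σ O1 O2 D C F F1 F2 f₀)
    (h : Ess σ (O1 ∪ O2) F E X) {s₁ s₂ : Set (Set Z)} {x y : Set Z → Z}
    (hn : Normal O1 O2 C (⋃ f ∈ F, σ.A f) X s₁ s₂ x y) {η : Z → Set Z} {z : Z → Z}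
    (hη : ∀ e ∈ X ∩ C, Arc (η e) e (z e) ∧ z e ∈ σ.J f₀ ∧
      η e \ {e, z e} ⊆ (D \ C) \ ⋃ f ∈ {f ∈ F1 | σ.A f ⊆ D}, σ.A f)
    (hd : (X ∩ C).PairwiseDisjoint η) {E' : σ.φ → Set Z}
    (hE : ∀ f ∈ F1, E' f = (X ∪ ⋃ e ∈ X ∩ C, η e) ∩ σ.A f) :
    Ess σ (O1 ∪ D) F1 E' (X ∩ O1 ∪ ⋃ e ∈ X ∩ C, η e) := by
  have xs := h.sub
  obtain ⟨ι, _, a, p, q, f, g, ha, hdj, hX, -⟩ := h
  have e1 : ⋃₀ s₁ = X ∩ O1 := by
    refine subset_antisymm (subset_inter (subset_union_left.trans hn.cov.le)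
      (sUnion_subset fun b hb => (hn.p1 b hb).2.1)) fun e he => ?_
    rcases hn.cov.ge he.1 with m | ⟨b, hb, m⟩
    exacts [m, hn.cov1 ⟨he, w.wall_AC (w.th.i12.le ⟨he.2, (hn.p2 b hb).2.1 m⟩)⟩]
  have bX : ∀ b ∈ s₁, b ⊆ X ∩ O1 := fun b hb => (subset_sUnion_of_mem hb).trans e1.le
  obtain ⟨H, H1, H0⟩ : ∃ H : Z → Set Z, (∀ e ∈ C, H e = η e) ∧ ∀ e ∉ C, H e = ∅ :=
    ⟨fun e => ⋃ _ : e ∈ C, η e, fun e he => by simp [he], fun e he => by simp [he]⟩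
  have HD : ∀ e ∈ X, H e ⊆ D ∧ H e ∩ O1 ⊆ {e} ∧ H e ⊆ ⋃ e ∈ X ∩ C, η e := fun e he => by
    by_cases c : e ∈ C
    · obtain ⟨s, i, -⟩ := w.wall_eta ok c (hη e ⟨he, c⟩)
      rw [H1 e c]
      exact ⟨s, fun t ht => i.le ⟨ht.1, w.th.i1.le ⟨ht.2, s ht.1⟩⟩,
        subset_biUnion_of_mem (u := η) ⟨he, c⟩⟩
    · simp [H0 e c]
  have Hd : ∀ e ∈ X, ∀ e' ∈ X, e ≠ e' → Disjoint (H e) (H e') := fun e he e' he' n => by
    by_cases c : e ∈ C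
    · by_cases c' : e' ∈ C
      · exact H1 e c ▸ H1 e' c' ▸ hd ⟨he, c⟩ ⟨he', c'⟩ n
      · simp [H0 e' c']
    · simp [H0 e c]
  have en : ∀ e ∈ X ∩ O1, e ∈ C ∪ ⋃ f ∈ F, σ.A f → ∃ t k, k ∈ F1 ∧ t ∈ σ.J k ∧
      (insert e (H e) ∩ ⋃ f ∈ F1, σ.A f) = {t} ∧
      (∀ b y, Arc b e y → b ∩ H e ⊆ {e} → Arc (H e ∪ b) t y) ∧
      (e ∈ C ∧ k = f₀ ∨ e ∉ C ∧ k ∈ F ∧ e ∈ σ.A k) := fun e he m => by
    by_cases c : e ∈ C
    · obtain ⟨-, -, j⟩ := w.wall_eta ok c (hη e ⟨he.1, c⟩)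
      obtain ⟨a1, a2, -⟩ := hη e ⟨he.1, c⟩
      rw [H1 e c, insert_eq_of_mem a1.left]
      exact ⟨z e, f₀, w.m0, a2, j, fun b y hb i => a1.symm.cat hb (subset_antisymm
        (inter_comm b _ ▸ i) (singleton_subset_iff.2 ⟨a1.left, hb.left⟩)), .inl ⟨c, rfl⟩⟩
    · obtain ⟨i, hi⟩ := mem_iUnion.1 (hX.le he.1)
      obtain ⟨-, -, a3, a4, a5, a6, a7, -⟩ := ha i
      obtain ⟨k, hk, j⟩ : ∃ k ∈ F, e ∈ σ.J k := by
        rcases a7.le ⟨hi, m.resolve_left c⟩ with rfl | rfl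
        exacts [⟨_, a3, a5⟩, ⟨_, a4, a6⟩]
      have l := wall_JA ok k j
      have l1 := w.wall_F1 hk l he.2
      rw [H0 e c]
      exact ⟨e, k, l1, j, by rw [insert_empty_eq, singleton_inter_of_mem (mem_biUnion l1 l)],
        fun b y hb _ => by rwa [empty_union], .inr ⟨c, hk, l⟩⟩
  have : Nonempty σ.φ := ⟨f₀⟩
  choose! t k en using en
  have e2 : X ∩ O1 ∪ ⋃ e ∈ X ∩ C, η e = ⋃ b ∈ s₁, H (x b) ∪ b ∪ H (y b) := by
    refine subset_antisymm (union_subset (fun e he => ?_) (iUnion₂_subset fun e he => ?_))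
      (iUnion₂_subset fun b hb => union_subset (union_subset
        ((HD _ (bX b hb (hn.p1 b hb).1.left).1).2.2.trans subset_union_right)
        ((bX b hb).trans subset_union_left))
        ((HD _ (bX b hb (hn.p1 b hb).1.right).1).2.2.trans subset_union_right))
    · obtain ⟨b, hb, m⟩ := e1.ge he
      exact mem_biUnion hb (.inl (.inr m))
    · obtain ⟨b, hb, m⟩ := e1.ge ⟨he.1, w.th.d1.rim_sub he.2⟩
      refine (H1 e he.2).ge.trans (subset_iUnion₂_of_subset b hb ?_)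
      rcases (hn.p1 b hb).2.2.le ⟨m, .inl he.2⟩ with rfl | rfl
      exacts [subset_union_left.trans subset_union_left, subset_union_right]
  rw [e2]
  refine ess_intro hn.f1 (p := fun b => t (x b)) (q := fun b => t (y b)) (f := fun b => k (x b))
    (g := fun b => k (y b)) (fun b hb => ?_) (fun b hb b' hb' n => ?_) fun k hk => ?_
  · obtain ⟨b1, b2, b3⟩ := hn.p1 b hb
    have x0 := bX b hb b1.left
    have y0 := bX b hb b1.right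
    obtain ⟨x1, x2, x3, x4, x5⟩ := en _ x0 (b3.ge (.inl rfl)).2
    obtain ⟨y1, y2, y3, y4, y5⟩ := en _ y0 (b3.ge (.inr rfl)).2
    have d := Hd _ x0.1 _ y0.1 b1.ne
    refine ⟨(union_comm _ _ ▸ y4 _ _ (x4 _ _ b1 fun e he => (HD _ x0.1).2.1 ⟨he.2, b2 he.1⟩).symm
      fun e he => he.1.elim (fun m => (d.notMem_of_mem_left m he.2).elim) fun m =>
        (HD _ y0.1).2.1 ⟨he.2, b2 m⟩).symm, union_subset (union_subset
      ((HD _ x0.1).1.trans subset_union_right) (b2.trans subset_union_left))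
      ((HD _ y0.1).1.trans subset_union_right), x1, y1, x2, y2, subset_antisymm (fun e he => ?_)
      (insert_subset ?_ (singleton_subset_iff.2 ?_)), fun e => ?_⟩
    · rcases he.1 with (m | m) | m
      · exact .inl (x3.le ⟨.inr m, he.2⟩)
      · obtain ⟨l, hl, o⟩ := mem_iUnion₂.1 he.2
        exact (b3.le ⟨m, .inr (mem_biUnion (w.wall_F hl o (b2 m)) o)⟩).imp
          (fun r => x3.le ⟨.inl r, he.2⟩) fun r => y3.le ⟨.inl r, he.2⟩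
      · exact .inr (y3.le ⟨.inr m, he.2⟩)
    · obtain ⟨m, o⟩ := x3.ge rfl
      exact ⟨.inl (m.elim (fun r => .inr (mem_of_eq_of_mem r b1.left)) .inl), o⟩
    · obtain ⟨m, o⟩ := y3.ge rfl
      exact ⟨m.elim (fun r => .inl (.inr (mem_of_eq_of_mem r b1.right))) .inr, o⟩
    · rcases x5 with ⟨c, r⟩ | ⟨c, r, o⟩ <;> rcases y5 with ⟨c', r'⟩ | ⟨c', r', o'⟩
      · rw [r, H1 _ c, H1 _ c']
        have n : ∀ e ∈ b, e ∉ ⋃ f ∈ F, σ.A f := fun e he m => by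
          rcases b3.le ⟨he, .inr m⟩ with rfl | rfl
          exacts [w.wall_AC c m, w.wall_AC c' m]
        exact w.wall_rim ok ⟨b1, b2, subset_antisymm ((inter_subset_inter_right _
          subset_union_left).trans b3.le) (subset_inter b1.ends (insert_subset c
            (singleton_subset_iff.2 c')))⟩ (disjoint_left.2 n) (fun u v P Q cu => hn.b1 b hb u v P Q
          cu (w.wall_AC c) (w.wall_AC c')) (hη _ ⟨x0.1, c⟩) (hη _ ⟨y0.1, c'⟩)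
          (hd ⟨x0.1, c⟩ ⟨y0.1, c'⟩ b1.ne)
      · exact ((w.wall_0 ok).2 (r ▸ e ▸ r')).elim
      · exact ((w.wall_0 ok).2 (r' ▸ e ▸ r)).elim
      · rw [H0 _ c, H0 _ c', empty_union, union_empty]
        rw [← e] at o'
        obtain ⟨i, -, hi⟩ := rq_one (W := a) finite_univ (fun i _ => (ha i).1.closed)
          (fun i _ j _ n => hdj n) ⟨⟨_, b1.left⟩, b1.conn⟩ fun e he => by
            rw [biUnion_univ, ← hX]; exact (bX b hb he).1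
        obtain ⟨a1, -, a3, a4, a5, a6, a7, a8⟩ := ha i
        have s : ({x b, y b} : Set Z) ⊆ {p i, q i} := a7 ▸ subset_inter (b1.ends.trans hi)
          (insert_subset (mem_biUnion r o) (singleton_subset_iff.2 (mem_biUnion r o')))
        have u : ∀ l ∈ F, ∀ e ∈ σ.J l, e ∈ σ.A (k (x b)) → l = k (x b) := fun l hl e m m' =>
          w.ft.dj.elim hl r fun d => d.notMem_of_mem_left (wall_JA ok l m) m'
        obtain ⟨v1, v2, v3⟩ : b = a i ∧ p i ∈ σ.A (k (x b)) ∧ q i ∈ σ.A (k (x b)) := by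
          rcases s (.inl rfl) with m | m <;> rcases s (.inr rfl) with m' | m'
          · exact (b1.ne (m.trans m'.symm)).elim
          · exact ⟨a1.eq_of_sub (m ▸ m' ▸ b1) hi, m ▸ o, m' ▸ o'⟩
          · exact ⟨a1.eq_of_sub (m ▸ m' ▸ b1.symm) hi, m' ▸ o', m ▸ o⟩
          · exact (b1.ne (m.trans m'.symm)).elim
        have := a8 ((u _ a3 _ a5 v2).trans (u _ a4 _ a6 v3).symm)
        rw [u _ a3 _ a5 v2, ← v1] at this
        refine w.wall_same ok r (disjoint_left.2 fun e he m => ?_) this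
        rcases m with m | m
        · exact w.wall_AC (w.th.i12.le ⟨w.wall_O r x1 m, he⟩) (mem_biUnion r m)
        · have j := w.th.i12.le ⟨b2 m, he⟩
          rcases b3.le ⟨m, .inl j⟩ with rfl | rfl
          exacts [c j, c' j]
  · have d : Disjoint b b' := hn.d1 hb hb' n
    have k1 : ∀ e ∈ b, Disjoint (H e) b' := fun e he => disjoint_left.2 fun r m o =>
      d.notMem_of_mem_left he ((HD e (bX b hb he).1).2.1 ⟨m, (bX b' hb' o).2⟩ ▸ o)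
    have k2 : ∀ e ∈ b', Disjoint b (H e) := fun e he => disjoint_left.2 fun r o m =>
      d.notMem_of_mem_left ((HD e (bX b' hb' he).1).2.1 ⟨m, (bX b hb o).2⟩ ▸ o) he
    have k3 : ∀ e ∈ b, ∀ e' ∈ b', Disjoint (H e) (H e') := fun e he e' he' =>
      Hd e (bX b hb he).1 e' (bX b' hb' he').1 (d.ne_of_mem he he')
    have l := (hn.p1 b hb).1
    have l' := (hn.p1 b' hb').1
    simp only [Function.onFun, disjoint_union_left, disjoint_union_right]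
    exact ⟨⟨⟨⟨k3 _ l.left _ l'.left, k2 _ l'.left⟩, k3 _ l.right _ l'.left⟩,
      ⟨k1 _ l.left, d⟩, k1 _ l.right⟩, ⟨k3 _ l.left _ l'.right, k2 _ l'.right⟩,
      k3 _ l.right _ l'.right⟩
  · rw [← e2, hE k hk]
    refine subset_antisymm (fun e he => ⟨he.1.imp_left fun m => ⟨m, ?_⟩, he.2⟩)
      (inter_subset_inter_left _ (union_subset_union_left _ inter_subset_left))
    exact (xs m).elim id fun o => (w.f1.sub k hk he.2).elim id fun r =>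
      w.th.d1.rim_sub (w.th.i2.le ⟨o, r⟩)

theorem loc2 (ok : σ.Ok) {f₀ : σ.φ} (w : Wall σ O1 O2 D C F F1 F2 f₀)
    (h : Ess σ (O1 ∪ O2) F E X) :
    ∃ (k : Z → Z) (E' : σ.φ → Set Z) (Y : Set Z), Iso (O1 ∪ O2) (⋃ f ∈ F, σ.A f) k ∧
      (∀ f ∈ F, E' f = E f) ∧ (∀ f ∈ F1 ∪ F2, f ∉ F → f ≠ f₀ → E' f = ∅) ∧
      Ess σ (O1 ∪ O2) F E (k '' X) ∧ Ess σ (O1 ∪ D) F1 E' (k '' X ∩ O1 ∪ Y) ∧
      Ess σ (O2 ∪ D) F2 E' (k '' X ∩ O2 ∪ Y) ∧ Crs (O1 ∪ D) (O2 ∪ D) D C (k '' X) ∧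
      ∀ Λ, Lols σ.K (σ.A f₀) (σ.C f₀) univ (E' f₀) Λ → Lols σ.K D C univ (k '' X ∩ C) (Y ∪ Λ) := by
  have hS : Hemi (O1 ∪ O2) O1 O2 C := ⟨w.th.d1, w.th.d2, w.th.i12, rfl⟩
  obtain ⟨k, s₁, s₂, x, y, hk, hn⟩ : ∃ k s₁ s₂ x y, Iso (O1 ∪ O2) (⋃ f ∈ F, σ.A f) k ∧
      Normal O1 O2 C (⋃ f ∈ F, σ.A f) (k '' X) s₁ s₂ x y := by
    obtain ⟨ι, _, a, p, q, f, g, ha, hdj, rfl, -⟩ := h
    have c : ∀ e ∈ ⋃ f ∈ F, σ.A f, e ∉ closure (C \ ⋃ f ∈ F, σ.A f) := fun e he m =>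
      w.wall_AC (closure_minimal sdiff_subset w.th.d.rim_closed m) he
    obtain ⟨k, hk, s₁, s₂, x, y, hn, -⟩ := nf (s := univ) hS (w.ft.holes ok.ok1) ⟨finite_univ,
      fun i _ => (ha i).1, fun i _ => (ha i).2.1, fun i _ => (ha i).2.2.2.2.2.2.1,
      fun i _ j _ n => hdj n⟩ fun i _ => ⟨c _ ((ha i).2.2.2.2.2.2.1.ge (.inl rfl)).2,
        c _ ((ha i).2.2.2.2.2.2.1.ge (.inr rfl)).2⟩
    rw [biUnion_univ, ← image_iUnion] at hn
    exact ⟨k, s₁, s₂, x, y, hk, hn⟩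
  have h' := h.map hS.sph.compact w.ft.sub (hk.emb hS.sph).1 fun f hf x hx =>
    hk.fix (.inl (mem_biUnion hf hx))
  rw [(hk.emb hS.sph).2] at h'
  refine ⟨k, ?_⟩
  generalize k '' X = X' at hn h'
  have fin : (X' ∩ C).Finite := hn.fin.subset fun e he => ⟨he.1, he.2, w.wall_AC he.2⟩
  obtain ⟨J, j, j', hJ, hJc, eJ⟩ := ok.land f₀
  obtain ⟨η, z, hd, hη⟩ := fan_hole (t := {f ∈ F1 | σ.A f ⊆ D}) w.th.d ⟨w.f1.fin.subset
    (sep_subset _ _), fun f _ => (ok.foot f).d, fun f hf => (wall_ne ok f).elim fun e he =>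
      w.wall_in (.inl hf.1) he (hf.2 he), w.f1.dj.subset (sep_subset _ _)⟩ ⟨w.m0, w.s0⟩ hJ hJc fin
    inter_subset_right
  rw [← eJ] at hη
  have et := fun e (he : e ∈ X' ∩ C) => w.wall_eta ok he.2 (hη e he)
  have z0 := fun e he => wall_JA ok f₀ (hη e he).2.1
  have nx : ∀ f, σ.A f ⊆ D \ C → ∀ e ∈ σ.A f, e ∉ X' := fun f s e he m =>
    (s he).2 ((h'.sub m).elim (fun o => w.th.i1.le ⟨o, (s he).1⟩) fun o => w.th.i2.le ⟨o, (s he).1⟩)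
  refine ⟨fun f => (X' ∪ ⋃ e ∈ X' ∩ C, η e) ∩ σ.A f, ⋃ e ∈ X' ∩ C, η e, hk, fun f hf => ?_,
    fun f hf n n' => eq_empty_of_forall_notMem fun e he => ?_, h', w.ess ok h' hn hη hd fun _ _ => rfl,
    w.symm.ess ok (union_comm O1 O2 ▸ h') (wall_nsymm hn) (z := z) (fun e he => ?_) hd
      fun _ _ => rfl, ⟨fin, fun e he => ⟨wall_crs w.th hn he (w.wall_AC he.2),
      wall_crs w.th.symm (wall_nsymm hn) he (w.wall_AC he.2)⟩⟩, fun Λ hΛ => lols_access (x := z)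
      (w.wall_0 ok).1 fin inter_subset_right (fun e he => ⟨(hη e he).1, (et e he).1, (et e he).2.1,
      subset_antisymm ((inter_subset_inter_right _ (subset_biUnion_of_mem w.m0)).trans
        (et e he).2.2.le) (singleton_subset_iff.2 ⟨(hη e he).1.right, z0 e he⟩),
      disjoint_left.2 fun r m o => ?_⟩) hd ?_ rfl hΛ⟩
  · obtain ⟨ι, _, a, p, q, f', g, -, -, -, hE⟩ := h'
    dsimp only
    rw [hE f hf, union_inter_distrib_right, ((w.wall_dj hf).symm.mono_left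
      (iUnion₂_subset fun e he => (et e he).1)).inter_eq, union_empty]
  · have s := (w.pos f hf).resolve_right fun d => n ((w.mem f).2 ⟨hf, d⟩)
    have m := hf.elim id (w.eq f (s.trans sdiff_subset)).2
    obtain ⟨r, hr, o⟩ := mem_iUnion₂.1 (he.1.resolve_left (nx f s e he.2))
    exact (w.f1.dj m w.m0 n').notMem_of_mem_left he.2
      ((et r hr).2.2.le ⟨o, mem_biUnion m he.2⟩ ▸ z0 r hr)
  · have : {f ∈ F2 | σ.A f ⊆ D} = {f ∈ F1 | σ.A f ⊆ D} :=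
      Set.ext fun f => and_congr_left fun s => (w.eq f s).symm
    exact this ▸ hη e he
  · exact (ok.foot f₀).c.notMem_of_mem_left (wall_J ok f₀ (hη e he).2.1)
      ((et e he).2.2.le ⟨m, w.f1.cov ⟨o, .inr ((et e he).1 m)⟩⟩ ▸ o)
  · refine subset_antisymm (fun e he => ?_) ?_
    · obtain ⟨r, hr, o⟩ := mem_iUnion₂.1 (he.1.resolve_left (nx f₀ (w.wall_0 ok).1 e he.2))
      exact ⟨r, hr, ((et r hr).2.2.le ⟨o, mem_biUnion w.m0 he.2⟩).symm⟩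
    · rintro _ ⟨r, hr, rfl⟩
      exact ⟨.inr (mem_biUnion hr (hη r hr).1.right), z0 r hr⟩

end Pool.Agent.Lib.MP_b7d179_gt
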